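import Mathlib

/-!
# Rising factorials `(km+1)_J` versus `(m+1)_J`
-/

set_option autoImplicit false

namespace Pool.MP9acee6

variable {p : ℕ} [Fact p.Prime] {a k m : ℕ}

theorem asc_isUnit_nat {s : ℕ} (hs : ¬ p ∣ s) : IsUnit ((s : ℕ) : ℤ_[p]) := by
  rw [PadicInt.isUnit_iff]
  by_contra h
  have h1 : ‖((s : ℤ) : ℤ_[p])‖ < 1 := by
    have := PadicInt.norm_le_one ((s : ℕ) : ℤ_[p])
    push_cast
    exact lt_of_le_of_ne this h
  rw [PadicInt.norm_int_lt_one_iff_dvd] at h1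
  exact hs (by exact_mod_cast h1)

/-- if `k = p^a` does not divide `t` then `k * m + t` is `t` times a unit of `ℤ_p` -/
theorem unit_of_not_dvd (hk : k = p ^ a) (t : ℕ) (ht : ¬ k ∣ t) :
    ∃ u : ℤ_[p], IsUnit u ∧ ((k * m + t : ℕ) : ℤ_[p]) = u * (t : ℤ_[p]) := by
  have hp : p.Prime := Fact.out
  have ht0 : t ≠ 0 := by
    rintro rfl
    exact ht (dvd_zero k)
  obtain ⟨v, s, hs, hts⟩ := Nat.exists_eq_pow_mul_and_not_dvd ht0 p hp.ne_one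
  have hv : v < a := by
    by_contra h
    apply ht
    rw [hk, hts]
    exact (pow_dvd_pow p (not_lt.1 h)).mul_right s
  have hs1 : IsUnit ((s : ℕ) : ℤ_[p]) := asc_isUnit_nat hs
  have hs2 : IsUnit ((p ^ (a - v) * m + s : ℕ) : ℤ_[p]) := by
    refine asc_isUnit_nat fun h => hs ?_
    have h1 : p ∣ p ^ (a - v) * m := (dvd_pow_self p (by omega)).mul_right m
    exact (Nat.dvd_add_right h1).1 h
  obtain ⟨w, hw⟩ := hs1
  refine ⟨((p ^ (a - v) * m + s : ℕ) : ℤ_[p]) * ((w⁻¹ : ℤ_[p]ˣ) : ℤ_[p]),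
    hs2.mul (Units.isUnit _), ?_⟩
  have h3 : k * m + t = p ^ v * (p ^ (a - v) * m + s) := by
    rw [hk, hts, mul_add, ← mul_assoc, ← pow_add, Nat.add_sub_cancel' hv.le]
  have h4 : ((w⁻¹ : ℤ_[p]ˣ) : ℤ_[p]) * ((s : ℕ) : ℤ_[p]) = 1 := by
    rw [← hw]; exact Units.inv_mul w
  have h5 : ((t : ℕ) : ℤ_[p]) = ((p ^ v : ℕ) : ℤ_[p]) * ((s : ℕ) : ℤ_[p]) := by
    rw [hts]; push_cast; ring
  rw [h3, h5]
  generalize p ^ (a - v) * m + s = z
  push_cast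
  linear_combination (-(p : ℤ_[p]) ^ v * (z : ℤ_[p])) * h4

/-- `(km+1)_J * ⌊J/k⌋! = u * J! * (m+1)_{⌊J/k⌋}` with a unit `u` -/
theorem asc_key (hk : k = p ^ a) (J : ℕ) : ∃ u : ℤ_[p], IsUnit u ∧
    (((k * m + 1).ascFactorial J : ℕ) : ℤ_[p]) * ((J / k).factorial : ℤ_[p]) =
      u * (J.factorial : ℤ_[p]) * ((m + 1).ascFactorial (J / k) : ℤ_[p]) := by
  induction J with
  | zero => exact ⟨1, isUnit_one, by simp⟩
  | succ J ih =>
    obtain ⟨u, hu, h⟩ := ih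
    have e1 : (k * m + 1).ascFactorial (J + 1) = (k * m + (J + 1)) *
        (k * m + 1).ascFactorial J := by
      rw [Nat.ascFactorial_succ]; ring
    by_cases hd : k ∣ J + 1
    · have h2 : (J + 1) / k = J / k + 1 := Nat.succ_div_of_dvd hd
      have h3 : J + 1 = k * (J / k + 1) := by rw [← h2, Nat.mul_div_cancel' hd]
      refine ⟨u, hu, ?_⟩
      rw [h2]
      generalize J / k = q at h h3 ⊢
      have e2 : (m + 1).ascFactorial (q + 1) = (m + 1 + q) * (m + 1).ascFactorial q :=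
        Nat.ascFactorial_succ
      rw [e1, e2, Nat.factorial_succ, Nat.factorial_succ]
      have h3' : ((J : ℤ_[p]) + 1) = (k : ℤ_[p]) * ((q : ℤ_[p]) + 1) := by exact_mod_cast h3
      push_cast
      rw [h3']
      linear_combination ((k : ℤ_[p]) * (m + (q + 1)) * (q + 1)) * h
    · have h2 : (J + 1) / k = J / k := Nat.succ_div_of_not_dvd hd
      obtain ⟨u', hu', h'⟩ := unit_of_not_dvd (m := m) hk (J + 1) hd
      refine ⟨u' * u, hu'.mul hu, ?_⟩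
      rw [h2, e1, Nat.factorial_succ, Nat.cast_mul, Nat.cast_mul, h']
      linear_combination (u' * ((J + 1 : ℕ) : ℤ_[p])) * h

theorem asc_lt (hk : k = p ^ a) (J : ℕ) (hJ : J < k) : ∃ u : ℤ_[p], IsUnit u ∧
    (((k * m + 1).ascFactorial J : ℕ) : ℤ_[p]) = u * (J.factorial : ℤ_[p]) := by
  obtain ⟨u, hu, h⟩ := asc_key (m := m) hk J
  rw [Nat.div_eq_of_lt hJ] at h
  exact ⟨u, hu, by simpa using h⟩

theorem asc_small (hk : k = p ^ a) (J : ℕ) (h1 : 1 ≤ J) (hJ : J < k) : ∃ c : ℤ_[p],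
    (J : ℤ_[p]) * ((m + 1).ascFactorial J : ℤ_[p]) =
      ((m + 1 : ℕ) : ℤ_[p]) * c * ((k * m + 1).ascFactorial J : ℤ_[p]) := by
  obtain ⟨u, ⟨w, rfl⟩, h⟩ := asc_lt (m := m) hk J hJ
  obtain ⟨J', rfl⟩ : ∃ J', J = J' + 1 := ⟨J - 1, by omega⟩
  obtain ⟨d, hd⟩ := Nat.factorial_dvd_ascFactorial (m + 1 + 1) J'
  have h2 : (m + 1).ascFactorial (J' + 1) = (m + 1) * (J'.factorial * d) := by
    rw [← hd, Nat.succ_ascFactorial, Nat.ascFactorial_succ]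
  refine ⟨d * ((w⁻¹ : ℤ_[p]ˣ) : ℤ_[p]), ?_⟩
  rw [h, h2, Nat.factorial_succ]
  have h4 : ((w⁻¹ : ℤ_[p]ˣ) : ℤ_[p]) * (w : ℤ_[p]) = 1 := Units.inv_mul w
  generalize (J' + 1) = t
  push_cast
  linear_combination (-(((m : ℤ_[p]) + 1) * d * t * (J'.factorial : ℤ_[p]))) * h4

theorem asc_log (hk : k = p ^ a) (J : ℕ) (h1 : 1 ≤ J) : ∃ c : ℤ_[p],
    (p : ℤ_[p]) ^ (Nat.log p J) * ((m + 1).ascFactorial J : ℤ_[p]) =
      c * ((k * m + 1).ascFactorial J : ℤ_[p]) := by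
  have hp : p.Prime := Fact.out
  obtain ⟨u, ⟨w, rfl⟩, h⟩ := asc_key (m := m) hk J
  have hle : J / k ≤ J := Nat.div_le_self J k
  generalize J / k = q at h hle
  have e1 : J.choose q * q.factorial * (J - q).factorial = J.factorial :=
    Nat.choose_mul_factorial_mul_factorial hle
  have e2 : (m + 1).ascFactorial q * (m + 1 + q).ascFactorial (J - q) =
      (m + 1).ascFactorial J := by
    rw [Nat.ascFactorial_mul_ascFactorial, Nat.add_sub_cancel' hle]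
  obtain ⟨d, hd⟩ := Nat.factorial_dvd_ascFactorial (m + 1 + q) (J - q)
  have hq0 : ((q.factorial : ℕ) : ℤ_[p]) ≠ 0 := by exact_mod_cast Nat.factorial_ne_zero q
  have hC0 : J.choose q ≠ 0 := (Nat.choose_pos hle).ne'
  have h3 : (((k * m + 1).ascFactorial J : ℕ) : ℤ_[p]) =
      (w : ℤ_[p]) * (J.choose q : ℤ_[p]) * ((J - q).factorial : ℤ_[p]) *
        ((m + 1).ascFactorial q : ℤ_[p]) := by
    apply mul_right_cancel₀ hq0
    rw [h, ← e1]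
    push_cast
    ring
  obtain ⟨v, s, hs, hts⟩ := Nat.exists_eq_pow_mul_and_not_dvd hC0 p hp.ne_one
  have hv : v ≤ Nat.log p J := by
    have h5 : (J.choose q).factorization p ≤ Nat.log p J := Nat.factorization_choose_le_log
    have h6 : v ≤ (J.choose q).factorization p := by
      rw [← hp.pow_dvd_iff_le_factorization hC0]
      exact ⟨s, hts⟩
    exact h6.trans h5
  obtain ⟨z, hz⟩ := asc_isUnit_nat (p := p) hs
  refine ⟨((z⁻¹ : ℤ_[p]ˣ) : ℤ_[p]) * (p : ℤ_[p]) ^ (Nat.log p J - v) * d *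
    ((w⁻¹ : ℤ_[p]ˣ) : ℤ_[p]), ?_⟩
  have h7 : ((w⁻¹ : ℤ_[p]ˣ) : ℤ_[p]) * (w : ℤ_[p]) = 1 := Units.inv_mul w
  have h8 : ((z⁻¹ : ℤ_[p]ˣ) : ℤ_[p]) * ((s : ℕ) : ℤ_[p]) = 1 := by
    rw [← hz]; exact Units.inv_mul z
  have h9 : (p : ℤ_[p]) ^ (Nat.log p J) = (p : ℤ_[p]) ^ v * (p : ℤ_[p]) ^ (Nat.log p J - v) := by
    rw [← pow_add, Nat.add_sub_cancel' hv]
  rw [h3, ← e2, hd, hts, h9]
  push_cast
  generalize (p : ℤ_[p]) ^ v = P1
  generalize (p : ℤ_[p]) ^ (Nat.log p J - v) = P2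
  generalize (((J - q).factorial : ℕ) : ℤ_[p]) = F
  generalize (((m + 1).ascFactorial q : ℕ) : ℤ_[p]) = B
  generalize ((w⁻¹ : ℤ_[p]ˣ) : ℤ_[p]) = w' at h7 ⊢
  generalize ((z⁻¹ : ℤ_[p]ˣ) : ℤ_[p]) = z' at h8 ⊢
  generalize ((s : ℕ) : ℤ_[p]) = s' at h8 ⊢
  generalize (w : ℤ_[p]) = w0 at h7 ⊢
  linear_combination (-(P1 * P2 * B * F * d)) * h8 - (P1 * P2 * B * F * d * z' * s') * h7

theorem asc_mu (hk : k = p ^ a) (ha : 2 ≤ a) (J : ℕ) (h2 : 2 ≤ J) : ∃ c : ℤ_[p],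
    (p : ℤ_[p]) ^ (J - 1) * ((m + 1).ascFactorial J : ℤ_[p]) =
      (p : ℤ_[p]) * c * ((k * m + 1).ascFactorial J : ℤ_[p]) := by
  have hp : p.Prime := Fact.out
  rcases lt_or_ge J k with hJ | hJ
  · obtain ⟨u, ⟨w, rfl⟩, h⟩ := asc_lt (m := m) hk J hJ
    obtain ⟨d, hd⟩ := Nat.factorial_dvd_ascFactorial (m + 1) J
    refine ⟨(p : ℤ_[p]) ^ (J - 2) * d * ((w⁻¹ : ℤ_[p]ˣ) : ℤ_[p]), ?_⟩
    have h4 : ((w⁻¹ : ℤ_[p]ˣ) : ℤ_[p]) * (w : ℤ_[p]) = 1 := Units.inv_mul w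
    have h5 : (p : ℤ_[p]) ^ (J - 1) = p * (p : ℤ_[p]) ^ (J - 2) := by
      rw [← pow_succ']; congr 1; omega
    rw [h, hd, h5]
    push_cast
    generalize (p : ℤ_[p]) ^ (J - 2) = P1
    linear_combination (-((p : ℤ_[p]) * P1 * d * (J.factorial : ℤ_[p]))) * h4
  · have h4 : 4 ≤ J := by
      have : 2 ^ 2 ≤ p ^ a := (Nat.pow_le_pow_left hp.two_le 2).trans
        (Nat.pow_le_pow_right hp.pos ha)
      omega
    obtain ⟨c, hc⟩ := asc_log (p := p) (m := m) hk J (by omega)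
    have hlog : Nat.log p J ≤ J - 2 := by
      have h5 : J < p ^ (J - 1) := by
        have h6 : J - 2 < 2 ^ (J - 2) := Nat.lt_two_pow_self
        have h7 : 2 ^ (J - 1) = 2 * 2 ^ (J - 2) := by rw [← pow_succ']; congr 1; omega
        have h8 : 2 ^ (J - 1) ≤ p ^ (J - 1) := Nat.pow_le_pow_left hp.two_le _
        omega
      have := Nat.log_lt_of_lt_pow (by omega) h5
      omega
    refine ⟨(p : ℤ_[p]) ^ (J - 2 - Nat.log p J) * c, ?_⟩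
    have h9 : (p : ℤ_[p]) ^ (J - 1) = p * (p : ℤ_[p]) ^ (J - 2 - Nat.log p J) *
        (p : ℤ_[p]) ^ (Nat.log p J) := by
      rw [← pow_succ', ← pow_add]; congr 1; omega
    rw [h9]
    linear_combination ((p : ℤ_[p]) * (p : ℤ_[p]) ^ (J - 2 - Nat.log p J)) * hc

end Pool.MP9acee6
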