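import Pool.Agent.H.MP_9acee6_nt.Defs

/-!
# Automatic sequences: sequences that depend on the valuation only
-/

set_option autoImplicit false

namespace Pool.MP9acee6

theorem IsAutomatic.isBdd {p : ℕ} (hp : 2 ≤ p) {e : ℕ → ℤ} (h : IsAutomatic p e) : IsBdd e := by
  have hfin : ((fun f : ℕ → ℤ => |f 0|) '' {f : ℕ → ℤ | ∃ i j : ℕ, j < p ^ i ∧
      ∀ n, f n = e (p ^ i * n + j)}).Finite := Set.Finite.image _ h
  obtain ⟨B, hB⟩ := hfin.bddAbove
  refine ⟨B, fun n => ?_⟩
  apply hB
  refine ⟨fun t => e (p ^ n * t + n), ⟨n, n, Nat.lt_pow_self (by omega), fun t => rfl⟩, ?_⟩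
  simp

theorem auto_fin {α : Type*} (F : ℕ → α) (T P : ℕ) (hP : 1 ≤ P)
    (hF : ∀ t, T ≤ t → F (t + P) = F t) : (Set.range F).Finite := by
  apply Set.Finite.subset ((Set.finite_Iio (T + P)).image F)
  rintro _ ⟨t, rfl⟩
  induction t using Nat.strong_induction_on with
  | _ t ih =>
    by_cases ht : t < T + P
    · exact ⟨t, ht, rfl⟩
    · push Not at ht
      obtain ⟨s, hs⟩ := Nat.exists_eq_add_of_le ht
      have h1 : F t = F (t - P) := by
        have := hF (t - P) (by omega)
        rwa [Nat.sub_add_cancel (by omega)] at this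
      rw [h1]
      exact ih (t - P) (by omega)

theorem auto_of_val {p : ℕ} (hp : p.Prime) (e f : ℕ → ℤ) (T P : ℕ) (hP : 1 ≤ P)
    (hf : ∀ t, T ≤ t → f (t + P) = f t) (he : ∀ n, 1 ≤ n → e n = f (padicValNat p n)) :
    IsAutomatic p e := by
  have : Fact p.Prime := ⟨hp⟩
  have h1 : (Set.range fun t : ℕ => (fun _ : ℕ => f t)).Finite :=
    auto_fin _ T P hP (fun t ht => by funext n; exact hf t ht)
  have h2 : (Set.range fun i : ℕ => (fun n : ℕ => if n = 0 then e 0 else
      f (i + padicValNat p n))).Finite := by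
    apply auto_fin _ T P hP
    intro t ht
    funext n
    by_cases hn : n = 0
    · simp [hn]
    · simp only [hn, if_false]
      rw [show t + P + padicValNat p n = t + padicValNat p n + P by ring]
      exact hf _ (by omega)
  apply Set.Finite.subset (h1.union h2)
  rintro g ⟨i, j, hj, hg⟩
  by_cases hj0 : j = 0
  · right
    refine ⟨i, ?_⟩
    funext n
    by_cases hn : n = 0
    · simp only [hn, if_true]
      rw [hg 0, hj0]
      simp
    · simp only [hn, if_false]
      rw [hg n, hj0, add_zero, he _ (Nat.mul_pos (pow_pos hp.pos i) (Nat.pos_of_ne_zero hn)),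
        padicValNat.mul (pow_pos hp.pos i).ne' hn, padicValNat.prime_pow]
  · left
    refine ⟨padicValNat p j, ?_⟩
    funext n
    show f (padicValNat p j) = g n
    rw [hg n, he _ (by omega)]
    congr 1
    have hval : padicValNat p j < i := by
      by_contra hcon
      push Not at hcon
      have h3 : p ^ i ∣ j := (pow_dvd_pow p hcon).trans pow_padicValNat_dvd
      have := Nat.le_of_dvd (Nat.pos_of_ne_zero hj0) h3
      omega
    obtain ⟨u, hu⟩ : p ^ padicValNat p j ∣ j := pow_padicValNat_dvd
    have hnd : ¬ p ^ (padicValNat p j + 1) ∣ p ^ i * n + j := by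
      intro hd
      have h4 : p ^ (padicValNat p j + 1) ∣ p ^ i * n :=
        (pow_dvd_pow p (by omega)).trans (dvd_mul_right _ _)
      have h5 : p ^ (padicValNat p j + 1) ∣ j := (Nat.dvd_add_right h4).mp hd
      exact pow_succ_padicValNat_not_dvd hj0 h5
    have hd : p ^ padicValNat p j ∣ p ^ i * n + j :=
      dvd_add ((pow_dvd_pow p hval.le).trans (dvd_mul_right _ _)) pow_padicValNat_dvd
    have hne : p ^ i * n + j ≠ 0 := by omega
    have h6 : padicValNat p j ≤ padicValNat p (p ^ i * n + j) :=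
      (padicValNat_dvd_iff_le hne).mp hd
    have h7 : ¬ padicValNat p j + 1 ≤ padicValNat p (p ^ i * n + j) := fun h =>
      hnd ((padicValNat_dvd_iff_le hne).mpr h)
    omega

end Pool.MP9acee6
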