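import Pool.Agent.H.MP_9acee6_nt.TL

/-!
# First consequences: divisibility of `s n`, values of `br` modulo `p`, formulas off multiples of `k`
-/

set_option autoImplicit false

open Polynomial Finset

namespace Pool.MP9acee6

namespace Sys

variable {p : ℕ} [Fact p.Prime] {a k m : ℕ}

/-- constants: `br` and `bk` agree -/
theorem br_const (D : Sys k m) (A : ℤ_[p]) (b N : ℕ) (hb : b < k) :
    D.br (fun _ => A) (b + k * N) = D.bk (fun _ => A) b N := by
  have h1 := congrArg (fun z : ℤ => (z : ℤ_[p])) ((D.G4 0 (b + k * N)).symm.trans (D.G3 0 b N hb))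
  simp only [Int.cast_sum, Int.cast_mul, Int.cast_natCast, add_zero] at h1
  unfold br bk
  rw [← Finset.sum_mul, ← Finset.sum_mul, h1]

theorem br_const' (D : Sys k m) (A : ℤ_[p]) (N : ℕ) :
    D.br (fun _ => A) N = A * (D.E 0 N : ℤ_[p]) := by
  have h1 := congrArg (fun z : ℤ => (z : ℤ_[p])) (D.G4 0 N)
  unfold br E
  rw [← Finset.sum_mul, mul_comm A]
  congr 1
  rw [D.G4 0 N]
  simp only [Int.cast_sum, Int.cast_mul, Int.cast_natCast, add_zero]

private theorem basic_choose (k m b y : ℕ) (hkm : 1 ≤ k * m) :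
    (k * m + b + k * y) * (k * m - 1 + b + k * y).choose (k * m - 1) =
      k * m * (k * m + b + k * y).choose (k * m) := by
  obtain ⟨r, hr⟩ : ∃ r, k * m = r + 1 := ⟨k * m - 1, by omega⟩
  rw [hr]
  have h := Nat.add_one_mul_choose_eq (r + b + k * y) r
  have e1 : r + 1 + b + k * y = (r + b + k * y).succ := by omega
  have e2 : r + 1 - 1 + b + k * y = r + b + k * y := by omega
  rw [e1, e2, Nat.add_sub_cancel, h]
  exact mul_comm _ _

/-- `(km+b) s(b+kN) = km br(P')`, where `P'` is any polynomial as in `exists_P'` -/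
theorem s_formula (D : Sys k m) (hm : 1 ≤ m) (b : ℕ) (hb0 : 0 < b) (hb : b < k) (P : ℤ_[p][X])
    (hP : ∀ y : ℕ, ((k * m + b : ℕ) : ℤ_[p]) * ((k * m + b + k * y).choose (k * m) : ℤ_[p]) =
      ((m + y).choose m : ℤ_[p]) * ((k * m + b + k * y : ℕ) : ℤ_[p]) *
        P.eval ((p : ℤ_[p]) * (y : ℤ_[p]))) (N : ℕ) :
    ((k * m + b : ℕ) : ℤ_[p]) * (D.s (b + k * N) : ℤ_[p]) =
      D.br (fun y => P.eval ((p : ℤ_[p]) * (y : ℤ_[p])) * ((k * m : ℕ) : ℤ_[p])) N := by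
  have hkm : 1 ≤ k * m := Nat.mul_pos (by omega) hm
  have key : ∀ y : ℕ, ((k * m + b : ℕ) : ℤ_[p]) *
      ((k * m - 1 + b + k * y).choose (k * m - 1) : ℤ_[p]) =
        ((m + y).choose m : ℤ_[p]) * (P.eval ((p : ℤ_[p]) * (y : ℤ_[p])) * ((k * m : ℕ) : ℤ_[p])) := by
    intro y
    have h1 := hP y
    have h2 := congrArg (fun z : ℕ => (z : ℤ_[p])) (basic_choose k m b y hkm)
    have h3 : ((k * m + b + k * y : ℕ) : ℤ_[p]) ≠ 0 := by
      rw [Nat.cast_ne_zero]; omega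
    apply mul_left_cancel₀ h3
    rw [Nat.cast_mul, Nat.cast_mul] at h2
    calc ((k * m + b + k * y : ℕ) : ℤ_[p]) * (((k * m + b : ℕ) : ℤ_[p]) *
          ((k * m - 1 + b + k * y).choose (k * m - 1) : ℤ_[p]))
        = ((k * m + b : ℕ) : ℤ_[p]) * (((k * m + b + k * y : ℕ) : ℤ_[p]) *
          ((k * m - 1 + b + k * y).choose (k * m - 1) : ℤ_[p])) := by ring
      _ = ((k * m : ℕ) : ℤ_[p]) * (((k * m + b : ℕ) : ℤ_[p]) *
          ((k * m + b + k * y).choose (k * m) : ℤ_[p])) := by rw [h2]; ring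
      _ = _ := by rw [h1]; ring
  rw [D.G1 b N hb]
  unfold br
  simp only [Int.cast_sum, Int.cast_mul, Int.cast_natCast]
  rw [Finset.mul_sum]
  refine Finset.sum_congr rfl fun y _ => ?_
  calc ((k * m + b : ℕ) : ℤ_[p]) * ((D.h (N - y) : ℤ_[p]) *
        ((k * m - 1 + b + k * y).choose (k * m - 1) : ℤ_[p]))
      = (D.h (N - y) : ℤ_[p]) * (((k * m + b : ℕ) : ℤ_[p]) *
        ((k * m - 1 + b + k * y).choose (k * m - 1) : ℤ_[p])) := by ring
    _ = _ := by rw [key y]; ring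

private theorem basic_br_sum (D : Sys k m) (n : ℕ) (q : ℕ → ℤ_[p]) (φ : ℕ → ℕ → ℤ_[p]) (N : ℕ) :
    D.br (fun y => ∑ j ∈ range n, q j * φ j y) N = ∑ j ∈ range n, q j * D.br (φ j) N := by
  unfold br
  simp only [Finset.mul_sum]
  rw [Finset.sum_comm]
  refine Finset.sum_congr rfl fun j _ => Finset.sum_congr rfl fun y _ => ?_
  ring

private theorem basic_desc (y j : ℕ) : ((y.descFactorial j : ℕ) : ℤ_[p]) =
    ∏ i ∈ range j, ((y : ℤ_[p]) - (i : ℤ_[p])) := by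
  induction j with
  | zero => simp
  | succ j ih =>
    rw [Finset.prod_range_succ, ← ih, Nat.descFactorial_succ, Nat.cast_mul]
    rcases le_or_gt j y with h | h
    · rw [Nat.cast_sub h]; ring
    · rw [Nat.descFactorial_of_lt h]; simp

private theorem basic_desc' (y j : ℕ) : ((y.descFactorial (j + 1) : ℕ) : ℤ_[p]) =
    (y : ℤ_[p]) * ∏ i ∈ range j, ((y : ℤ_[p]) - ((i : ℤ_[p]) + 1)) := by
  rw [basic_desc, Finset.prod_range_succ']
  simp [mul_comm]

private theorem basic_dvd_asc (m j : ℕ) : (m + 1) ∣ (m + 1).ascFactorial (j + 1) := by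
  induction j with
  | zero => simp [Nat.ascFactorial_succ]
  | succ j ih =>
    rw [Nat.ascFactorial_succ]
    exact dvd_mul_of_dvd_right ih _

/-- `br` of `y ↦ y Q(p y)` is divisible by `m + 1` -/
theorem br_dvd (D : Sys k m) (Q : ℤ_[p][X]) (N : ℕ) : ∃ c : ℤ_[p],
    D.br (fun y => (y : ℤ_[p]) * Q.eval ((p : ℤ_[p]) * (y : ℤ_[p]))) N = ((m + 1 : ℕ) : ℤ_[p]) * c := by
  obtain ⟨q, hq, -⟩ := newton (Q.natDegree + 1)
    (fun i => (p : ℤ_[p]) * ((i : ℤ_[p]) + 1)) Q (Nat.lt_succ_self _)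
  set n := Q.natDegree + 1 with hn
  have h1 : ∀ y : ℕ, (y : ℤ_[p]) * Q.eval ((p : ℤ_[p]) * (y : ℤ_[p])) =
      ∑ j ∈ range n, (q j * (p : ℤ_[p]) ^ j) * ((y.descFactorial (j + 1) : ℕ) : ℤ_[p]) := by
    intro y
    conv_lhs => rw [hq]
    rw [Polynomial.eval_finsetSum, Finset.mul_sum]
    refine Finset.sum_congr rfl fun j _ => ?_
    rw [Polynomial.eval_mul, Polynomial.eval_C, Polynomial.eval_prod, basic_desc']
    have h2 : ∏ i ∈ range j, Polynomial.eval ((p : ℤ_[p]) * (y : ℤ_[p]))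
        (X - C ((p : ℤ_[p]) * ((i : ℤ_[p]) + 1))) =
        (p : ℤ_[p]) ^ j * ∏ i ∈ range j, ((y : ℤ_[p]) - ((i : ℤ_[p]) + 1)) := by
      rw [← Finset.card_range j, ← Finset.prod_const, Finset.card_range,
        ← Finset.prod_mul_distrib]
      refine Finset.prod_congr rfl fun i _ => ?_
      rw [Polynomial.eval_sub, Polynomial.eval_X, Polynomial.eval_C]; ring
    rw [h2]; ring
  have h3 : D.br (fun y => (y : ℤ_[p]) * Q.eval ((p : ℤ_[p]) * (y : ℤ_[p]))) N =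
      ∑ j ∈ range n, (q j * (p : ℤ_[p]) ^ j) *
        (((m + 1).ascFactorial (j + 1) : ℤ_[p]) * (D.E (j + 1) N : ℤ_[p])) := by
    have h4 : (fun y : ℕ => (y : ℤ_[p]) * Q.eval ((p : ℤ_[p]) * (y : ℤ_[p]))) =
        fun y => ∑ j ∈ range n, (q j * (p : ℤ_[p]) ^ j) *
          (fun y : ℕ => ((y.descFactorial (j + 1) : ℕ) : ℤ_[p])) y := funext h1
    rw [h4, basic_br_sum D n (fun j => q j * (p : ℤ_[p]) ^ j)
      (fun j y => ((y.descFactorial (j + 1) : ℕ) : ℤ_[p])) N]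
    refine Finset.sum_congr rfl fun j _ => ?_
    rw [br_desc]
  have h5 : ((m + 1 : ℕ) : ℤ_[p]) ∣
      D.br (fun y => (y : ℤ_[p]) * Q.eval ((p : ℤ_[p]) * (y : ℤ_[p]))) N := by
    rw [h3]
    refine Finset.dvd_sum fun j _ => ?_
    refine dvd_mul_of_dvd_right (dvd_mul_of_dvd_left ?_ _) _
    exact Nat.cast_dvd_cast (basic_dvd_asc m j)
  exact h5

private theorem basic_eval_mod (P : ℤ_[p][X]) (y : ℕ) : ∃ c : ℤ_[p],
    P.eval ((p : ℤ_[p]) * (y : ℤ_[p])) = P.eval 0 + (p : ℤ_[p]) * c := by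
  obtain ⟨c, hc⟩ := Polynomial.sub_dvd_eval_sub ((p : ℤ_[p]) * (y : ℤ_[p])) 0 P
  refine ⟨(y : ℤ_[p]) * c, ?_⟩
  rw [sub_zero] at hc
  linear_combination hc

private theorem basic_dvd_of (z : ℤ) (c : ℤ_[p]) (h : (z : ℤ_[p]) = (p : ℤ_[p]) * c) :
    (p : ℤ) ∣ z := by
  have h1 := (PadicInt.pow_p_dvd_int_iff (p := p) 1 z).1 (by rw [pow_one]; exact ⟨c, h⟩)
  simpa using h1

theorem dvd_s (D : Sys k m) (hk : k = p ^ a) (ha : 1 ≤ a) (hm : 1 ≤ m) (n : ℕ) (hn : 1 ≤ n) :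
    (p : ℤ) ∣ D.s n := by
  have hp : p.Prime := Fact.out
  have hk2 : 2 ≤ k := by
    rw [hk]
    calc 2 ≤ p := hp.two_le
      _ = p ^ 1 := (pow_one p).symm
      _ ≤ p ^ a := Nat.pow_le_pow_right hp.pos ha
  induction n using Nat.strong_induction_on with
  | _ n ih =>
  have hdiv : n % k + k * (n / k) = n := Nat.mod_add_div n k
  have hlt : n % k < k := Nat.mod_lt _ (by omega)
  by_cases hb0 : n % k = 0
  · -- multiples of `k`
    set N := n / k with hN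
    have hnN : n = k * N := by omega
    have hN1 : 1 ≤ N := by
      rcases Nat.eq_zero_or_pos N with h | h
      · rw [h] at hnN; omega
      · exact h
    have hNn : N < n := by
      rw [hnN]; nlinarith
    have hsN := ih N hNn hN1
    obtain ⟨P, hP0, -, hP⟩ := exists_P (p := p) (a := a) (k := k) (m := m) hk ha 0 (by omega)
    have hkm : 1 ≤ k * m := Nat.mul_pos (by omega) hm
    have key : ∀ y : ℕ, ((k * m - 1 + 0 + k * y).choose (k * m - 1) : ℤ_[p]) =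
        ((m - 1 + y).choose (m - 1) : ℤ_[p]) * P.eval ((p : ℤ_[p]) * (y : ℤ_[p])) := by
      intro y
      have h1 := congrArg (fun z : ℕ => (z : ℤ_[p])) (basic_choose k m 0 y hkm)
      have h2 := congrArg (fun z : ℕ => (z : ℤ_[p])) (basic_choose 1 m 0 y (by omega))
      have h3 := hP y
      simp only [one_mul, add_zero] at h2
      have h4 : ((k * (m + y) : ℕ) : ℤ_[p]) ≠ 0 := by
        rw [Nat.cast_ne_zero]
        exact (Nat.mul_pos (by omega) (by omega)).ne'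
      apply mul_left_cancel₀ h4
      have h5 : k * m + 0 + k * y = k * (m + y) := by ring
      rw [Nat.cast_mul, Nat.cast_mul] at h1 h2
      rw [h5] at h1 h3
      have h6 : ((k * m : ℕ) : ℤ_[p]) = (k : ℤ_[p]) * (m : ℤ_[p]) := by push_cast; ring
      have h7 : ((k * (m + y) : ℕ) : ℤ_[p]) = (k : ℤ_[p]) * ((m + y : ℕ) : ℤ_[p]) := by
        push_cast; ring
      rw [h1, h3, h6, h7]
      linear_combination (-(k : ℤ_[p]) * P.eval ((p : ℤ_[p]) * (y : ℤ_[p]))) * h2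
    have h8 : ∃ c : ℤ_[p], (D.s n : ℤ_[p]) = (D.s N : ℤ_[p]) + (p : ℤ_[p]) * c := by
      have h9 := D.G1 0 N (by omega)
      rw [zero_add, ← hnN] at h9
      rw [h9, D.G2 N]
      simp only [Int.cast_sum, Int.cast_mul, Int.cast_natCast]
      have h10 : (p : ℤ_[p]) ∣ ∑ y ∈ range (N + 1), (D.h (N - y) : ℤ_[p]) *
            ((k * m - 1 + 0 + k * y).choose (k * m - 1) : ℤ_[p]) -
          ∑ y ∈ range (N + 1), (D.h (N - y) : ℤ_[p]) *
            ((m - 1 + y).choose (m - 1) : ℤ_[p]) := by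
        rw [← Finset.sum_sub_distrib]
        refine Finset.dvd_sum fun y _ => ?_
        obtain ⟨c, hc⟩ := basic_eval_mod P y
        rw [key y, hc, hP0]
        have h11 : ((k * m + 0).choose (k * m) : ℤ_[p]) = 1 := by simp
        rw [h11]
        exact ⟨(D.h (N - y) : ℤ_[p]) * ((m - 1 + y).choose (m - 1) : ℤ_[p]) * c, by ring⟩
      obtain ⟨c, hc⟩ := h10
      exact ⟨c, by linear_combination hc⟩
    obtain ⟨c, hc⟩ := h8
    obtain ⟨d, hd⟩ := hsN
    refine basic_dvd_of (p := p) _ ((d : ℤ_[p]) + c) ?_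
    rw [hc, hd]; push_cast; ring
  · -- not a multiple of `k`
    set N := n / k with hN
    set b := n % k with hb
    have hbk : ¬ k ∣ b := fun h => by
      have := Nat.le_of_dvd (by omega) h
      omega
    obtain ⟨P, -, hP⟩ := exists_P' (p := p) (a := a) (k := k) (m := m) hk ha hm b (by omega) hlt
    have h1 := s_formula D hm b (by omega) hlt P hP N
    obtain ⟨u, hu, hub⟩ := unit_of_not_dvd (p := p) (a := a) (k := k) (m := m) hk b hbk
    have hg := gg_spec (p := p) (a := a) hk b hbk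
    have h2 : D.br (fun y => P.eval ((p : ℤ_[p]) * (y : ℤ_[p])) * ((k * m : ℕ) : ℤ_[p])) N =
        ((k * m : ℕ) : ℤ_[p]) * D.br (fun y => P.eval ((p : ℤ_[p]) * (y : ℤ_[p]))) N := by
      unfold br
      rw [Finset.mul_sum]
      refine Finset.sum_congr rfl fun y _ => ?_
      ring
    rw [h2, hub, hdiv] at h1
    have hb1 : (b : ℤ_[p]) ≠ 0 := by
      rw [Nat.cast_ne_zero]; exact hb0
    have h3 : u * (D.s n : ℤ_[p]) = (p : ℤ_[p]) * (gg p k b * (m : ℤ_[p]) *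
        D.br (fun y => P.eval ((p : ℤ_[p]) * (y : ℤ_[p]))) N) := by
      apply mul_left_cancel₀ hb1
      have h4 : ((k * m : ℕ) : ℤ_[p]) = (k : ℤ_[p]) * (m : ℤ_[p]) := by push_cast; ring
      rw [h4, ← hg] at h1
      linear_combination h1
    obtain ⟨v, hv⟩ := hu.exists_left_inv
    refine basic_dvd_of (p := p) _ (v * (gg p k b * (m : ℤ_[p]) *
        D.br (fun y => P.eval ((p : ℤ_[p]) * (y : ℤ_[p]))) N)) ?_
    linear_combination v * h3 - (D.s n : ℤ_[p]) * hv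

theorem E0_mod (D : Sys k m) (hk : k = p ^ a) (ha : 1 ≤ a) (hm : 1 ≤ m) (N : ℕ) :
    ∃ c : ℤ_[p], (D.E 0 N : ℤ_[p]) = 1 + (p : ℤ_[p]) * c := by
  have h1 : D.E 0 N = 1 + ∑ l ∈ range N, D.s (l + 1) := by
    unfold E
    rw [Finset.sum_range_succ', add_comm]
    simp [D.s0]
  have h2 : (p : ℤ) ∣ ∑ l ∈ range N, D.s (l + 1) :=
    Finset.dvd_sum fun l _ => dvd_s D hk ha hm (l + 1) (by omega)
  obtain ⟨d, hd⟩ := h2
  refine ⟨(d : ℤ_[p]), ?_⟩
  rw [h1, hd]; push_cast; ring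

theorem br_mod (D : Sys k m) (hk : k = p ^ a) (ha : 1 ≤ a) (hm : 1 ≤ m) (f : ℤ_[p][X]) (N : ℕ) :
    ∃ c : ℤ_[p], D.br (fun y => f.eval ((p : ℤ_[p]) * (y : ℤ_[p]))) N = f.eval 0 + (p : ℤ_[p]) * c := by
  obtain ⟨q, hq, hq0⟩ := newton (f.natDegree + 1)
    (fun i => (p : ℤ_[p]) * (i : ℤ_[p])) f (Nat.lt_succ_self _)
  set n := f.natDegree with hn
  have h1 : ∀ y : ℕ, f.eval ((p : ℤ_[p]) * (y : ℤ_[p])) =
      ∑ j ∈ range (n + 1), (q j * (p : ℤ_[p]) ^ j) * ((y.descFactorial j : ℕ) : ℤ_[p]) := by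
    intro y
    conv_lhs => rw [hq]
    rw [Polynomial.eval_finsetSum]
    refine Finset.sum_congr rfl fun j _ => ?_
    rw [Polynomial.eval_mul, Polynomial.eval_C, Polynomial.eval_prod, basic_desc]
    have h2 : ∏ i ∈ range j, Polynomial.eval ((p : ℤ_[p]) * (y : ℤ_[p]))
        (X - C ((p : ℤ_[p]) * (i : ℤ_[p]))) =
        (p : ℤ_[p]) ^ j * ∏ i ∈ range j, ((y : ℤ_[p]) - (i : ℤ_[p])) := by
      rw [← Finset.card_range j, ← Finset.prod_const, Finset.card_range,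
        ← Finset.prod_mul_distrib]
      refine Finset.prod_congr rfl fun i _ => ?_
      rw [Polynomial.eval_sub, Polynomial.eval_X, Polynomial.eval_C]; ring
    rw [h2]; ring
  have h3 : D.br (fun y => f.eval ((p : ℤ_[p]) * (y : ℤ_[p]))) N =
      ∑ j ∈ range (n + 1), (q j * (p : ℤ_[p]) ^ j) *
        (((m + 1).ascFactorial j : ℤ_[p]) * (D.E j N : ℤ_[p])) := by
    have h4 : (fun y : ℕ => f.eval ((p : ℤ_[p]) * (y : ℤ_[p]))) =
        fun y => ∑ j ∈ range (n + 1), (q j * (p : ℤ_[p]) ^ j) *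
          (fun y : ℕ => ((y.descFactorial j : ℕ) : ℤ_[p])) y := funext h1
    rw [h4, basic_br_sum D (n + 1) (fun j => q j * (p : ℤ_[p]) ^ j)
      (fun j y => ((y.descFactorial j : ℕ) : ℤ_[p])) N]
    refine Finset.sum_congr rfl fun j _ => ?_
    rw [br_desc]
  rw [Finset.sum_range_succ'] at h3
  obtain ⟨c0, hc0⟩ := E0_mod (p := p) D hk ha hm N
  have h5 : (p : ℤ_[p]) ∣ ∑ j ∈ range n, (q (j + 1) * (p : ℤ_[p]) ^ (j + 1)) *
        (((m + 1).ascFactorial (j + 1) : ℤ_[p]) * (D.E (j + 1) N : ℤ_[p])) := by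
    refine Finset.dvd_sum fun j _ => ?_
    refine dvd_mul_of_dvd_left (dvd_mul_of_dvd_right ?_ _) _
    exact dvd_pow_self _ (by omega)
  obtain ⟨c1, hc1⟩ := h5
  have h6 : q 0 = f.eval 0 := by
    rw [hq0]; simp
  refine ⟨c1 + f.eval 0 * c0, ?_⟩
  rw [h3, hc1, hc0, h6]
  simp only [pow_zero, Nat.ascFactorial_zero, Nat.cast_one]
  ring

theorem bk_formula (D : Sys k m) (b : ℕ) (P : ℤ_[p][X])
    (hP : ∀ y : ℕ, ((k * m + b : ℕ) : ℤ_[p]) * ((k * m + b + k * y).choose (k * m) : ℤ_[p]) =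
      ((m + y).choose m : ℤ_[p]) * ((k * m + b + k * y : ℕ) : ℤ_[p]) *
        P.eval ((p : ℤ_[p]) * (y : ℤ_[p]))) (φ : ℕ → ℤ_[p]) (N : ℕ) :
    ((k * m + b : ℕ) : ℤ_[p]) * D.bk φ b N =
      D.br (fun y => P.eval ((p : ℤ_[p]) * (y : ℤ_[p])) *
        (((k * m + b + k * y : ℕ) : ℤ_[p]) * φ (b + k * y))) N := by
  unfold br bk
  rw [Finset.mul_sum]
  refine Finset.sum_congr rfl fun y _ => ?_
  have h1 := hP y
  linear_combination ((D.h (N - y) : ℤ_[p]) * φ (b + k * y)) * h1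

theorem bk_eq_br (D : Sys k m) (b : ℕ) (P : ℤ_[p][X])
    (hP : ∀ y : ℕ, ((k * m + b + k * y).choose (k * m) : ℤ_[p]) =
      ((m + y).choose m : ℤ_[p]) * P.eval ((p : ℤ_[p]) * (y : ℤ_[p]))) (φ : ℕ → ℤ_[p]) (N : ℕ) :
    D.bk φ b N = D.br (fun y => P.eval ((p : ℤ_[p]) * (y : ℤ_[p])) * φ (b + k * y)) N := by
  unfold br bk
  refine Finset.sum_congr rfl fun y _ => ?_
  have h1 := hP y
  linear_combination ((D.h (N - y) : ℤ_[p]) * φ (b + k * y)) * h1

end Sys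

end Pool.MP9acee6
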