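import Pool.Agent.H.MP_9acee6_nt.Omega
import Pool.Agent.H.MP_9acee6_nt.Basic

/-!
# From `br (y sum c_i z^i)` to `bk (Y Psi(Y))`
-/

set_option autoImplicit false

open Polynomial Finset

namespace Pool.MP9acee6

variable {p : ℕ} [Fact p.Prime] {a k m : ℕ}

theorem baseexp_desc {R : Type*} [CommRing R] (y j : ℕ) :
    (y.descFactorial (j + 1) : R) = (y : R) * ∏ i ∈ range j, ((y : R) - ((i + 1 : ℕ) : R)) := by
  induction j with
  | zero => simp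
  | succ j ih =>
    rw [prod_range_succ, ← mul_assoc, ← ih]
    by_cases h : j + 1 ≤ y
    · rw [Nat.descFactorial_succ y (j + 1), Nat.cast_mul, Nat.cast_sub h, mul_comm]
    · rw [Nat.descFactorial_of_lt (show y < j + 1 by omega),
        Nat.descFactorial_of_lt (show y < j + 1 + 1 by omega)]
      simp

/-- `y (y (m+y))^i = sum_{j <= 2i} t_j (y)_{j+1}` with integers `t_j`, `t_0 = (m+1)^i` -/
theorem exp_z (m i : ℕ) : ∃ t : ℕ → ℤ,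
    (∀ y : ℕ, (y : ℤ) * ((y : ℤ) * ((m : ℤ) + y)) ^ i =
      ∑ j ∈ range (2 * i + 1), t j * (y.descFactorial (j + 1) : ℤ)) ∧ t 0 = ((m : ℤ) + 1) ^ i := by
  have hdeg : ((X * (C (m : ℤ) + X)) ^ i : ℤ[X]).natDegree < 2 * i + 1 := by
    refine lt_of_le_of_lt (natDegree_pow_le) ?_
    have h1 : (X * (C (m : ℤ) + X) : ℤ[X]).natDegree ≤ 2 := by
      refine (natDegree_mul_le).trans ?_
      have h2 : (C (m : ℤ) + X : ℤ[X]).natDegree ≤ 1 := by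
        refine (natDegree_add_le _ _).trans ?_
        simp
      have h3 : (X : ℤ[X]).natDegree ≤ 1 := natDegree_X_le
      omega
    nlinarith
  obtain ⟨q, hq, hq0⟩ := newton (2 * i + 1) (fun i' : ℕ => ((i' + 1 : ℕ) : ℤ)) _ hdeg
  refine ⟨q, ?_, ?_⟩
  · intro y
    have h := congrArg (fun P : ℤ[X] => P.eval (y : ℤ)) hq
    simp only [eval_pow, eval_mul, eval_X, eval_add, eval_C, eval_finsetSum, eval_prod,
      eval_sub] at h
    rw [h, mul_sum]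
    refine sum_congr rfl fun j _ => ?_
    rw [baseexp_desc]
    ring
  · rw [hq0]
    simp only [eval_pow, eval_mul, eval_X, eval_add, eval_C]
    push_cast
    ring

theorem baseexp_br_sum {ι : Type*} (D : Sys k m) (S : Finset ι) (c : ι → ℤ_[p]) (φ : ι → ℕ → ℤ_[p])
    (N : ℕ) : D.br (fun y => ∑ i ∈ S, c i * φ i y) N = ∑ i ∈ S, c i * D.br (φ i) N := by
  unfold Sys.br
  simp only [mul_sum]
  rw [sum_comm]
  refine sum_congr rfl fun i _ => sum_congr rfl fun y _ => ?_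
  ring

theorem baseexp_bk_sum {ι : Type*} (D : Sys k m) (S : Finset ι) (c : ι → ℤ_[p]) (φ : ι → ℕ → ℤ_[p])
    (b N : ℕ) : D.bk (fun y => ∑ i ∈ S, c i * φ i y) b N = ∑ i ∈ S, c i * D.bk (φ i) b N := by
  unfold Sys.bk
  simp only [mul_sum]
  rw [sum_comm]
  refine sum_congr rfl fun i _ => sum_congr rfl fun y _ => ?_
  ring

theorem baseexp_br_add (D : Sys k m) (φ ψ : ℕ → ℤ_[p]) (N : ℕ) :
    D.br (fun y => φ y + ψ y) N = D.br φ N + D.br ψ N := by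
  unfold Sys.br
  rw [← sum_add_distrib]
  refine sum_congr rfl fun y _ => ?_
  ring

theorem baseexp_bk_add (D : Sys k m) (φ ψ : ℕ → ℤ_[p]) (b N : ℕ) :
    D.bk (fun y => φ y + ψ y) b N = D.bk φ b N + D.bk ψ b N := by
  unfold Sys.bk
  rw [← sum_add_distrib]
  refine sum_congr rfl fun y _ => ?_
  ring

theorem baseexp_br_mul (D : Sys k m) (c : ℤ_[p]) (φ : ℕ → ℤ_[p]) (N : ℕ) :
    D.br (fun y => c * φ y) N = c * D.br φ N := by
  unfold Sys.br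
  rw [mul_sum]
  refine sum_congr rfl fun y _ => ?_
  ring

theorem baseexp_bk_mul (D : Sys k m) (c : ℤ_[p]) (φ : ℕ → ℤ_[p]) (b N : ℕ) :
    D.bk (fun y => c * φ y) b N = c * D.bk φ b N := by
  unfold Sys.bk
  rw [mul_sum]
  refine sum_congr rfl fun y _ => ?_
  ring

/-- the terms with `s ≤ i` -/
theorem baseexp_tail (D : Sys k m) (c : ℕ → ℤ_[p]) (s d M : ℕ)
    (hc : ∀ i, s ≤ i → i < d → ∀ J, 1 ≤ J → J ≤ 2 * i + 1 → ∃ x : ℤ_[p],
      c i * ((m + 1).ascFactorial J : ℤ_[p]) =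
        (p : ℤ_[p]) ^ M * x * ((k * m + 1).ascFactorial J : ℤ_[p])) :
    ∃ R : ℤ_[p][X], ∀ b N, b < k →
      D.br (fun y => (y : ℤ_[p]) * ∑ i ∈ Ico s d, c i *
          ((y : ℤ_[p]) * ((m : ℤ_[p]) + (y : ℤ_[p]))) ^ i) (b + k * N) =
      D.bk (fun y => (y : ℤ_[p]) * (C ((p : ℤ_[p]) ^ M) * R).eval (y : ℤ_[p])) b N := by
  classical
  choose t ht ht0 using fun i => exp_z m i
  have hx : ∀ i J, ∃ x : ℤ_[p], (s ≤ i → i < d → 1 ≤ J → J ≤ 2 * i + 1 →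
      c i * ((m + 1).ascFactorial J : ℤ_[p]) =
        (p : ℤ_[p]) ^ M * x * ((k * m + 1).ascFactorial J : ℤ_[p])) := by
    intro i J
    by_cases h : s ≤ i ∧ i < d ∧ 1 ≤ J ∧ J ≤ 2 * i + 1
    · obtain ⟨x, hx⟩ := hc i h.1 h.2.1 J h.2.2.1 h.2.2.2
      exact ⟨x, fun _ _ _ _ => hx⟩
    · exact ⟨0, fun h1 h2 h3 h4 => absurd ⟨h1, h2, h3, h4⟩ h⟩
  choose x hx using hx
  refine ⟨∑ i ∈ Ico s d, ∑ j ∈ range (2 * i + 1), C ((t i j : ℤ_[p]) * x i (j + 1)) *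
    ∏ i' ∈ range j, (X - C ((i' + 1 : ℕ) : ℤ_[p])), ?_⟩
  intro b N hb
  have e1 : (fun y : ℕ => (y : ℤ_[p]) * ∑ i ∈ Ico s d, c i *
      ((y : ℤ_[p]) * ((m : ℤ_[p]) + (y : ℤ_[p]))) ^ i) =
      fun y : ℕ => ∑ i ∈ Ico s d, c i * ∑ j ∈ range (2 * i + 1),
        (t i j : ℤ_[p]) * (y.descFactorial (j + 1) : ℤ_[p]) := by
    funext y
    rw [mul_sum]
    refine sum_congr rfl fun i _ => ?_
    have h := congrArg (fun z : ℤ => (z : ℤ_[p])) (ht i y)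
    push_cast at h
    rw [← h]
    ring
  have e2 : (fun y : ℕ => (y : ℤ_[p]) * (C ((p : ℤ_[p]) ^ M) * ∑ i ∈ Ico s d,
      ∑ j ∈ range (2 * i + 1), C ((t i j : ℤ_[p]) * x i (j + 1)) *
        ∏ i' ∈ range j, (X - C ((i' + 1 : ℕ) : ℤ_[p]))).eval (y : ℤ_[p])) =
      fun y : ℕ => ∑ i ∈ Ico s d, (p : ℤ_[p]) ^ M * ∑ j ∈ range (2 * i + 1),
        ((t i j : ℤ_[p]) * x i (j + 1)) * (y.descFactorial (j + 1) : ℤ_[p]) := by
    funext y
    rw [eval_mul, eval_C, eval_finsetSum, mul_sum, mul_sum]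
    refine sum_congr rfl fun i _ => ?_
    rw [eval_finsetSum, mul_sum, mul_sum, mul_sum]
    refine sum_congr rfl fun j _ => ?_
    rw [eval_mul, eval_C, eval_prod, baseexp_desc]
    simp only [eval_sub, eval_X, eval_C]
    ring
  rw [e1, e2, baseexp_br_sum, baseexp_bk_sum]
  refine sum_congr rfl fun i hi => ?_
  rw [mem_Ico] at hi
  rw [baseexp_br_sum, baseexp_bk_sum, mul_sum, mul_sum]
  refine sum_congr rfl fun j hj => ?_
  rw [mem_range] at hj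
  rw [Sys.br_desc, Sys.bk_desc _ _ _ _ hb]
  have h := hx i (j + 1) hi.1 hi.2 (by omega) (by omega)
  calc c i * ((t i j : ℤ_[p]) * (((m + 1).ascFactorial (j + 1) : ℤ_[p]) *
        (D.E (j + 1) (b + k * N) : ℤ_[p])))
      = (c i * ((m + 1).ascFactorial (j + 1) : ℤ_[p])) * ((t i j : ℤ_[p]) *
        (D.E (j + 1) (b + k * N) : ℤ_[p])) := by ring
    _ = _ := by rw [h]; ring

theorem baseexp_br_y (D : Sys k m) (N : ℕ) :
    D.br (p := p) (fun y => (y : ℤ_[p])) N = ((m + 1 : ℕ) : ℤ_[p]) * (D.E 1 N : ℤ_[p]) := by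
  have h := Sys.br_desc (p := p) D 1 N
  simp only [Nat.descFactorial_one] at h
  rw [h]
  simp [Nat.ascFactorial]

theorem baseexp_bk_y (D : Sys k m) (b N : ℕ) (hb : b < k) :
    D.bk (p := p) (fun y => (y : ℤ_[p])) b N =
      ((k * m + 1 : ℕ) : ℤ_[p]) * (D.E 1 (b + k * N) : ℤ_[p]) := by
  have h := Sys.bk_desc (p := p) D 1 b N hb
  simp only [Nat.descFactorial_one] at h
  rw [h]
  simp [Nat.ascFactorial]

/-- Base representation.  Here `c i` are the coefficients; for `i ≥ 1` we have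
`c_i (m+1)_J ∈ p^M (km+1)_J`. -/
theorem base_rep (D : Sys k m) (c : ℕ → ℤ_[p]) (d M : ℕ) (hd : 1 ≤ d)
    (hc : ∀ i, 1 ≤ i → i < d → ∀ J, 1 ≤ J → J ≤ 2 * i + 1 → ∃ x : ℤ_[p],
      c i * ((m + 1).ascFactorial J : ℤ_[p]) =
        (p : ℤ_[p]) ^ M * x * ((k * m + 1).ascFactorial J : ℤ_[p]))
    (r : ℤ_[p]) (hr : ((k * m + 1 : ℕ) : ℤ_[p]) * r = ((m + 1 : ℕ) : ℤ_[p]) * c 0) :
    ∃ R : ℤ_[p][X], ∀ b N, b < k →
      D.br (fun y => (y : ℤ_[p]) * ∑ i ∈ range d, c i *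
          ((y : ℤ_[p]) * ((m : ℤ_[p]) + (y : ℤ_[p]))) ^ i) (b + k * N) =
      D.bk (fun y => (y : ℤ_[p]) * (C r + C ((p : ℤ_[p]) ^ M) * R).eval (y : ℤ_[p])) b N := by
  obtain ⟨R, hR⟩ := baseexp_tail D c 1 d M hc
  refine ⟨R, fun b N hb => ?_⟩
  have e1 : (fun y : ℕ => (y : ℤ_[p]) * ∑ i ∈ range d, c i *
      ((y : ℤ_[p]) * ((m : ℤ_[p]) + (y : ℤ_[p]))) ^ i) =
      fun y : ℕ => c 0 * (y : ℤ_[p]) + (y : ℤ_[p]) * ∑ i ∈ Ico 1 d, c i *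
        ((y : ℤ_[p]) * ((m : ℤ_[p]) + (y : ℤ_[p]))) ^ i := by
    funext y
    rw [range_eq_Ico, sum_eq_sum_Ico_succ_bot (by omega : 0 < d)]
    ring
  have e2 : (fun y : ℕ => (y : ℤ_[p]) * (C r + C ((p : ℤ_[p]) ^ M) * R).eval (y : ℤ_[p])) =
      fun y : ℕ => r * (y : ℤ_[p]) +
        (y : ℤ_[p]) * (C ((p : ℤ_[p]) ^ M) * R).eval (y : ℤ_[p]) := by
    funext y
    rw [eval_add, eval_C]
    ring
  rw [e1, e2, baseexp_br_add, baseexp_bk_add, hR b N hb, baseexp_br_mul, baseexp_bk_mul,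
    baseexp_br_y, baseexp_bk_y _ _ _ hb]
  congr 1
  linear_combination (-(D.E 1 (b + k * N) : ℤ_[p])) * hr

/-- Base representation, two explicit terms.  Here for `i ≥ 2` we have
`c_i (m+1)_J ∈ p^M (km+1)_J`. -/
theorem base_rep2 (D : Sys k m) (c : ℕ → ℤ_[p]) (d M : ℕ) (hd : 2 ≤ d)
    (hc : ∀ i, 2 ≤ i → i < d → ∀ J, 1 ≤ J → J ≤ 2 * i + 1 → ∃ x : ℤ_[p],
      c i * ((m + 1).ascFactorial J : ℤ_[p]) =
        (p : ℤ_[p]) ^ M * x * ((k * m + 1).ascFactorial J : ℤ_[p]))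
    (r u : ℤ_[p]) (hr : ((k * m + 1 : ℕ) : ℤ_[p]) * r =
      ((m + 1 : ℕ) : ℤ_[p]) * (c 0 + c 1 * ((m + 1 : ℕ) : ℤ_[p])))
    (hu : ((k * m + 1).ascFactorial 3 : ℤ_[p]) * u = c 1 * ((m + 1).ascFactorial 3 : ℤ_[p])) :
    ∃ R : ℤ_[p][X], ∀ b N, b < k →
      D.br (fun y => (y : ℤ_[p]) * ∑ i ∈ range d, c i *
          ((y : ℤ_[p]) * ((m : ℤ_[p]) + (y : ℤ_[p]))) ^ i) (b + k * N) =
      D.bk (fun y => (y : ℤ_[p]) * (C r + C u * (X - 1) * (X + C ((k * m + 1 : ℕ) : ℤ_[p])) +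
        C ((p : ℤ_[p]) ^ M) * R).eval (y : ℤ_[p])) b N := by
  obtain ⟨R, hR⟩ := baseexp_tail D c 2 d M hc
  refine ⟨R, fun b N hb => ?_⟩
  have d3 : ∀ y : ℕ, (y.descFactorial 3 : ℤ_[p]) =
      (y : ℤ_[p]) * (((y : ℤ_[p]) - 1) * ((y : ℤ_[p]) - 2)) := by
    intro y
    have h := baseexp_desc (R := ℤ_[p]) y 2
    rw [h, prod_range_succ, prod_range_succ, prod_range_zero]
    push_cast
    ring
  have d2 : ∀ y : ℕ, (y.descFactorial 2 : ℤ_[p]) = (y : ℤ_[p]) * ((y : ℤ_[p]) - 1) := by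
    intro y
    have h := baseexp_desc (R := ℤ_[p]) y 1
    rw [h, prod_range_succ, prod_range_zero]
    push_cast
    ring
  have e1 : (fun y : ℕ => (y : ℤ_[p]) * ∑ i ∈ range d, c i *
      ((y : ℤ_[p]) * ((m : ℤ_[p]) + (y : ℤ_[p]))) ^ i) =
      fun y : ℕ => ((c 0 + c 1 * ((m + 1 : ℕ) : ℤ_[p])) * (y : ℤ_[p]) +
        (c 1 * ((m : ℤ_[p]) + 3) * (y.descFactorial 2 : ℤ_[p]) +
          c 1 * (y.descFactorial 3 : ℤ_[p]))) +
        (y : ℤ_[p]) * ∑ i ∈ Ico 2 d, c i *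
        ((y : ℤ_[p]) * ((m : ℤ_[p]) + (y : ℤ_[p]))) ^ i := by
    funext y
    rw [range_eq_Ico, sum_eq_sum_Ico_succ_bot (by omega : 0 < d),
      sum_eq_sum_Ico_succ_bot (by omega : 0 + 1 < d), d3, d2]
    push_cast
    ring
  have e2 : (fun y : ℕ => (y : ℤ_[p]) * (C r + C u * (X - 1) *
      (X + C ((k * m + 1 : ℕ) : ℤ_[p])) + C ((p : ℤ_[p]) ^ M) * R).eval (y : ℤ_[p])) =
      fun y : ℕ => (r * (y : ℤ_[p]) +
        (u * ((k : ℤ_[p]) * m + 3) * (y.descFactorial 2 : ℤ_[p]) +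
          u * (y.descFactorial 3 : ℤ_[p]))) +
        (y : ℤ_[p]) * (C ((p : ℤ_[p]) ^ M) * R).eval (y : ℤ_[p]) := by
    funext y
    rw [d3, d2]
    simp only [eval_add, eval_mul, eval_C, eval_sub, eval_X, eval_one]
    push_cast
    ring
  have a3 : ∀ n : ℕ, ((n + 1).ascFactorial 3 : ℤ_[p]) =
      ((n + 1).ascFactorial 2 : ℤ_[p]) * ((n : ℤ_[p]) + 3) := by
    intro n
    rw [Nat.ascFactorial_succ]
    push_cast
    ring
  rw [e1, e2, baseexp_br_add, baseexp_bk_add, hR b N hb, baseexp_br_add, baseexp_bk_add,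
    baseexp_br_add, baseexp_bk_add, baseexp_br_mul, baseexp_bk_mul, baseexp_br_mul,
    baseexp_bk_mul, baseexp_br_mul, baseexp_bk_mul, baseexp_br_y, baseexp_bk_y _ _ _ hb,
    Sys.br_desc, Sys.br_desc, Sys.bk_desc _ _ _ _ hb, Sys.bk_desc _ _ _ _ hb]
  congr 1
  have a3' := a3 (k * m)
  rw [a3'] at hu
  rw [a3 m] at hu
  rw [a3', a3 m]
  push_cast at hu hr ⊢
  linear_combination (-(D.E 1 (b + k * N) : ℤ_[p])) * hr -
    ((D.E 2 (b + k * N) : ℤ_[p]) + (D.E 3 (b + k * N) : ℤ_[p])) * hu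

end Pool.MP9acee6
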