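import Pool.Agent.H.MP_9acee6_nt.Defs

/-!
# The integer data behind `S_{k,m}`

`h` are the coefficients of `(1-x)^m F(x)^m`, `s` those of `F(x)^m`.
-/

set_option autoImplicit false

open Finset

namespace Pool.MP9acee6

/-- The data: `s n` are the coefficients of `F^m`, `h n` those of `((1-x) F)^m`.
`G1`-`G4` are coefficient forms of `F^m (1-x)^{km} = ((1-x)F)^m (x^k)` and of
`F^m (1-x)^m = ((1-x)F)^m`. -/
structure Sys (k m : ℕ) where
  s : ℕ → ℤ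
  h : ℕ → ℤ
  s0 : s 0 = 1
  G1 : ∀ b N, b < k → s (b + k * N) =
    ∑ y ∈ range (N + 1), h (N - y) * ((k * m - 1 + b + k * y).choose (k * m - 1) : ℤ)
  G2 : ∀ n, s n = ∑ y ∈ range (n + 1), h (n - y) * ((m - 1 + y).choose (m - 1) : ℤ)
  G3 : ∀ j b N, b < k → ∑ l ∈ range (b + k * N + 1), ((b + k * N - l).choose j : ℤ) * s l =
    ∑ y ∈ range (N + 1), h (N - y) * ((k * m + b + k * y).choose (k * m + j) : ℤ)
  G4 : ∀ j n, ∑ l ∈ range (n + 1), ((n - l).choose j : ℤ) * s l =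
    ∑ y ∈ range (n + 1), h (n - y) * ((m + y).choose (m + j) : ℤ)

namespace Sys

variable {k m : ℕ}

/-- iterated sums of `s` -/
def E (D : Sys k m) (j n : ℕ) : ℤ := ∑ l ∈ range (n + 1), ((n - l).choose j : ℤ) * D.s l

variable {p : ℕ} [Fact p.Prime]

/-- the functional `br φ N = sum_y h(N-y) C(m+y,m) φ(y)` -/
noncomputable def br (D : Sys k m) (φ : ℕ → ℤ_[p]) (N : ℕ) : ℤ_[p] :=
  ∑ y ∈ range (N + 1), (D.h (N - y) : ℤ_[p]) * ((m + y).choose m : ℤ_[p]) * φ y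

/-- the functional `bk φ b N = sum_y h(N-y) C(km+b+ky,km) φ(b+ky)` -/
noncomputable def bk (D : Sys k m) (φ : ℕ → ℤ_[p]) (b N : ℕ) : ℤ_[p] :=
  ∑ y ∈ range (N + 1), (D.h (N - y) : ℤ_[p]) *
    ((k * m + b + k * y).choose (k * m) : ℤ_[p]) * φ (b + k * y)

end Sys

end Pool.MP9acee6
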