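import Pool.Agent.H.MP_9acee6_nt.OddCrit

/-!
# The critical conditions
-/

set_option autoImplicit false

namespace Pool.MP9acee6

/-- the critical condition for `p = 2` and even `m`: `m = 2^v m'` with `m'` odd, `v ≥ 1`,
`v + 1 ≤ a`, `a - (v+1)` even, and `m' ≡ 3 mod 4` if `a = 2`; `m' ≡ 7 mod 8` if `a ≥ 3` and
(`v = 1` or `v + 1 = a`); `m' ≡ 5 mod 8` otherwise. -/
def CritTwo (a m : ℕ) : Prop :=
  ∃ v m' : ℕ, m = 2 ^ v * m' ∧ m' % 2 = 1 ∧ 1 ≤ v ∧ v + 1 ≤ a ∧ 2 ∣ a - (v + 1) ∧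
    ((a = 2 ∧ m' % 4 = 3) ∨ (a ≠ 2 ∧ (v = 1 ∨ v + 1 = a) ∧ m' % 8 = 7) ∨
      (a ≠ 2 ∧ ¬ (v = 1 ∨ v + 1 = a) ∧ m' % 8 = 5))

/-- the critical condition: `CritTwo` for `p = 2`, `CritOdd` for odd `p` -/
def Crit (p a m : ℕ) : Prop := (p = 2 ∧ CritTwo a m) ∨ (p ≠ 2 ∧ CritOdd p a m)

end Pool.MP9acee6
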