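import Mathlib

/-!
# Coloured k-ary partitions: definitions

Statement-level definitions and the integer data `Sys k m` used in the proofs.
-/

set_option autoImplicit false

open PowerSeries

namespace Pool.MP9acee6

/-- The partial product `(1 - x)^{-m} * prod_{i < N} (1 - x^{k^i})^{-m(k-1)}` as a power series
with rational coefficients. -/
noncomputable def genProd (k m N : ℕ) : PowerSeries ℚ :=
  ((1 - X) ^ m)⁻¹ * ∏ i ∈ Finset.range N, ((1 - X ^ (k ^ i)) ^ (m * (k - 1)))⁻¹

/-- `S_{k,m}(n)`: the coefficient of `x^n` in `(1 - x)^{-m} * prod_{i} (1 - x^{k^i})^{-m(k-1)}`.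
(For `k ≥ 2` the factors with `i > n` contribute `1` to the coefficients up to `x^n`.) -/
noncomputable def S (k m n : ℕ) : ℚ := coeff n (genProd k m (n + 1))

/-- `V_{p,a,m}(n)`, the `p`-adic valuation of `S_{p^a,m}(n)`. -/
noncomputable def V (p a m n : ℕ) : ℤ := padicValRat p (S (p ^ a) m n)

/-- A sequence is `p`-automatic if its `p`-kernel is finite. -/
def IsAutomatic (p : ℕ) (e : ℕ → ℤ) : Prop :=
  {f : ℕ → ℤ | ∃ i j : ℕ, j < p ^ i ∧ ∀ n, f n = e (p ^ i * n + j)}.Finite

/-- A sequence of integers is bounded. -/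
def IsBdd (e : ℕ → ℤ) : Prop := ∃ B : ℤ, ∀ n, |e n| ≤ B

/-- `A_p = (p-1)! (1 + 1/2 + ... + 1/(p-1))`, the numerator of the harmonic number. -/
def Aint (p : ℕ) : ℕ := ∑ j ∈ Finset.Ioo 0 p, (p - 1).factorial / j

end Pool.MP9acee6
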