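import Mathlib

/-!
# Newton's identity for `prod (1 + d_t X)` and divisibility of its coefficients
-/

set_option autoImplicit false

open Polynomial Finset

namespace Pool.MP9acee6

private theorem esymm_aux {R : Type*} [CommRing R] (P Q : R[X]) (d : R)
    (h : P = (1 + C d * X) * Q) (n : ℕ) :
    Q.coeff n = ∑ j ∈ range (n + 1), (-d) ^ j * P.coeff (n - j) := by
  induction n with
  | zero =>
    have h0 : P.coeff 0 = Q.coeff 0 := by
      rw [h, Polynomial.mul_coeff_zero]
      simp
    simp [h0]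
  | succ n ih =>
    have h1 : P.coeff (n + 1) = Q.coeff (n + 1) + d * Q.coeff n := by
      rw [h, add_mul, one_mul, mul_assoc, Polynomial.coeff_add, Polynomial.coeff_C_mul,
        Polynomial.coeff_X_mul]
    rw [Finset.sum_range_succ']
    have h2 : ∑ j ∈ range (n + 1), (-d) ^ (j + 1) * P.coeff (n + 1 - (j + 1)) =
        (-d) * ∑ j ∈ range (n + 1), (-d) ^ j * P.coeff (n - j) := by
      rw [Finset.mul_sum]
      refine Finset.sum_congr rfl fun j _ => ?_
      rw [Nat.add_sub_add_right]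
      ring
    rw [h2, ← ih]
    simp only [pow_zero, one_mul, Nat.sub_zero]
    rw [h1]
    ring

theorem newton_id {R : Type*} [CommRing R] {ι : Type*} (J : Finset ι) (d : ι → R) (i : ℕ) :
    (i : R) * (∏ t ∈ J, (1 + C (d t) * X)).coeff i =
      ∑ j ∈ range i, (-1) ^ j * (∑ t ∈ J, d t ^ (j + 1)) *
        (∏ t ∈ J, (1 + C (d t) * X)).coeff (i - 1 - j) := by
  classical
  cases i with
  | zero => simp
  | succ n =>
    have hder : (derivative (∏ t ∈ J, (1 + C (d t) * X : R[X]))).coeff n =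
        (∏ t ∈ J, (1 + C (d t) * X : R[X])).coeff (n + 1) * ((n : R) + 1) := coeff_derivative _ _
    have hprod := Polynomial.derivative_prod_finset (s := J) (f := fun t => (1 + C (d t) * X : R[X]))
    rw [hprod, Polynomial.finsetSum_coeff] at hder
    have hterm : ∀ t ∈ J, ((∏ a ∈ J.erase t, (1 + C (d a) * X)) *
        derivative (1 + C (d t) * X : R[X])).coeff n =
        ∑ j ∈ range (n + 1), (-1) ^ j * d t ^ (j + 1) *
          (∏ t ∈ J, (1 + C (d t) * X)).coeff (n - j) := by
      intro t ht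
      have e1 : derivative (1 + C (d t) * X : R[X]) = C (d t) := by simp
      rw [e1, Polynomial.coeff_mul_C,
        esymm_aux (∏ t ∈ J, (1 + C (d t) * X)) _ (d t) (Finset.mul_prod_erase J _ ht).symm n,
        Finset.sum_mul]
      refine Finset.sum_congr rfl fun j _ => ?_
      rw [neg_pow (d t) j]
      ring
    rw [Finset.sum_congr rfl hterm, Finset.sum_comm] at hder
    push_cast
    rw [mul_comm, ← hder]
    refine Finset.sum_congr rfl fun j _ => ?_
    rw [Finset.mul_sum, Finset.sum_mul]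

theorem esymm_dvd {R : Type*} [CommRing R] {ι : Type*} (J : Finset ι) (d : ι → R) (M c : R)
    (h : ∀ j : ℕ, 1 ≤ j → M ∣ c * ∑ t ∈ J, d t ^ j) (i : ℕ) (hi : 1 ≤ i) :
    M ∣ c * ((i : R) * (∏ t ∈ J, (1 + C (d t) * X)).coeff i) := by
  rw [newton_id, Finset.mul_sum]
  refine Finset.dvd_sum fun j _ => ?_
  have h1 := h (j + 1) (by omega)
  have h2 : c * ((-1) ^ j * (∑ t ∈ J, d t ^ (j + 1)) *
      (∏ t ∈ J, (1 + C (d t) * X)).coeff (i - 1 - j)) =
      (c * ∑ t ∈ J, d t ^ (j + 1)) *
        ((-1) ^ j * (∏ t ∈ J, (1 + C (d t) * X)).coeff (i - 1 - j)) := by ring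
  rw [h2]
  exact Dvd.dvd.mul_right h1 _

end Pool.MP9acee6
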