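import Pool.Agent.H.MP_9acee6_nt.Core

/-!
# Existence of the data `Sys k m`
-/

set_option autoImplicit false

open Finset

namespace Pool.MP9acee6

open PowerSeries in
/-- `(1 - X)^{-j}` over `ℤ`. -/
private noncomputable def gen_I (j : ℕ) : PowerSeries ℤ := (PowerSeries.invOneSubPow ℤ j).val

private lemma gen_I_mul (j : ℕ) : (1 - PowerSeries.X : PowerSeries ℤ) ^ j * gen_I j = 1 := by
  unfold gen_I
  rw [← PowerSeries.invOneSubPow_inv_eq_one_sub_pow]
  exact (PowerSeries.invOneSubPow ℤ j).inv_val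

private lemma gen_I_add (i j : ℕ) : gen_I (i + j) = gen_I i * gen_I j := by
  unfold gen_I
  rw [PowerSeries.invOneSubPow_add, Units.val_mul]

private lemma gen_I_coeff_pos (j : ℕ) (hj : 0 < j) (n : ℕ) :
    PowerSeries.coeff n (gen_I j) = ((j - 1 + n).choose (j - 1) : ℤ) := by
  unfold gen_I
  rw [PowerSeries.invOneSubPow_val_eq_mk_sub_one_add_choose_of_pos _ _ hj, PowerSeries.coeff_mk]

private lemma gen_I_coeff_zero (j : ℕ) : PowerSeries.coeff 0 (gen_I j) = 1 := by
  rcases Nat.eq_zero_or_pos j with rfl | hj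
  · unfold gen_I
    rw [PowerSeries.invOneSubPow_zero]
    simp
  · rw [gen_I_coeff_pos j hj]
    simp

/-- `X^j (1-X)^{-(M+j+1)}` has the coefficients `C(M+i, M+j)` -/
private lemma gen_XI_coeff (M j i : ℕ) :
    PowerSeries.coeff i ((PowerSeries.X : PowerSeries ℤ) ^ j * gen_I (M + j + 1)) =
      ((M + i).choose (M + j) : ℤ) := by
  rw [PowerSeries.coeff_X_pow_mul']
  split_ifs with h
  · rw [gen_I_coeff_pos _ (by omega)]
    congr 2
    · omega
  · rw [Nat.choose_eq_zero_of_lt (by omega)]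
    simp

private lemma gen_coeff_mul (A G : PowerSeries ℤ) (n : ℕ) :
    PowerSeries.coeff n (A * G) =
      ∑ y ∈ range (n + 1), PowerSeries.coeff (n - y) G * PowerSeries.coeff y A := by
  rw [PowerSeries.coeff_mul,
    Finset.Nat.sum_antidiagonal_eq_sum_range_succ
      (fun i j => PowerSeries.coeff i A * PowerSeries.coeff j G) n]
  exact Finset.sum_congr rfl fun y _ => mul_comm _ _

private lemma gen_coeff_mul_expand (k : ℕ) (hk : k ≠ 0) (A G : PowerSeries ℤ) (b N : ℕ)
    (hb : b < k) :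
    PowerSeries.coeff (b + k * N) (A * PowerSeries.expand k hk G) =
      ∑ y ∈ range (N + 1), PowerSeries.coeff (N - y) G * PowerSeries.coeff (b + k * y) A := by
  rw [gen_coeff_mul]
  symm
  apply Finset.sum_of_injOn (fun y => b + k * y)
  · intro x _ y _ hxy
    have : k * x = k * y := by simpa using hxy
    exact Nat.eq_of_mul_eq_mul_left (Nat.pos_of_ne_zero hk) this
  · intro y hy
    simp only [Finset.coe_range, Set.mem_Iio] at hy ⊢
    have : k * y ≤ k * N := Nat.mul_le_mul_left _ (by omega)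
    omega
  · intro i hi hni
    have hi' : i < b + k * N + 1 := by simpa using hi
    rw [PowerSeries.coeff_expand]
    split_ifs with hd
    · exfalso
      apply hni
      obtain ⟨c, hc⟩ := hd
      have hcN : c ≤ N := by
        by_contra hcon
        have h1 : k * (N + 1) ≤ k * c := Nat.mul_le_mul_left _ (by omega)
        rw [Nat.mul_add, Nat.mul_one] at h1
        omega
      refine ⟨N - c, ?_, ?_⟩
      · simp only [Finset.coe_range, Set.mem_Iio]
        omega
      · simp only
        rw [Nat.mul_sub]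
        have h2 : k * c ≤ k * N := Nat.mul_le_mul_left _ hcN
        omega
    · simp
  · intro y hy
    have hy' : y < N + 1 := by simpa using hy
    have h2 : k * y ≤ k * N := Nat.mul_le_mul_left _ (by omega)
    have h3 : b + k * N - (b + k * y) = k * (N - y) := by
      rw [Nat.mul_sub]; omega
    rw [h3, PowerSeries.coeff_expand_mul]

/-- The integral truncated products. -/
private noncomputable def gen_Q (k m : ℕ) (hk : k ≠ 0) (N : ℕ) : PowerSeries ℤ :=
  gen_I m * ∏ i ∈ range N, PowerSeries.expand (k ^ i) (pow_ne_zero i hk) (gen_I (m * (k - 1)))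

private lemma gen_Q_succ (k m : ℕ) (hk : k ≠ 0) (N : ℕ) :
    gen_Q k m hk (N + 1) = gen_Q k m hk N *
      PowerSeries.expand (k ^ N) (pow_ne_zero N hk) (gen_I (m * (k - 1))) := by
  unfold gen_Q
  rw [Finset.prod_range_succ, mul_assoc]

private lemma gen_Q_coeff_succ (k m : ℕ) (hk : k ≠ 0) (hk2 : 2 ≤ k) (n N : ℕ) (h : n ≤ N) :
    PowerSeries.coeff n (gen_Q k m hk (N + 1)) = PowerSeries.coeff n (gen_Q k m hk N) := by
  have hlt : n < k ^ N := lt_of_le_of_lt h (Nat.lt_pow_self (by omega))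
  rw [gen_Q_succ, mul_comm, gen_coeff_mul, Finset.sum_eq_single 0]
  · rw [PowerSeries.coeff_expand, if_pos (dvd_zero _), Nat.zero_div, gen_I_coeff_zero]
    simp
  · intro y hy hy0
    have hy' : y < n + 1 := by simpa using hy
    rw [PowerSeries.coeff_expand, if_neg, mul_zero]
    intro hd
    have := Nat.le_of_dvd (Nat.pos_of_ne_zero hy0) hd
    omega
  · intro h0
    simp at h0

private lemma gen_Q_coeff (k m : ℕ) (hk : k ≠ 0) (hk2 : 2 ≤ k) (n N : ℕ) (h : n + 1 ≤ N) :
    PowerSeries.coeff n (gen_Q k m hk N) = PowerSeries.coeff n (gen_Q k m hk (n + 1)) := by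
  induction N, h using Nat.le_induction with
  | base => rfl
  | succ N hN ih => rw [gen_Q_coeff_succ k m hk hk2 n N (by omega), ih]

private noncomputable def gen_F (k m : ℕ) (hk : k ≠ 0) : PowerSeries ℤ :=
  PowerSeries.mk fun n => PowerSeries.coeff n (gen_Q k m hk (n + 1))

private lemma gen_F_coeff (k m : ℕ) (hk : k ≠ 0) (hk2 : 2 ≤ k) (n N : ℕ) (h : n + 1 ≤ N) :
    PowerSeries.coeff n (gen_F k m hk) = PowerSeries.coeff n (gen_Q k m hk N) := by
  rw [gen_F, PowerSeries.coeff_mk, gen_Q_coeff k m hk hk2 n N h]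

private lemma gen_mul_F_coeff (k m : ℕ) (hk : k ≠ 0) (hk2 : 2 ≤ k) (A : PowerSeries ℤ)
    (n N : ℕ) (h : n + 1 ≤ N) :
    PowerSeries.coeff n (A * gen_F k m hk) = PowerSeries.coeff n (A * gen_Q k m hk N) := by
  rw [gen_coeff_mul, gen_coeff_mul]
  refine Finset.sum_congr rfl fun y hy => ?_
  rw [gen_F_coeff k m hk hk2 (n - y) N (by omega)]

private lemma gen_prod_succ (k m : ℕ) (hk : k ≠ 0) (N : ℕ) :
    ∏ i ∈ range (N + 1), PowerSeries.expand (k ^ i) (pow_ne_zero i hk) (gen_I (m * (k - 1))) =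
      gen_I (m * (k - 1)) * PowerSeries.expand k hk
        (∏ i ∈ range N, PowerSeries.expand (k ^ i) (pow_ne_zero i hk) (gen_I (m * (k - 1)))) := by
  rw [Finset.prod_range_succ', map_prod, mul_comm]
  congr 1
  · ext n
    rw [PowerSeries.coeff_expand]
    simp
  · refine Finset.prod_congr rfl fun i _ => ?_
    ext n
    rw [← PowerSeries.expand_mul, PowerSeries.coeff_expand, PowerSeries.coeff_expand,
      pow_succ, mul_comm]

private lemma gen_Q_fe (k m : ℕ) (hk : k ≠ 0) (N : ℕ) :
    (1 - PowerSeries.X : PowerSeries ℤ) ^ (k * m) * gen_Q k m hk (N + 1) =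
      PowerSeries.expand k hk ((1 - PowerSeries.X : PowerSeries ℤ) ^ m * gen_Q k m hk N) := by
  have h1 : (1 - PowerSeries.X : PowerSeries ℤ) ^ m * gen_Q k m hk N =
      ∏ i ∈ range N, PowerSeries.expand (k ^ i) (pow_ne_zero i hk) (gen_I (m * (k - 1))) := by
    unfold gen_Q
    rw [← mul_assoc, gen_I_mul, one_mul]
  rw [h1]
  unfold gen_Q
  rw [gen_prod_succ, ← mul_assoc, ← mul_assoc, mul_assoc (_ ^ _) (gen_I m), ← gen_I_add]
  have h2 : m + m * (k - 1) = k * m := by
    obtain ⟨c, rfl⟩ := Nat.exists_eq_succ_of_ne_zero hk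
    simp only [Nat.succ_eq_add_one, Nat.add_sub_cancel]
    ring
  rw [h2, gen_I_mul, one_mul]

private lemma gen_F_fe (k m : ℕ) (hk : k ≠ 0) (hk2 : 2 ≤ k) :
    (1 - PowerSeries.X : PowerSeries ℤ) ^ (k * m) * gen_F k m hk =
      PowerSeries.expand k hk ((1 - PowerSeries.X : PowerSeries ℤ) ^ m * gen_F k m hk) := by
  ext n
  rw [gen_mul_F_coeff k m hk hk2 _ n (n + 2) (by omega), gen_Q_fe, PowerSeries.coeff_expand,
    PowerSeries.coeff_expand]
  split_ifs
  · rw [gen_mul_F_coeff k m hk hk2 _ (n / k) (n + 1)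
      (by have := Nat.div_le_self n k; omega)]
  · rfl

private lemma gen_map_I (j d : ℕ) (hd : d ≠ 0) :
    PowerSeries.map (Int.castRingHom ℚ) (PowerSeries.expand d hd (gen_I j)) =
      ((1 - PowerSeries.X ^ d : PowerSeries ℚ) ^ j)⁻¹ := by
  have h := congrArg (fun t => PowerSeries.map (Int.castRingHom ℚ)
    (PowerSeries.expand d hd t)) (gen_I_mul j)
  simp only [map_mul, map_pow, map_sub, map_one, PowerSeries.expand_X, PowerSeries.map_X] at h
  symm
  rw [PowerSeries.inv_eq_iff_mul_eq_one]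
  · rw [mul_comm]
    exact h
  · simp [hd]

private lemma gen_map_Q (k m : ℕ) (hk : k ≠ 0) (N : ℕ) :
    PowerSeries.map (Int.castRingHom ℚ) (gen_Q k m hk N) = genProd k m N := by
  unfold gen_Q genProd
  rw [map_mul, map_prod]
  congr 1
  · have := gen_map_I m 1 one_ne_zero
    rw [PowerSeries.expand_one_apply] at this
    rw [this, pow_one]
  · exact Finset.prod_congr rfl fun i _ => gen_map_I _ _ _

theorem exists_sys (k m : ℕ) (hk : 2 ≤ k) (hm : 1 ≤ m) :
    ∃ D : Sys k m, ∀ n, S k m n = (D.s n : ℚ) := by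
  have hk0 : k ≠ 0 := by omega
  set F := gen_F k m hk0 with hF
  set H := (1 - PowerSeries.X : PowerSeries ℤ) ^ m * F with hH
  have hFk : F = gen_I (k * m) * PowerSeries.expand k hk0 H := by
    rw [hH, hF, ← gen_F_fe k m hk0 hk, ← mul_assoc, mul_comm (gen_I _), gen_I_mul, one_mul]
  have hFm : F = gen_I m * H := by
    rw [hH, ← mul_assoc, mul_comm (gen_I _), gen_I_mul, one_mul]
  have hsum : ∀ j n, ∑ l ∈ range (n + 1), ((n - l).choose j : ℤ) * PowerSeries.coeff l F =
      PowerSeries.coeff n (F * (PowerSeries.X ^ j * gen_I (0 + j + 1))) := by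
    intro j n
    rw [gen_coeff_mul]
    refine Finset.sum_congr rfl fun l _ => ?_
    rw [gen_XI_coeff]
    simp
  refine ⟨{ s := fun n => PowerSeries.coeff n F
            h := fun n => PowerSeries.coeff n H
            s0 := ?_
            G1 := ?_
            G2 := ?_
            G3 := ?_
            G4 := ?_ }, ?_⟩
  · rw [hF, gen_F_coeff k m hk0 hk 0 1 (by omega), gen_Q_coeff_succ k m hk0 hk 0 0 le_rfl]
    unfold gen_Q
    rw [Finset.prod_range_zero, mul_one, gen_I_coeff_zero]
  · intro b N hb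
    conv_lhs => rw [hFk]
    rw [gen_coeff_mul_expand k hk0 _ _ b N hb]
    refine Finset.sum_congr rfl fun y _ => ?_
    rw [gen_I_coeff_pos _ (Nat.mul_pos (by omega) (by omega))]
    congr 3
    ring
  · intro n
    conv_lhs => rw [hFm]
    rw [gen_coeff_mul]
    refine Finset.sum_congr rfl fun y _ => ?_
    rw [gen_I_coeff_pos _ (by omega)]
  · intro j b N hb
    rw [hsum j]
    have : F * (PowerSeries.X ^ j * gen_I (0 + j + 1)) =
        (PowerSeries.X ^ j * gen_I (k * m + j + 1)) * PowerSeries.expand k hk0 H := by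
      conv_lhs => rw [hFk]
      rw [zero_add, add_assoc (k * m), gen_I_add (k * m)]
      ring
    rw [this, gen_coeff_mul_expand k hk0 _ _ b N hb]
    refine Finset.sum_congr rfl fun y _ => ?_
    rw [gen_XI_coeff, add_assoc (k * m)]
  · intro j n
    rw [hsum j]
    have : F * (PowerSeries.X ^ j * gen_I (0 + j + 1)) =
        (PowerSeries.X ^ j * gen_I (m + j + 1)) * H := by
      conv_lhs => rw [hFm]
      rw [zero_add, add_assoc m, gen_I_add m]
      ring
    rw [this, gen_coeff_mul]
    refine Finset.sum_congr rfl fun y _ => ?_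
    rw [gen_XI_coeff]
  · intro n
    simp only
    rw [S, ← gen_map_Q k m hk0, PowerSeries.coeff_map, hF, gen_F_coeff k m hk0 hk n (n + 1) le_rfl]
    rfl

end Pool.MP9acee6
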