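import Pool.Agent.H.MP_9acee6_nt.Defs

/-!
# Positivity of `S_{k,m}(n)`
-/

set_option autoImplicit false

open PowerSeries Finset

namespace Pool.MP9acee6

/-- nonnegative coefficients -/
def NNc (f : PowerSeries ℚ) : Prop := ∀ n, 0 ≤ coeff n f

theorem NNc.mul {f g : PowerSeries ℚ} (hf : NNc f) (hg : NNc g) : NNc (f * g) := by
  intro n
  rw [coeff_mul]
  exact Finset.sum_nonneg fun x _ => mul_nonneg (hf _) (hg _)

theorem NNc.one : NNc 1 := by
  intro n
  rw [coeff_one]
  split_ifs <;> norm_num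

theorem NNc.pow {f : PowerSeries ℚ} (hf : NNc f) (j : ℕ) : NNc (f ^ j) := by
  induction j with
  | zero => rw [pow_zero]; exact NNc.one
  | succ j ih => rw [pow_succ]; exact ih.mul hf

theorem NNc.prod {ι : Type*} (s : Finset ι) (f : ι → PowerSeries ℚ) (hf : ∀ i ∈ s, NNc (f i)) :
    NNc (∏ i ∈ s, f i) := by
  classical
  induction s using Finset.induction_on with
  | empty => rw [Finset.prod_empty]; exact NNc.one
  | insert a s ha ih =>
    rw [Finset.prod_insert ha]
    exact (hf a (Finset.mem_insert_self a s)).mul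
      (ih fun i hi => hf i (Finset.mem_insert_of_mem hi))

theorem cc_one_sub (d : ℕ) (hd : 1 ≤ d) : constantCoeff (1 - X ^ d : PowerSeries ℚ) = 1 := by
  rw [map_sub, map_one, map_pow, constantCoeff_X, zero_pow (by omega), sub_zero]

theorem inv_one_sub (d : ℕ) (hd : 1 ≤ d) : (1 - X ^ d : PowerSeries ℚ)⁻¹ =
    PowerSeries.mk (fun n => if d ∣ n then (1 : ℚ) else 0) := by
  symm
  rw [PowerSeries.eq_inv_iff_mul_eq_one (by rw [cc_one_sub d hd]; exact one_ne_zero)]
  ext n
  rw [mul_sub, mul_one, map_sub, coeff_mul_X_pow', coeff_mk, coeff_one]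
  rcases Nat.eq_zero_or_pos n with hn | hn
  · subst hn
    rw [if_neg (show ¬ d ≤ 0 by omega)]
    simp
  · rw [if_neg (show ¬ n = 0 by omega)]
    by_cases h : d ≤ n
    · rw [if_pos h, coeff_mk]
      have : d ∣ n - d ↔ d ∣ n := by
        rw [Nat.dvd_sub_iff_left h dvd_rfl]
      simp only [this, sub_self]
    · rw [if_neg h, sub_zero, if_neg]
      intro hdn
      exact h (Nat.le_of_dvd hn hdn)

theorem inv_pow_eq (f : PowerSeries ℚ) (hf : constantCoeff f = 1) (j : ℕ) :
    (f ^ j)⁻¹ = (f⁻¹) ^ j := by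
  symm
  rw [PowerSeries.eq_inv_iff_mul_eq_one (by rw [map_pow, hf, one_pow]; exact one_ne_zero),
    ← mul_pow, PowerSeries.inv_mul_cancel _ (by rw [hf]; exact one_ne_zero), one_pow]

theorem nnc_inv (d j : ℕ) (hd : 1 ≤ d) : NNc (((1 - X ^ d : PowerSeries ℚ) ^ j)⁻¹) := by
  rw [inv_pow_eq _ (cc_one_sub d hd), inv_one_sub d hd]
  apply NNc.pow
  intro n
  rw [coeff_mk]
  split_ifs <;> norm_num

/-- series with all coefficients at least `1` -/
theorem one_le_mul {f g : PowerSeries ℚ} (hf : ∀ n, 1 ≤ coeff n f) (hg : NNc g)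
    (hg0 : 1 ≤ coeff 0 g) (n : ℕ) : 1 ≤ coeff n (f * g) := by
  rw [coeff_mul]
  have h1 : coeff n f * coeff 0 g ≤ ∑ x ∈ antidiagonal n, coeff x.1 f * coeff x.2 g := by
    apply Finset.single_le_sum (f := fun x : ℕ × ℕ => coeff x.1 f * coeff x.2 g)
      (fun x _ => mul_nonneg (zero_le_one.trans (hf _)) (hg _)) (a := (n, 0))
    exact HasAntidiagonal.mem_antidiagonal.2 (add_zero n)
  have h2 := hf n
  nlinarith

theorem S_pos (k m n : ℕ) (hk : 2 ≤ k) (hm : 1 ≤ m) : 1 ≤ S k m n := by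
  unfold S genProd
  apply one_le_mul
  · intro n
    rw [show (1 - X : PowerSeries ℚ) = 1 - X ^ 1 by rw [pow_one],
      inv_pow_eq _ (cc_one_sub 1 le_rfl), inv_one_sub 1 le_rfl]
    obtain ⟨j, rfl⟩ : ∃ j, m = j + 1 := ⟨m - 1, by omega⟩
    rw [pow_succ']
    apply one_le_mul
    · intro n
      rw [coeff_mk, if_pos (one_dvd n)]
    · apply NNc.pow
      intro n
      rw [coeff_mk]
      split_ifs <;> norm_num
    · rw [coeff_zero_eq_constantCoeff_apply, map_pow, ← coeff_zero_eq_constantCoeff_apply, coeff_mk,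
        if_pos (one_dvd 0), one_pow]
  · apply NNc.prod
    intro i _
    exact nnc_inv _ _ (Nat.one_le_pow _ _ (by omega))
  · rw [coeff_zero_eq_constantCoeff_apply, map_prod]
    apply le_of_eq
    symm
    apply Finset.prod_eq_one
    intro i _
    rw [inv_pow_eq _ (cc_one_sub _ (Nat.one_le_pow _ _ (by omega))), map_pow,
      inv_one_sub _ (Nat.one_le_pow _ _ (by omega)), ← coeff_zero_eq_constantCoeff_apply, coeff_mk,
      if_pos (dvd_zero _), one_pow]

end Pool.MP9acee6
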