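import Pool.Agent.H.MP_9acee6_nt.Core
import Pool.Agent.H.MP_9acee6_nt.Auto
import Pool.Agent.H.MP_9acee6_nt.Gen
import Pool.Agent.H.MP_9acee6_nt.Pos

/-!
# Truncated valuations are automatic
-/

set_option autoImplicit false

open Finset Polynomial

namespace Pool.MP9acee6

/-- coefficient of `X^J` in `(1+X)^c ((1+X)^k - 1)^l` -/
noncomputable def al (c k J l : ℕ) : ℤ :=
  (((1 + X : ℤ[X]) ^ c * ((1 + X) ^ k - 1) ^ l)).coeff J

theorem al_X_dvd (k : ℕ) : (X : ℤ[X]) ∣ (1 + X) ^ k - 1 := by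
  have h := sub_dvd_pow_sub_pow (1 + X : ℤ[X]) 1 k
  rwa [one_pow, add_sub_cancel_left] at h

theorem al_big (c k J l : ℕ) (h : J < l) : al c k J l = 0 := by
  obtain ⟨G, hG⟩ := al_X_dvd k
  unfold al
  rw [hG, mul_pow, show (1 + X : ℤ[X]) ^ c * (X ^ l * G ^ l) = ((1 + X) ^ c * G ^ l) * X ^ l by ring,
    coeff_mul_X_pow', if_neg (by omega)]

theorem al_small (c k J l : ℕ) (h : c + k * l < J) : al c k J l = 0 := by
  unfold al
  apply coeff_eq_zero_of_natDegree_lt
  refine lt_of_le_of_lt ?_ h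
  have h1 : (1 + X : ℤ[X]).natDegree ≤ 1 := by
    refine (natDegree_add_le _ _).trans ?_
    simp
  have h2 : ((1 + X : ℤ[X]) ^ c).natDegree ≤ c := by
    refine natDegree_pow_le.trans ?_
    nlinarith
  have h3 : ((1 + X : ℤ[X]) ^ k - 1).natDegree ≤ k := by
    refine (natDegree_sub_le _ _).trans ?_
    rw [natDegree_one, max_le_iff]
    refine ⟨natDegree_pow_le.trans ?_, Nat.zero_le _⟩
    nlinarith
  have h4 : (((1 + X : ℤ[X]) ^ k - 1) ^ l).natDegree ≤ l * k := by
    refine natDegree_pow_le.trans ?_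
    exact Nat.mul_le_mul_left l h3
  calc ((1 + X : ℤ[X]) ^ c * ((1 + X) ^ k - 1) ^ l).natDegree
      ≤ ((1 + X : ℤ[X]) ^ c).natDegree + (((1 + X : ℤ[X]) ^ k - 1) ^ l).natDegree :=
        natDegree_mul_le
    _ ≤ c + l * k := add_le_add h2 h4
    _ = c + k * l := by ring

theorem al_choose (c k J u : ℕ) :
    ((c + k * u).choose J : ℤ) = ∑ l ∈ range (J + 1), al c k J l * (u.choose l : ℤ) := by
  have h1 : ((c + k * u).choose J : ℤ) = ((1 + X : ℤ[X]) ^ (c + k * u)).coeff J := by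
    rw [coeff_one_add_X_pow]
  have h2 : (1 + X : ℤ[X]) ^ (c + k * u) = ∑ l ∈ range (u + 1),
      ((1 + X : ℤ[X]) ^ c * ((1 + X) ^ k - 1) ^ l) * C ((u.choose l : ℕ) : ℤ) := by
    have h3 : ((1 + X : ℤ[X]) ^ k) ^ u = ((((1 + X : ℤ[X]) ^ k - 1)) + 1) ^ u := by
      rw [sub_add_cancel]
    rw [pow_add, pow_mul, h3, add_pow (((1 + X : ℤ[X]) ^ k - 1)) 1 u, Finset.mul_sum]
    apply Finset.sum_congr rfl
    intro l _
    rw [one_pow, mul_one, map_natCast]
    ring
  rw [h1, h2, finsetSum_coeff]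
  have h4 : ∀ l, (((1 + X : ℤ[X]) ^ c * ((1 + X) ^ k - 1) ^ l) * C ((u.choose l : ℕ) : ℤ)).coeff J =
      al c k J l * (u.choose l : ℤ) := by
    intro l
    rw [coeff_mul_C]
    rfl
  simp only [h4]
  rcases le_total u J with h | h
  · apply Finset.sum_subset
    · intro l hl
      rw [Finset.mem_range] at hl ⊢
      omega
    · intro l _ hl
      rw [Finset.mem_range] at hl
      rw [Nat.choose_eq_zero_of_lt (by omega), Nat.cast_zero, mul_zero]
  · symm
    apply Finset.sum_subset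
    · intro l hl
      rw [Finset.mem_range] at hl ⊢
      omega
    · intro l _ hl
      rw [Finset.mem_range] at hl
      rw [al_big _ _ _ _ (by omega), zero_mul]

/-- `(1+X)^k - 1 = X^k + p X G` -/
theorem al_decomp {p a k : ℕ} (hp : p.Prime) (hk : k = p ^ a) (ha : 1 ≤ a) :
    ∃ G : ℤ[X], (1 + X : ℤ[X]) ^ k - 1 = X ^ k + C (p : ℤ) * (X * G) := by
  have hk0 : 1 ≤ k := by rw [hk]; exact Nat.one_le_pow _ _ hp.pos
  have h1 : C (p : ℤ) ∣ (1 + X : ℤ[X]) ^ k - 1 - X ^ k := by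
    rw [C_dvd_iff_dvd_coeff]
    intro i
    rw [coeff_sub, coeff_sub, coeff_one_add_X_pow, coeff_X_pow, coeff_one]
    rcases Nat.eq_zero_or_pos i with hi | hi
    · subst hi
      rw [if_pos rfl, if_neg (by omega), Nat.choose_zero_right]
      norm_num
    · rw [if_neg (show ¬ i = 0 by omega)]
      by_cases hik : i = k
      · rw [if_pos hik, hik, Nat.choose_self]
        norm_num
      · rw [if_neg hik, sub_zero, sub_zero]
        have h2 : p ∣ k.choose i := by
          rw [hk]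
          exact hp.dvd_choose_pow (by omega) (by rw [← hk]; exact hik)
        exact_mod_cast h2
  obtain ⟨G, hG⟩ := h1
  have h2 : (X : ℤ[X]) ∣ G := by
    rw [X_dvd_iff]
    have h3 := congrArg (fun P : ℤ[X] => P.coeff 0) hG
    simp only [coeff_sub, coeff_one_add_X_pow, coeff_X_pow, coeff_one_zero, Nat.choose_zero_right,
      coeff_C_mul] at h3
    rw [if_neg (by omega : ¬ 0 = k)] at h3
    have hp0 : (p : ℤ) ≠ 0 := by exact_mod_cast hp.ne_zero
    have h4 : (p : ℤ) * G.coeff 0 = 0 := by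
      rw [← h3]; norm_num
    exact (mul_eq_zero.1 h4).resolve_left hp0
  obtain ⟨G', rfl⟩ := h2
  exact ⟨G', by linear_combination hG⟩

theorem al_dvd {p a k : ℕ} (hp : p.Prime) (hk : k = p ^ a) (ha : 1 ≤ a) (c J l B : ℕ)
    (h : J + B * (k - 1) ≤ k * l) (hB : 1 ≤ B) : (p : ℤ) ^ B ∣ al c k J l := by
  have hk2 : 2 ≤ k := by
    calc 2 ≤ p := hp.two_le
      _ = p ^ 1 := (pow_one p).symm
      _ ≤ p ^ a := Nat.pow_le_pow_right hp.pos (by omega)
      _ = k := hk.symm
  obtain ⟨G, hG⟩ := al_decomp hp hk ha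
  unfold al
  rw [hG, add_pow (X ^ k) (C (p : ℤ) * (X * G)) l, Finset.mul_sum, finsetSum_coeff]
  apply Finset.dvd_sum
  intro i hi
  rw [Finset.mem_range] at hi
  have e1 : (1 + X : ℤ[X]) ^ c * ((X ^ k) ^ i * (C (p : ℤ) * (X * G)) ^ (l - i) *
      ((l.choose i : ℕ) : ℤ[X])) = C ((p : ℤ) ^ (l - i)) *
        (((1 + X : ℤ[X]) ^ c * G ^ (l - i) * ((l.choose i : ℕ) : ℤ[X])) * X ^ (k * i + (l - i))) := by
    rw [map_pow, mul_pow, mul_pow, pow_add, pow_mul]
    ring
  rw [e1, coeff_C_mul, coeff_mul_X_pow']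
  by_cases h2 : k * i + (l - i) ≤ J
  · rw [if_pos h2]
    apply Dvd.dvd.mul_right
    apply pow_dvd_pow
    -- l - i ≥ B
    by_contra hcon
    push Not at hcon
    obtain ⟨w, hw⟩ : ∃ w, l = i + w := ⟨l - i, by omega⟩
    have hw2 : l - i = w := by omega
    rw [hw2] at hcon h2
    obtain ⟨k', hk'⟩ : ∃ k', k = k' + 1 := ⟨k - 1, by omega⟩
    subst hk'
    rw [hw] at h
    rw [Nat.add_sub_cancel] at h
    have h5 : w * k' < B * k' := Nat.mul_lt_mul_of_pos_right hcon (by omega)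
    nlinarith
  · rw [if_neg h2, mul_zero]
    exact dvd_zero _

namespace Sys

variable {k m : ℕ}

/-- the sequences `e_i(n) = [x^n] (x/(1-x))^i F^m` -/
def ee (D : Sys k m) (i n : ℕ) : ℤ :=
  ∑ y ∈ range (n + 1), D.h (n - y) * ((m - 1 + y).choose (m - 1 + i) : ℤ)

theorem ee_zero (D : Sys k m) (n : ℕ) : D.ee 0 n = D.s n := by
  unfold ee
  rw [D.G2 n, add_zero]

theorem ee_succ (D : Sys k m) (hm : 1 ≤ m) (i n : ℕ) : D.ee (i + 1) n + D.ee i n = D.E i n := by
  unfold ee E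
  rw [D.G4 i n, ← Finset.sum_add_distrib]
  apply Finset.sum_congr rfl
  intro y _
  obtain ⟨m', rfl⟩ : ∃ m', m = m' + 1 := ⟨m - 1, by omega⟩
  rw [Nat.add_sub_cancel, show m' + 1 + y = (m' + y) + 1 by ring,
    show m' + 1 + i = (m' + i) + 1 by ring, Nat.choose_succ_succ, show m' + (i + 1) = (m' + i) + 1 by ring]
  push_cast
  ring

theorem ee_sec (D : Sys k m) (hk : 1 ≤ k) (hm : 1 ≤ m) (i b N : ℕ) (hb : b < k) :
    D.ee i (b + k * N) = ∑ y ∈ range (N + 1),
      D.h (N - y) * ((k * m - 1 + b + k * y).choose (k * m - 1 + i) : ℤ) := by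
  induction i with
  | zero => rw [D.ee_zero, D.G1 b N hb, add_zero]
  | succ i ih =>
    have h1 := D.ee_succ hm i (b + k * N)
    have h2 : D.E i (b + k * N) = ∑ y ∈ range (N + 1), D.h (N - y) *
        ((k * m + b + k * y).choose (k * m + i) : ℤ) := D.G3 i b N hb
    have h3 : D.ee (i + 1) (b + k * N) = D.E i (b + k * N) - D.ee i (b + k * N) := by
      linear_combination h1
    rw [h3, ih, h2, ← Finset.sum_sub_distrib]
    apply Finset.sum_congr rfl
    intro y _
    obtain ⟨q, hq⟩ : ∃ q, k * m = q + 1 := ⟨k * m - 1, by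
      have : 1 ≤ k * m := Nat.mul_pos (by omega) (by omega)
      omega⟩
    rw [hq, Nat.add_sub_cancel, show q + 1 + b + k * y = (q + b + k * y) + 1 by ring,
      show q + 1 + i = (q + i) + 1 by ring, Nat.choose_succ_succ,
      show q + (i + 1) = (q + i) + 1 by ring]
    push_cast
    ring

/-- sections of the `e_i` modulo `p^B` -/
theorem ee_lin (D : Sys k m) {p a : ℕ} (hp : p.Prime) (hk : k = p ^ a) (ha : 1 ≤ a) (hm : 1 ≤ m)
    (B : ℕ) (hB : 1 ≤ B) (i : ℕ) (hi : i ≤ B) (b : ℕ) (hb : b < k) :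
    ∃ al : ℕ → ZMod (p ^ B), ∀ N, (D.ee i (b + k * N) : ZMod (p ^ B)) =
      ∑ i' ∈ range (B + 1), al i' * (D.ee i' N : ZMod (p ^ B)) := by
  have hk2 : 2 ≤ k := by
    calc 2 ≤ p := hp.two_le
      _ = p ^ 1 := (pow_one p).symm
      _ ≤ p ^ a := Nat.pow_le_pow_right hp.pos (by omega)
      _ = k := hk.symm
  obtain ⟨m', rfl⟩ : ∃ m', m = m' + 1 := ⟨m - 1, by omega⟩
  refine ⟨fun i' => ((Pool.MP9acee6.al (k - 1 + b) k (k * (m' + 1) - 1 + i) (m' + i') : ℤ) : ZMod (p ^ B)),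
    fun N => ?_⟩
  rw [D.ee_sec (by omega) hm i b N hb]
  have hpB : ∀ l, ¬ (m' ≤ l ∧ l ≤ m' + B) →
      ((Pool.MP9acee6.al (k - 1 + b) k (k * (m' + 1) - 1 + i) l : ℤ) : ZMod (p ^ B)) = 0 := by
    intro l hl
    rcases lt_or_ge l m' with h | h
    · rw [al_small, Int.cast_zero]
      have h1 : k * (l + 1) ≤ k * m' := Nat.mul_le_mul_left k h
      have h2 : k * (m' + 1) = k * m' + k := by ring
      have h3 : k * (l + 1) = k * l + k := by ring
      omega
    · have h4 : m' + B + 1 ≤ l := by omega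
      have h5 : (p : ℤ) ^ B ∣ Pool.MP9acee6.al (k - 1 + b) k (k * (m' + 1) - 1 + i) l := by
        apply al_dvd hp hk ha _ _ _ _ _ hB
        have h6 : k * (m' + B + 1) ≤ k * l := Nat.mul_le_mul_left k h4
        refine le_trans ?_ h6
        obtain ⟨k', hk'⟩ : ∃ k', k = k' + 1 := ⟨k - 1, by omega⟩
        rw [hk', Nat.add_sub_cancel]
        have h7 : (k' + 1) * (m' + 1) - 1 = (k' + 1) * m' + k' := by
          have : (k' + 1) * (m' + 1) = (k' + 1) * m' + k' + 1 := by ring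
          omega
        rw [h7]
        nlinarith
      have h8 := (ZMod.intCast_zmod_eq_zero_iff_dvd _ (p ^ B)).2 (by exact_mod_cast h5)
      exact h8
  have hch : ∀ y, (((k * (m' + 1) - 1 + b + k * y).choose (k * (m' + 1) - 1 + i) : ℤ) : ZMod (p ^ B)) =
      ∑ i' ∈ range (B + 1), ((Pool.MP9acee6.al (k - 1 + b) k (k * (m' + 1) - 1 + i) (m' + i') : ℤ) :
        ZMod (p ^ B)) * (((m' + y).choose (m' + i') : ℤ) : ZMod (p ^ B)) := by
    intro y
    have h1 : k * (m' + 1) - 1 + b + k * y = (k - 1 + b) + k * (m' + y) := by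
      have h2 : k * (m' + 1) = k * m' + k := by ring
      have h3 : k * (m' + y) = k * m' + k * y := by ring
      omega
    rw [h1, al_choose (k - 1 + b) k (k * (m' + 1) - 1 + i) (m' + y), Int.cast_sum]
    simp only [Int.cast_mul]
    have h4 : ∀ T : ℕ, ∑ l ∈ range (m' + B + 1 + T),
        ((Pool.MP9acee6.al (k - 1 + b) k (k * (m' + 1) - 1 + i) l : ℤ) : ZMod (p ^ B)) *
          (((m' + y).choose l : ℤ) : ZMod (p ^ B)) = ∑ i' ∈ range (B + 1),
        ((Pool.MP9acee6.al (k - 1 + b) k (k * (m' + 1) - 1 + i) (m' + i') : ℤ) :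
          ZMod (p ^ B)) * (((m' + y).choose (m' + i') : ℤ) : ZMod (p ^ B)) := by
      intro T
      rw [show m' + B + 1 + T = m' + ((B + 1) + T) by ring, Finset.sum_range_add,
        Finset.sum_range_add]
      rw [Finset.sum_eq_zero, zero_add]
      · rw [add_eq_left]
        apply Finset.sum_eq_zero
        intro x _
        rw [hpB _ (by omega), zero_mul]
      · intro x hx
        rw [Finset.mem_range] at hx
        rw [hpB _ (by omega), zero_mul]
    rcases le_total (m' + B + 1) (k * (m' + 1) - 1 + i + 1) with h5 | h5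
    · obtain ⟨T, hT⟩ := Nat.exists_eq_add_of_le h5
      rw [hT]
      exact h4 T
    · rw [← h4 0, add_zero]
      apply Finset.sum_subset
      · intro l hl
        rw [Finset.mem_range] at hl ⊢
        omega
      · intro l _ hl
        rw [Finset.mem_range] at hl
        rw [al_big _ _ _ _ (by omega), Int.cast_zero, zero_mul]
  rw [Int.cast_sum]
  simp only [Int.cast_mul, hch]
  unfold ee
  simp only [Int.cast_sum, Int.cast_mul, Finset.mul_sum, Nat.add_sub_cancel]
  rw [Finset.sum_comm]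
  apply Finset.sum_congr rfl
  intro i' _
  apply Finset.sum_congr rfl
  intro y _
  ring

/-- all sections of `s` -/
theorem s_sections (D : Sys k m) {p a : ℕ} (hp : p.Prime) (hk : k = p ^ a) (ha : 1 ≤ a) (hm : 1 ≤ m)
    (B : ℕ) (hB : 1 ≤ B) (t : ℕ) : ∀ j, j < k ^ t →
    ∃ c : Fin (B + 1) → ZMod (p ^ B), ∀ n, (D.s (k ^ t * n + j) : ZMod (p ^ B)) =
      ∑ i : Fin (B + 1), c i * (D.ee i n : ZMod (p ^ B)) := by
  induction t with
  | zero =>
    intro j hj
    have hj0 : j = 0 := by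
      rw [pow_zero] at hj
      omega
    subst hj0
    refine ⟨fun i => if i.1 = 0 then 1 else 0, fun n => ?_⟩
    rw [pow_zero, one_mul, add_zero, ← D.ee_zero, Finset.sum_eq_single (0 : Fin (B + 1))]
    · simp
    · intro b _ hb
      have : ¬ b.1 = 0 := fun h => hb (Fin.ext h)
      simp only [if_neg this, zero_mul]
    · intro h
      exact absurd (Finset.mem_univ _) h
  | succ t ih =>
    intro j hj
    have hk0 : 0 < k := by rw [hk]; exact pow_pos hp.pos a
    have hkt : 0 < k ^ t := pow_pos hk0 t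
    obtain ⟨c, hc⟩ := ih (j % k ^ t) (Nat.mod_lt _ hkt)
    have hb : j / k ^ t < k := by
      rw [Nat.div_lt_iff_lt_mul hkt]
      calc j < k ^ (t + 1) := hj
        _ = k * k ^ t := by ring
    have hlin : ∀ i : Fin (B + 1), ∃ al : ℕ → ZMod (p ^ B), ∀ N,
        (D.ee i (j / k ^ t + k * N) : ZMod (p ^ B)) =
        ∑ i' ∈ range (B + 1), al i' * (D.ee i' N : ZMod (p ^ B)) := fun i =>
      D.ee_lin hp hk ha hm B hB i (by omega) (j / k ^ t) hb
    choose al hal using hlin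
    refine ⟨fun i' => ∑ i : Fin (B + 1), c i * al i i'.1, fun n => ?_⟩
    have h1 : k ^ (t + 1) * n + j = k ^ t * (j / k ^ t + k * n) + j % k ^ t := by
      have h2 := Nat.div_add_mod j (k ^ t)
      calc k ^ (t + 1) * n + j = k ^ (t + 1) * n + (k ^ t * (j / k ^ t) + j % k ^ t) := by rw [h2]
        _ = _ := by ring
    rw [h1, hc]
    simp only [hal]
    simp only [Finset.sum_range fun i' => _, Finset.mul_sum, Finset.sum_mul]
    rw [Finset.sum_comm]
    apply Finset.sum_congr rfl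
    intro i' _
    apply Finset.sum_congr rfl
    intro i _
    ring

end Sys

theorem trunc_eq {p : ℕ} (hp : p.Prime) (B : ℕ) (hB : 1 ≤ B) (s : ℤ) (hs : s ≠ 0) :
    min (padicValInt p s : ℤ) B =
      if (s : ZMod (p ^ B)) = 0 then (B : ℤ) else
        (padicValNat p ((s : ZMod (p ^ B)).val) : ℤ) := by
  have : Fact p.Prime := ⟨hp⟩
  have hpB : (p ^ B : ℕ) ≠ 0 := pow_ne_zero _ hp.ne_zero
  have : NeZero (p ^ B) := ⟨hpB⟩
  by_cases h : (s : ZMod (p ^ B)) = 0
  · rw [if_pos h]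
    rw [ZMod.intCast_zmod_eq_zero_iff_dvd] at h
    have h1 : ((p : ℤ)) ^ B ∣ s := by exact_mod_cast h
    rcases (padicValInt_dvd_iff B s).1 h1 with h2 | h2
    · exact absurd h2 hs
    · rw [min_eq_right]
      exact_mod_cast h2
  · rw [if_neg h]
    set v := (s : ZMod (p ^ B)).val with hv
    have hv0 : v ≠ 0 := by
      intro h0
      apply h
      rwa [ZMod.val_eq_zero] at h0
    have hsv : ((p : ℤ)) ^ B ∣ s - v := by
      have h1 : ((s - v : ℤ) : ZMod (p ^ B)) = 0 := by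
        push_cast
        rw [hv, ZMod.natCast_zmod_val, sub_self]
      rw [ZMod.intCast_zmod_eq_zero_iff_dvd] at h1
      exact_mod_cast h1
    have hlt : padicValNat p v < B := by
      have h1 : p ^ padicValNat p v ∣ v := pow_padicValNat_dvd
      have h2 : p ^ padicValNat p v ≤ v := Nat.le_of_dvd (Nat.pos_of_ne_zero hv0) h1
      have h3 : v < p ^ B := ZMod.val_lt _
      exact (Nat.pow_lt_pow_iff_right hp.one_lt).1 (lt_of_le_of_lt h2 h3)
    have hkey : ∀ t, t ≤ B → ((p : ℤ) ^ t ∣ s ↔ (p : ℤ) ^ t ∣ (v : ℤ)) := by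
      intro t ht
      have h1 : (p : ℤ) ^ t ∣ s - v := (pow_dvd_pow _ ht).trans hsv
      constructor
      · intro h2
        have := dvd_sub h2 h1
        rwa [sub_sub_cancel] at this
      · intro h2
        have := dvd_add h1 h2
        rwa [sub_add_cancel] at this
    have hvi : ∀ t, (p : ℤ) ^ t ∣ (v : ℤ) ↔ t ≤ padicValNat p v := by
      intro t
      rw [← padicValNat_dvd_iff_le hv0]
      constructor
      · intro h2; exact_mod_cast h2
      · intro h2; exact_mod_cast h2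
    have hsi : ∀ t, (p : ℤ) ^ t ∣ s ↔ t ≤ padicValInt p s := by
      intro t
      rw [padicValInt_dvd_iff]
      constructor
      · rintro (h2 | h2)
        · exact absurd h2 hs
        · exact h2
      · intro h2; exact Or.inr h2
    have e1 : padicValInt p s = padicValNat p v := by
      apply le_antisymm
      · by_contra hcon
        push Not at hcon
        have h2 : (p : ℤ) ^ (padicValNat p v + 1) ∣ s := (hsi _).2 hcon
        have h3 := (hvi _).1 ((hkey _ hlt).1 h2)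
        omega
      · exact (hsi _).1 ((hkey _ hlt.le).2 ((hvi _).2 le_rfl))
    rw [e1, min_eq_left]
    exact_mod_cast hlt.le

/-- the truncated valuations are automatic -/
theorem trunc_auto (p a m : ℕ) (hp : p.Prime) (ha : 1 ≤ a) (hm : 1 ≤ m) (B : ℕ) :
    IsAutomatic p (fun n => min (V p a m n) B) := by
  rcases Nat.eq_zero_or_pos B with hB0 | hB
  · -- the sequence is constant zero
    subst hB0
    unfold IsAutomatic
    apply (Set.finite_singleton (fun _ : ℕ => (0 : ℤ))).subset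
    rintro f ⟨i, j, _, hf⟩
    rw [Set.mem_singleton_iff]
    funext n
    rw [hf n]
    have h1 : (0 : ℤ) ≤ V p a m (p ^ i * n + j) := by
      have hk2 : 2 ≤ p ^ a := by
        calc 2 ≤ p := hp.two_le
          _ = p ^ 1 := (pow_one p).symm
          _ ≤ p ^ a := Nat.pow_le_pow_right hp.pos (by omega)
      obtain ⟨D, hD⟩ := exists_sys (p ^ a) m hk2 hm
      unfold V
      rw [hD, padicValRat.of_int]
      positivity
    simp only [Nat.cast_zero]
    exact min_eq_right h1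
  have : Fact p.Prime := ⟨hp⟩
  have hpB : (p ^ B : ℕ) ≠ 0 := pow_ne_zero _ hp.ne_zero
  have : NeZero (p ^ B) := ⟨hpB⟩
  have hk2 : 2 ≤ p ^ a := by
    calc 2 ≤ p := hp.two_le
      _ = p ^ 1 := (pow_one p).symm
      _ ≤ p ^ a := Nat.pow_le_pow_right hp.pos (by omega)
  obtain ⟨D, hD⟩ := exists_sys (p ^ a) m hk2 hm
  have hpos : ∀ n, D.s n ≠ 0 := by
    intro n h
    have h1 := S_pos (p ^ a) m n hk2 hm
    rw [hD n, h] at h1
    norm_num at h1
  have hV : ∀ n, min (V p a m n) B = if (D.s n : ZMod (p ^ B)) = 0 then (B : ℤ) else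
        (padicValNat p ((D.s n : ZMod (p ^ B)).val) : ℤ) := by
    intro n
    rw [← trunc_eq hp B hB (D.s n) (hpos n)]
    unfold V
    rw [hD, padicValRat.of_int]
  unfold IsAutomatic
  have hfin : (Set.range (fun q : (Fin (B + 1) → ZMod (p ^ B)) × Fin a × Fin (p ^ a) =>
      (fun n : ℕ => if (∑ i : Fin (B + 1), q.1 i * (D.ee i (p ^ q.2.1.1 * n + q.2.2.1) : ZMod (p ^ B))) = 0
        then (B : ℤ) else (padicValNat p
          ((∑ i : Fin (B + 1), q.1 i * (D.ee i (p ^ q.2.1.1 * n + q.2.2.1) : ZMod (p ^ B))).val) : ℤ)))).Finite :=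
    Set.finite_range _
  apply hfin.subset
  rintro f ⟨i, j, hj, hf⟩
  have hdm : p ^ i = (p ^ a) ^ (i / a) * p ^ (i % a) := by
    rw [← pow_mul, ← pow_add, Nat.div_add_mod]
  have hkt : 0 < (p ^ a) ^ (i / a) := pow_pos (by omega) _
  obtain ⟨c, hc⟩ := D.s_sections hp rfl ha hm B hB (i / a) (j % (p ^ a) ^ (i / a)) (Nat.mod_lt _ hkt)
  have hj1 : j / (p ^ a) ^ (i / a) < p ^ a := by
    rw [Nat.div_lt_iff_lt_mul hkt]
    calc j < p ^ i := hj
      _ = (p ^ a) ^ (i / a) * p ^ (i % a) := hdm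
      _ ≤ (p ^ a) ^ (i / a) * p ^ a :=
        Nat.mul_le_mul_left _ (Nat.pow_le_pow_right hp.pos (Nat.mod_lt _ (by omega)).le)
      _ = p ^ a * (p ^ a) ^ (i / a) := mul_comm _ _
  refine ⟨⟨c, ⟨i % a, Nat.mod_lt _ (by omega)⟩, ⟨j / (p ^ a) ^ (i / a), hj1⟩⟩, ?_⟩
  funext n
  simp only
  have h1 : p ^ i * n + j = (p ^ a) ^ (i / a) * (p ^ (i % a) * n + j / (p ^ a) ^ (i / a)) +
      j % (p ^ a) ^ (i / a) := by
    have h2 := Nat.div_add_mod j ((p ^ a) ^ (i / a))
    calc p ^ i * n + j = p ^ i * n + ((p ^ a) ^ (i / a) * (j / (p ^ a) ^ (i / a)) +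
          j % (p ^ a) ^ (i / a)) := by rw [h2]
      _ = ((p ^ a) ^ (i / a) * p ^ (i % a)) * n + ((p ^ a) ^ (i / a) * (j / (p ^ a) ^ (i / a)) +
          j % (p ^ a) ^ (i / a)) := by rw [← hdm]
      _ = _ := by ring
  have hf' : f n = min (V p a m (p ^ i * n + j)) B := hf n
  rw [hf', hV, h1, hc]

theorem equivalence (p a m : ℕ) (hp : p.Prime) (ha : 1 ≤ a) (hm : 1 ≤ m) :
    IsAutomatic p (V p a m) ↔ IsBdd (V p a m) := by
  constructor
  · exact IsAutomatic.isBdd hp.two_le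
  · rintro ⟨B, hB⟩
    have h1 := trunc_auto p a m hp ha hm B.toNat
    have h2 : (fun n => min (V p a m n) (B.toNat : ℤ)) = V p a m := by
      funext n
      apply min_eq_left
      have h3 := hB n
      have h4 := le_abs_self (V p a m n)
      have h5 := Int.self_le_toNat B
      omega
    rwa [h2] at h1

end Pool.MP9acee6
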