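import Pool.Agent.H.MP_9acee6_nt.Basic

/-!
# The iteration lemma: arbitrarily high divisibility
-/

set_option autoImplicit false

open Polynomial Finset

namespace Pool.MP9acee6

namespace Sys

variable {p : ℕ} [Fact p.Prime] {a k m : ℕ}

theorem il_isUnit_iff (x : ℤ_[p]) : IsUnit x ↔ ¬ (p : ℤ_[p]) ∣ x := by
  rw [PadicInt.isUnit_iff, ← PadicInt.norm_lt_one_iff_dvd, not_lt]
  exact ⟨fun h => h.ge, fun h => le_antisymm (PadicInt.norm_le_one x) h⟩

theorem il_dvd_natCast (n : ℕ) (h : (p : ℤ_[p]) ∣ (n : ℤ_[p])) : p ∣ n := by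
  have h1 : ((p : ℤ_[p]) ^ 1) ∣ ((n : ℤ) : ℤ_[p]) := by
    rw [pow_one]; exact_mod_cast h
  rw [PadicInt.pow_p_dvd_int_iff, pow_one] at h1
  exact_mod_cast h1

theorem il_br_add (D : Sys k m) (f g : ℕ → ℤ_[p]) (N : ℕ) :
    D.br (fun y => f y + g y) N = D.br f N + D.br g N := by
  unfold br
  rw [← Finset.sum_add_distrib]
  exact Finset.sum_congr rfl fun y _ => by ring

theorem il_bk_add (D : Sys k m) (f g : ℕ → ℤ_[p]) (b N : ℕ) :
    D.bk (fun y => f y + g y) b N = D.bk f b N + D.bk g b N := by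
  unfold bk
  rw [← Finset.sum_add_distrib]
  exact Finset.sum_congr rfl fun y _ => by ring

theorem il_br_smul (D : Sys k m) (c : ℤ_[p]) (f : ℕ → ℤ_[p]) (N : ℕ) :
    D.br (fun y => c * f y) N = c * D.br f N := by
  unfold br
  rw [Finset.mul_sum]
  exact Finset.sum_congr rfl fun y _ => by ring

theorem il_divX_eval (P : ℤ_[p][X]) (x : ℤ_[p]) :
    P.eval x = P.eval 0 + x * P.divX.eval x := by
  conv_lhs => rw [← P.divX_mul_X_add]
  rw [eval_add, eval_mul, eval_X, eval_C, coeff_zero_eq_eval_zero]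
  ring

/-- the sequence `b_s` with `p ^ s ∣ G (b_s)` -/
theorem il_root (A r : ℤ_[p]) (R : ℤ_[p][X]) (hr : IsUnit r) (s : ℕ) :
    ∃ b : ℕ, (p : ℤ_[p]) ^ s ∣
      A + (b : ℤ_[p]) * (r + (p : ℤ_[p]) * R.eval (b : ℤ_[p])) := by
  induction s with
  | zero => exact ⟨0, by simp⟩
  | succ s ih =>
    obtain ⟨b, c, hc⟩ := ih
    obtain ⟨ru, rfl⟩ := hr
    set x : ℤ_[p] := -c * ((ru⁻¹ : ℤ_[p]ˣ) : ℤ_[p]) with hx
    have hxr : x * (ru : ℤ_[p]) = -c := by
      rw [hx, mul_assoc, Units.inv_mul, mul_one]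
    have happ := PadicInt.appr_spec 1 x
    rw [Ideal.mem_span_singleton, pow_one] at happ
    obtain ⟨z, hz⟩ := happ
    set t : ℕ := x.appr 1 with ht
    have hw := Polynomial.sub_dvd_eval_sub (((b + p ^ s * t : ℕ) : ℤ_[p])) (b : ℤ_[p]) (X * R)
    obtain ⟨w, hw⟩ := hw
    rw [eval_mul, eval_X, eval_mul, eval_X] at hw
    refine ⟨b + p ^ s * t, (t : ℤ_[p]) * w - z * (ru : ℤ_[p]), ?_⟩
    have hcast : ((b + p ^ s * t : ℕ) : ℤ_[p]) = (b : ℤ_[p]) + (p : ℤ_[p]) ^ s * (t : ℤ_[p]) := by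
      push_cast; ring
    have htx : (t : ℤ_[p]) = x - (p : ℤ_[p]) * z := by
      rw [← hz]; ring
    have hcc : c + (t : ℤ_[p]) * (ru : ℤ_[p]) = - (p : ℤ_[p]) * z * (ru : ℤ_[p]) := by
      rw [htx, sub_mul, hxr]; ring
    have hmul : ((b + p ^ s * t : ℕ) : ℤ_[p]) * R.eval ((b + p ^ s * t : ℕ) : ℤ_[p]) =
        (b : ℤ_[p]) * R.eval (b : ℤ_[p]) + (p : ℤ_[p]) ^ s * (t : ℤ_[p]) * w := by
      rw [hcast] at hw ⊢
      linear_combination hw
    calc A + ((b + p ^ s * t : ℕ) : ℤ_[p]) *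
          ((ru : ℤ_[p]) + (p : ℤ_[p]) * R.eval ((b + p ^ s * t : ℕ) : ℤ_[p]))
        = A + ((b + p ^ s * t : ℕ) : ℤ_[p]) * (ru : ℤ_[p]) + (p : ℤ_[p]) *
          (((b + p ^ s * t : ℕ) : ℤ_[p]) * R.eval ((b + p ^ s * t : ℕ) : ℤ_[p])) := by ring
      _ = A + ((b : ℤ_[p]) + (p : ℤ_[p]) ^ s * (t : ℤ_[p])) * (ru : ℤ_[p]) + (p : ℤ_[p]) *
          ((b : ℤ_[p]) * R.eval (b : ℤ_[p]) + (p : ℤ_[p]) ^ s * (t : ℤ_[p]) * w) := by
            rw [hmul, hcast]
      _ = (p : ℤ_[p]) ^ (s + 1) * ((t : ℤ_[p]) * w - z * (ru : ℤ_[p])) := by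
            rw [pow_succ]
            linear_combination hc + (p : ℤ_[p]) ^ s * hcc

theorem iteration (D : Sys k m) (hk : k = p ^ a) (ha : 2 ≤ a) (hm : 1 ≤ m)
    (hpm : ¬ p ∣ m + 1) (T : ℕ) : ∀ (A : ℤ_[p]) (Q : ℤ_[p][X]), IsUnit (Q.eval 0) →
    ∃ N : ℕ, (p : ℤ_[p]) ^ T ∣ D.br (fun y => A + (y : ℤ_[p]) * Q.eval ((p : ℤ_[p]) * (y : ℤ_[p]))) N := by
  have hp : p.Prime := Fact.out
  have hpp : Prime (p : ℤ_[p]) := PadicInt.prime_p
  induction T with
  | zero => intro A Q _; exact ⟨0, by simp⟩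
  | succ T ih =>
    intro A Q hQ
    obtain ⟨r, R, hr, htr⟩ := transfer D hk ha Q
    have hru : IsUnit r := by
      rw [il_isUnit_iff]
      intro hdiv
      have h1 : (p : ℤ_[p]) ∣ ((m + 1 : ℕ) : ℤ_[p]) * Q.eval (p : ℤ_[p]) := by
        rw [← hr]; exact Dvd.dvd.mul_left hdiv _
      rcases hpp.dvd_or_dvd h1 with h2 | h2
      · exact hpm (il_dvd_natCast _ h2)
      · have h3 := Polynomial.sub_dvd_eval_sub (p : ℤ_[p]) 0 Q
        rw [sub_zero] at h3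
        have h4 : (p : ℤ_[p]) ∣ Q.eval 0 := by
          have := dvd_sub h2 h3
          simpa using this
        exact (il_isUnit_iff _).mp hQ h4
    have hk0 : 0 < k := by rw [hk]; exact pow_pos hp.pos _
    -- the residue `b`
    obtain ⟨b0, hb0⟩ := il_root A r R hru a
    set b : ℕ := b0 % k with hbdef
    have hbk : b < k := Nat.mod_lt _ hk0
    have hGb : ∃ A' : ℤ_[p], A + (b : ℤ_[p]) * (r + (p : ℤ_[p]) * R.eval (b : ℤ_[p])) =
        (k : ℤ_[p]) * A' := by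
      have hkc : (k : ℤ_[p]) = (p : ℤ_[p]) ^ a := by rw [hk]; push_cast; rfl
      have h1 : (k : ℤ_[p]) ∣ (b0 : ℤ_[p]) - (b : ℤ_[p]) := by
        refine ⟨((b0 / k : ℕ) : ℤ_[p]), ?_⟩
        have := Nat.mod_add_div b0 k
        have h2 : (b0 : ℤ_[p]) = ((b0 % k + k * (b0 / k) : ℕ) : ℤ_[p]) := by rw [this]
        rw [h2, hbdef]; push_cast; ring
      have h2 := Polynomial.sub_dvd_eval_sub (b0 : ℤ_[p]) (b : ℤ_[p])
        (C A + X * (C r + C (p : ℤ_[p]) * R))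
      simp only [eval_add, eval_mul, eval_X, eval_C] at h2
      have h3 := h1.trans h2
      rw [← hkc] at hb0
      have h4 := dvd_sub hb0 h3
      rw [sub_sub_cancel] at h4
      exact h4
    obtain ⟨A', hA'⟩ := hGb
    -- Taylor expansion at `b`
    set H : ℤ_[p][X] := ((X * R).comp (X + C (b : ℤ_[p]))).divX with hH
    set G1 : ℤ_[p][X] := C r + C (p : ℤ_[p]) * H with hG1
    have hTaylor : ∀ x : ℤ_[p], A + ((b : ℤ_[p]) + x) *
        (r + (p : ℤ_[p]) * R.eval ((b : ℤ_[p]) + x)) = (k : ℤ_[p]) * A' + x * G1.eval x := by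
      intro x
      have h1 := il_divX_eval ((X * R).comp (X + C (b : ℤ_[p]))) x
      rw [← hH] at h1
      simp only [eval_comp, eval_mul, eval_X, eval_add, eval_C, zero_add] at h1
      rw [← hA', hG1]
      simp only [eval_add, eval_mul, eval_C]
      rw [add_comm x] at h1
      linear_combination (p : ℤ_[p]) * h1
    have hG1u : ¬ (p : ℤ_[p]) ∣ G1.eval 0 := by
      intro h
      rw [hG1] at h
      simp only [eval_add, eval_mul, eval_C] at h
      exact (il_isUnit_iff _).mp hru ((dvd_add_left (dvd_mul_right _ _)).mp h)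
    obtain ⟨P, -, hPu, hP⟩ := exists_P (m := m) hk (by omega : 1 ≤ a) b hbk
    obtain ⟨a', rfl⟩ : ∃ a', a = a' + 1 := ⟨a - 1, by omega⟩
    set k' : ℕ := p ^ a' with hk'
    have hkk' : (k : ℤ_[p]) = (p : ℤ_[p]) * (k' : ℤ_[p]) := by
      rw [hk, hk']; push_cast; ring
    set Q' : ℤ_[p][X] := C ((p : ℤ_[p]) * A') * P.divX + P * G1.comp (C (k' : ℤ_[p]) * X) with hQ'
    have hQ'u : IsUnit (Q'.eval 0) := by
      rw [il_isUnit_iff]
      intro h
      rw [hQ'] at h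
      simp only [eval_add, eval_mul, eval_C, eval_comp, eval_X, mul_zero] at h
      have h1 : (p : ℤ_[p]) ∣ P.eval 0 * G1.eval 0 := by
        refine (dvd_add_right ?_).mp h
        exact ⟨A' * P.divX.eval 0, by ring⟩
      rcases hpp.dvd_or_dvd h1 with h2 | h2
      · exact (il_isUnit_iff _).mp hPu h2
      · exact hG1u h2
    obtain ⟨N, hN⟩ := ih (A' * P.eval 0) Q' hQ'u
    refine ⟨b + k * N, ?_⟩
    have key : D.br (fun y => A + (y : ℤ_[p]) * Q.eval ((p : ℤ_[p]) * (y : ℤ_[p]))) (b + k * N) =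
        (k : ℤ_[p]) * D.br (fun y => A' * P.eval 0 +
          (y : ℤ_[p]) * Q'.eval ((p : ℤ_[p]) * (y : ℤ_[p]))) N := by
      rw [il_br_add D (fun _ => A), br_const D A b N hbk, htr b N hbk, ← il_bk_add,
        bk_eq_br D b P hP, ← il_br_smul]
      congr 1
      funext y
      have hP1 := il_divX_eval P ((p : ℤ_[p]) * (y : ℤ_[p]))
      have hT := hTaylor ((k : ℤ_[p]) * (y : ℤ_[p]))
      have hcast : ((b + k * y : ℕ) : ℤ_[p]) = (b : ℤ_[p]) + (k : ℤ_[p]) * (y : ℤ_[p]) := by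
        push_cast; ring
      have harg : (k' : ℤ_[p]) * ((p : ℤ_[p]) * (y : ℤ_[p])) = (k : ℤ_[p]) * (y : ℤ_[p]) := by
        rw [hkk']; ring
      rw [hcast, hQ']
      simp only [eval_add, eval_mul, eval_C, eval_comp, eval_X, harg]
      rw [hT]
      linear_combination (k : ℤ_[p]) * A' * hP1
    rw [key, pow_succ, mul_comm ((p : ℤ_[p]) ^ T)]
    exact mul_dvd_mul ⟨(k' : ℤ_[p]), hkk'⟩ hN

end Sys

end Pool.MP9acee6
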