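import Pool.Agent.H.MP_9acee6_nt.Lift
import Pool.Agent.H.MP_9acee6_nt.IL

/-!
# Valuations from the main formula
-/

set_option autoImplicit false

open Polynomial Finset

namespace Pool.MP9acee6

variable {p : ℕ} [Fact p.Prime] {a k m : ℕ}

theorem eval_unit_valuation {u : ℤ_[p]} (hu : IsUnit u) : u.valuation = 0 := by
  have hp1 : (1 : ℝ) < (p : ℝ) := by exact_mod_cast (Fact.out : p.Prime).one_lt
  have hu0 : u ≠ 0 := hu.ne_zero
  have h1 : ‖u‖ = 1 := PadicInt.isUnit_iff.1 hu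
  rw [PadicInt.norm_eq_zpow_neg_valuation hu0, zpow_eq_one_iff_right₀ (by linarith) hp1.ne'] at h1
  omega

theorem eval_valuation_int (x : ℤ) : (x : ℤ_[p]).valuation = padicValInt p x := by
  have h : (((x : ℤ_[p]) : ℚ_[p])).valuation = ((padicValInt p x : ℕ) : ℤ) := by
    rw [PadicInt.coe_intCast, Padic.valuation_intCast]
  rw [PadicInt.valuation_coe] at h
  exact_mod_cast h

theorem eval_valuation_nat (n : ℕ) : (n : ℤ_[p]).valuation = padicValNat p n := by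
  have h := eval_valuation_int (p := p) (n : ℤ)
  rw [Int.cast_natCast, padicValInt.of_nat] at h
  exact h

theorem eval_isUnit_nat {n : ℕ} (h : ¬ p ∣ n) : IsUnit (n : ℤ_[p]) := by
  rw [PadicInt.isUnit_iff, PadicInt.norm_natCast_eq_one_iff]
  exact (Nat.Prime.coprime_iff_not_dvd Fact.out).2 h

theorem eval_isUnit_add {u : ℤ_[p]} (hu : IsUnit u) (c : ℤ_[p]) :
    IsUnit (u + (p : ℤ_[p]) * c) := by
  rw [PadicInt.isUnit_iff] at hu ⊢
  have h1 : ‖(p : ℤ_[p]) * c‖ < 1 := by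
    rw [norm_mul, PadicInt.norm_p]
    have hp1 : (1 : ℝ) < (p : ℝ) := by exact_mod_cast (Fact.out : p.Prime).one_lt
    have h2 : (p : ℝ)⁻¹ < 1 := inv_lt_one_of_one_lt₀ hp1
    have h3 : 0 ≤ (p : ℝ)⁻¹ := by positivity
    calc (p : ℝ)⁻¹ * ‖c‖ ≤ (p : ℝ)⁻¹ * 1 := mul_le_mul_of_nonneg_left (PadicInt.norm_le_one c) h3
      _ < 1 := by rw [mul_one]; exact h2
  have h4 : ‖u + (p : ℤ_[p]) * c‖ = max ‖u‖ ‖(p : ℤ_[p]) * c‖ :=
    PadicInt.norm_add_eq_max_of_ne (by rw [hu]; exact h1.ne')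
  rw [h4, hu]
  exact max_eq_left h1.le

/-- bookkeeping: from an identity `(p^r u) x = m (p^d w)` with units `u`, `w` -/
theorem val_of_eq (hm : 1 ≤ m) (x : ℤ) (r d : ℕ) (u w : ℤ_[p]) (hu : IsUnit u) (hw : IsUnit w)
    (h : (p : ℤ_[p]) ^ r * u * (x : ℤ_[p]) = (m : ℤ_[p]) * ((p : ℤ_[p]) ^ d * w)) (hx : r ≤ d) :
    x ≠ 0 ∧ padicValInt p x = padicValNat p m + d - r := by
  have hp0 : (p : ℤ_[p]) ≠ 0 := by exact_mod_cast (Fact.out : p.Prime).ne_zero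
  have hm0 : (m : ℤ_[p]) ≠ 0 := by exact_mod_cast (by omega : m ≠ 0)
  have hx0 : x ≠ 0 := by
    rintro rfl
    rw [Int.cast_zero, mul_zero] at h
    exact mul_ne_zero hm0 (mul_ne_zero (pow_ne_zero _ hp0) hw.ne_zero) h.symm
  have hx0' : (x : ℤ_[p]) ≠ 0 := by exact_mod_cast hx0
  refine ⟨hx0, ?_⟩
  have hv := congrArg PadicInt.valuation h
  rw [PadicInt.valuation_mul (mul_ne_zero (pow_ne_zero _ hp0) hu.ne_zero) hx0',
    PadicInt.valuation_mul (pow_ne_zero _ hp0) hu.ne_zero,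
    PadicInt.valuation_mul hm0 (mul_ne_zero (pow_ne_zero _ hp0) hw.ne_zero),
    PadicInt.valuation_mul (pow_ne_zero _ hp0) hw.ne_zero, PadicInt.valuation_pow,
    PadicInt.valuation_pow, PadicInt.valuation_p, eval_unit_valuation hu, eval_unit_valuation hw,
    eval_valuation_int, eval_valuation_nat] at hv
  omega

/-- `km + b = p^r u` with a unit `u` -/
theorem eval_kmb (hk : k = p ^ a) (b : ℕ) (hb0 : 0 < b) (hb : b < k) :
    padicValNat p b < a ∧ ∃ u : ℤ_[p], IsUnit u ∧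
      ((k * m + b : ℕ) : ℤ_[p]) = (p : ℤ_[p]) ^ padicValNat p b * u := by
  have hp := (Fact.out : p.Prime)
  set r := padicValNat p b with hr
  have hdvd : p ^ r ∣ b := pow_padicValNat_dvd
  have hra : r < a := by
    by_contra hcon
    have h1 : k ∣ b := by
      rw [hk]
      exact (pow_dvd_pow p (not_lt.1 hcon)).trans hdvd
    exact absurd (Nat.le_of_dvd hb0 h1) (not_le.2 hb)
  obtain ⟨b', hb'⟩ := hdvd
  have hpb' : ¬ p ∣ b' := by
    intro h1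
    have h2 : p ^ (r + 1) ∣ b := by
      rw [hb', pow_succ]
      exact Nat.mul_dvd_mul_left _ h1
    exact pow_succ_padicValNat_not_dvd hb0.ne' h2
  refine ⟨hra, ((b' + p ^ (a - r) * m : ℕ) : ℤ_[p]), ?_, ?_⟩
  · apply eval_isUnit_nat
    intro h1
    apply hpb'
    have h2 : p ∣ p ^ (a - r) * m := Dvd.dvd.mul_right (dvd_pow_self p (by omega)) m
    exact (Nat.dvd_add_left h2).1 h1
  · have e : k * m + b = p ^ r * (b' + p ^ (a - r) * m) := by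
      have e1 : k = p ^ r * p ^ (a - r) := by
        rw [hk, ← pow_add]
        congr 1
        omega
      conv_lhs => rw [hb', e1]
      ring
    rw [e]
    push_cast
    ring

namespace Sys

/-- the main formula with an evaluated bracket -/
theorem eval_aux (D : Sys k m) (hm : 1 ≤ m) (b : ℕ)
    (hb0 : 0 < b) (hb : b < k) (i : ℕ) (Ψ : ℤ_[p][X]) (hi : D.Rep i (m : ℤ_[p]) Ψ)
    (P : ℤ_[p][X])
    (hP : ∀ y : ℕ, ((k * m + b : ℕ) : ℤ_[p]) * ((k * m + b + k * y).choose (k * m) : ℤ_[p]) =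
      ((m + y).choose m : ℤ_[p]) * ((k * m + b + k * y : ℕ) : ℤ_[p]) *
        P.eval ((p : ℤ_[p]) * (y : ℤ_[p])))
    (d : ℕ) (g g' : ℕ → ℤ_[p])
    (hf' : ∀ y : ℕ, (k : ℤ_[p]) + ((k * m + b + k * y : ℕ) : ℤ_[p]) *
      ((b + k * y : ℕ) : ℤ_[p]) * Ψ.eval ((b + k * y : ℕ) : ℤ_[p]) =
        (p : ℤ_[p]) ^ d * g y)
    (hg : ∀ y : ℕ, P.eval ((p : ℤ_[p]) * (y : ℤ_[p])) * g y = g' y) (N : ℕ) :
    ((k * m + b : ℕ) : ℤ_[p]) * (D.s (k ^ i * (b + k * N)) : ℤ_[p]) =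
      (m : ℤ_[p]) * ((p : ℤ_[p]) ^ d * D.br g' N) := by
  rw [D.main_formula hm b hb0 hb P hP i Ψ hi N]
  unfold br
  rw [mul_sum, mul_sum]
  refine sum_congr rfl fun y _ => ?_
  beta_reduce
  rw [hf' y, ← hg y]
  ring

/-- if the bracket in the main formula is `p^d f(p y)` with `f(0)` a unit, then
`ν_p(s(k^i(b+kN))) = ν_p(m) + d - r` -/
theorem eval_main (D : Sys k m) (hk : k = p ^ a) (ha : 2 ≤ a) (hm : 1 ≤ m) (b : ℕ)
    (hb0 : 0 < b) (hb : b < k) (i : ℕ) (Ψ : ℤ_[p][X]) (hi : D.Rep i (m : ℤ_[p]) Ψ)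
    (d : ℕ) (hd : padicValNat p b ≤ d) (f : ℤ_[p][X]) (hf : IsUnit (f.eval 0))
    (hf' : ∀ y : ℕ, (k : ℤ_[p]) + ((k * m + b + k * y : ℕ) : ℤ_[p]) *
      ((b + k * y : ℕ) : ℤ_[p]) * Ψ.eval ((b + k * y : ℕ) : ℤ_[p]) =
        (p : ℤ_[p]) ^ d * f.eval ((p : ℤ_[p]) * (y : ℤ_[p]))) (N : ℕ) :
    D.s (k ^ i * (b + k * N)) ≠ 0 ∧ padicValInt p (D.s (k ^ i * (b + k * N))) =
      padicValNat p m + d - padicValNat p b := by
  obtain ⟨P, hP0, hP⟩ := exists_P' (p := p) (a := a) (k := k) (m := m) hk (by omega) hm b hb0 hb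
  obtain ⟨-, u, hu, hkm⟩ := eval_kmb (p := p) (a := a) (k := k) (m := m) hk b hb0 hb
  have h1 := D.eval_aux hm b hb0 hb i Ψ hi P hP d _
    (fun y => (P * f).eval ((p : ℤ_[p]) * (y : ℤ_[p]))) hf'
    (fun y => by simp only [eval_mul]) N
  obtain ⟨c, hc⟩ := D.br_mod (p := p) hk (by omega) hm (P * f) N
  rw [hkm, hc] at h1
  exact val_of_eq hm _ _ d u _ hu
    (eval_isUnit_add (by rw [eval_mul]; exact hP0.mul hf) c) h1 hd

/-- the case `i = 0` -/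
theorem eval_zero (D : Sys k m) (hk : k = p ^ a) (ha : 2 ≤ a) (hm : 1 ≤ m) (b : ℕ)
    (hb0 : 0 < b) (hb : b < k) (N : ℕ) :
    D.s (b + k * N) ≠ 0 ∧ padicValInt p (D.s (b + k * N)) =
      padicValNat p m + a - padicValNat p b := by
  obtain ⟨hra, -⟩ := eval_kmb (p := p) (a := a) (k := k) (m := m) hk b hb0 hb
  have hrep : D.Rep 0 (m : ℤ_[p]) 0 := by
    intro b N _
    rw [pow_zero, one_mul, sub_self]
    unfold bk
    symm
    apply sum_eq_zero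
    intro y _
    simp
  have h := D.eval_main hk ha hm b hb0 hb 0 0 hrep a hra.le 1 (by simp)
    (fun y => by rw [hk]; push_cast; simp) N
  rw [pow_zero, one_mul] at h
  exact h

/-- unboundedness: the bracket is `p^d (A + y Q(p y))`, `Q(0)` a unit, `p ∤ m + 1` -/
theorem unbounded_main (D : Sys k m) (hk : k = p ^ a) (ha : 2 ≤ a) (hm : 1 ≤ m)
    (hpm : ¬ p ∣ m + 1) (b : ℕ)
    (hb0 : 0 < b) (hb : b < k) (i : ℕ) (Ψ : ℤ_[p][X]) (hi : D.Rep i (m : ℤ_[p]) Ψ)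
    (d : ℕ) (A : ℤ_[p]) (Q : ℤ_[p][X]) (hQ : IsUnit (Q.eval 0))
    (hf' : ∀ y : ℕ, (k : ℤ_[p]) + ((k * m + b + k * y : ℕ) : ℤ_[p]) *
      ((b + k * y : ℕ) : ℤ_[p]) * Ψ.eval ((b + k * y : ℕ) : ℤ_[p]) =
        (p : ℤ_[p]) ^ d * (A + (y : ℤ_[p]) * Q.eval ((p : ℤ_[p]) * (y : ℤ_[p])))) (T : ℕ) :
    ∃ n : ℕ, 1 ≤ n ∧ (p : ℤ) ^ T ∣ D.s n := by
  obtain ⟨P, hP0, hP⟩ := exists_P' (p := p) (a := a) (k := k) (m := m) hk (by omega) hm b hb0 hb
  obtain ⟨-, u, hu, hkm⟩ := eval_kmb (p := p) (a := a) (k := k) (m := m) hk b hb0 hb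
  have hp0 : (p : ℤ_[p]) ≠ 0 := by exact_mod_cast (Fact.out : p.Prime).ne_zero
  obtain ⟨N, c, hc⟩ := D.iteration (p := p) hk ha hm hpm (T + padicValNat p b)
    (A * P.coeff 0) (C ((p : ℤ_[p]) * A) * P.divX + P * Q) (by
      have e : (C ((p : ℤ_[p]) * A) * P.divX + P * Q).eval 0 =
          P.eval 0 * Q.eval 0 + (p : ℤ_[p]) * (A * P.divX.eval 0) := by
        simp only [eval_add, eval_mul, eval_C]
        ring
      rw [e]
      exact eval_isUnit_add (hP0.mul hQ) _)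
  have h1 := D.eval_aux hm b hb0 hb i Ψ hi P hP d
    (fun y => A + (y : ℤ_[p]) * Q.eval ((p : ℤ_[p]) * (y : ℤ_[p])))
    (fun y => A * P.coeff 0 + (y : ℤ_[p]) *
      (C ((p : ℤ_[p]) * A) * P.divX + P * Q).eval ((p : ℤ_[p]) * (y : ℤ_[p]))) hf'
    (fun y => by
      have e := congrArg (fun R : ℤ_[p][X] => R.eval ((p : ℤ_[p]) * (y : ℤ_[p])))
        (divX_mul_X_add P)
      simp only [eval_add, eval_mul, eval_C, eval_X] at e ⊢
      rw [← e]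
      ring) N
  rw [hc, hkm] at h1
  refine ⟨k ^ i * (b + k * N), ?_, ?_⟩
  · have hk0 : 0 < k := by omega
    have : 0 < k ^ i * (b + k * N) := by positivity
    omega
  · have h2 : (p : ℤ_[p]) ^ T ∣ (D.s (k ^ i * (b + k * N)) : ℤ_[p]) := by
      have h3 : (p : ℤ_[p]) ^ padicValNat p b * (u * (D.s (k ^ i * (b + k * N)) : ℤ_[p])) =
          (p : ℤ_[p]) ^ padicValNat p b * ((p : ℤ_[p]) ^ T * ((m : ℤ_[p]) *
            ((p : ℤ_[p]) ^ d * c))) := by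
        rw [← mul_assoc, h1, pow_add]
        ring
      have h4 := mul_left_cancel₀ (pow_ne_zero _ hp0) h3
      exact hu.dvd_mul_left.1 ⟨_, h4⟩
    exact (PadicInt.pow_p_dvd_int_iff T _).1 h2

end Sys

end Pool.MP9acee6
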