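import Mathlib
import Pool.Agent.H.MP_9acee6_nt.Defs

set_option autoImplicit false

namespace Pool.MP9acee6

/-- the critical condition for odd `p` -/
def CritOdd (p a m : ℕ) : Prop :=
  ∃ e q : ℕ, m * (m + 1) * Aint p = p ^ e * q ∧ ¬ p ∣ q ∧ e + 1 ≤ a ∧ 2 ∣ a - (e + 1) ∧
    IsSquare (q : ZMod p)

end Pool.MP9acee6
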