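import Pool.Agent.H.MP_9acee6_nt.OddPsi
import Pool.Agent.H.MP_9acee6_nt.Eval
import Pool.Agent.H.MP_9acee6_nt.OddCrit

/-!
# Odd primes: unboundedness
-/

set_option autoImplicit false

open Polynomial Finset

namespace Pool.MP9acee6

variable {p : ℕ} [Fact p.Prime] {a k m : ℕ}

theorem odd_unb_unit_iff (z : ℤ_[p]) : IsUnit z ↔ PadicInt.toZMod z ≠ 0 := by
  rw [ne_eq, ← RingHom.mem_ker, PadicInt.ker_toZMod, IsLocalRing.mem_maximalIdeal, mem_nonunits_iff,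
    not_not]

theorem odd_unb_toZMod_p : PadicInt.toZMod (p : ℤ_[p]) = 0 := by
  rw [map_natCast]; exact ZMod.natCast_self p

/-- a root modulo `p^s` by Hensel's lemma -/
theorem odd_unb_root (hp : p ≠ 2) (q : ℕ) (hq : ¬ p ∣ q) (hsq : IsSquare (q : ZMod p))
    (A x : ℤ_[p]) (hA : A = - (q : ℤ_[p]) + (p : ℤ_[p]) * x) (S : ℤ_[p][X]) (s : ℕ) (hs : 1 ≤ s) :
    ∃ u : ℕ, u < p ^ s ∧ ¬ p ∣ u ∧
      (p : ℤ_[p]) ^ s ∣ (1 + C A * X ^ 2 + C (p : ℤ_[p]) * S).eval (u : ℤ_[p]) ∧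
      IsUnit ((derivative (1 + C A * X ^ 2 + C (p : ℤ_[p]) * S)).eval (u : ℤ_[p])) := by
  set θ : ℤ_[p][X] := 1 + C A * X ^ 2 + C (p : ℤ_[p]) * S with hθ
  obtain ⟨w, hw⟩ := hsq
  have hq0 : (q : ZMod p) ≠ 0 := by
    rw [ne_eq, ZMod.natCast_eq_zero_iff]; exact hq
  have hw0 : w ≠ 0 := by
    rintro rfl; simp at hw; exact hq0 hw
  have hpA : PadicInt.toZMod A = -(q : ZMod p) := by
    rw [hA, map_add, map_mul, odd_unb_toZMod_p, zero_mul, add_zero, map_neg, map_natCast]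
  have hev : ∀ v : ℤ_[p], PadicInt.toZMod (θ.eval v) =
      1 - (q : ZMod p) * (PadicInt.toZMod v) ^ 2 := by
    intro v
    rw [hθ]
    simp only [eval_add, eval_one, eval_mul, eval_C, eval_pow, eval_X, map_add, map_one, map_mul,
      map_pow, hpA, odd_unb_toZMod_p]
    ring
  have hder : ∀ v : ℤ_[p], PadicInt.toZMod ((derivative θ).eval v) =
      - 2 * (q : ZMod p) * (PadicInt.toZMod v) := by
    intro v
    rw [hθ]
    simp only [derivative_one, derivative_mul, derivative_C, derivative_X_pow,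
      eval_add, eval_mul, eval_C, eval_pow, eval_X, map_add, map_mul, eval_zero,
      map_pow, hpA, odd_unb_toZMod_p, map_zero]
    have h2' : PadicInt.toZMod (2 : ℤ_[p]) = 2 := map_ofNat _ 2
    simp [h2']
    ring
  have h20 : (2 : ZMod p) ≠ 0 := by
    have : ((2 : ℕ) : ZMod p) ≠ 0 := by
      rw [ne_eq, ZMod.natCast_eq_zero_iff]
      intro h
      exact hp ((Nat.prime_dvd_prime_iff_eq Fact.out Nat.prime_two).mp h)
    simpa using this
  have hunit : ∀ v : ℤ_[p], PadicInt.toZMod v ≠ 0 → IsUnit ((derivative θ).eval v) := by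
    intro v hv
    rw [odd_unb_unit_iff, hder]
    exact mul_ne_zero (mul_ne_zero (neg_ne_zero.mpr h20) hq0) hv
  let v0 : ℤ_[p] := ((w⁻¹).val : ℕ)
  have hv0 : PadicInt.toZMod v0 = w⁻¹ := by
    show PadicInt.toZMod (((w⁻¹).val : ℕ) : ℤ_[p]) = w⁻¹
    rw [map_natCast, ZMod.natCast_zmod_val]
  have hv0' : PadicInt.toZMod v0 ≠ 0 := by rw [hv0]; exact inv_ne_zero hw0
  have hroot : PadicInt.toZMod (θ.eval v0) = 0 := by
    rw [hev, hv0, hw]
    field_simp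
    ring
  have hd1 : ‖aeval v0 (derivative θ)‖ = 1 := by
    have := hunit v0 hv0'
    rw [PadicInt.isUnit_iff] at this
    simpa [Polynomial.aeval_def, eval₂_eq_eval_map] using this
  have hlt : ∀ z : ℤ_[p], PadicInt.toZMod z = 0 → ‖z‖ < 1 := by
    intro z hz
    by_contra hcon
    have h1 : ‖z‖ = 1 := le_antisymm (PadicInt.norm_le_one z) (not_lt.mp hcon)
    have h2 : IsUnit z := PadicInt.isUnit_iff.mpr h1
    exact (odd_unb_unit_iff z).mp h2 hz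
  have hlt' : ∀ z : ℤ_[p], ‖z‖ < 1 → PadicInt.toZMod z = 0 := by
    intro z hz
    by_contra hcon
    have := PadicInt.isUnit_iff.mp ((odd_unb_unit_iff z).mpr hcon)
    rw [this] at hz
    exact lt_irrefl _ hz
  have hnorm : ‖aeval v0 θ‖ < ‖aeval v0 (derivative θ)‖ ^ 2 := by
    rw [hd1, one_pow]
    have := hlt _ hroot
    simpa [Polynomial.aeval_def, eval₂_eq_eval_map] using this
  obtain ⟨z, hz, hz1, -, -⟩ := hensels_lemma hnorm
  rw [hd1] at hz1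
  have hz0 : PadicInt.toZMod z = PadicInt.toZMod v0 := by
    have := hlt' _ hz1
    rw [map_sub, sub_eq_zero] at this
    exact this
  have hzev : θ.eval z = 0 := by
    simpa [Polynomial.aeval_def, eval₂_eq_eval_map] using hz
  have hdz : (p : ℤ_[p]) ^ s ∣ z - (z.appr s : ℤ_[p]) :=
    Ideal.mem_span_singleton.mp (PadicInt.appr_spec s z)
  have huz : PadicInt.toZMod ((z.appr s : ℕ) : ℤ_[p]) = PadicInt.toZMod z := by
    obtain ⟨c, hc⟩ := hdz
    have h := congrArg (PadicInt.toZMod (p := p)) hc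
    rw [map_sub, map_mul, map_pow, odd_unb_toZMod_p, zero_pow (by omega), zero_mul,
      sub_eq_zero] at h
    exact h.symm
  refine ⟨z.appr s, PadicInt.appr_lt z s, ?_, ?_, ?_⟩
  · intro hdiv
    have h : PadicInt.toZMod ((z.appr s : ℕ) : ℤ_[p]) = 0 := by
      rw [map_natCast, ZMod.natCast_eq_zero_iff]; exact hdiv
    rw [huz, hz0] at h
    exact hv0' h
  · have h1 := Polynomial.sub_dvd_eval_sub z ((z.appr s : ℕ) : ℤ_[p]) θ
    have h2 := hdz.trans h1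
    rw [hzev, zero_sub, dvd_neg] at h2
    exact h2
  · apply hunit
    rw [huz, hz0]
    exact hv0'

theorem odd_unb (hp : p ≠ 2) (hk : k = p ^ a) (ha : 2 ≤ a) (hm : 1 ≤ m)
    (hA : a ≤ 3 ∨ ¬ p ^ 3 ∣ Aint p) (hc : CritOdd p a m) (hpm : ¬ p ∣ m + 1) (D : Sys k m)
    (T : ℕ) : ∃ n : ℕ, 1 ≤ n ∧ (p : ℤ) ^ T ∣ D.s n := by
  have hpp : p.Prime := Fact.out
  obtain ⟨e, q, hX, hq, he, h2, hsq⟩ := hc
  obtain ⟨r, hr⟩ := h2
  have hq0 : q ≠ 0 := fun h => hq (h ▸ dvd_zero p)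
  have hval : padicValNat p (m * (m + 1) * Aint p) = e := by
    rw [hX, padicValNat.mul (pow_pos hpp.pos e).ne' hq0, padicValNat.prime_pow,
      padicValNat.eq_zero_of_not_dvd hq, add_zero]
  obtain ⟨-, h3⟩ := odd_psi hp hk ha hm hA D (e + 1) (by rw [hval])
  obtain ⟨A, x, R, hRep, hAx⟩ := h3 he
  have hp0 : (p : ℤ_[p]) ≠ 0 := by
    exact_mod_cast hpp.ne_zero
  have hA' : A = - (q : ℤ_[p]) + (p : ℤ_[p]) * x := by
    have h4 : (p : ℤ_[p]) ^ (e + 1) * A = (p : ℤ_[p]) ^ (e + 1) * (- (q : ℤ_[p]) + (p : ℤ_[p]) * x) := by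
      rw [hAx, hX]
      push_cast
      ring
    exact mul_left_cancel₀ (pow_ne_zero _ hp0) h4
  have haa : a = (e + 1) + 2 * r := by omega
  -- the polynomial
  let s : ℕ := e + 1 + r
  let R' : ℤ_[p][X] := R.comp (C ((p : ℤ_[p]) ^ r) * X)
  let S : ℤ_[p][X] := C (A * (p : ℤ_[p]) ^ (e + r) * (m : ℤ_[p])) * X +
    X * (X + C ((p : ℤ_[p]) ^ s * (m : ℤ_[p]))) * R'
  obtain ⟨u, hu1, hu2, hu3, hu4⟩ := odd_unb_root hp q hq hsq A x hA' S s (by omega)
  set θ : ℤ_[p][X] := 1 + C A * X ^ 2 + C (p : ℤ_[p]) * S with hθ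
  have hθev : ∀ v : ℤ_[p], θ.eval v = 1 + v * (v + (p : ℤ_[p]) ^ s * (m : ℤ_[p])) *
      (A + (p : ℤ_[p]) * R.eval ((p : ℤ_[p]) ^ r * v)) := by
    intro v
    show (1 + C A * X ^ 2 + C (p : ℤ_[p]) * (C (A * (p : ℤ_[p]) ^ (e + r) * (m : ℤ_[p])) * X +
      X * (X + C ((p : ℤ_[p]) ^ s * (m : ℤ_[p]))) * (R.comp (C ((p : ℤ_[p]) ^ r) * X)))).eval v = _
    simp only [eval_add, eval_one, eval_mul, eval_C, eval_pow, eval_X, eval_comp]
    have hs : (p : ℤ_[p]) ^ s = (p : ℤ_[p]) ^ (e + r) * (p : ℤ_[p]) := by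
      rw [← pow_succ]; congr 1; show e + 1 + r = e + r + 1; omega
    rw [hs]
    ring
  obtain ⟨A1, hA1⟩ := hu3
  let g : ℤ_[p][X] := taylor (u : ℤ_[p]) θ
  let Q : ℤ_[p][X] := (divX g).comp (C ((p : ℤ_[p]) ^ (e + r)) * X)
  have hQ0 : Q.eval 0 = (derivative θ).eval (u : ℤ_[p]) := by
    show ((divX g).comp (C ((p : ℤ_[p]) ^ (e + r)) * X)).eval 0 = _
    rw [eval_comp]
    simp only [eval_mul, eval_C, eval_X, mul_zero]
    rw [← coeff_zero_eq_eval_zero, coeff_divX]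
    exact taylor_coeff_one _ _
  have hu0 : 0 < u := Nat.pos_of_ne_zero (fun h => hu2 (h ▸ dvd_zero p))
  have hshift : ∀ t : ℤ_[p], θ.eval ((u : ℤ_[p]) + t) = (divX g).eval t * t + (p : ℤ_[p]) ^ s * A1 := by
    intro t
    have h5 : g.eval t = θ.eval (t + (u : ℤ_[p])) := taylor_eval _ _ _
    rw [add_comm (u : ℤ_[p]) t, ← h5]
    conv_lhs => rw [← divX_mul_X_add g]
    simp only [eval_add, eval_mul, eval_X, eval_C]
    congr 1
    rw [← hA1]
    exact taylor_coeff_zero _ _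
  have hRep' : D.Rep 1 (m : ℤ_[p]) (C ((p : ℤ_[p]) ^ (e + 1)) * (C A + C (p : ℤ_[p]) * R)) := by
    intro b N hb
    rw [hRep b N hb]
    congr 1
    funext y
    simp only [eval_mul, eval_C, eval_add]
    ring
  refine D.unbounded_main hk ha hm hpm (p ^ r * u) (Nat.mul_pos (pow_pos hpp.pos r) hu0) ?_ 1
    (C ((p : ℤ_[p]) ^ (e + 1)) * (C A + C (p : ℤ_[p]) * R)) hRep' (a + s) A1 Q
    (by rw [hQ0]; exact hu4) ?_ T
  · rw [hk, haa]
    calc p ^ r * u < p ^ r * p ^ s := Nat.mul_lt_mul_of_pos_left hu1 (pow_pos hpp.pos r)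
      _ = p ^ (e + 1 + 2 * r) := by
        rw [← pow_add]; congr 1; show r + (e + 1 + r) = _; omega
  · intro y
    have hk' : (k : ℤ_[p]) = (p : ℤ_[p]) ^ r * (p : ℤ_[p]) ^ s := by
      rw [hk, haa, ← pow_add]
      push_cast
      congr 1
      show e + 1 + 2 * r = r + (e + 1 + r)
      omega
    have hk2 : (k : ℤ_[p]) = (p : ℤ_[p]) ^ r * (p : ℤ_[p]) ^ r * (p : ℤ_[p]) ^ (e + 1) := by
      rw [hk, haa, ← pow_add, ← pow_add]
      push_cast
      congr 1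
      omega
    have hak : (p : ℤ_[p]) ^ (a + s) = (k : ℤ_[p]) * (p : ℤ_[p]) ^ s := by
      rw [pow_add, hk]; push_cast; rfl
    have hb1 : ((p ^ r * u + k * y : ℕ) : ℤ_[p]) =
        (p : ℤ_[p]) ^ r * ((u : ℤ_[p]) + (p : ℤ_[p]) ^ s * (y : ℤ_[p])) := by
      push_cast
      rw [hk']
      ring
    have hb2 : ((k * m + p ^ r * u + k * y : ℕ) : ℤ_[p]) =
        (p : ℤ_[p]) ^ r * ((u : ℤ_[p]) + (p : ℤ_[p]) ^ s * (y : ℤ_[p]) +
          (p : ℤ_[p]) ^ s * (m : ℤ_[p])) := by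
      push_cast
      rw [hk']
      ring
    have hL : (k : ℤ_[p]) + ((k * m + p ^ r * u + k * y : ℕ) : ℤ_[p]) *
        ((p ^ r * u + k * y : ℕ) : ℤ_[p]) *
        (C ((p : ℤ_[p]) ^ (e + 1)) * (C A + C (p : ℤ_[p]) * R)).eval
          ((p ^ r * u + k * y : ℕ) : ℤ_[p]) =
        (k : ℤ_[p]) * θ.eval ((u : ℤ_[p]) + (p : ℤ_[p]) ^ s * (y : ℤ_[p])) := by
      rw [hθev, hb1, hb2]
      simp only [eval_mul, eval_C, eval_add]
      rw [hk2]
      ring
    rw [hL, hshift, hak]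
    have hQy : Q.eval ((p : ℤ_[p]) * (y : ℤ_[p])) =
        (divX g).eval ((p : ℤ_[p]) ^ s * (y : ℤ_[p])) := by
      show ((divX g).comp (C ((p : ℤ_[p]) ^ (e + r)) * X)).eval _ = _
      rw [eval_comp]
      simp only [eval_mul, eval_C, eval_X]
      congr 1
      have hs : (p : ℤ_[p]) ^ s = (p : ℤ_[p]) ^ (e + r) * (p : ℤ_[p]) := by
        rw [← pow_succ]; congr 1; show e + 1 + r = e + r + 1; omega
      rw [hs]
      ring
    rw [hQy]
    ring

end Pool.MP9acee6
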