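import Mathlib

set_option autoImplicit false

namespace Pool.MP9acee6

/-- the value of `α mod 8` which decides the critical case -/
def alph (a v m' i : ℕ) : ℕ :=
  if a = 2 then (if i = 1 then m' else m' + 4) % 8
  else if v + 1 = a ∨ v = 1 then m' % 8 else 3 * m' % 8

end Pool.MP9acee6
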