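import Pool.Agent.H.MP_9acee6_nt.TwoRep
import Pool.Agent.H.MP_9acee6_nt.TwoCrit
import Pool.Agent.H.MP_9acee6_nt.Eval

/-!
# `p = 2`, `m` even: valuations
-/

set_option autoImplicit false

open Polynomial Finset

namespace Pool.MP9acee6

variable {a k m : ℕ}

theorem twoeval_unit_iff (z : ℤ_[2]) : IsUnit z ↔ ¬ (2 : ℤ_[2]) ∣ z := by
  have h2 : ((2 : ℕ) : ℤ_[2]) = 2 := by norm_num
  rw [PadicInt.isUnit_iff, ← h2, ← PadicInt.norm_lt_one_iff_dvd, not_lt]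
  exact ⟨fun h => h.ge, fun h => le_antisymm (PadicInt.norm_le_one z) h⟩

theorem twoeval_unit_add {z : ℤ_[2]} (hz : IsUnit z) (w : ℤ_[2]) :
    IsUnit (z + 2 * w) := by
  rw [twoeval_unit_iff] at hz ⊢
  intro h
  exact hz ((dvd_add_left (dvd_mul_right _ _)).1 h)

theorem twoeval_unit_odd (w : ℤ_[2]) : IsUnit (1 + 2 * w) := twoeval_unit_add isUnit_one w

theorem twoeval_scale (D : Sys k m) (i : ℕ) (c d : ℤ_[2]) (Ψ : ℤ_[2][X])
    (h : D.Rep i (c * d) Ψ) : D.Rep i c (C d * Ψ) := by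
  intro b N hb
  rw [h b N hb]
  congr 1
  funext y
  rw [eval_mul, eval_C]
  ring

theorem twoeval_case2 (D : Sys k m) (hk : k = 2 ^ a) (ha : 2 ≤ a) (hm : 1 ≤ m) (i : ℕ)
    (W : ℕ) (A : ℤ_[2]) (R2 : ℤ_[2][X])
    (hR : D.Rep i ((m : ℤ_[2]) * 2 ^ W) (C A + C 2 * R2)) (hA : IsUnit A)
    (r u : ℕ) (hu : ¬ 2 ∣ u) (hne : W + 2 * r ≠ a)
    (b : ℕ) (hb0 : 0 < b) (hb : b < k) (hbr : b = 2 ^ r * u) (hrv : padicValNat 2 b = r)
    (hr : r < a) (N : ℕ) :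
    D.s (k ^ i * (b + k * N)) ≠ 0 ∧ padicValInt 2 (D.s (k ^ i * (b + k * N))) =
      padicValNat 2 m + min (a - r) (W + r) := by
  obtain ⟨k', hk'⟩ : ∃ k' : ℕ, k = 2 * k' := by
    refine ⟨2 ^ (a - 1), ?_⟩
    rw [hk, ← pow_succ']
    congr 1
    omega
  have h1 := twoeval_scale D i _ _ _ hR
  have h2c : ((2 : ℕ) : ℤ_[2]) = 2 := by norm_num
  set g : ℤ_[2][X] := (C ((u : ℤ_[2]) + (2 : ℤ_[2]) ^ (a - r) * (m : ℤ_[2])) +
      C ((2 : ℤ_[2]) ^ (a - r - 1)) * X) * (C (u : ℤ_[2]) + C ((2 : ℤ_[2]) ^ (a - r - 1)) * X) *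
      (C A + C (2 : ℤ_[2]) * R2.comp (C (b : ℤ_[2]) + C (k' : ℤ_[2]) * X)) with hg
  have hu1 : IsUnit (u : ℤ_[2]) := asc_isUnit_nat hu
  have hpr : (2 : ℤ_[2]) ^ (a - r) = (2 : ℤ_[2]) * (2 : ℤ_[2]) ^ (a - r - 1) := by
    rw [← pow_succ']
    congr 1
    omega
  have hg0 : g.eval 0 = (u : ℤ_[2]) * (u : ℤ_[2]) * A + (2 : ℤ_[2]) *
      ((2 : ℤ_[2]) ^ (a - r - 1) * (m : ℤ_[2]) * (u : ℤ_[2]) * A +
        ((u : ℤ_[2]) + (2 : ℤ_[2]) ^ (a - r) * (m : ℤ_[2])) * (u : ℤ_[2]) *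
          R2.eval (b : ℤ_[2])) := by
    rw [hg]
    simp only [eval_add, eval_mul, eval_C, eval_X, eval_comp, mul_zero, add_zero]
    linear_combination (m : ℤ_[2]) * (u : ℤ_[2]) * A * hpr
  have hgu : IsUnit (g.eval 0) := by
    rw [hg0]
    exact twoeval_unit_add ((hu1.mul hu1).mul hA) _
  have hbr' : ∀ y : ℕ, (k : ℤ_[2]) + ((k * m + b + k * y : ℕ) : ℤ_[2]) *
      ((b + k * y : ℕ) : ℤ_[2]) * (C ((2 : ℤ_[2]) ^ W) * (C A + C (2 : ℤ_[2]) * R2)).eval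
        ((b + k * y : ℕ) : ℤ_[2]) =
      (2 : ℤ_[2]) ^ a + (2 : ℤ_[2]) ^ (W + 2 * r) * g.eval ((2 : ℤ_[2]) * (y : ℤ_[2])) := by
    intro y
    have e3 : (k : ℤ_[2]) = (2 : ℤ_[2]) ^ r * (2 : ℤ_[2]) ^ (a - r) := by
      rw [← pow_add, hk]
      push_cast
      congr 1
      omega
    have e3' : (k : ℤ_[2]) = (2 : ℤ_[2]) ^ a := by rw [hk]; push_cast; ring
    have e4 : (b : ℤ_[2]) = (2 : ℤ_[2]) ^ r * (u : ℤ_[2]) := by rw [hbr]; push_cast; ring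
    have e1 : ((b + k * y : ℕ) : ℤ_[2]) =
        (2 : ℤ_[2]) ^ r * ((u : ℤ_[2]) + (2 : ℤ_[2]) ^ (a - r - 1) * ((2 : ℤ_[2]) * (y : ℤ_[2]))) := by
      push_cast
      rw [e4, e3, hpr]
      ring
    have e2 : ((k * m + b + k * y : ℕ) : ℤ_[2]) = (2 : ℤ_[2]) ^ r * (((u : ℤ_[2]) +
        (2 : ℤ_[2]) ^ (a - r) * (m : ℤ_[2])) +
          (2 : ℤ_[2]) ^ (a - r - 1) * ((2 : ℤ_[2]) * (y : ℤ_[2]))) := by
      push_cast
      rw [e4, e3, hpr]
      ring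
    have e5 : ((b + k * y : ℕ) : ℤ_[2]) = (b : ℤ_[2]) + (k' : ℤ_[2]) * ((2 : ℤ_[2]) * (y : ℤ_[2])) := by
      rw [hk']
      push_cast
      ring
    rw [hg]
    simp only [eval_add, eval_mul, eval_C, eval_X, eval_comp]
    rw [← e5, e2, e3']
    generalize R2.eval ((b + k * y : ℕ) : ℤ_[2]) = z
    rw [e1, pow_add, mul_comm 2 r, pow_mul]
    ring
  rw [← hrv]
  clear_value g
  rcases lt_trichotomy (W + 2 * r) a with hlt | heq | hgt
  · have h2 := D.eval_main hk ha hm b hb0 hb i _ h1 (W + 2 * r) (by omega)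
      (C ((2 : ℤ_[2]) ^ (a - (W + 2 * r))) + g) ?_ ?_ N
    · refine ⟨h2.1, ?_⟩
      rw [h2.2, hrv, min_eq_right (by omega)]
      omega
    · rw [eval_add, eval_C, add_comm]
      have : (2 : ℤ_[2]) ^ (a - (W + 2 * r)) = (2 : ℤ_[2]) * (2 : ℤ_[2]) ^ (a - (W + 2 * r) - 1) := by
        rw [← pow_succ']
        congr 1
        omega
      rw [this]
      exact twoeval_unit_add hgu _
    · intro y
      rw [hbr' y, h2c, eval_add, eval_C, mul_add, ← pow_add]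
      congr 2
      congr 1
      omega
  · exact absurd heq hne
  · have h2 := D.eval_main hk ha hm b hb0 hb i _ h1 a (by omega)
      (1 + C ((2 : ℤ_[2]) ^ (W + 2 * r - a)) * g) ?_ ?_ N
    · refine ⟨h2.1, ?_⟩
      rw [h2.2, hrv, min_eq_left (by omega)]
      omega
    · rw [eval_add, eval_one, eval_mul, eval_C]
      have : (2 : ℤ_[2]) ^ (W + 2 * r - a) = (2 : ℤ_[2]) * (2 : ℤ_[2]) ^ (W + 2 * r - a - 1) := by
        rw [← pow_succ']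
        congr 1
        omega
      rw [this, mul_assoc]
      exact twoeval_unit_odd _
    · intro y
      rw [hbr' y, h2c, eval_add, eval_one, eval_mul, eval_C, mul_add, ← mul_assoc, ← pow_add,
        mul_one]
      congr 2
      congr 1
      omega

theorem twoeval_split (hk : k = 2 ^ a) (b : ℕ) (hb0 : 0 < b) (hb : b < k) :
    ∃ u : ℕ, ¬ 2 ∣ u ∧ b = 2 ^ padicValNat 2 b * u ∧ padicValNat 2 b < a := by
  obtain ⟨r, u, hu, hbr⟩ := Nat.exists_eq_pow_mul_and_not_dvd hb0.ne' 2 (by norm_num)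
  have hu0 : u ≠ 0 := by
    rintro rfl
    exact hu (dvd_zero 2)
  have hrv : padicValNat 2 b = r := by
    rw [hbr, padicValNat.mul (pow_ne_zero _ (by norm_num)) hu0, padicValNat.prime_pow,
      padicValNat.eq_zero_of_not_dvd hu, add_zero]
  rw [hrv]
  refine ⟨u, hu, hbr, ?_⟩
  by_contra h
  push Not at h
  have h1 : k ≤ b := by
    rw [hk, hbr]
    calc 2 ^ a ≤ 2 ^ r := Nat.pow_le_pow_right (by norm_num) h
      _ = 2 ^ r * 1 := (mul_one _).symm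
      _ ≤ 2 ^ r * u := Nat.mul_le_mul_left _ (Nat.pos_of_ne_zero hu0)
  omega

theorem twoeval_val_m (v m' : ℕ) (hmv : m = 2 ^ v * m') (hm' : m' % 2 = 1) :
    padicValNat 2 m = v := by
  have h0 : m' ≠ 0 := by omega
  rw [hmv, padicValNat.mul (pow_ne_zero _ (by norm_num)) h0, padicValNat.prime_pow,
    padicValNat.eq_zero_of_not_dvd (by omega), add_zero]

theorem twoeval_nat_odd (n : ℕ) (hn : n % 2 = 1) : ∃ t : ℤ_[2], (n : ℤ_[2]) = 1 + 2 * t := by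
  refine ⟨((n / 2 : ℕ) : ℤ_[2]), ?_⟩
  have : n = 1 + 2 * (n / 2) := by omega
  conv_lhs => rw [this]
  push_cast
  ring

/-- non-critical residues -/
theorem two_eval_ne (hk : k = 2 ^ a) (ha : 2 ≤ a) (hm : 1 ≤ m) (v m' : ℕ) (hv : 1 ≤ v)
    (hmv : m = 2 ^ v * m') (hm' : m' % 2 = 1) (D : Sys k m) (i : ℕ) (hi : 1 ≤ i)
    (b : ℕ) (hb0 : 0 < b) (hb : b < k) (hcr : v + 1 + 2 * padicValNat 2 b ≠ a) (N : ℕ) :
    D.s (k ^ i * (b + k * N)) ≠ 0 ∧ padicValInt 2 (D.s (k ^ i * (b + k * N))) =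
      v + min (a - padicValNat 2 b) (v + 1 + padicValNat 2 b) := by
  obtain ⟨A, B, R, hR, hA, hB, -, -⟩ := two_rep hk ha hm v m' hv hmv hm' D i hi
  obtain ⟨u, hu, hbu, hr⟩ := twoeval_split hk b hb0 hb
  obtain ⟨t, ht⟩ := twoeval_nat_odd m' hm'
  obtain ⟨B2, hB2⟩ := hB
  have hAu : IsUnit A := by
    obtain ⟨w, hw⟩ := hA
    split_ifs at hw
    · rw [show A = 1 + 2 * (t + 2 + 4 * w) by linear_combination hw + ht]
      exact twoeval_unit_odd _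
    · rw [show A = 1 + 2 * (t + 4 * w) by linear_combination hw + ht]
      exact twoeval_unit_odd _
  have e : C A + C B * (X - 1) * (X + C ((k * m + 1 : ℕ) : ℤ_[2])) + C 8 * R =
      C A + C 2 * (C B2 * (X - 1) * (X + C ((k * m + 1 : ℕ) : ℤ_[2])) + C 4 * R) := by
    have h8 : (C (8 : ℤ_[2]) : ℤ_[2][X]) = C 2 * C 4 := by
      rw [← C_mul]; norm_num
    rw [hB2, C_mul, h8]
    ring
  rw [e] at hR
  have h := twoeval_case2 D hk ha hm i (v + 1) A _ hR hAu _ u hu hcr b hb0 hb hbu rfl hr N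
  rw [twoeval_val_m v m' hmv hm'] at h
  exact h

theorem twoeval_mod8 (n : ℕ) : ∃ t : ℤ_[2], (n : ℤ_[2]) = ((n % 8 : ℕ) : ℤ_[2]) + 8 * t := by
  refine ⟨((n / 8 : ℕ) : ℤ_[2]), ?_⟩
  have : n = n % 8 + 8 * (n / 8) := by omega
  conv_lhs => rw [this]
  push_cast
  ring

theorem twoeval_alph (v m' i r b k4 m2 : ℕ) (hv : 1 ≤ v) (hi : 1 ≤ i)
    (hcr : v + 1 + 2 * r = a) (hb : r = 0 → b % 2 = 1) (hb' : 1 ≤ r → b % 2 = 0)
    (A B2 : ℤ_[2])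
    (hA : (8 : ℤ_[2]) ∣ A - (m' : ℤ_[2]) - (if a = 2 ∧ 2 ≤ i then 4 else 0))
    (hB1 : v = 1 → (8 : ℤ_[2]) ∣ 2 * B2)
    (hB2 : 2 ≤ v → (8 : ℤ_[2]) ∣ 2 * B2 + 2 * (m' : ℤ_[2])) :
    ∃ c0 : ℤ_[2], A + 2 * B2 * (((b : ℤ_[2]) - 1) * ((b : ℤ_[2]) +
      (4 * (k4 : ℤ_[2]) * (2 * (m2 : ℤ_[2])) + 1))) =
        ((alph a v m' i : ℕ) : ℤ_[2]) + 8 * c0 := by
  obtain ⟨w, hw⟩ := hA
  by_cases hr : r = 0
  · obtain ⟨b2, hb2⟩ := twoeval_nat_odd b (hb hr)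
    rw [hb2]
    have hal : ∃ t : ℤ_[2], (m' : ℤ_[2]) + (if a = 2 ∧ 2 ≤ i then 4 else 0) =
        ((alph a v m' i : ℕ) : ℤ_[2]) + 8 * t := by
      unfold alph
      by_cases ha2 : a = 2
      · rw [if_pos ha2]
        by_cases hi1 : i = 1
        · rw [if_pos hi1, if_neg (by omega), add_zero]
          exact twoeval_mod8 m'
        · rw [if_neg hi1, if_pos ⟨ha2, by omega⟩]
          obtain ⟨t, ht⟩ := twoeval_mod8 (m' + 4)
          refine ⟨t, ?_⟩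
          rw [← ht]
          push_cast
          ring
      · rw [if_neg ha2, if_neg (by omega), add_zero, if_pos (Or.inl (by omega))]
        exact twoeval_mod8 m'
    obtain ⟨t, ht⟩ := hal
    refine ⟨w + t + B2 * b2 * (1 + b2 + 4 * k4 * m2), ?_⟩
    linear_combination hw + ht
  · obtain ⟨b2, hb2⟩ : ∃ b2 : ℕ, b = 2 * b2 := ⟨b / 2, by have := hb' (by omega); omega⟩
    have hb2c : (b : ℤ_[2]) = 2 * (b2 : ℤ_[2]) := by rw [hb2]; push_cast; ring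
    rw [hb2c]
    rw [if_neg (by omega)] at hw
    have hal : ∃ t : ℤ_[2], (m' : ℤ_[2]) - 2 * B2 =
        ((alph a v m' i : ℕ) : ℤ_[2]) + 8 * t := by
      unfold alph
      rw [if_neg (by omega)]
      by_cases hv1 : v = 1
      · rw [if_pos (Or.inr hv1)]
        obtain ⟨q, hq⟩ := hB1 hv1
        obtain ⟨t, ht⟩ := twoeval_mod8 m'
        exact ⟨t - q, by linear_combination ht - hq⟩
      · rw [if_neg (by omega)]
        obtain ⟨q, hq⟩ := hB2 (by omega)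
        obtain ⟨t, ht⟩ := twoeval_mod8 (3 * m')
        push_cast at ht
        exact ⟨t - q, by push_cast; linear_combination ht - hq⟩
    obtain ⟨t, ht⟩ := hal
    refine ⟨w + t + B2 * (b2 * b2 + 4 * k4 * m2 * b2 - 2 * k4 * m2), ?_⟩
    linear_combination hw + ht

/-- critical residues, `α ≢ 7 mod 8` -/
theorem two_eval_crit (hk : k = 2 ^ a) (ha : 2 ≤ a) (hm : 1 ≤ m) (v m' : ℕ) (hv : 1 ≤ v)
    (hmv : m = 2 ^ v * m') (hm' : m' % 2 = 1) (D : Sys k m) (i : ℕ) (hi : 1 ≤ i)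
    (b : ℕ) (hb0 : 0 < b) (hb : b < k) (hcr : v + 1 + 2 * padicValNat 2 b = a)
    (hal : alph a v m' i ≠ 7) (N : ℕ) :
    D.s (k ^ i * (b + k * N)) ≠ 0 ∧ padicValInt 2 (D.s (k ^ i * (b + k * N))) =
      v + (a - padicValNat 2 b) + (if alph a v m' i = 3 then 2 else 1) := by
  obtain ⟨A, B, R, hR, hA, hB, hB1, hB3⟩ := two_rep hk ha hm v m' hv hmv hm' D i hi
  obtain ⟨u, hu, hbu, hr⟩ := twoeval_split hk b hb0 hb
  obtain ⟨B2, hB2⟩ := hB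
  obtain ⟨m2, hm2⟩ : ∃ m2 : ℕ, m = 2 * m2 := by
    refine ⟨2 ^ (v - 1) * m', ?_⟩
    rw [hmv, ← mul_assoc, ← pow_succ']
    congr 2
    omega
  obtain ⟨K, hK, hK'⟩ : ∃ K : ℕ, k = 4 * K ∧ K = 2 ^ (a - 2) := by
    refine ⟨2 ^ (a - 2), ?_, rfl⟩
    rw [hk, show (4 : ℕ) = 2 ^ 2 by norm_num, ← pow_add]
    congr 1
    omega
  obtain ⟨r, hrdef⟩ : ∃ r, r = padicValNat 2 b := ⟨_, rfl⟩
  rw [← hrdef] at hcr hbu hr
  obtain ⟨T, hT, hT'⟩ : ∃ T : ℕ, T = 2 ^ (a - r - 2) ∧ 2 ^ r * (4 * T) = k := by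
    refine ⟨2 ^ (a - r - 2), rfl, ?_⟩
    rw [hk, show (4 : ℕ) = 2 ^ 2 by norm_num, ← pow_add, ← pow_add]
    congr 1
    omega
  have hbpar : r = 0 → b % 2 = 1 := by
    intro h
    rw [h, pow_zero, one_mul] at hbu
    omega
  have hbpar' : 1 ≤ r → b % 2 = 0 := by
    intro h
    rw [hbu, show r = (r - 1) + 1 by omega, pow_succ]
    rw [mul_assoc, mul_comm, mul_assoc]
    simp [Nat.mul_mod]
  obtain ⟨c0, hc0⟩ := twoeval_alph (a := a) v m' i r b K m2 hv hi hcr hbpar hbpar' A B2 hA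
    (fun h => by rw [← hB2]; exact hB1 h) (fun h => by rw [← hB2]; exact hB3 h)
  obtain ⟨s, hs⟩ : ∃ s : ℤ_[2], (u : ℤ_[2]) * (u : ℤ_[2]) = 1 + 8 * s := by
    have h1 : u * u % 8 = 1 := by
      have h2 : u % 8 = 1 ∨ u % 8 = 3 ∨ u % 8 = 5 ∨ u % 8 = 7 := by omega
      rcases h2 with h | h | h | h <;> rw [Nat.mul_mod, h]
    obtain ⟨t, ht⟩ := twoeval_mod8 (u * u)
    rw [h1] at ht
    push_cast at ht
    exact ⟨t, ht⟩
  have h1 := twoeval_scale D i _ _ _ hR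
  set al := alph a v m' i with hal'
  have hkc : (k : ℤ_[2]) = 4 * (K : ℤ_[2]) := by rw [hK]; push_cast; ring
  have hmc : (m : ℤ_[2]) = 2 * (m2 : ℤ_[2]) := by rw [hm2]; push_cast; ring
  have hkT : (k : ℤ_[2]) = 2 ^ r * (4 * (T : ℤ_[2])) := by rw [← hT']; push_cast; ring
  have hbc : (b : ℤ_[2]) = 2 ^ r * (u : ℤ_[2]) := by rw [hbu]; push_cast; ring
  have hka : (k : ℤ_[2]) = 2 ^ a := by rw [hk]; push_cast; ring
  have hpow : (2 : ℤ_[2]) ^ (v + 1) * (2 ^ r * 2 ^ r) = 2 ^ a := by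
    rw [← pow_add, ← pow_add]
    congr 1
    omega
  -- the polynomials
  set e : ℤ_[2] := s + T * m2 * u with he
  set hh : ℤ_[2][X] := C ((T : ℤ_[2]) * u + 4 * T * T * m2) + C ((T : ℤ_[2]) * T) * X with hhh
  set G : ℤ_[2][X] := C c0 + C (B2 * K) * X * (C ((b : ℤ_[2]) + k * m2) + C (K : ℤ_[2]) * X) +
    R.comp (C (b : ℤ_[2]) + C (2 * (K : ℤ_[2])) * X) with hG
  set Q : ℤ_[2][X] := C (2 * e * al) + X * hh * C (al : ℤ_[2]) +
    C 2 * (C (1 + 8 * e) + C 4 * X * hh) * G with hQ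
  have hQ0 : ∃ q : ℤ_[2], Q.eval 0 = 2 * q := by
    refine ⟨e * al + (1 + 8 * e) * G.eval 0, ?_⟩
    rw [hQ]
    simp only [eval_add, eval_mul, eval_C, eval_X]
    ring
  have hbrk : ∀ y : ℕ, (k : ℤ_[2]) + ((k * m + b + k * y : ℕ) : ℤ_[2]) *
      ((b + k * y : ℕ) : ℤ_[2]) * (C ((2 : ℤ_[2]) ^ (v + 1)) *
        (C A + C B * (X - 1) * (X + C ((k * m + 1 : ℕ) : ℤ_[2])) + C 8 * R)).eval
        ((b + k * y : ℕ) : ℤ_[2]) =
      (2 : ℤ_[2]) ^ a * ((1 + (al : ℤ_[2])) + 4 * Q.eval ((2 : ℤ_[2]) * (y : ℤ_[2]))) := by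
    intro y
    have e1 : ((b + k * y : ℕ) : ℤ_[2]) = 2 ^ r * ((u : ℤ_[2]) + 2 * T * (2 * (y : ℤ_[2]))) := by
      push_cast
      rw [hbc, hkT]
      ring
    have e2 : ((k * m + b + k * y : ℕ) : ℤ_[2]) = 2 ^ r * ((u : ℤ_[2]) + 4 * T * (2 * m2) +
        2 * T * (2 * (y : ℤ_[2]))) := by
      push_cast
      rw [hbc, hkT, hmc]
      ring
    have e3 : ((b + k * y : ℕ) : ℤ_[2]) = (b : ℤ_[2]) + 2 * (K : ℤ_[2]) * (2 * (y : ℤ_[2])) := by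
      push_cast
      rw [hkc]
      ring
    have hU : ((u : ℤ_[2]) + 4 * T * (2 * m2) + 2 * T * (2 * (y : ℤ_[2]))) *
        ((u : ℤ_[2]) + 2 * T * (2 * (y : ℤ_[2]))) =
        1 + 8 * e + 4 * (2 * (y : ℤ_[2])) * hh.eval (2 * (y : ℤ_[2])) := by
      rw [hhh, he]
      simp only [eval_add, eval_mul, eval_C, eval_X]
      linear_combination hs
    have hPsi : (C A + C B * (X - 1) * (X + C ((k * m + 1 : ℕ) : ℤ_[2])) + C 8 * R).eval
        ((b + k * y : ℕ) : ℤ_[2]) = (al : ℤ_[2]) + 8 * G.eval (2 * (y : ℤ_[2])) := by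
      rw [hG]
      simp only [eval_add, eval_mul, eval_C, eval_X, eval_sub, eval_one, eval_comp]
      rw [← e3]
      generalize R.eval ((b + k * y : ℕ) : ℤ_[2]) = ρ
      rw [e3, hB2]
      push_cast
      rw [hmc, hkc]
      linear_combination hc0
    rw [eval_mul, eval_C, hPsi, e2, e1, hQ]
    simp only [eval_add, eval_mul, eval_C, eval_X]
    generalize G.eval (2 * (y : ℤ_[2])) = γ at hU ⊢
    generalize hh.eval (2 * (y : ℤ_[2])) = η at hU ⊢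
    have hfin : (k : ℤ_[2]) + 2 ^ r * ((u : ℤ_[2]) + 4 * T * (2 * m2) + 2 * T * (2 * (y : ℤ_[2]))) *
        (2 ^ r * ((u : ℤ_[2]) + 2 * T * (2 * (y : ℤ_[2])))) * (2 ^ (v + 1) * ((al : ℤ_[2]) + 8 * γ)) =
        2 ^ a * (1 + (((u : ℤ_[2]) + 4 * T * (2 * m2) + 2 * T * (2 * (y : ℤ_[2]))) *
        ((u : ℤ_[2]) + 2 * T * (2 * (y : ℤ_[2])))) * ((al : ℤ_[2]) + 8 * γ)) := by
      rw [hka]
      linear_combination (((u : ℤ_[2]) + 4 * T * (2 * m2) + 2 * T * (2 * (y : ℤ_[2]))) *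
        ((u : ℤ_[2]) + 2 * T * (2 * (y : ℤ_[2])))) * ((al : ℤ_[2]) + 8 * γ) * hpow
    rw [hfin, hU]
    ring
  clear_value Q
  have h2c : ((2 : ℕ) : ℤ_[2]) = 2 := by norm_num
  have hvm := twoeval_val_m v m' hmv hm'
  have halc : al = 1 ∨ al = 3 ∨ al = 5 := by
    have h8 : al < 8 ∧ al % 2 = 1 := by
      rw [hal']
      unfold alph
      split_ifs <;> omega
    omega
  obtain ⟨q, hq⟩ := hQ0
  rcases halc with h | h | h
  · have h2 := D.eval_main hk ha hm b hb0 hb i _ h1 (a + 1) (by omega) (1 + C 2 * Q) ?_ ?_ N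
    · refine ⟨h2.1, ?_⟩
      rw [h2.2, hvm, h, if_neg (by norm_num)]
      omega
    · rw [eval_add, eval_one, eval_mul, eval_C]
      exact twoeval_unit_odd _
    · intro y
      rw [hbrk y, h2c, eval_add, eval_one, eval_mul, eval_C, h]
      push_cast
      ring
  · have h2 := D.eval_main hk ha hm b hb0 hb i _ h1 (a + 2) (by omega) (1 + Q) ?_ ?_ N
    · refine ⟨h2.1, ?_⟩
      rw [h2.2, hvm, h, if_pos rfl]
      omega
    · rw [eval_add, eval_one, hq]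
      exact twoeval_unit_odd _
    · intro y
      rw [hbrk y, h2c, eval_add, eval_one, h]
      push_cast
      ring
  · have h2 := D.eval_main hk ha hm b hb0 hb i _ h1 (a + 1) (by omega) (C 3 + C 2 * Q) ?_ ?_ N
    · refine ⟨h2.1, ?_⟩
      rw [h2.2, hvm, h, if_neg (by norm_num)]
      omega
    · rw [eval_add, eval_C, eval_mul, eval_C]
      have : (3 : ℤ_[2]) + 2 * eval 0 Q = 1 + 2 * (1 + eval 0 Q) := by ring
      rw [this]
      exact twoeval_unit_odd _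
    · intro y
      rw [hbrk y, h2c, eval_add, eval_C, eval_mul, eval_C, h]
      push_cast
      ring

end Pool.MP9acee6
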