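import Pool.Agent.H.MP_9acee6_nt.Pb

/-!
# Power sums of `d_t = g(t) g(km - t)`, `g(t) = k / (p t)`
-/

set_option autoImplicit false

open Polynomial Finset

namespace Pool.MP9acee6

variable {p : ℕ} [Fact p.Prime] {a k m : ℕ}

private theorem psum_pne : (p : ℤ_[p]) ≠ 0 := by
  exact_mod_cast (Fact.out : p.Prime).ne_zero

private theorem psum_tne {t : ℕ} (ht : ¬ k ∣ t) : (t : ℤ_[p]) ≠ 0 := by
  have : t ≠ 0 := by
    rintro rfl
    exact ht (dvd_zero k)
  exact_mod_cast this

/-- `g(t + k q) = g(t) - p q g(t) g(t + k q)` -/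
theorem gg_shift (hk : k = p ^ a) (t q : ℕ) :
    gg p k (t + k * q) = gg p k t - (p : ℤ_[p]) * q * gg p k t * gg p k (t + k * q) := by
  by_cases h : k ∣ t
  · have h' : k ∣ t + k * q := dvd_add h (dvd_mul_right k q)
    rw [gg_zero t h, gg_zero _ h']
    ring
  · have h' : ¬ k ∣ t + k * q := by
      intro h2
      exact h ((Nat.dvd_add_left (dvd_mul_right k q)).1 h2)
    have e1 := gg_spec (p := p) hk t h
    have e2 := gg_spec (p := p) hk _ h'
    have hp : (p : ℤ_[p]) ≠ 0 := psum_pne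
    have ht : (t : ℤ_[p]) ≠ 0 := psum_tne h
    push_cast at e2
    have e3 : (p : ℤ_[p]) * (t : ℤ_[p]) * (gg p k (t + k * q)) = (p : ℤ_[p]) * (t : ℤ_[p]) *
        (gg p k t - (p : ℤ_[p]) * q * gg p k t * gg p k (t + k * q)) := by
      linear_combination e2 - e1 + (p : ℤ_[p]) * q * gg p k (t + k * q) * e1
    exact mul_left_cancel₀ (mul_ne_zero hp ht) e3

/-- `g(t) + g(km - t) = p m g(t) g(km - t)` -/
theorem gg_refl (hk : k = p ^ a) (t : ℕ) (ht : t ≤ k * m) :
    gg p k t + gg p k (k * m - t) = (p : ℤ_[p]) * m * gg p k t * gg p k (k * m - t) := by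
  by_cases h : k ∣ t
  · have h' : k ∣ k * m - t := Nat.dvd_sub (dvd_mul_right k m) h
    rw [gg_zero t h, gg_zero _ h']
    ring
  · have h' : ¬ k ∣ k * m - t := by
      intro h2
      have h3 : k ∣ k * m - (k * m - t) := Nat.dvd_sub (dvd_mul_right k m) h2
      rw [Nat.sub_sub_self ht] at h3
      exact h h3
    have e1 := gg_spec (p := p) hk t h
    have e2 := gg_spec (p := p) hk _ h'
    have hp : (p : ℤ_[p]) ≠ 0 := psum_pne
    have ht0 : (t : ℤ_[p]) ≠ 0 := psum_tne h
    rw [Nat.cast_sub ht] at e2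
    push_cast at e2
    have e3 : (p : ℤ_[p]) * (t : ℤ_[p]) * (gg p k t + gg p k (k * m - t)) =
        (p : ℤ_[p]) * (t : ℤ_[p]) *
          ((p : ℤ_[p]) * m * gg p k t * gg p k (k * m - t)) := by
      linear_combination e1 - e2 - (p : ℤ_[p]) * m * gg p k (k * m - t) * e1
    exact mul_left_cancel₀ (mul_ne_zero hp ht0) e3

/-- sums over blocks: if `p q ∣ f(t + k q) - f(t)` then `p^v ∣ sum_{t < k p^v c} f(t)` -/
theorem block_sum (f : ℕ → ℤ_[p]) (k : ℕ)
    (hf : ∀ t q : ℕ, (p : ℤ_[p]) * q ∣ f (t + k * q) - f t) (v : ℕ) :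
    ∀ c : ℕ, (p : ℤ_[p]) ^ v ∣ ∑ t ∈ range (k * (p ^ v * c)), f t := by
  induction v with
  | zero => intro c; simp
  | succ v ih =>
    intro c
    have key : ∀ n : ℕ, (p : ℤ_[p]) ^ (v + 1) ∣
        ∑ t ∈ range (k * (p ^ v * c) * n), f t -
          (n : ℤ_[p]) * ∑ t ∈ range (k * (p ^ v * c)), f t := by
      intro n
      induction n with
      | zero => simp
      | succ n ihn =>
        rw [Nat.mul_succ, Finset.sum_range_add]
        have h1 : (p : ℤ_[p]) ^ (v + 1) ∣
            ∑ x ∈ range (k * (p ^ v * c)), f (k * (p ^ v * c) * n + x) -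
              ∑ x ∈ range (k * (p ^ v * c)), f x := by
          rw [← Finset.sum_sub_distrib]
          apply Finset.dvd_sum
          intro x _
          have h2 := hf x (p ^ v * c * n)
          have h3 : x + k * (p ^ v * c * n) = k * (p ^ v * c) * n + x := by ring
          rw [h3] at h2
          refine dvd_trans ?_ h2
          refine ⟨(c : ℤ_[p]) * n, ?_⟩
          push_cast
          ring
        have h4 := dvd_add ihn h1
        have h5 : ∑ t ∈ range (k * (p ^ v * c) * n), f t +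
            ∑ x ∈ range (k * (p ^ v * c)), f (k * (p ^ v * c) * n + x) -
            ((n + 1 : ℕ) : ℤ_[p]) * ∑ t ∈ range (k * (p ^ v * c)), f t =
            ∑ t ∈ range (k * (p ^ v * c) * n), f t -
              (n : ℤ_[p]) * ∑ t ∈ range (k * (p ^ v * c)), f t +
            (∑ x ∈ range (k * (p ^ v * c)), f (k * (p ^ v * c) * n + x) -
              ∑ x ∈ range (k * (p ^ v * c)), f x) := by
          push_cast
          ring
        rw [h5]
        exact h4
    have hkey := key p
    have hL : k * (p ^ (v + 1) * c) = k * (p ^ v * c) * p := by ring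
    rw [hL]
    have h6 : (p : ℤ_[p]) ^ (v + 1) ∣ (p : ℤ_[p]) * ∑ t ∈ range (k * (p ^ v * c)), f t := by
      rw [pow_succ']
      exact mul_dvd_mul_left _ (ih c)
    have h7 := dvd_add hkey h6
    rwa [sub_add_cancel] at h7

/-- the index set `0 < t < km`, `k ∤ t` -/
def full (k m : ℕ) : Finset ℕ := (Ioo 0 (k * m)).filter (fun t => ¬ k ∣ t)

/-- the index set `0 < t < km/2`, `k ∤ t` -/
def half (k m : ℕ) : Finset ℕ := (Ioo 0 (k * m)).filter (fun t => 2 * t < k * m ∧ ¬ k ∣ t)

private theorem psum_dvd_of (hm : 1 ≤ m) (f : ℕ → ℤ_[p])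
    (hf : ∀ t q : ℕ, (p : ℤ_[p]) * q ∣ f (t + k * q) - f t) :
    (m : ℤ_[p]) ∣ ∑ t ∈ range (k * m), f t := by
  have hp : p.Prime := Fact.out
  obtain ⟨m', hm', hcop⟩ : ∃ m' : ℕ, m = p ^ (m.factorization p) * m' ∧ ¬ p ∣ m' := by
    refine ⟨m / p ^ (m.factorization p), ?_, ?_⟩
    · exact (Nat.ordProj_mul_ordCompl_eq_self m p).symm
    · exact Nat.not_dvd_ordCompl hp (by omega)
  set v := m.factorization p with hv
  have hu : IsUnit (m' : ℤ_[p]) := by
    rw [PadicInt.isUnit_iff]
    have : ¬ ‖(m' : ℤ_[p])‖ < 1 := by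
      rw [PadicInt.norm_natCast_lt_one_iff]
      exact hcop
    exact le_antisymm (PadicInt.norm_le_one _) (not_lt.1 this)
  have h1 := block_sum f k hf v m'
  rw [← hm'] at h1
  have h2 : (m : ℤ_[p]) = (p : ℤ_[p]) ^ v * (m' : ℤ_[p]) := by
    conv_lhs => rw [hm']
    push_cast
    ring
  rw [h2]
  exact (hu.mul_right_dvd).2 h1

theorem psum_full (hk : k = p ^ a) (hm : 1 ≤ m) (j : ℕ) (hj : 1 ≤ j) :
    (m : ℤ_[p]) ∣ ∑ t ∈ full k m, (gg p k t * gg p k (k * m - t)) ^ j := by
  have h1 : (m : ℤ_[p]) ∣ ∑ t ∈ full k m, (gg p k t * gg p k (k * m - t)) ^ j -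
      ∑ t ∈ full k m, (- (gg p k t) ^ 2) ^ j := by
    rw [← Finset.sum_sub_distrib]
    apply Finset.dvd_sum
    intro t ht
    refine dvd_trans ?_ (sub_dvd_pow_sub_pow _ _ j)
    have ht' : t ≤ k * m := by
      unfold full at ht
      rw [Finset.mem_filter, Finset.mem_Ioo] at ht
      omega
    have h2 := gg_refl (p := p) hk t ht'
    refine ⟨(p : ℤ_[p]) * gg p k t ^ 2 * gg p k (k * m - t), ?_⟩
    linear_combination gg p k t * h2
  have h3 : ∑ t ∈ full k m, (- (gg p k t) ^ 2) ^ j =
      ∑ t ∈ range (k * m), (- (gg p k t) ^ 2) ^ j := by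
    apply Finset.sum_subset
    · intro t ht
      unfold full at ht
      rw [Finset.mem_filter, Finset.mem_Ioo] at ht
      rw [Finset.mem_range]
      omega
    · intro t ht ht2
      have h4 : k ∣ t := by
        by_contra h5
        apply ht2
        unfold full
        rw [Finset.mem_filter, Finset.mem_Ioo]
        rw [Finset.mem_range] at ht
        refine ⟨⟨?_, ht⟩, h5⟩
        rcases Nat.eq_zero_or_pos t with h6 | h6
        · exact absurd (h6 ▸ dvd_zero k) h5
        · exact h6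
      rw [gg_zero t h4]
      rw [zero_pow (by norm_num), neg_zero, zero_pow (by omega)]
  have h4 : (m : ℤ_[p]) ∣ ∑ t ∈ range (k * m), (- (gg p k t) ^ 2) ^ j := by
    apply psum_dvd_of hm
    intro t q
    have h5 : (p : ℤ_[p]) * q ∣ gg p k (t + k * q) - gg p k t := by
      refine ⟨- (gg p k t * gg p k (t + k * q)), ?_⟩
      linear_combination gg_shift (p := p) hk t q
    have h6 : (p : ℤ_[p]) * q ∣ - gg p k (t + k * q) ^ 2 - - gg p k t ^ 2 := by
      obtain ⟨c, hc⟩ := h5
      refine ⟨- c * (gg p k (t + k * q) + gg p k t), ?_⟩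
      linear_combination (-1 : ℤ_[p]) * (gg p k (t + k * q) + gg p k t) * hc
    exact dvd_trans h6 (sub_dvd_pow_sub_pow _ _ j)
  rw [← h3] at h4
  have h5 := dvd_add h1 h4
  rwa [sub_add_cancel] at h5

/-- pairing `t ↔ km - t` for products (and hence sums) -/
theorem prod_full_eq_half (hk : k = p ^ a) (hsym : p ≠ 2 ∨ Even m) {M : Type*} [CommMonoid M]
    (f : ℕ → M) : ∏ t ∈ full k m, f t = ∏ t ∈ half k m, (f t * f (k * m - t)) := by
  have hp : p.Prime := Fact.out
  have hne : ∀ t : ℕ, ¬ k ∣ t → 2 * t ≠ k * m := by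
    intro t ht h2
    rcases hsym with h | h
    · apply ht
      have h3 : k ∣ 2 * t := h2 ▸ dvd_mul_right k m
      have hc : Nat.Coprime k 2 := by
        rw [hk]
        apply Nat.Coprime.pow_left
        exact (Nat.coprime_primes hp Nat.prime_two).2 h
      exact hc.dvd_of_dvd_mul_left h3
    · obtain ⟨c, hc⟩ := h
      apply ht
      refine ⟨c, ?_⟩
      have h4 : 2 * t = 2 * (k * c) := by
        rw [h2, hc]
        ring
      omega
  rw [Finset.prod_mul_distrib]
  have h1 : ∏ t ∈ half k m, f (k * m - t) =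
      ∏ t ∈ (full k m).filter (fun t => ¬ 2 * t < k * m), f t := by
    apply Finset.prod_nbij' (fun t => k * m - t) (fun t => k * m - t)
    · intro t ht
      unfold half at ht
      rw [Finset.mem_filter, Finset.mem_Ioo] at ht
      obtain ⟨⟨h2, h3⟩, h4, h5⟩ := ht
      unfold full
      rw [Finset.mem_filter, Finset.mem_filter, Finset.mem_Ioo]
      refine ⟨⟨⟨by omega, by omega⟩, ?_⟩, by omega⟩
      intro h6
      have h7 : k ∣ k * m - (k * m - t) := Nat.dvd_sub (dvd_mul_right k m) h6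
      rw [Nat.sub_sub_self h3.le] at h7
      exact h5 h7
    · intro t ht
      unfold full at ht
      rw [Finset.mem_filter, Finset.mem_filter, Finset.mem_Ioo] at ht
      obtain ⟨⟨⟨h2, h3⟩, h4⟩, h5⟩ := ht
      unfold half
      rw [Finset.mem_filter, Finset.mem_Ioo]
      have h8 := hne t h4
      refine ⟨⟨by omega, by omega⟩, by omega, ?_⟩
      intro h6
      have h7 : k ∣ k * m - (k * m - t) := Nat.dvd_sub (dvd_mul_right k m) h6
      rw [Nat.sub_sub_self h3.le] at h7
      exact h4 h7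
    · intro t ht
      unfold half at ht
      rw [Finset.mem_filter, Finset.mem_Ioo] at ht
      omega
    · intro t ht
      unfold full at ht
      rw [Finset.mem_filter, Finset.mem_filter, Finset.mem_Ioo] at ht
      omega
    · intro t ht
      rfl
  have h2 : half k m = (full k m).filter (fun t => 2 * t < k * m) := by
    unfold half full
    rw [Finset.filter_filter]
    apply Finset.filter_congr
    intro t _
    exact and_comm
  rw [h1, h2]
  exact (Finset.prod_filter_mul_prod_filter_not (full k m) (fun t => 2 * t < k * m) f).symm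

theorem psum_half (hk : k = p ^ a) (hm : 1 ≤ m) (hsym : p ≠ 2 ∨ Even m) (j : ℕ) (hj : 1 ≤ j) :
    (m : ℤ_[p]) ∣ 2 * ∑ t ∈ half k m, (gg p k t * gg p k (k * m - t)) ^ j := by
  have h1 := psum_full (p := p) hk hm j hj
  have h2 := prod_full_eq_half (m := m) hk hsym (M := Multiplicative ℤ_[p])
    (fun t => Multiplicative.ofAdd ((gg p k t * gg p k (k * m - t)) ^ j))
  have h3 : ∑ t ∈ full k m, (gg p k t * gg p k (k * m - t)) ^ j =
      ∑ t ∈ half k m, ((gg p k t * gg p k (k * m - t)) ^ j +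
        (gg p k (k * m - t) * gg p k (k * m - (k * m - t))) ^ j) := by
    apply Multiplicative.ofAdd.injective
    rw [ofAdd_sum, ofAdd_sum]
    rw [h2]
    rfl
  rw [h3] at h1
  have h4 : ∑ t ∈ half k m, ((gg p k t * gg p k (k * m - t)) ^ j +
        (gg p k (k * m - t) * gg p k (k * m - (k * m - t))) ^ j) =
      2 * ∑ t ∈ half k m, (gg p k t * gg p k (k * m - t)) ^ j := by
    rw [Finset.mul_sum]
    apply Finset.sum_congr rfl
    intro t ht
    unfold half at ht
    rw [Finset.mem_filter, Finset.mem_Ioo] at ht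
    rw [Nat.sub_sub_self ht.1.2.le, mul_comm (gg p k (k * m - t)) (gg p k t)]
    ring
  rwa [h4] at h1

end Pool.MP9acee6
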