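import Pool.Agent.H.MP_9acee6_nt.Eval
import Pool.Agent.H.MP_9acee6_nt.Psum

/-!
# `p = 2`, `m` odd
-/

set_option autoImplicit false

open Polynomial Finset

namespace Pool.MP9acee6

variable {a k m : ℕ}

/-! ### Auxiliary lemmas: linearity of `br` -/

private theorem twoodd_br_congr (D : Sys k m) (f g : ℕ → ℤ_[2]) (h : ∀ y, f y = g y) (N : ℕ) :
    D.br f N = D.br g N := by
  have : f = g := funext h
  rw [this]

private theorem twoodd_br_add (D : Sys k m) (f g : ℕ → ℤ_[2]) (N : ℕ) :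
    D.br (fun y => f y + g y) N = D.br f N + D.br g N := by
  unfold Sys.br
  rw [← sum_add_distrib]
  exact sum_congr rfl (fun y _ => by ring)

private theorem twoodd_br_mul (D : Sys k m) (c : ℤ_[2]) (f : ℕ → ℤ_[2]) (N : ℕ) :
    D.br (fun y => c * f y) N = c * D.br f N := by
  unfold Sys.br
  rw [mul_sum]
  exact sum_congr rfl (fun y _ => by ring)

private theorem twoodd_bk_add (D : Sys k m) (f g : ℕ → ℤ_[2]) (b N : ℕ) :
    D.bk (fun y => f y + g y) b N = D.bk f b N + D.bk g b N := by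
  unfold Sys.bk
  rw [← sum_add_distrib]
  exact sum_congr rfl (fun y _ => by ring)

private theorem twoodd_bk_mul (D : Sys k m) (c : ℤ_[2]) (f : ℕ → ℤ_[2]) (b N : ℕ) :
    D.bk (fun y => c * f y) b N = c * D.bk f b N := by
  unfold Sys.bk
  rw [mul_sum]
  exact sum_congr rfl (fun y _ => by ring)

/-! ### Auxiliary lemmas: units and valuations in `ℤ_2` -/

private theorem twoodd_two_nonunit : ¬ IsUnit (2 : ℤ_[2]) := by
  have h : (2 : ℤ_[2]) = ((2 : ℕ) : ℤ_[2]) := by norm_num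
  rw [h]
  exact PadicInt.prime_p.not_isUnit

private theorem twoodd_unit_add (u c : ℤ_[2]) (hu : IsUnit u) : IsUnit (u + 2 * c) := by
  by_contra h
  have h1 : u + 2 * c ∈ IsLocalRing.maximalIdeal ℤ_[2] := (IsLocalRing.mem_maximalIdeal _).2 h
  have h2 : (2 : ℤ_[2]) ∈ IsLocalRing.maximalIdeal ℤ_[2] :=
    (IsLocalRing.mem_maximalIdeal _).2 twoodd_two_nonunit
  have h3 : u ∈ IsLocalRing.maximalIdeal ℤ_[2] := by
    have := Ideal.sub_mem _ h1 (Ideal.mul_mem_right c _ h2)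
    simpa using this
  exact (IsLocalRing.mem_maximalIdeal _).1 h3 hu

private theorem twoodd_unit_odd (n : ℕ) (hn : n % 2 = 1) : IsUnit (n : ℤ_[2]) := by
  have h : n = 2 * (n / 2) + 1 := by omega
  have h2 : (n : ℤ_[2]) = 1 + 2 * ((n / 2 : ℕ) : ℤ_[2]) := by
    conv_lhs => rw [h]
    push_cast
    ring
  rw [h2]
  exact twoodd_unit_add _ _ isUnit_one

private theorem twoodd_unit_int (n : ℤ) (hn : ¬ (2 : ℤ) ∣ n) : IsUnit (n : ℤ_[2]) := by
  have h : n = 2 * (n / 2) + 1 := by omega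
  have h2 : (n : ℤ_[2]) = 1 + 2 * ((n / 2 : ℤ) : ℤ_[2]) := by
    conv_lhs => rw [h]
    push_cast
    ring
  rw [h2]
  exact twoodd_unit_add _ _ isUnit_one

private theorem twoodd_of_val (x : ℤ) (hx : x ≠ 0) (d : ℕ) (hd : padicValInt 2 x = d) :
    ∃ w : ℤ_[2], IsUnit w ∧ (x : ℤ_[2]) = 2 ^ d * w := by
  have h1 : ((2 : ℕ) : ℤ) ^ d ∣ x := (padicValInt_dvd_iff d x).2 (Or.inr hd.ge)
  obtain ⟨w, hw⟩ := h1
  refine ⟨(w : ℤ_[2]), twoodd_unit_int w ?_, ?_⟩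
  · intro h2
    have h3 : ((2 : ℕ) : ℤ) ^ (d + 1) ∣ x := by
      rw [hw, pow_succ]
      exact mul_dvd_mul_left _ (by simpa using h2)
    rcases (padicValInt_dvd_iff (d + 1) x).1 h3 with h4 | h4
    · exact hx h4
    · omega
  · rw [hw]
    push_cast
    ring

private theorem twoodd_to_val (x : ℤ) (d : ℕ) (w : ℤ_[2]) (hw : IsUnit w)
    (h : (x : ℤ_[2]) = 2 ^ d * w) : x ≠ 0 ∧ padicValInt 2 x = d := by
  have h1 := val_of_eq (p := 2) (m := 1) le_rfl x 0 d 1 w isUnit_one hw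
    (by push_cast; rw [h]; ring) (Nat.zero_le d)
  simpa using h1

private theorem twoodd_nat_val (n : ℕ) (hn : n ≠ 0) :
    ∃ w : ℤ_[2], IsUnit w ∧ (n : ℤ_[2]) = 2 ^ (padicValNat 2 n) * w := by
  have h := twoodd_of_val (n : ℤ) (by exact_mod_cast hn) (padicValNat 2 n)
    (by rw [padicValInt.of_nat])
  obtain ⟨w, hw, h2⟩ := h
  exact ⟨w, hw, by rw [← h2]; norm_cast⟩

/-! ### The product -/

private theorem twoodd_prod_full {M : Type*} [CommMonoid M] (k m c : ℕ) (hc : k * m = 2 * c)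
    (hkc : ¬ k ∣ c) (hc0 : 0 < c) (f : ℕ → M) :
    ∏ t ∈ full k m, f t = f c * ∏ t ∈ half k m, (f t * f (k * m - t)) := by
  have e1 : (full k m).filter (fun t => 2 * t < k * m) = half k m := by
    ext t
    simp only [full, half, mem_filter, mem_Ioo]
    tauto
  have hcm : c ∈ (full k m).filter (fun t => ¬ 2 * t < k * m) := by
    simp only [full, mem_filter, mem_Ioo]
    refine ⟨⟨⟨hc0, by omega⟩, hkc⟩, by omega⟩
  have e2 : ∏ t ∈ ((full k m).filter (fun t => ¬ 2 * t < k * m)).erase c, f t =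
      ∏ t ∈ half k m, f (k * m - t) := by
    refine prod_bij' (fun t _ => k * m - t) (fun t _ => k * m - t) ?_ ?_ ?_ ?_ ?_
    · intro t ht
      simp only [full, half, mem_erase, mem_filter, mem_Ioo] at ht ⊢
      obtain ⟨h1, ⟨⟨h2, h3⟩, h4⟩, h5⟩ := ht
      refine ⟨⟨by omega, by omega⟩, by omega, ?_⟩
      intro h6
      exact h4 ((Nat.dvd_sub_iff_right (by omega) (Dvd.intro m rfl)).1 h6)
    · intro t ht
      simp only [full, half, mem_erase, mem_filter, mem_Ioo] at ht ⊢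
      obtain ⟨⟨h2, h3⟩, h4, h5⟩ := ht
      refine ⟨by omega, ⟨⟨by omega, by omega⟩, ?_⟩, by omega⟩
      intro h6
      exact h5 ((Nat.dvd_sub_iff_right (by omega) (Dvd.intro m rfl)).1 h6)
    · intro t ht
      simp only [full, mem_erase, mem_filter, mem_Ioo] at ht
      omega
    · intro t ht
      simp only [half, mem_filter, mem_Ioo] at ht
      omega
    · intro t ht
      simp only [full, mem_erase, mem_filter, mem_Ioo] at ht
      congr 1
      omega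
  rw [← prod_filter_mul_prod_filter_not (full k m) (fun t => 2 * t < k * m), e1,
    ← mul_prod_erase _ _ hcm, e2, prod_mul_distrib]
  exact mul_left_comm _ _ _

/-- the product formula for `m` odd -/
private theorem twoodd_choose (hk : k = 2 ^ a) (ha : 2 ≤ a) (hmo : m % 2 = 1) (y : ℕ) :
    (m : ℤ_[2]) * ((k * m + k * y).choose (k * m) : ℤ_[2]) = ((m + y).choose m : ℤ_[2]) *
      (((m : ℤ_[2]) + 2 * y) * ∏ t ∈ half k m, (1 + gg 2 k t * gg 2 k (k * m - t) *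
        (4 * ((y : ℤ_[2]) * ((m : ℤ_[2]) + (y : ℤ_[2])))))) := by
  obtain ⟨a', rfl⟩ : ∃ a', a = a' + 2 := ⟨a - 2, by omega⟩
  have hk0 : 0 < k := by rw [hk]; positivity
  have h1 := choose_eq (p := 2) (m := m) hk (by omega) 0 hk0 y
  have hset : (Ioc 0 (0 + k * m)).filter (fun t => ¬ k ∣ t) = full k m := by
    ext t
    simp only [full, mem_filter, mem_Ioc, mem_Ioo, zero_add]
    constructor
    · rintro ⟨⟨h2, h3⟩, h4⟩
      refine ⟨⟨h2, lt_of_le_of_ne h3 ?_⟩, h4⟩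
      rintro rfl
      exact h4 (Dvd.intro m rfl)
    · rintro ⟨⟨h2, h3⟩, h4⟩
      exact ⟨⟨h2, h3.le⟩, h4⟩
  rw [hset] at h1
  set c : ℕ := 2 ^ (a' + 1) * m with hcdef
  have hc : k * m = 2 * c := by rw [hcdef, hk]; ring
  have hm0 : 0 < m := by omega
  have hkc : ¬ k ∣ c := by
    rintro ⟨d, hd⟩
    rw [hcdef, hk] at hd
    have h2 : 2 ^ (a' + 1) * m = 2 ^ (a' + 1) * (2 * d) := by rw [hd]; ring
    have h3 : m = 2 * d := Nat.eq_of_mul_eq_mul_left (by positivity) h2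
    omega
  rw [twoodd_prod_full k m c hc hkc (by positivity)] at h1
  simp only [add_zero, Nat.choose_self, Nat.cast_one, one_mul] at h1
  rw [h1]
  have hgc : gg 2 k c * (m : ℤ_[2]) = 1 := by
    have h2 := gg_spec (p := 2) hk c hkc
    have h3 : ((2 : ℕ) : ℤ_[2]) * gg 2 k c * (c : ℤ_[2]) = (k : ℤ_[2]) * (gg 2 k c * (m : ℤ_[2])) := by
      rw [hcdef, hk]; push_cast; ring
    have h4 : (k : ℤ_[2]) * (gg 2 k c * (m : ℤ_[2])) = (k : ℤ_[2]) * 1 := by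
      rw [← h3, h2, mul_one]
    exact mul_left_cancel₀ (by exact_mod_cast hk0.ne') h4
  have hpair : ∏ t ∈ half k m, ((1 + gg 2 k t * (((2 : ℕ) : ℤ_[2]) * (y : ℤ_[2]))) *
      (1 + gg 2 k (k * m - t) * (((2 : ℕ) : ℤ_[2]) * (y : ℤ_[2])))) =
      ∏ t ∈ half k m, (1 + gg 2 k t * gg 2 k (k * m - t) *
        (4 * ((y : ℤ_[2]) * ((m : ℤ_[2]) + (y : ℤ_[2]))))) := by
    refine prod_congr rfl (fun t ht => ?_)
    simp only [half, mem_filter, mem_Ioo] at ht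
    have h5 := gg_refl (p := 2) (m := m) hk t (by omega)
    have h6 : (1 + gg 2 k t * (((2 : ℕ) : ℤ_[2]) * (y : ℤ_[2]))) *
      (1 + gg 2 k (k * m - t) * (((2 : ℕ) : ℤ_[2]) * (y : ℤ_[2]))) =
      1 + (gg 2 k t + gg 2 k (k * m - t)) * (2 * (y : ℤ_[2])) +
        gg 2 k t * gg 2 k (k * m - t) * (4 * ((y : ℤ_[2]) * (y : ℤ_[2]))) := by
      push_cast; ring
    rw [h6, h5]
    push_cast; ring
  rw [hpair]
  have h7 : (m : ℤ_[2]) * (1 + gg 2 k c * (((2 : ℕ) : ℤ_[2]) * (y : ℤ_[2]))) = (m : ℤ_[2]) + 2 * y := by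
    have : (m : ℤ_[2]) * (1 + gg 2 k c * (((2 : ℕ) : ℤ_[2]) * (y : ℤ_[2]))) =
      (m : ℤ_[2]) + (gg 2 k c * (m : ℤ_[2])) * (2 * y) := by push_cast; ring
    rw [this, hgc, one_mul]
  rw [← h7]
  ring

/-- `prod (1 + c_t X) = 1 + X S(X)` -/
private theorem twoodd_exists_S (T : Finset ℕ) (c : ℕ → ℤ_[2]) : ∃ S : ℤ_[2][X], ∀ x : ℤ_[2],
    ∏ t ∈ T, (1 + c t * x) = 1 + x * S.eval x := by
  refine ⟨(∏ t ∈ T, (1 + C (c t) * X)).divX, fun x => ?_⟩
  have h1 := congrArg (fun P : ℤ_[2][X] => P.eval x)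
    (Polynomial.X_mul_divX_add (∏ t ∈ T, (1 + C (c t) * X)))
  have h2 : (∏ t ∈ T, (1 + C (c t) * X : ℤ_[2][X])).coeff 0 = 1 := by
    rw [Polynomial.coeff_zero_eq_eval_zero, Polynomial.eval_prod]
    simp
  have h3 : (∏ t ∈ T, (1 + C (c t) * X : ℤ_[2][X])).eval x = ∏ t ∈ T, (1 + c t * x) := by
    rw [Polynomial.eval_prod]
    simp
  simp only [eval_add, eval_mul, eval_X, eval_C] at h1
  rw [h2, h3] at h1
  rw [← h1]
  ring

/-- `s(kn) + s(n) = br(2 + 4 y Q(2y))` -/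
theorem two_odd_base (hk : k = 2 ^ a) (ha : 2 ≤ a) (hmo : m % 2 = 1) (D : Sys k m) :
    ∃ Q : ℤ_[2][X], ∀ n, (D.s (k * n) : ℤ_[2]) + (D.s n : ℤ_[2]) =
      D.br (fun y => 2 + (y : ℤ_[2]) * (C 4 * Q).eval ((2 : ℤ_[2]) * (y : ℤ_[2]))) n := by
  have hk0 : 0 < k := by rw [hk]; positivity
  have hm0 : 0 < m := by omega
  obtain ⟨S, hS⟩ := twoodd_exists_S (half k m) (fun t => gg 2 k t * gg 2 k (k * m - t))
  refine ⟨(C (m : ℤ_[2]) + X) * S.comp (X * (C (2 * (m : ℤ_[2])) + X)), fun n => ?_⟩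
  have h1 := D.G1 0 n hk0
  have h2 := D.G2 n
  simp only [zero_add, add_zero] at h1
  rw [h1, h2]
  unfold Sys.br
  push_cast
  rw [← sum_add_distrib]
  refine sum_congr rfl (fun y _ => ?_)
  have key : ((k * m - 1 + k * y).choose (k * m - 1) : ℤ_[2]) +
      ((m - 1 + y).choose (m - 1) : ℤ_[2]) = ((m + y).choose m : ℤ_[2]) *
      (2 + (y : ℤ_[2]) * (4 * (((m : ℤ_[2]) + 2 * y) *
        S.eval (4 * ((y : ℤ_[2]) * ((m : ℤ_[2]) + (y : ℤ_[2]))))))) := by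
    have hA : ∀ M z : ℕ, 0 < M → (M + z) * (M - 1 + z).choose (M - 1) = M * (M + z).choose M := by
      intro M z hM
      obtain ⟨M', rfl⟩ : ∃ M', M = M' + 1 := ⟨M - 1, by omega⟩
      have := Nat.add_one_mul_choose_eq (M' + z) M'
      have e1 : M' + 1 - 1 + z = M' + z := by omega
      have e2 : M' + 1 - 1 = M' := by omega
      have e3 : M' + 1 + z = M' + z + 1 := by omega
      rw [e1, e2, e3, this]
      ring
    have hB := hA m y hm0
    have hC := hA (k * m) (k * y) (by positivity)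
    have hB' : ((m : ℤ_[2]) + y) * ((m - 1 + y).choose (m - 1) : ℤ_[2]) =
        m * ((m + y).choose m : ℤ_[2]) := by exact_mod_cast hB
    have hC' : ((m : ℤ_[2]) + y) * ((k * m - 1 + k * y).choose (k * m - 1) : ℤ_[2]) =
        m * ((k * m + k * y).choose (k * m) : ℤ_[2]) := by
      have h3 : (k : ℤ_[2]) * (((m : ℤ_[2]) + y) *
        ((k * m - 1 + k * y).choose (k * m - 1) : ℤ_[2])) =
        (k : ℤ_[2]) * (m * ((k * m + k * y).choose (k * m) : ℤ_[2])) := by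
        have : (((k * m + k * y) * (k * m - 1 + k * y).choose (k * m - 1) : ℕ) : ℤ_[2]) =
          ((k * m * (k * m + k * y).choose (k * m) : ℕ) : ℤ_[2]) := by rw [hC]
        push_cast at this
        linear_combination this
      exact mul_left_cancel₀ (by exact_mod_cast hk0.ne') h3
    have hne : ((m : ℤ_[2]) + y) ≠ 0 := by
      have : ((m + y : ℕ) : ℤ_[2]) ≠ 0 := by
        exact_mod_cast (show m + y ≠ 0 by omega)
      exact_mod_cast this
    apply mul_left_cancel₀ hne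
    rw [mul_add, hB', hC', twoodd_choose hk ha hmo y, hS]
    ring
  have e : (C (4 : ℤ_[2]) * ((C (m : ℤ_[2]) + X) * S.comp (X * (C (2 * (m : ℤ_[2])) + X)))).eval
      ((2 : ℤ_[2]) * (y : ℤ_[2])) = 4 * (((m : ℤ_[2]) + 2 * y) *
        S.eval (4 * ((y : ℤ_[2]) * ((m : ℤ_[2]) + (y : ℤ_[2]))))) := by
    simp only [eval_mul, eval_C, eval_add, eval_X, eval_comp]
    congr 3
    ring
  rw [e, ← mul_add, key]
  ring

theorem two_odd_rep (hk : k = 2 ^ a) (ha : 2 ≤ a) (hmo : m % 2 = 1) (D : Sys k m) (i : ℕ) :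
    ∃ Q : ℤ_[2][X], ∀ n, (D.s (k ^ i * n) : ℤ_[2]) = (-1) ^ i * (D.s n : ℤ_[2]) +
      D.br (fun y => (if Odd i then 2 else 0) +
        (y : ℤ_[2]) * (C 4 * Q).eval ((2 : ℤ_[2]) * (y : ℤ_[2]))) n := by
  have hk0 : 0 < k := by rw [hk]; positivity
  obtain ⟨Q1, hQ1⟩ := two_odd_base hk ha hmo D
  obtain ⟨P0, hP00, -, hP0⟩ := exists_P (p := 2) (m := m) hk (by omega) 0 hk0
  simp only [add_zero, Nat.choose_self, Nat.cast_one] at hP00 hP0
  obtain ⟨k', hk'⟩ : ∃ k', k = 2 * k' := ⟨2 ^ (a - 1), by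
    rw [hk, ← pow_succ']; congr 1; omega⟩
  have hP1 : ∀ x : ℤ_[2], P0.eval x = 1 + x * P0.divX.eval x := by
    intro x
    have h1 := congrArg (fun P : ℤ_[2][X] => P.eval x) (Polynomial.X_mul_divX_add P0)
    simp only [eval_add, eval_mul, eval_X, eval_C] at h1
    rw [Polynomial.coeff_zero_eq_eval_zero, hP00] at h1
    rw [← h1]; ring
  induction i with
  | zero =>
    refine ⟨0, fun n => ?_⟩
    have : D.br (fun y => (if Odd 0 then (2 : ℤ_[2]) else 0) +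
        (y : ℤ_[2]) * (C 4 * (0 : ℤ_[2][X])).eval ((2 : ℤ_[2]) * (y : ℤ_[2]))) n = 0 := by
      unfold Sys.br
      apply sum_eq_zero
      intro y _
      simp
    rw [this]
    simp
  | succ i ih =>
    obtain ⟨Q, hQ⟩ := ih
    obtain ⟨r, R, -, hR⟩ := D.transfer (p := 2) hk ha Q
    set e : ℤ_[2] := if Odd i then 1 else 0 with he
    have hce : (if Odd i then (2 : ℤ_[2]) else 0) = 2 * e := by
      rw [he]; split_ifs <;> simp
    have hce1 : (if Odd (i + 1) then (2 : ℤ_[2]) else 0) = (-1) ^ i * 2 + 2 * e := by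
      rw [he]
      rcases Nat.even_or_odd i with h | h
      · have h1 : ¬ Odd i := Nat.not_odd_iff_even.2 h
        have h2 : Odd (i + 1) := h.add_one
        rw [if_pos h2, if_neg h1, h.neg_one_pow]
        ring
      · have h2 : ¬ Odd (i + 1) := Nat.not_odd_iff_even.2 h.add_one
        rw [if_neg h2, if_pos h, h.neg_one_pow]
        ring
    set G : ℤ_[2][X] := C r + C ((2 : ℕ) : ℤ_[2]) * R with hG
    refine ⟨C ((-1) ^ i) * Q1 + (C e * P0.divX +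
      C (k : ℤ_[2]) * P0 * G.comp (C (k' : ℤ_[2]) * X)), fun n => ?_⟩
    have h1 : D.s (k ^ (i + 1) * n) = D.s (k ^ i * (k * n)) := by
      congr 1; ring
    rw [h1, hQ (k * n)]
    have h2 : (D.s (k * n) : ℤ_[2]) = - (D.s n : ℤ_[2]) + D.br (fun y => 2 + (y : ℤ_[2]) *
      (C 4 * Q1).eval ((2 : ℤ_[2]) * (y : ℤ_[2]))) n := by
      rw [← hQ1 n]; ring
    have h3 : D.br (fun y => (if Odd i then (2 : ℤ_[2]) else 0) +
        (y : ℤ_[2]) * (C 4 * Q).eval ((2 : ℤ_[2]) * (y : ℤ_[2]))) (k * n) =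
        D.br (fun y => 2 * e + (y : ℤ_[2]) * (4 * (e * P0.divX.eval ((2 : ℤ_[2]) * y) +
          (k : ℤ_[2]) * P0.eval ((2 : ℤ_[2]) * y) * G.eval ((k' : ℤ_[2]) * (2 * y))))) n := by
      have h4 : D.br (fun y => (if Odd i then (2 : ℤ_[2]) else 0) +
        (y : ℤ_[2]) * (C 4 * Q).eval ((2 : ℤ_[2]) * (y : ℤ_[2]))) (k * n) =
        D.br (fun _ => 2 * e) (0 + k * n) + 4 * D.br (fun y => (y : ℤ_[2]) *
          Q.eval (((2 : ℕ) : ℤ_[2]) * (y : ℤ_[2]))) (0 + k * n) := by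
        rw [← twoodd_br_mul, ← twoodd_br_add, zero_add]
        refine twoodd_br_congr D _ _ (fun y => ?_) _
        rw [hce, eval_mul, eval_C]
        push_cast
        ring
      rw [h4, D.br_const (2 * e) 0 n hk0, hR 0 n hk0, ← twoodd_bk_mul, ← twoodd_bk_add,
        D.bk_eq_br (p := 2) 0 P0 (by simpa using hP0)]
      refine twoodd_br_congr D _ _ (fun y => ?_) _
      have h5 : ((0 + k * y : ℕ) : ℤ_[2]) = (k' : ℤ_[2]) * (2 * y) := by
        rw [hk']; push_cast; ring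
      have h6 : (k : ℤ_[2]) = 2 * k' := by rw [hk']; push_cast; ring
      have h7 : ((2 : ℕ) : ℤ_[2]) * (y : ℤ_[2]) = 2 * y := by push_cast; ring
      rw [h5, h7]
      linear_combination (2 * e) * hP1 (2 * (y : ℤ_[2])) - (4 * (y : ℤ_[2]) *
        P0.eval (2 * (y : ℤ_[2])) * G.eval ((k' : ℤ_[2]) * (2 * y))) * h6
    rw [h2, h3, mul_add, add_assoc, ← twoodd_br_mul, ← twoodd_br_add]
    have h8 : (-1 : ℤ_[2]) ^ i * -(D.s n : ℤ_[2]) = (-1) ^ (i + 1) * (D.s n : ℤ_[2]) := by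
      rw [pow_succ]; ring
    rw [h8]
    congr 1
    refine twoodd_br_congr D _ _ (fun y => ?_) _
    rw [hce1]
    simp only [eval_add, eval_mul, eval_C, eval_X, eval_comp]
    ring

/-- `i` even -/
theorem two_odd_even (hk : k = 2 ^ a) (ha : 2 ≤ a) (hmo : m % 2 = 1) (D : Sys k m) (i : ℕ)
    (hi : Even i) (b : ℕ) (hb0 : 0 < b) (hb : b < k)
    (hv : a < 2 + padicValNat 2 (m + 1) + padicValNat 2 b) (N : ℕ) :
    D.s (k ^ i * (b + k * N)) ≠ 0 ∧
      padicValInt 2 (D.s (k ^ i * (b + k * N))) = a - padicValNat 2 b := by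
  have hm0 : 1 ≤ m := by omega
  have hvm : padicValNat 2 m = 0 := padicValNat.eq_zero_of_not_dvd (by omega)
  obtain ⟨h0, h1⟩ := D.eval_zero (p := 2) hk ha hm0 b hb0 hb N
  rw [hvm, zero_add] at h1
  obtain ⟨w, hw, h2⟩ := twoodd_of_val _ h0 _ h1
  obtain ⟨Q, hQ⟩ := two_odd_rep hk ha hmo D i
  obtain ⟨c, hc⟩ := D.br_dvd (p := 2) Q (b + k * N)
  obtain ⟨w', hw', h3⟩ := twoodd_nat_val (m + 1) (by omega)
  have hni : ¬ Odd i := Nat.not_odd_iff_even.2 hi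
  have h4 : D.br (fun y => (if Odd i then (2 : ℤ_[2]) else 0) +
        (y : ℤ_[2]) * (C 4 * Q).eval ((2 : ℤ_[2]) * (y : ℤ_[2]))) (b + k * N) =
      4 * (((m + 1 : ℕ) : ℤ_[2]) * c) := by
    rw [← hc, ← twoodd_br_mul]
    refine twoodd_br_congr D _ _ (fun y => ?_) _
    rw [if_neg hni, eval_mul, eval_C]
    push_cast
    ring
  have h5 := hQ (b + k * N)
  rw [h4, hi.neg_one_pow, one_mul, h2, h3] at h5
  obtain ⟨d, hd⟩ : ∃ d, 2 + padicValNat 2 (m + 1) = (a - padicValNat 2 b) + 1 + d :=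
    ⟨2 + padicValNat 2 (m + 1) - ((a - padicValNat 2 b) + 1), by omega⟩
  have h6 : (4 : ℤ_[2]) * (2 ^ padicValNat 2 (m + 1) * w' * c) =
      2 ^ (a - padicValNat 2 b) * (2 * (2 ^ d * w' * c)) := by
    have : (4 : ℤ_[2]) * 2 ^ padicValNat 2 (m + 1) = 2 ^ ((a - padicValNat 2 b) + 1 + d) := by
      rw [← hd, pow_add]; norm_num
    calc (4 : ℤ_[2]) * (2 ^ padicValNat 2 (m + 1) * w' * c)
        = (4 * 2 ^ padicValNat 2 (m + 1)) * (w' * c) := by ring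
      _ = 2 ^ ((a - padicValNat 2 b) + 1 + d) * (w' * c) := by rw [this]
      _ = _ := by rw [pow_add, pow_add]; ring
  exact twoodd_to_val _ _ (w + 2 * (2 ^ d * w' * c)) (twoodd_unit_add _ _ hw)
    (by rw [h5, h6]; ring)

/-- `i` odd -/
theorem two_odd_odd (hk : k = 2 ^ a) (ha : 2 ≤ a) (hmo : m % 2 = 1) (D : Sys k m) (i : ℕ)
    (hi : Odd i) (b : ℕ) (hb0 : 0 < b) (hb : b < k) (N : ℕ) :
    D.s (k ^ i * (b + k * N)) ≠ 0 ∧
      padicValInt 2 (D.s (k ^ i * (b + k * N))) =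
        if padicValNat 2 b + 1 = a then 1 + padicValNat 2 (m + 1) else 1 := by
  have hm0 : 1 ≤ m := by omega
  have hk0 : 0 < k := by omega
  have hvm : padicValNat 2 m = 0 := padicValNat.eq_zero_of_not_dvd (by omega)
  obtain ⟨Q, hQ⟩ := two_odd_rep hk ha hmo D i
  obtain ⟨c, hc⟩ := D.br_dvd (p := 2) Q (b + k * N)
  obtain ⟨w', hw', h3⟩ := twoodd_nat_val (m + 1) (by omega)
  have h4 : D.br (fun y => (if Odd i then (2 : ℤ_[2]) else 0) +
        (y : ℤ_[2]) * (C 4 * Q).eval ((2 : ℤ_[2]) * (y : ℤ_[2]))) (b + k * N) =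
      2 * (D.E 0 (b + k * N) : ℤ_[2]) + 4 * (((m + 1 : ℕ) : ℤ_[2]) * c) := by
    rw [← hc, ← D.br_const' (2 : ℤ_[2]), ← twoodd_br_mul, ← twoodd_br_add]
    refine twoodd_br_congr D _ _ (fun y => ?_) _
    rw [if_pos hi, eval_mul, eval_C]
    push_cast
    ring
  have h5 := hQ (b + k * N)
  rw [h4, hi.neg_one_pow] at h5
  split_ifs with hr
  · -- `b = 2 ^ (a - 1)`
    have hb1 : b = 2 ^ (a - 1) := by
      have h6 : 2 ^ padicValNat 2 b ∣ b := pow_padicValNat_dvd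
      rw [show padicValNat 2 b = a - 1 by omega] at h6
      obtain ⟨q, hq⟩ := h6
      have h7 : 2 ^ (a - 1) * q < 2 ^ (a - 1) * 2 := by
        rw [← hq, ← pow_succ, show a - 1 + 1 = a by omega, ← hk]
        exact hb
      have h8 : q < 2 := lt_of_mul_lt_mul_left h7 (Nat.zero_le _)
      have h9 : q ≠ 0 := by rintro rfl; omega
      rw [hq, show q = 1 by omega, mul_one]
    have hkb : k = 2 * b := by
      rw [hb1, ← pow_succ', show a - 1 + 1 = a by omega, hk]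
    obtain ⟨P, hP0, hP⟩ := exists_P' (p := 2) (m := m) hk (by omega) hm0 b hb0 hb
    have e1 := D.s_formula (p := 2) hm0 b hb0 hb P hP N
    have e2 := D.bk_formula (p := 2) b P hP (fun _ => 1) N
    have e3 : D.bk (fun _ => (1 : ℤ_[2])) b N = (D.E 0 (b + k * N) : ℤ_[2]) := by
      rw [← D.br_const (1 : ℤ_[2]) b N hb, D.br_const' (1 : ℤ_[2]), one_mul]
    rw [e3] at e2
    obtain ⟨c1, hc1⟩ := D.br_mod (p := 2) hk (by omega) hm0 P N
    obtain ⟨c2, hc2⟩ := D.br_dvd (p := 2) P N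
    -- the combined formula
    have e4 : ((k * m + b : ℕ) : ℤ_[2]) * (2 * (D.E 0 (b + k * N) : ℤ_[2]) -
        (D.s (b + k * N) : ℤ_[2])) = (k : ℤ_[2]) * (((m + 1 : ℕ) : ℤ_[2]) *
          (P.eval 0 + 2 * (c1 + c2))) := by
      have e5 : (k : ℤ_[2]) * (((m + 1 : ℕ) : ℤ_[2]) * (P.eval 0 + 2 * (c1 + c2))) =
          D.br (fun y => 2 * (P.eval (((2 : ℕ) : ℤ_[2]) * (y : ℤ_[2])) *
            (((k * m + b + k * y : ℕ) : ℤ_[2]) * 1)) +
            (-1) * (P.eval (((2 : ℕ) : ℤ_[2]) * (y : ℤ_[2])) * ((k * m : ℕ) : ℤ_[2]))) N := by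
        have e6 : (k : ℤ_[2]) * (((m + 1 : ℕ) : ℤ_[2]) * (P.eval 0 + 2 * (c1 + c2))) =
            ((k : ℤ_[2]) * ((m + 1 : ℕ) : ℤ_[2])) * (P.eval 0 + ((2 : ℕ) : ℤ_[2]) * c1) +
            (2 * (k : ℤ_[2])) * (((m + 1 : ℕ) : ℤ_[2]) * c2) := by
          push_cast; ring
        rw [e6, ← hc1, ← hc2, ← twoodd_br_mul, ← twoodd_br_mul, ← twoodd_br_add]
        refine twoodd_br_congr D _ _ (fun y => ?_) _
        have e7 : (k : ℤ_[2]) = 2 * (b : ℤ_[2]) := by rw [hkb]; push_cast; ring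
        push_cast
        linear_combination (P.eval (2 * (y : ℤ_[2]))) * e7
      rw [e5, twoodd_br_add, twoodd_br_mul, twoodd_br_mul, ← e1, ← e2]
      ring
    have hb2 : (b : ℤ_[2]) ≠ 0 := by exact_mod_cast hb0.ne'
    have e8 : ((2 * m + 1 : ℕ) : ℤ_[2]) * (2 * (D.E 0 (b + k * N) : ℤ_[2]) -
        (D.s (b + k * N) : ℤ_[2])) = 2 * (((m + 1 : ℕ) : ℤ_[2]) *
          (P.eval 0 + 2 * (c1 + c2))) := by
      apply mul_left_cancel₀ hb2
      have e7 : (k : ℤ_[2]) = 2 * (b : ℤ_[2]) := by rw [hkb]; push_cast; ring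
      have e9 : ((k * m + b : ℕ) : ℤ_[2]) = (b : ℤ_[2]) * ((2 * m + 1 : ℕ) : ℤ_[2]) := by
        rw [hkb]; push_cast; ring
      rw [e9] at e4
      rw [e7] at e4
      linear_combination e4
    have hu1 : IsUnit ((2 * m + 1 : ℕ) : ℤ_[2]) := twoodd_unit_odd _ (by omega)
    have hu2 : IsUnit (P.eval 0 + 2 * (c1 + c2)) := twoodd_unit_add _ _ hP0
    obtain ⟨u1, hu1'⟩ := hu1
    have hinv : (↑(u1⁻¹) : ℤ_[2]) * ((2 * m + 1 : ℕ) : ℤ_[2]) = 1 := by
      rw [← hu1']; simp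
    have e10 : 2 * (D.E 0 (b + k * N) : ℤ_[2]) - (D.s (b + k * N) : ℤ_[2]) =
        2 * (((m + 1 : ℕ) : ℤ_[2]) * ((↑(u1⁻¹) : ℤ_[2]) * (P.eval 0 + 2 * (c1 + c2)))) := by
      have := congrArg (fun x => (↑(u1⁻¹) : ℤ_[2]) * x) e8
      rw [← mul_assoc, hinv, one_mul] at this
      rw [this]; ring
    refine twoodd_to_val _ _ (w' * ((↑(u1⁻¹) : ℤ_[2]) * (P.eval 0 + 2 * (c1 + c2)) + 2 * c)) ?_ ?_
    · refine hw'.mul (twoodd_unit_add _ _ (IsUnit.mul ?_ hu2))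
      exact Units.isUnit _
    · rw [h5, show (-1 : ℤ_[2]) * (D.s (b + k * N) : ℤ_[2]) +
        (2 * (D.E 0 (b + k * N) : ℤ_[2]) + 4 * (((m + 1 : ℕ) : ℤ_[2]) * c)) =
        (2 * (D.E 0 (b + k * N) : ℤ_[2]) - (D.s (b + k * N) : ℤ_[2])) +
          4 * (((m + 1 : ℕ) : ℤ_[2]) * c) by ring, e10, h3, pow_add]
      ring
  · -- `v(s(n)) ≥ 2`
    obtain ⟨h0, h1⟩ := D.eval_zero (p := 2) hk ha hm0 b hb0 hb N
    rw [hvm, zero_add] at h1
    obtain ⟨w, hw, h2⟩ := twoodd_of_val _ h0 _ h1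
    have hlt : padicValNat 2 b < a := by
      by_contra h
      have h6 : 2 ^ a ∣ b := (padicValNat_dvd_iff_le (by omega)).2 (by omega)
      have h7 := Nat.le_of_dvd hb0 h6
      rw [← hk] at h7
      omega
    obtain ⟨d, hd⟩ : ∃ d, a - padicValNat 2 b = 2 + d := ⟨a - padicValNat 2 b - 2, by omega⟩
    obtain ⟨cE, hcE⟩ := D.E0_mod (p := 2) hk (by omega) hm0 (b + k * N)
    refine twoodd_to_val _ _ (1 + 2 * (cE - 2 ^ d * w + ((m + 1 : ℕ) : ℤ_[2]) * c))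
      (twoodd_unit_add _ _ isUnit_one) ?_
    rw [h5, h2, hcE, hd, pow_add]
    push_cast
    ring

end Pool.MP9acee6
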