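import Pool.Agent.H.MP_9acee6_nt.TwoRep
import Pool.Agent.H.MP_9acee6_nt.TwoCrit
import Pool.Agent.H.MP_9acee6_nt.Eval

/-!
# `p = 2`, `m` even: unboundedness
-/

set_option autoImplicit false

open Polynomial Finset

namespace Pool.MP9acee6

variable {a k m : ℕ}

theorem twounb_cases (x : ℤ_[2]) : ∃ y : ℤ_[2], x = 2 * y ∨ x = 1 + 2 * y := by
  obtain ⟨n, hn, hx⟩ := PadicInt.exists_mem_range (p := 2) x
  rw [PadicInt.maximalIdeal_eq_span_p, Ideal.mem_span_singleton] at hx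
  obtain ⟨y, hy⟩ := hx
  refine ⟨y, ?_⟩
  have h2 : ((2 : ℕ) : ℤ_[2]) = 2 := by norm_num
  rw [h2] at hy
  interval_cases n
  · left
    rw [← hy]; simp
  · right
    rw [← hy]; simp

theorem twounb_not_unit (y : ℤ_[2]) : ¬ IsUnit (2 * y : ℤ_[2]) := by
  intro h
  have h1 : IsUnit (2 : ℤ_[2]) := isUnit_of_mul_isUnit_left h
  have h2 := PadicInt.prime_p (p := 2)
  have h3 : ((2 : ℕ) : ℤ_[2]) = 2 := by norm_num
  rw [h3] at h2
  exact h2.not_isUnit h1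

theorem twounb_unit (y : ℤ_[2]) : IsUnit (1 + 2 * y : ℤ_[2]) := by
  by_contra h
  have h1 : ¬ IsUnit (-(2 * y) : ℤ_[2]) := by
    have := twounb_not_unit (-y)
    rwa [mul_neg] at this
  have h2 := IsLocalRing.nonunits_add (mem_nonunits_iff.2 h) (mem_nonunits_iff.2 h1)
  rw [add_neg_cancel_right] at h2
  exact h2 isUnit_one

theorem twounb_of_unit {x : ℤ_[2]} (h : IsUnit x) : ∃ y : ℤ_[2], x = 1 + 2 * y := by
  obtain ⟨y, hy | hy⟩ := twounb_cases x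
  · exact absurd (hy ▸ h) (twounb_not_unit y)
  · exact ⟨y, hy⟩

theorem twounb_shift (R : ℤ_[2][X]) (Y : ℤ_[2]) :
    ∃ R1 : ℤ_[2][X], ∀ x : ℤ_[2], R.eval (Y + x) = R.eval Y + x * R1.eval x := by
  refine ⟨divX (R.comp (C Y + X)), fun x => ?_⟩
  have h := divX_mul_X_add (R.comp (C Y + X))
  have h1 := congrArg (Polynomial.eval x) h
  rw [eval_add, eval_mul, eval_X, eval_C, eval_comp, eval_add, eval_C, eval_X] at h1
  have h2 : (R.comp (C Y + X)).coeff 0 = R.eval Y := by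
    rw [coeff_zero_eq_eval_zero, eval_comp, eval_add, eval_C, eval_X, add_zero]
  rw [h2] at h1
  rw [← h1]; ring

/-- the bracket as a function of `w` -/
noncomputable def twounb_th (M ρ : ℤ_[2]) (ψ : ℤ_[2][X]) (w : ℤ_[2]) : ℤ_[2] :=
  1 + w * (w + M) * ψ.eval (ρ * w)

theorem twounb_step (A0 B' κ' M' ρ w0 : ℤ_[2]) (R : ℤ_[2][X]) (s' : ℕ) :
    ∃ Q : ℤ_[2][X], IsUnit (Q.eval 0) ∧ ∀ t : ℤ_[2],
      twounb_th (4 * M') ρ (C (1 + 2 * A0) + C (2 * B') * (X - 1) * (X + C (1 + 2 * κ')) + C 8 * R)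
        (1 + 2 * w0 + 2 ^ (s' + 2) * t) =
      twounb_th (4 * M') ρ (C (1 + 2 * A0) + C (2 * B') * (X - 1) * (X + C (1 + 2 * κ')) + C 8 * R)
        (1 + 2 * w0) + 2 ^ (s' + 3) * t * Q.eval (2 * t) := by
  set w : ℤ_[2] := 1 + 2 * w0 with hw
  obtain ⟨R1, hR1⟩ := twounb_shift R (ρ * w)
  set c : ℤ_[2] := 1 + 2 * A0 + 2 * B' * (ρ * w - 1) * (ρ * w + (1 + 2 * κ'))
    + 8 * R.eval (ρ * w) with hc
  set P2 : ℤ_[2][X] := C (B' * ρ) * (C (ρ * w + κ') + C (ρ * 2 ^ s') * X)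
    + C (2 * ρ) * R1.comp (C (ρ * 2 ^ (s' + 1)) * X) with hP2
  set F1 : ℤ_[2][X] := C (w + 2 * M') + C (2 ^ s') * X with hF1
  refine ⟨F1 * C c + C (2 * w * (w + 4 * M')) * P2 + C (2 ^ (s' + 3)) * X * F1 * P2, ?_, ?_⟩
  · simp only [eval_add, eval_mul, eval_C, eval_X, mul_zero, zero_mul, add_zero]
    have h1 : eval 0 F1 = w + 2 * M' := by
      rw [hF1]; simp
    rw [h1]
    have h2 : (w + 2 * M') * c + 2 * w * (w + 4 * M') * eval 0 P2 =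
        1 + 2 * ((w0 + M') * c + (A0 + B' * (ρ * w - 1) * (ρ * w + (1 + 2 * κ'))
          + 4 * R.eval (ρ * w)) + w * (w + 4 * M') * eval 0 P2) := by
      rw [hw]
      have : c = 1 + 2 * (A0 + B' * (ρ * w - 1) * (ρ * w + (1 + 2 * κ'))
          + 4 * R.eval (ρ * w)) := by rw [hc]; ring
      rw [hw] at this
      linear_combination this
    rw [h2]
    exact twounb_unit _
  · intro t
    have hP : eval (2 * t) P2 = B' * ρ * (ρ * w + κ' + ρ * 2 ^ s' * (2 * t))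
        + 2 * ρ * R1.eval (ρ * 2 ^ (s' + 2) * t) := by
      rw [hP2]
      simp only [eval_add, eval_mul, eval_C, eval_X, eval_comp]
      have : ρ * 2 ^ (s' + 1) * (2 * t) = ρ * 2 ^ (s' + 2) * t := by ring
      rw [this]
    have hF : eval (2 * t) F1 = w + 2 * M' + 2 ^ s' * (2 * t) := by
      rw [hF1]; simp only [eval_add, eval_mul, eval_C, eval_X]
    have hR := hR1 (ρ * 2 ^ (s' + 2) * t)
    unfold twounb_th
    simp only [eval_add, eval_mul, eval_C, eval_X, eval_sub, eval_one]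
    have h3 : ρ * (w + 2 ^ (s' + 2) * t) = ρ * w + ρ * 2 ^ (s' + 2) * t := by ring
    rw [h3, hR, hP, hF, hc]
    ring

theorem twounb_root (A0 B' κ' M' ρ : ℤ_[2]) (R : ℤ_[2][X])
    (h0 : (8 : ℤ_[2]) ∣ twounb_th (4 * M') ρ
      (C (1 + 2 * A0) + C (2 * B') * (X - 1) * (X + C (1 + 2 * κ')) + C 8 * R) 1) (s : ℕ) :
    ∃ u0 : ℕ, 1 + 2 * u0 < 2 ^ (s + 2) ∧ (2 : ℤ_[2]) ^ (s + 3) ∣ twounb_th (4 * M') ρ
      (C (1 + 2 * A0) + C (2 * B') * (X - 1) * (X + C (1 + 2 * κ')) + C 8 * R)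
        (1 + 2 * (u0 : ℤ_[2])) := by
  induction s with
  | zero =>
    refine ⟨0, by norm_num, ?_⟩
    have : (1 + 2 * ((0 : ℕ) : ℤ_[2])) = 1 := by simp
    rw [this]
    have h8 : (2 : ℤ_[2]) ^ (0 + 3) = 8 := by norm_num
    rw [h8]
    exact h0
  | succ s ih =>
    obtain ⟨u0, hu, z, hz⟩ := ih
    obtain ⟨Q, hQ, hstep⟩ := twounb_step A0 B' κ' M' ρ (u0 : ℤ_[2]) R s
    obtain ⟨z', hz' | hz'⟩ := twounb_cases z
    · refine ⟨u0, ?_, z', ?_⟩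
      · have : 2 ^ (s + 2) ≤ 2 ^ (s + 1 + 2) := Nat.pow_le_pow_right (by norm_num) (by omega)
        omega
      · rw [hz, hz']; ring
    · have h1 := hstep 1
      obtain ⟨q, hq⟩ := twounb_of_unit hQ
      obtain ⟨Q1, hQ1⟩ := twounb_shift Q 0
      have h2 := hQ1 2
      rw [zero_add] at h2
      refine ⟨u0 + 2 ^ (s + 1), ?_, z' + q + Q1.eval 2 + 1, ?_⟩
      · have : 2 ^ (s + 1 + 2) = 2 * 2 ^ (s + 2) := by ring
        have h' : 2 ^ (s + 2) = 2 * 2 ^ (s + 1) := by ring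
        omega
      · have h3 : (1 + 2 * ((u0 + 2 ^ (s + 1) : ℕ) : ℤ_[2])) = 1 + 2 * (u0 : ℤ_[2])
            + 2 ^ (s + 2) * 1 := by
          push_cast; ring
        rw [h3, h1, hz, hz', mul_one, mul_one, h2, hq]
        ring

theorem twounb_cast8 (n : ℕ) (h : n % 8 = 0) : (8 : ℤ_[2]) ∣ (n : ℤ_[2]) := by
  obtain ⟨c, hc⟩ := Nat.dvd_of_mod_eq_zero h
  exact ⟨(c : ℤ_[2]), by rw [hc]; push_cast; ring⟩

/-- the value `psi(2^r)` modulo `8` -/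
theorem twounb_base (hk : k = 2 ^ a) (v m' i r : ℕ) (hv : 1 ≤ v)
    (hmv : m = 2 ^ v * m') (har : a = v + 1 + 2 * r) (hi : 1 ≤ i)
    (hal : alph a v m' i = 7) (A B : ℤ_[2]) (Rv : ℤ_[2])
    (hA : (8 : ℤ_[2]) ∣ A - (m' : ℤ_[2]) - (if a = 2 ∧ 2 ≤ i then 4 else 0))
    (hB1 : v = 1 → (8 : ℤ_[2]) ∣ B)
    (hB2 : 2 ≤ v → (8 : ℤ_[2]) ∣ B + 2 * (m' : ℤ_[2])) :
    (8 : ℤ_[2]) ∣ 1 + (A + B * (2 ^ r - 1) * (2 ^ r + ((k * m + 1 : ℕ) : ℤ_[2])) + 8 * Rv) := by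
  obtain ⟨x, hx⟩ := hA
  rcases Nat.eq_zero_or_pos r with hr | hr
  · subst hr
    have hred : 1 + (A + B * (2 ^ 0 - 1) * (2 ^ 0 + ((k * m + 1 : ℕ) : ℤ_[2])) + 8 * Rv)
        = ((m' : ℤ_[2]) + (if a = 2 ∧ 2 ≤ i then 4 else 0) + 1) + 8 * (x + Rv) := by
      rw [pow_zero]
      linear_combination hx
    rw [hred]
    refine dvd_add ?_ (dvd_mul_right _ _)
    by_cases ha2 : a = 2
    · by_cases hi1 : i = 1
      · have hne : ¬ (a = 2 ∧ 2 ≤ i) := by omega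
        rw [if_neg hne]
        have : m' % 8 = 7 := by
          unfold alph at hal; rw [if_pos ha2, if_pos hi1] at hal; exact hal
        have h8 := twounb_cast8 (m' + 1) (by omega)
        push_cast at h8
        simpa using h8
      · have hne : (a = 2 ∧ 2 ≤ i) := by omega
        rw [if_pos hne]
        have : (m' + 4) % 8 = 7 := by
          unfold alph at hal; rw [if_pos ha2, if_neg hi1] at hal; exact hal
        have h8 := twounb_cast8 (m' + 4 + 1) (by omega)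
        push_cast at h8
        exact h8
    · have hne : ¬ (a = 2 ∧ 2 ≤ i) := by omega
      rw [if_neg hne]
      have : m' % 8 = 7 := by
        unfold alph at hal
        rw [if_neg ha2, if_pos (Or.inl (by omega))] at hal; exact hal
      have h8 := twounb_cast8 (m' + 1) (by omega)
      push_cast at h8
      simpa using h8
  · obtain ⟨r', rfl⟩ : ∃ r', r = r' + 1 := ⟨r - 1, by omega⟩
    have ha2 : a ≠ 2 := by omega
    have hne : ¬ (a = 2 ∧ 2 ≤ i) := by omega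
    rw [if_neg hne] at hx
    obtain ⟨a', rfl⟩ : ∃ a', a = a' + 2 := ⟨a - 2, by omega⟩
    set y : ℤ_[2] := (2 ^ r') ^ 2 + 2 ^ a' * (m : ℤ_[2]) * (2 ^ (r' + 1) - 1) with hy
    have hkm : ((k * m + 1 : ℕ) : ℤ_[2]) = 4 * (2 ^ a' * (m : ℤ_[2])) + 1 := by
      rw [hk]; push_cast; ring
    have hprod : ((2 : ℤ_[2]) ^ (r' + 1) - 1) * (2 ^ (r' + 1) + ((k * m + 1 : ℕ) : ℤ_[2]))
        = -1 + 4 * y := by
      rw [hkm, hy]; ring
    have hexp : 1 + (A + B * (2 ^ (r' + 1) - 1) * (2 ^ (r' + 1) + ((k * m + 1 : ℕ) : ℤ_[2]))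
        + 8 * Rv) = 1 + A + B * (-1 + 4 * y) + 8 * Rv := by
      rw [← hprod]; ring
    rw [hexp]
    rcases Nat.lt_or_ge 1 v with hv2 | hv2
    · obtain ⟨z, hz⟩ := hB2 hv2
      have : 3 * m' % 8 = 7 := by
        unfold alph at hal
        rw [if_neg ha2, if_neg (by omega)] at hal; exact hal
      obtain ⟨w, hw⟩ := twounb_cast8 (3 * m' + 1) (by omega)
      push_cast at hw
      exact ⟨w + x + z * (-1 + 4 * y) - (m' : ℤ_[2]) * y + Rv, by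
        linear_combination hw + hx + (-1 + 4 * y) * hz⟩
    · have hv1 : v = 1 := by omega
      obtain ⟨z, hz⟩ := hB1 hv1
      have : m' % 8 = 7 := by
        unfold alph at hal
        rw [if_neg ha2, if_pos (Or.inr hv1)] at hal; exact hal
      obtain ⟨w, hw⟩ := twounb_cast8 (m' + 1) (by omega)
      push_cast at hw
      exact ⟨w + x + z * (-1 + 4 * y) + Rv, by
        linear_combination hw + hx + (-1 + 4 * y) * hz⟩

/-- critical, `α ≡ 7 mod 8` -/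
theorem two_unb (hk : k = 2 ^ a) (ha : 2 ≤ a) (hm : 1 ≤ m) (v m' : ℕ) (hv : 1 ≤ v)
    (hmv : m = 2 ^ v * m') (hm' : m' % 2 = 1) (D : Sys k m) (i : ℕ) (hi : 1 ≤ i)
    (hva : v + 1 ≤ a) (hdv : 2 ∣ a - (v + 1)) (hal : alph a v m' i = 7) (T : ℕ) :
    ∃ n : ℕ, 1 ≤ n ∧ (2 : ℤ) ^ T ∣ D.s n := by
  obtain ⟨r, hr⟩ := hdv
  have har : a = v + 1 + 2 * r := by omega
  obtain ⟨A, B, R, hrep, hA, hB, hB1, hB2⟩ := two_rep hk ha hm v m' hv hmv hm' D i hi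
  -- parameters
  obtain ⟨v', rfl⟩ : ∃ v', v = v' + 1 := ⟨v - 1, by omega⟩
  obtain ⟨mm, hmm⟩ : ∃ mm, m = 2 * mm := ⟨2 ^ v' * m', by rw [hmv]; ring⟩
  obtain ⟨B', hB'⟩ := hB
  have hA' : ∃ A0 : ℤ_[2], A = 1 + 2 * A0 := by
    obtain ⟨x, hx⟩ := hA
    have hmo : (m' : ℤ_[2]) = 1 + 2 * ((m' / 2 : ℕ) : ℤ_[2]) := by
      have h1 : m' = 1 + 2 * (m' / 2) := by omega
      calc (m' : ℤ_[2]) = ((1 + 2 * (m' / 2) : ℕ) : ℤ_[2]) := by rw [← h1]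
        _ = _ := by push_cast; ring
    split_ifs at hx with hc
    · exact ⟨((m' / 2 : ℕ) : ℤ_[2]) + 4 * x + 2, by linear_combination hx + hmo⟩
    · exact ⟨((m' / 2 : ℕ) : ℤ_[2]) + 4 * x, by linear_combination hx + hmo⟩
  obtain ⟨A0, hA0⟩ := hA'
  -- exponents : `a - r = s + 2`
  obtain ⟨s, hs⟩ : ∃ s, v' + 1 + 1 + r = s + 2 := ⟨v' + r, by omega⟩
  have has : a = r + (s + 2) := by omega
  set M' : ℤ_[2] := 2 ^ s * (m : ℤ_[2]) with hM'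
  set κ' : ℤ_[2] := 2 ^ (r + (s + 1)) * (m : ℤ_[2]) with hκ'
  have hkm : ((k * m + 1 : ℕ) : ℤ_[2]) = 1 + 2 * κ' := by
    rw [hk, has, hκ']; push_cast; ring
  rw [hkm, hA0, hB'] at hrep
  set ψ : ℤ_[2][X] := C (1 + 2 * A0) + C (2 * B') * (X - 1) * (X + C (1 + 2 * κ')) + C 8 * R
    with hψ
  have h0 : (8 : ℤ_[2]) ∣ twounb_th (4 * M') (2 ^ r) ψ 1 := by
    have hb := twounb_base hk (v' + 1) m' i r hv hmv har hi hal A B (R.eval (2 ^ r)) hA hB1 hB2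
    rw [hkm, hA0, hB'] at hb
    obtain ⟨x, hx⟩ := hb
    have hev : ψ.eval (2 ^ r) = 1 + 2 * A0 + 2 * B' * (2 ^ r - 1) * (2 ^ r + (1 + 2 * κ'))
        + 8 * R.eval (2 ^ r) := by
      rw [hψ]; simp only [eval_add, eval_mul, eval_C, eval_X, eval_sub, eval_one]
    have hM8 : 4 * M' = 8 * (2 ^ s * (mm : ℤ_[2])) := by
      rw [hM', hmm]; push_cast; ring
    refine ⟨x + 2 ^ s * (mm : ℤ_[2]) * ψ.eval (2 ^ r), ?_⟩
    unfold twounb_th
    rw [mul_one]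
    linear_combination hx + hev + ψ.eval (2 ^ r) * hM8
  obtain ⟨u0, hu, A1, hA1⟩ := twounb_root A0 B' κ' M' (2 ^ r) R h0 s
  obtain ⟨Q, hQ, hstep⟩ := twounb_step A0 B' κ' M' (2 ^ r) (u0 : ℤ_[2]) R s
  rw [← hψ] at hstep hA1
  have hrep' : D.Rep i (m : ℤ_[2]) (C (2 ^ (v' + 1 + 1)) * ψ) := by
    intro b N hb
    have h := hrep b N hb
    rw [h]
    congr 1
    funext y
    rw [eval_mul, eval_C]; ring
  have hpos : 0 < 2 ^ r * (1 + 2 * u0) := by positivity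
  have hlt : 2 ^ r * (1 + 2 * u0) < k := by
    rw [hk, has, pow_add]
    exact Nat.mul_lt_mul_of_pos_left hu (by positivity)
  have hodd : ¬ 2 ∣ m + 1 := by omega
  have hmain := Sys.unbounded_main (p := 2) D hk ha hm hodd (2 ^ r * (1 + 2 * u0)) hpos hlt i
    (C (2 ^ (v' + 1 + 1)) * ψ) hrep' (a + (s + 3)) A1 Q hQ ?_ T
  · simpa using hmain
  · intro y
    have h1 := hstep (y : ℤ_[2])
    rw [hA1] at h1
    unfold twounb_th at h1
    have hY : ((2 ^ r * (1 + 2 * u0) + k * y : ℕ) : ℤ_[2])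
        = 2 ^ r * (1 + 2 * (u0 : ℤ_[2]) + 2 ^ (s + 2) * (y : ℤ_[2])) := by
      rw [hk, has]; push_cast; ring
    have hY2 : ((k * m + 2 ^ r * (1 + 2 * u0) + k * y : ℕ) : ℤ_[2])
        = 2 ^ r * (1 + 2 * (u0 : ℤ_[2]) + 2 ^ (s + 2) * (y : ℤ_[2]) + 4 * M') := by
      rw [hk, has, hM']; push_cast; ring
    have hkk : (k : ℤ_[2]) = 2 ^ a := by rw [hk]; push_cast; ring
    rw [hY, hY2, eval_mul, eval_C, hkk]
    have h2 : ((2 : ℕ) : ℤ_[2]) = 2 := by norm_num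
    rw [h2]
    have ha2 : (2 : ℤ_[2]) ^ a = 2 ^ r * 2 ^ r * 2 ^ (v' + 1 + 1) := by
      rw [har]; ring
    have h3 : (2 : ℤ_[2]) ^ (a + (s + 3)) = 2 ^ a * 2 ^ (s + 3) := by ring
    rw [h3]
    linear_combination (2 : ℤ_[2]) ^ a * h1 - ((1 + 2 * (u0 : ℤ_[2]) + 2 ^ (s + 2) * (y : ℤ_[2]) + 4 * M') * (1 + 2 * (u0 : ℤ_[2]) + 2 ^ (s + 2) * (y : ℤ_[2])) * ψ.eval (2 ^ r * (1 + 2 * (u0 : ℤ_[2]) + 2 ^ (s + 2) * (y : ℤ_[2])))) * ha2

end Pool.MP9acee6
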