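import Pool.Agent.H.MP_9acee6_nt.OddEval
import Pool.Agent.H.MP_9acee6_nt.OddUnb
import Pool.Agent.H.MP_9acee6_nt.TwoEval
import Pool.Agent.H.MP_9acee6_nt.TwoUnb
import Pool.Agent.H.MP_9acee6_nt.TwoOdd
import Pool.Agent.H.MP_9acee6_nt.Auto
import Pool.Agent.H.MP_9acee6_nt.Gen
import Pool.Agent.H.MP_9acee6_nt.Crit

/-!
# Assembly
-/

set_option autoImplicit false

namespace Pool.MP9acee6

theorem fin_decomp (k n : ℕ) (hk : 2 ≤ k) (hn : 1 ≤ n) :
    ∃ i b N : ℕ, 0 < b ∧ b < k ∧ n = k ^ i * (b + k * N) := by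
  obtain ⟨i, n', hn', rfl⟩ := Nat.exists_eq_pow_mul_and_not_dvd (n := n) (by omega) k (by omega)
  refine ⟨i, n' % k, n' / k, ?_, Nat.mod_lt _ (by omega), ?_⟩
  · rcases Nat.eq_zero_or_pos (n' % k) with h | h
    · exact absurd (Nat.dvd_of_mod_eq_zero h) hn'
    · exact h
  · rw [Nat.mod_add_div]

section

variable {p : ℕ} [Fact p.Prime] {a k m : ℕ}

theorem fin_val_lt (hk : k = p ^ a) (b : ℕ) (hb0 : 0 < b) (hb : b < k) : padicValNat p b < a := by
  have h1 : p ^ padicValNat p b ∣ b := pow_padicValNat_dvd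
  have h2 : p ^ padicValNat p b ≤ b := Nat.le_of_dvd hb0 h1
  have h3 : p ^ padicValNat p b < p ^ a := by rw [← hk]; omega
  exact (Nat.pow_lt_pow_iff_right (Fact.out (p := p.Prime)).one_lt).1 h3

theorem fin_val (hk : k = p ^ a) (i b N : ℕ) (hb0 : 0 < b) (hb : b < k) :
    padicValNat p (k ^ i * (b + k * N)) = a * i + padicValNat p b := by
  have hp : p.Prime := Fact.out
  have hlt := fin_val_lt hk b hb0 hb
  have hk0 : 0 < k := by omega
  have hb1 : padicValNat p (b + k * N) = padicValNat p b := by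
    apply le_antisymm
    · by_contra hcon
      push Not at hcon
      have h1 : p ^ (padicValNat p b + 1) ∣ b + k * N :=
        (padicValNat_dvd_iff_le (by omega)).2 hcon
      have h2 : p ^ (padicValNat p b + 1) ∣ k * N := by
        rw [hk]
        exact Dvd.dvd.mul_right (pow_dvd_pow p hlt) N
      have h3 : p ^ (padicValNat p b + 1) ∣ b := (Nat.dvd_add_left h2).1 h1
      have h4 := (padicValNat_dvd_iff_le (p := p) (by omega : b ≠ 0)).1 h3
      omega
    · have h1 : p ^ (padicValNat p b) ∣ b + k * N := by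
        apply Dvd.dvd.add pow_padicValNat_dvd
        rw [hk]
        exact Dvd.dvd.mul_right (pow_dvd_pow p hlt.le) N
      exact (padicValNat_dvd_iff_le (by omega)).1 h1
  rw [padicValNat.mul (pow_ne_zero _ (by omega)) (by omega), hb1, hk, ← pow_mul,
    padicValNat.prime_pow]

omit [Fact p.Prime] in
/-- the valuations as a function of the decomposition -/
theorem fin_V_eq (D : Sys (p ^ a) m)
    (hD : ∀ n, S (p ^ a) m n = (D.s n : ℚ)) (n : ℕ) : V p a m n = padicValInt p (D.s n) := by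
  unfold V
  rw [hD n]
  exact padicValRat.of_int

/-- reduction to a function of the valuation -/
theorem fin_reduce (ha : 2 ≤ a) (hm : 1 ≤ m) (D : Sys (p ^ a) m)
    (hD : ∀ n, S (p ^ a) m n = (D.s n : ℚ)) (g : ℕ → ℕ → ℕ)
    (hg : ∀ i b N, 0 < b → b < p ^ a → padicValInt p (D.s ((p ^ a) ^ i * (b + p ^ a * N))) =
      g i (padicValNat p b)) (n : ℕ) (hn : 1 ≤ n) :
    V p a m n = (g (padicValNat p n / a) (padicValNat p n % a) : ℤ) := by
  have hp : p.Prime := Fact.out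
  have hk2 : 2 ≤ p ^ a := by
    calc 2 ≤ p := hp.two_le
      _ = p ^ 1 := (pow_one p).symm
      _ ≤ p ^ a := Nat.pow_le_pow_right hp.pos (by omega)
  obtain ⟨i, b, N, hb0, hb, rfl⟩ := fin_decomp (p ^ a) n hk2 hn
  rw [fin_V_eq D hD, hg i b N hb0 hb, fin_val rfl i b N hb0 hb]
  have hlt := fin_val_lt (p := p) (a := a) rfl b hb0 hb
  have h1 : (a * i + padicValNat p b) / a = i := by
    rw [Nat.mul_add_div (by omega), Nat.div_eq_of_lt hlt, add_zero]
  have h2 : (a * i + padicValNat p b) % a = padicValNat p b := by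
    rw [Nat.mul_add_mod, Nat.mod_eq_of_lt hlt]
  rw [h1, h2]

end

/-- the general automaticity lemma -/
theorem fin_auto {p a m : ℕ} (hp : p.Prime) (ha : 2 ≤ a) (g : ℕ → ℕ → ℕ) (I : ℕ)
    (hper : ∀ i r, I ≤ i → g (i + 2) r = g i r)
    (h : ∀ n, 1 ≤ n → V p a m n = (g (padicValNat p n / a) (padicValNat p n % a) : ℤ)) :
    IsAutomatic p (V p a m) := by
  apply auto_of_val hp (V p a m) (fun t => (g (t / a) (t % a) : ℤ)) (I * a) (2 * a) (by omega)
  · intro t ht
    have h1 : (t + 2 * a) / a = t / a + 2 := by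
      rw [Nat.add_mul_div_right _ _ (by omega)]
    have h2 : (t + 2 * a) % a = t % a := by
      rw [Nat.add_mul_mod_self_right]
    simp only [h1, h2]
    rw [hper]
    rw [Nat.le_div_iff_mul_le (by omega)]
    exact ht
  · exact h

/-- unboundedness -/
theorem fin_unb {p a m : ℕ} [Fact p.Prime] (ha : 2 ≤ a) (hm : 1 ≤ m) (D : Sys (p ^ a) m)
    (hD : ∀ n, S (p ^ a) m n = (D.s n : ℚ)) (hpos : ∀ n, D.s n ≠ 0)
    (h : ∀ T : ℕ, ∃ n : ℕ, 1 ≤ n ∧ (p : ℤ) ^ T ∣ D.s n) : ¬ IsBdd (V p a m) := by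
  rintro ⟨B, hB⟩
  obtain ⟨n, -, hn⟩ := h (B.toNat + 1)
  have h1 := hB n
  rw [fin_V_eq D hD n] at h1
  have h2 : B.toNat + 1 ≤ padicValInt p (D.s n) := by
    rcases (padicValInt_dvd_iff (B.toNat + 1) (D.s n)).1 hn with h | h
    · exact absurd h (hpos n)
    · exact h
  have h3 : |((padicValInt p (D.s n) : ℕ) : ℤ)| = ((padicValInt p (D.s n) : ℕ) : ℤ) := abs_of_nonneg (by positivity)
  rw [h3] at h1
  have h4 := Int.self_le_toNat B
  omega

end Pool.MP9acee6
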