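import Pool.Agent.H.MP_9acee6_nt.Fin
import Pool.Agent.H.MP_9acee6_nt.Pos

/-!
# Assembly of the final theorems
-/

set_option autoImplicit false

namespace Pool.MP9acee6

section

variable {p : ℕ} [Fact p.Prime] {a m : ℕ}

theorem fin_system (ha : 2 ≤ a) (hm : 1 ≤ m) : ∃ D : Sys (p ^ a) m,
    (∀ n, S (p ^ a) m n = (D.s n : ℚ)) ∧ ∀ n, D.s n ≠ 0 := by
  have hp : p.Prime := Fact.out
  have hk2 : 2 ≤ p ^ a := by
    calc 2 ≤ p := hp.two_le
      _ = p ^ 1 := (pow_one p).symm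
      _ ≤ p ^ a := Nat.pow_le_pow_right hp.pos (by omega)
  obtain ⟨D, hD⟩ := exists_sys (p ^ a) m hk2 hm
  refine ⟨D, hD, fun n h => ?_⟩
  have h1 := S_pos (p ^ a) m n hk2 hm
  rw [hD n, h] at h1
  norm_num at h1

/-- the values for odd `p`, non-critical case -/
def gOdd (p a m i r : ℕ) : ℕ := padicValNat p m +
  if i = 0 then a - r else min (a - r) (padicValNat p (m * (m + 1) * Aint p) + 1 + r)

theorem odd_values (hp2 : p ≠ 2) (ha : 2 ≤ a) (hm : 1 ≤ m) (hA : a ≤ 3 ∨ ¬ p ^ 3 ∣ Aint p)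
    (hc : ¬ CritOdd p a m) (n : ℕ) (hn : 1 ≤ n) :
    V p a m n = (gOdd p a m (padicValNat p n / a) (padicValNat p n % a) : ℤ) := by
  obtain ⟨D, hD, -⟩ := fin_system (p := p) ha hm
  refine fin_reduce ha hm D hD (gOdd p a m) ?_ n hn
  intro i b N hb0 hb
  unfold gOdd
  rcases Nat.eq_zero_or_pos i with hi | hi
  · subst hi
    rw [if_pos rfl, pow_zero, one_mul, (D.eval_zero rfl ha hm b hb0 hb N).2]
    have := fin_val_lt (p := p) (a := a) rfl b hb0 hb
    omega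
  · rw [if_neg (by omega), (odd_eval hp2 rfl ha hm hA hc D i hi b hb0 hb N).2]

end

/-- the values for `p = 2` and even `m = 2^v m'`, non-critical case -/
def gEven (a v m' i r : ℕ) : ℕ := if i = 0 then v + (a - r) else
  if v + 1 + 2 * r = a then v + (a - r) + (if alph a v m' i = 3 then 2 else 1)
  else v + min (a - r) (v + 1 + r)

/-- the values for `p = 2`, `m` odd, `2^(a-1) ∣ m + 1` -/
def gMinus (a m i r : ℕ) : ℕ := if i % 2 = 0 then a - r else
  if r + 1 = a then 1 + padicValNat 2 (m + 1) else 1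

theorem even_val_eq {v m' : ℕ} (hm' : m' % 2 = 1) : padicValNat 2 (2 ^ v * m') = v := by
  haveI : Fact (Nat.Prime 2) := ⟨Nat.prime_two⟩
  rw [padicValNat.mul (by positivity) (by omega), padicValNat.prime_pow,
    padicValNat.eq_zero_of_not_dvd (by omega), add_zero]

theorem even_values {a m v m' : ℕ} (ha : 2 ≤ a) (hm : 1 ≤ m) (hv : 1 ≤ v)
    (hmv : m = 2 ^ v * m') (hm' : m' % 2 = 1) (hc : ¬ CritTwo a m) (n : ℕ) (hn : 1 ≤ n) :
    V 2 a m n = (gEven a v m' (padicValNat 2 n / a) (padicValNat 2 n % a) : ℤ) := by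
  haveI : Fact (Nat.Prime 2) := ⟨Nat.prime_two⟩
  obtain ⟨D, hD, -⟩ := fin_system (p := 2) ha hm
  refine fin_reduce ha hm D hD (gEven a v m') ?_ n hn
  intro i b N hb0 hb
  have hlt := fin_val_lt (p := 2) (a := a) rfl b hb0 hb
  unfold gEven
  rcases Nat.eq_zero_or_pos i with hi | hi
  · subst hi
    rw [if_pos rfl, pow_zero, one_mul, (D.eval_zero rfl ha hm b hb0 hb N).2]
    have h1 : padicValNat 2 m = v := by rw [hmv]; exact even_val_eq hm'
    omega
  · rw [if_neg (by omega)]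
    by_cases hcr : v + 1 + 2 * padicValNat 2 b = a
    · rw [if_pos hcr]
      refine (two_eval_crit rfl ha hm v m' hv hmv hm' D i hi b hb0 hb hcr ?_ N).2
      intro hal
      apply hc
      refine ⟨v, m', hmv, hm', hv, by omega, ⟨padicValNat 2 b, by omega⟩, ?_⟩
      unfold alph at hal
      by_cases h2 : a = 2
      · rw [if_pos h2] at hal
        left
        refine ⟨h2, ?_⟩
        split_ifs at hal <;> omega
      · rw [if_neg h2] at hal
        right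
        by_cases h3 : v + 1 = a ∨ v = 1
        · rw [if_pos h3] at hal
          left
          exact ⟨h2, h3.symm, hal⟩
        · rw [if_neg h3] at hal
          right
          refine ⟨h2, fun h => h3 h.symm, by omega⟩
    · rw [if_neg hcr]
      exact (two_eval_ne rfl ha hm v m' hv hmv hm' D i hi b hb0 hb hcr N).2

theorem minus_values {a m : ℕ} (ha : 2 ≤ a) (hm : 1 ≤ m) (hm1 : 2 ^ (a - 1) ∣ m + 1)
    (n : ℕ) (hn : 1 ≤ n) :
    V 2 a m n = (gMinus a m (padicValNat 2 n / a) (padicValNat 2 n % a) : ℤ) := by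
  haveI : Fact (Nat.Prime 2) := ⟨Nat.prime_two⟩
  obtain ⟨D, hD, -⟩ := fin_system (p := 2) ha hm
  refine fin_reduce ha hm D hD (gMinus a m) ?_ n hn
  intro i b N hb0 hb
  have hlt := fin_val_lt (p := 2) (a := a) rfl b hb0 hb
  have hmo : m % 2 = 1 := by
    have h1 : 2 ∣ m + 1 := by
      refine dvd_trans ?_ hm1
      exact dvd_pow_self 2 (by omega)
    omega
  have hv : a - 1 ≤ padicValNat 2 (m + 1) := (padicValNat_dvd_iff_le (by omega)).1 hm1
  unfold gMinus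
  by_cases hi : i % 2 = 0
  · rw [if_pos hi]
    exact (two_odd_even rfl ha hmo D i (Nat.even_iff.2 hi) b hb0 hb (by omega) N).2
  · rw [if_neg hi, (two_odd_odd rfl ha hmo D i (Nat.odd_iff.2 (by omega)) b hb0 hb N).2]

theorem even_auto {a m v m' : ℕ} (ha : 2 ≤ a) (hm : 1 ≤ m) (hv : 1 ≤ v)
    (hmv : m = 2 ^ v * m') (hm' : m' % 2 = 1) (hc : ¬ CritTwo a m) :
    IsAutomatic 2 (V 2 a m) := by
  refine fin_auto Nat.prime_two ha (gEven a v m') 2 ?_
    (even_values ha hm hv hmv hm' hc)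
  intro i r hi
  unfold gEven alph
  rw [if_neg (show ¬ i + 2 = 0 by omega), if_neg (show ¬ i = 0 by omega),
    if_neg (show ¬ i + 2 = 1 by omega), if_neg (show ¬ i = 1 by omega)]

theorem minus_auto {a m : ℕ} (ha : 2 ≤ a) (hm : 1 ≤ m) (hm1 : 2 ^ (a - 1) ∣ m + 1) :
    IsAutomatic 2 (V 2 a m) := by
  refine fin_auto Nat.prime_two ha (gMinus a m) 0 ?_ (minus_values ha hm hm1)
  intro i r _
  unfold gMinus
  rw [Nat.add_mod_right]

theorem odd_auto {p a m : ℕ} (hp : p.Prime) (hp2 : p ≠ 2) (ha : 2 ≤ a) (hm : 1 ≤ m)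
    (hA : a ≤ 3 ∨ ¬ p ^ 3 ∣ Aint p) (hc : ¬ CritOdd p a m) : IsAutomatic p (V p a m) := by
  haveI : Fact p.Prime := ⟨hp⟩
  refine fin_auto hp ha (gOdd p a m) 1 ?_ (odd_values hp2 ha hm hA hc)
  intro i r hi
  unfold gOdd
  rw [if_neg (show ¬ i + 2 = 0 by omega), if_neg (show ¬ i = 0 by omega)]

theorem odd_not_bdd {p a m : ℕ} (hp : p.Prime) (hp2 : p ≠ 2) (ha : 2 ≤ a) (hm : 1 ≤ m)
    (hA : a ≤ 3 ∨ ¬ p ^ 3 ∣ Aint p) (hc : CritOdd p a m) (hpm : ¬ p ∣ m + 1) :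
    ¬ IsBdd (V p a m) := by
  haveI : Fact p.Prime := ⟨hp⟩
  obtain ⟨D, hD, hpos⟩ := fin_system (p := p) ha hm
  exact fin_unb ha hm D hD hpos fun T => odd_unb hp2 rfl ha hm hA hc hpm D T

theorem even_not_bdd {a m : ℕ} (ha : 2 ≤ a) (hm : 1 ≤ m) (hc : CritTwo a m) :
    ¬ IsBdd (V 2 a m) := by
  haveI : Fact (Nat.Prime 2) := ⟨Nat.prime_two⟩
  obtain ⟨v, m', hmv, hm', hv, hva, hdv, hcase⟩ := hc
  obtain ⟨D, hD, hpos⟩ := fin_system (p := 2) ha hm
  refine fin_unb ha hm D hD hpos fun T => ?_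
  rcases hcase with ⟨h2, h4⟩ | ⟨h2, h3, h4⟩ | ⟨h2, h3, h4⟩
  · by_cases h7 : m' % 8 = 7
    · exact two_unb rfl ha hm v m' hv hmv hm' D 1 le_rfl hva hdv
        (by unfold alph; rw [if_pos h2, if_pos rfl]; exact h7) T
    · exact two_unb rfl ha hm v m' hv hmv hm' D 2 (by omega) hva hdv
        (by unfold alph; rw [if_pos h2, if_neg (by omega)]; omega) T
  · exact two_unb rfl ha hm v m' hv hmv hm' D 1 le_rfl hva hdv
        (by unfold alph; rw [if_neg h2, if_pos h3.symm]; exact h4) T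
  · exact two_unb rfl ha hm v m' hv hmv hm' D 1 le_rfl hva hdv
        (by unfold alph; rw [if_neg h2, if_neg (fun h => h3 h.symm)]; omega) T

/-- decomposition of an even number -/
theorem even_decomp (m : ℕ) (hm : 1 ≤ m) (he : ¬ 2 ∣ m + 1) :
    ∃ v m' : ℕ, m = 2 ^ v * m' ∧ m' % 2 = 1 ∧ 1 ≤ v := by
  obtain ⟨v, m', h1, rfl⟩ := Nat.exists_eq_pow_mul_and_not_dvd (n := m) (by omega) 2 (by omega)
  refine ⟨v, m', rfl, by omega, ?_⟩
  by_contra h
  have : v = 0 := by omega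
  subst this
  rw [pow_zero, one_mul] at he
  omega

theorem criterion (p a m : ℕ) (hp : p.Prime) (ha : 2 ≤ a) (hm : 1 ≤ m) (hpm : ¬ p ∣ m + 1)
    (hA : p = 2 ∨ a ≤ 3 ∨ ¬ p ^ 3 ∣ Aint p) :
    (IsAutomatic p (V p a m) ↔ ¬ Crit p a m) ∧ (IsBdd (V p a m) ↔ ¬ Crit p a m) := by
  have key1 : ¬ Crit p a m → IsAutomatic p (V p a m) := by
    intro hc
    by_cases hp2 : p = 2
    · subst hp2
      obtain ⟨v, m', h1, h2, h3⟩ := even_decomp m hm hpm
      exact even_auto ha hm h3 h1 h2 fun h => hc (Or.inl ⟨rfl, h⟩)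
    · exact odd_auto hp hp2 ha hm (hA.resolve_left hp2) fun h => hc (Or.inr ⟨hp2, h⟩)
  have key2 : Crit p a m → ¬ IsBdd (V p a m) := by
    rintro (⟨hp2, hc⟩ | ⟨hp2, hc⟩)
    · subst hp2
      exact even_not_bdd ha hm hc
    · exact odd_not_bdd hp hp2 ha hm (hA.resolve_left hp2) hc hpm
  have key3 : IsAutomatic p (V p a m) → IsBdd (V p a m) := IsAutomatic.isBdd hp.two_le
  constructor
  · exact ⟨fun h hc => key2 hc (key3 h), key1⟩
  · exact ⟨fun h hc => key2 hc h, fun h => key3 (key1 h)⟩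

end Pool.MP9acee6
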