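import Pool.Agent.H.MP_9acee6_nt.Psum
import Pool.Agent.H.MP_9acee6_nt.Defs

/-!
# The value `C(km+k,km)/(m+1)` modulo high powers of an odd prime
-/

set_option autoImplicit false

open Polynomial Finset

namespace Pool.MP9acee6

variable {p : ℕ} [Fact p.Prime] {a k m : ℕ}

theorem harm_p_ne : (p : ℤ_[p]) ≠ 0 := by
  have := (Fact.out : p.Prime).ne_zero
  exact_mod_cast this

theorem harm_natCast_ne {n : ℕ} (hn : n ≠ 0) : ((n : ℕ) : ℤ_[p]) ≠ 0 := by
  exact_mod_cast hn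

theorem harm_kcast (hk : k = p ^ a) : (k : ℤ_[p]) = (p : ℤ_[p]) ^ a := by
  rw [hk, Nat.cast_pow]

theorem omega_one (hk : k = p ^ a) (ha : 1 ≤ a) : ((k * m + k).choose (k * m) : ℤ_[p]) =
    ((m + 1 : ℕ) : ℤ_[p]) * ∏ s ∈ Ioo 0 k, (1 + (p : ℤ_[p]) * m * gg p k s) := by
  have hp := (Fact.out : p.Prime)
  have hk0 : 0 < k := by rw [hk]; exact Nat.pow_pos hp.pos
  have h1 : (k * m + 1).ascFactorial k = k.factorial * (k * m + k).choose k :=
    Nat.ascFactorial_eq_factorial_mul_choose _ _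
  rw [Nat.ascFactorial_eq_prod_range] at h1
  have h2 : (k * m + k).choose (k * m) = (k * m + k).choose k := Nat.choose_symm_add
  have h3 : k.factorial = (∏ s ∈ Ioo 0 k, s) * k := by
    obtain ⟨k', rfl⟩ := Nat.exists_eq_succ_of_ne_zero hk0.ne'
    rw [Nat.factorial_succ, ← Finset.prod_Ico_id_eq_factorial, mul_comm]
    congr 1
  have h4 : ∏ i ∈ range k, (k * m + 1 + i) = (∏ s ∈ Ioo 0 k, (k * m + s)) * (k * (m + 1)) := by
    obtain ⟨k', hk'⟩ := Nat.exists_eq_succ_of_ne_zero hk0.ne'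
    have h5 : ∏ i ∈ range k, (k * m + 1 + i) = ∏ s ∈ Ico 1 (k + 1), (k * m + s) := by
      rw [Finset.prod_Ico_eq_prod_range]
      refine Finset.prod_congr rfl fun i _ => ?_
      ring
    rw [h5, Finset.prod_Ico_succ_top (by omega)]
    congr 1
  have h6 : (∏ s ∈ Ioo 0 k, ((k * m + s : ℕ) : ℤ_[p])) =
      (∏ s ∈ Ioo 0 k, ((s : ℕ) : ℤ_[p])) * ∏ s ∈ Ioo 0 k, (1 + (p : ℤ_[p]) * m * gg p k s) := by
    rw [← Finset.prod_mul_distrib]
    refine Finset.prod_congr rfl fun s hs => ?_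
    rw [Finset.mem_Ioo] at hs
    have hnd : ¬ k ∣ s := fun h => by
      have := Nat.le_of_dvd hs.1 h
      omega
    have h7 := gg_spec (p := p) hk s hnd
    push_cast
    rw [← h7]
    ring
  have h8 : ((∏ i ∈ range k, (k * m + 1 + i) : ℕ) : ℤ_[p]) =
      ((k.factorial * (k * m + k).choose k : ℕ) : ℤ_[p]) := by rw [h1]
  rw [h4, h3] at h8
  rw [Nat.cast_mul, Nat.cast_prod, h6, Nat.cast_mul, Nat.cast_mul, Nat.cast_mul, Nat.cast_prod]
    at h8
  rw [h2]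
  have hne : (∏ s ∈ Ioo 0 k, ((s : ℕ) : ℤ_[p])) * (k : ℤ_[p]) ≠ 0 := by
    refine mul_ne_zero (Finset.prod_ne_zero_iff.2 fun s hs => ?_) (harm_natCast_ne hk0.ne')
    rw [Finset.mem_Ioo] at hs
    exact harm_natCast_ne (by omega)
  apply mul_left_cancel₀ hne
  rw [← h8]
  ring

theorem harm_dvd (hk : k = p ^ a) (ha : 1 ≤ a) (t : ℕ) (ht : ¬ p ^ (a - 1) ∣ t) :
    (p : ℤ_[p]) ∣ gg p k t := by
  have hnd : ¬ k ∣ t := fun h => ht ((pow_dvd_pow p (Nat.sub_le a 1)).trans (hk ▸ h))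
  have h1 := gg_spec (p := p) hk t hnd
  by_contra hg
  apply ht
  have h2 : (p : ℤ_[p]) ^ (a - 1) = gg p k t * (t : ℤ_[p]) := by
    apply mul_left_cancel₀ (harm_p_ne (p := p))
    rw [← mul_assoc, h1, harm_kcast hk, ← pow_succ']
    congr 1
    omega
  have h3 : (p : ℤ_[p]) ^ (a - 1) ∣ (t : ℤ_[p]) :=
    PadicInt.prime_p.pow_dvd_of_dvd_mul_left _ hg (Dvd.intro_left 1 (by rw [one_mul, h2]))
  have h4 := (PadicInt.pow_p_dvd_int_iff (p := p) (a - 1) (t : ℤ)).1 (by simpa using h3)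
  exact_mod_cast h4

theorem harm_unit (hk : k = p ^ a) (ha : 1 ≤ a) (s : ℕ) (h0 : 0 < s) (hs : s < p) :
    gg p k (p ^ (a - 1) * s) * (s : ℤ_[p]) = 1 := by
  have hp := (Fact.out : p.Prime)
  have hk2 : k = p ^ (a - 1) * p := by
    rw [hk, ← pow_succ]; congr 1; omega
  have hnd : ¬ k ∣ p ^ (a - 1) * s := by
    rw [hk2]
    intro h
    have := Nat.dvd_of_mul_dvd_mul_left (Nat.pow_pos hp.pos) h
    have := Nat.le_of_dvd h0 this
    omega
  have h1 := gg_spec (p := p) hk _ hnd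
  have hne : (k : ℤ_[p]) ≠ 0 := harm_natCast_ne (by rw [hk]; exact (Nat.pow_pos hp.pos).ne')
  apply mul_left_cancel₀ hne
  rw [mul_one]
  have h2 : (k : ℤ_[p]) = (p : ℤ_[p]) ^ (a - 1) * p := by rw [hk2]; push_cast; rfl
  calc (k : ℤ_[p]) * (gg p k (p ^ (a - 1) * s) * (s : ℤ_[p]))
      = p * gg p k (p ^ (a - 1) * s) * ((p ^ (a - 1) * s : ℕ) : ℤ_[p]) := by
        rw [h2]; push_cast; ring
    _ = k := h1

theorem harm_sum_half (hk : k = p ^ a) (hp : p ≠ 2) (f : ℕ → ℤ_[p]) :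
    ∑ t ∈ full k 1, f t = ∑ t ∈ half k 1, (f t + f (k * 1 - t)) := by
  have h := prod_full_eq_half (p := p) (m := 1) hk (Or.inl hp)
    (fun t => Multiplicative.ofAdd (f t))
  have h2 := congrArg Multiplicative.toAdd h
  rw [toAdd_prod, toAdd_prod] at h2
  exact h2

theorem harm_prod (S : Finset ℕ) (c : ℤ_[p]) (d : ℕ → ℤ_[p]) :
    ∃ y : ℤ_[p], ∏ t ∈ S, (1 + c * d t) = 1 + c * ∑ t ∈ S, d t + c ^ 2 * y := by
  classical
  induction S using Finset.induction_on with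
  | empty => exact ⟨0, by simp⟩
  | insert t S ht ih =>
    obtain ⟨y, hy⟩ := ih
    refine ⟨y + d t * ∑ t ∈ S, d t + c * d t * y, ?_⟩
    rw [Finset.prod_insert ht, Finset.sum_insert ht, hy]
    ring

theorem harm_full : full k 1 = Ioo 0 k := by
  unfold full
  rw [mul_one]
  refine Finset.filter_true_of_mem fun t ht hd => ?_
  rw [Finset.mem_Ioo] at ht
  have := Nat.le_of_dvd ht.1 hd
  omega

/-- the harmonic sum -/
theorem harm_H (hk : k = p ^ a) (ha : 1 ≤ a) :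
    ∃ x : ℤ_[p], ∑ s ∈ Ioo 0 p, gg p k (p ^ (a - 1) * s) =
      - (Aint p : ℤ_[p]) + p * Aint p * x := by
  have hp := (Fact.out : p.Prime)
  have h1 : ((p - 1).factorial : ℤ_[p]) * ∑ s ∈ Ioo 0 p, gg p k (p ^ (a - 1) * s) =
      (Aint p : ℤ_[p]) := by
    unfold Aint
    rw [Nat.cast_sum, Finset.mul_sum]
    refine Finset.sum_congr rfl fun s hs => ?_
    rw [Finset.mem_Ioo] at hs
    have h2 : (p - 1).factorial = (p - 1).factorial / s * s :=
      (Nat.div_mul_cancel (Nat.dvd_factorial hs.1 (by omega))).symm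
    have h3 := harm_unit (p := p) hk ha s hs.1 hs.2
    calc ((p - 1).factorial : ℤ_[p]) * gg p k (p ^ (a - 1) * s)
        = (((p - 1).factorial / s * s : ℕ) : ℤ_[p]) * gg p k (p ^ (a - 1) * s) := by rw [← h2]
      _ = (((p - 1).factorial / s : ℕ) : ℤ_[p]) * (gg p k (p ^ (a - 1) * s) * s) := by
          rw [Nat.cast_mul]; ring
      _ = _ := by rw [h3, mul_one]
  have h2 : ∃ w : ℤ_[p], ((p - 1).factorial : ℤ_[p]) = -1 + p * w := by
    have h3 : ((((p - 1).factorial : ℤ) + 1 : ℤ) : ZMod p) = 0 := by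
      push_cast
      rw [ZMod.wilsons_lemma]
      ring
    obtain ⟨w, hw⟩ := (ZMod.intCast_zmod_eq_zero_iff_dvd _ p).1 h3
    refine ⟨(w : ℤ_[p]), ?_⟩
    have h4 : ((((p - 1).factorial : ℤ) + 1 : ℤ) : ℤ_[p]) = ((p * w : ℤ) : ℤ_[p]) := by rw [hw]
    push_cast at h4
    linear_combination h4
  obtain ⟨w, hw⟩ := h2
  have hu : IsUnit ((p - 1).factorial : ℤ_[p]) := by
    by_contra hn
    have h5 : (p : ℤ_[p]) ∣ ((p - 1).factorial : ℤ_[p]) :=
      (PadicInt.norm_lt_one_iff_dvd _).1 (PadicInt.mem_nonunits.1 hn)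
    rw [hw] at h5
    have h6 : (p : ℤ_[p]) ∣ -1 := (dvd_add_left (Dvd.intro w rfl)).1 h5
    exact PadicInt.prime_p.not_isUnit (isUnit_of_dvd_unit h6 isUnit_one.neg)
  obtain ⟨U, hU⟩ := hu.exists_right_inv
  refine ⟨w * U, ?_⟩
  have h7 : ∑ s ∈ Ioo 0 p, gg p k (p ^ (a - 1) * s) = Aint p * U := by
    calc _ = (((p - 1).factorial : ℤ_[p]) * U) * ∑ s ∈ Ioo 0 p, gg p k (p ^ (a - 1) * s) := by
          rw [hU, one_mul]
      _ = U * (((p - 1).factorial : ℤ_[p]) * ∑ s ∈ Ioo 0 p, gg p k (p ^ (a - 1) * s)) := by ring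
      _ = _ := by rw [h1, mul_comm]
  rw [h7]
  rw [hw] at hU
  linear_combination (-(Aint p : ℤ_[p])) * hU

theorem harm_S (hp : p ≠ 2) (hk : k = p ^ a) (ha : 1 ≤ a) : ∃ x y : ℤ_[p],
    p * ∑ t ∈ half k 1, gg p k t * gg p k (k * 1 - t) =
      - (Aint p : ℤ_[p]) + p * Aint p * x + p ^ 3 * y := by
  classical
  have hpp := (Fact.out : p.Prime)
  have hk0 : 0 < k := by rw [hk]; exact Nat.pow_pos hpp.pos
  have hk2 : k = p ^ (a - 1) * p := by
    rw [hk, ← pow_succ]; congr 1; omega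
  obtain ⟨x, hx⟩ := harm_H (p := p) hk ha
  -- the multiples of `p^(a-1)`
  have h1 : ∑ t ∈ full k 1, (if p ^ (a - 1) ∣ t then gg p k t else 0) =
      ∑ s ∈ Ioo 0 p, gg p k (p ^ (a - 1) * s) := by
    rw [harm_full, ← Finset.sum_filter]
    symm
    refine Finset.sum_nbij' (fun s => p ^ (a - 1) * s) (fun t => t / p ^ (a - 1)) ?_ ?_ ?_ ?_ ?_
    · intro s hs
      rw [Finset.mem_Ioo] at hs
      rw [Finset.mem_filter, Finset.mem_Ioo]
      refine ⟨⟨Nat.mul_pos (Nat.pow_pos hpp.pos) hs.1, ?_⟩, Dvd.intro _ rfl⟩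
      rw [hk2]
      exact Nat.mul_lt_mul_of_pos_left hs.2 (Nat.pow_pos hpp.pos)
    · intro t ht
      rw [Finset.mem_filter, Finset.mem_Ioo] at ht
      obtain ⟨⟨h0, h2⟩, s, rfl⟩ := ht
      rw [Nat.mul_div_cancel_left _ (Nat.pow_pos hpp.pos), Finset.mem_Ioo]
      rw [hk2] at h2
      exact ⟨Nat.pos_of_mul_pos_left h0, Nat.lt_of_mul_lt_mul_left h2⟩
    · intro s _
      exact Nat.mul_div_cancel_left _ (Nat.pow_pos hpp.pos)
    · intro t ht
      rw [Finset.mem_filter] at ht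
      exact Nat.mul_div_cancel' ht.2
    · intro s _
      rfl
  rw [harm_sum_half hk hp] at h1
  -- the others
  have h2 : ∀ t ∈ half k 1, ∃ z : ℤ_[p], (p : ℤ_[p]) * (gg p k t * gg p k (k * 1 - t)) =
      ((if p ^ (a - 1) ∣ t then gg p k t else 0) +
        (if p ^ (a - 1) ∣ (k * 1 - t) then gg p k (k * 1 - t) else 0)) + p ^ 3 * z := by
    intro t ht
    unfold half at ht
    rw [Finset.mem_filter, Finset.mem_Ioo] at ht
    have hle : t ≤ k * 1 := by omega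
    have hdk : p ^ (a - 1) ∣ k * 1 := by rw [mul_one, hk2]; exact Dvd.intro _ rfl
    by_cases hd : p ^ (a - 1) ∣ t
    · have hd' : p ^ (a - 1) ∣ k * 1 - t := Nat.dvd_sub hdk hd
      refine ⟨0, ?_⟩
      rw [if_pos hd, if_pos hd', gg_refl (p := p) (m := 1) hk t hle]
      push_cast
      ring
    · have hd' : ¬ p ^ (a - 1) ∣ k * 1 - t := fun h => by
        apply hd
        have := Nat.dvd_sub hdk h
        rwa [Nat.sub_sub_self hle] at this
      obtain ⟨c, hc⟩ := harm_dvd (p := p) hk ha t hd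
      obtain ⟨c', hc'⟩ := harm_dvd (p := p) hk ha _ hd'
      refine ⟨c * c', ?_⟩
      rw [if_neg hd, if_neg hd', hc, hc']
      ring
  choose! z hz using h2
  refine ⟨x, ∑ t ∈ half k 1, z t, ?_⟩
  rw [Finset.mul_sum, Finset.sum_congr rfl hz, Finset.sum_add_distrib, h1, hx, ← Finset.mul_sum]

theorem omega_one_odd (hp : p ≠ 2) (hk : k = p ^ a) (ha : 1 ≤ a) : ∃ x y : ℤ_[p],
    ∏ s ∈ Ioo 0 k, (1 + (p : ℤ_[p]) * m * gg p k s) =
      1 - (p : ℤ_[p]) * ((m * (m + 1) * Aint p : ℕ) : ℤ_[p]) +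
        (p : ℤ_[p]) ^ 2 * ((m * (m + 1) * Aint p : ℕ) : ℤ_[p]) * x +
        (p : ℤ_[p]) ^ 4 * ((m * (m + 1) : ℕ) : ℤ_[p]) * y := by
  obtain ⟨x, y, hxy⟩ := harm_S (p := p) hp hk ha
  obtain ⟨z, hz⟩ := harm_prod (p := p) (half k 1) ((p : ℤ_[p]) ^ 2 * (m * (m + 1)))
    (fun t => gg p k t * gg p k (k * 1 - t))
  refine ⟨x, y + m * (m + 1) * z, ?_⟩
  have h1 : ∏ s ∈ Ioo 0 k, (1 + (p : ℤ_[p]) * m * gg p k s) =
      ∏ t ∈ half k 1, (1 + (p : ℤ_[p]) ^ 2 * (m * (m + 1)) *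
        (gg p k t * gg p k (k * 1 - t))) := by
    rw [← harm_full, prod_full_eq_half (p := p) (m := 1) hk (Or.inl hp)]
    refine Finset.prod_congr rfl fun t ht => ?_
    unfold half at ht
    rw [Finset.mem_filter, Finset.mem_Ioo] at ht
    have h2 := gg_refl (p := p) (m := 1) hk t (by omega)
    push_cast at h2
    linear_combination (p : ℤ_[p]) * m * h2
  rw [h1, hz]
  push_cast
  linear_combination (p : ℤ_[p]) * (m * (m + 1)) * hxy

end Pool.MP9acee6
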