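import Pool.Agent.H.MP_9acee6_nt.Basic

/-!
# From `s(kn) - s(n)` to `s(k^i n) - s(n)`
-/

set_option autoImplicit false

open Polynomial Finset

namespace Pool.MP9acee6

namespace Sys

variable {p : ℕ} [Fact p.Prime] {a k m : ℕ}

/-- `s(k^i n) - s(n) = c [Y Ψ(Y)]_n` for all `n` -/
def Rep (D : Sys k m) (i : ℕ) (c : ℤ_[p]) (Ψ : ℤ_[p][X]) : Prop :=
  ∀ b N, b < k → (D.s (k ^ i * (b + k * N)) : ℤ_[p]) - (D.s (b + k * N) : ℤ_[p]) =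
    D.bk (fun y => c * ((y : ℤ_[p]) * Ψ.eval (y : ℤ_[p]))) b N

/-- one step.  `P0` is the polynomial of `exists_P` for `b = 0`. -/
theorem rep_step (D : Sys k m) (hk : k = p ^ a) (ha : 2 ≤ a) (P0 : ℤ_[p][X])
    (hP0 : ∀ y : ℕ, ((k * m + k * y).choose (k * m) : ℤ_[p]) =
      ((m + y).choose m : ℤ_[p]) * P0.eval ((p : ℤ_[p]) * (y : ℤ_[p])))
    (c : ℤ_[p]) (Ψ₁ Ψ : ℤ_[p][X]) (h1 : D.Rep 1 c Ψ₁) (i : ℕ) (hi : D.Rep i c Ψ) :
    ∃ (r : ℤ_[p]) (R : ℤ_[p][X]), ((k * m + 1 : ℕ) : ℤ_[p]) * r =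
        ((m + 1 : ℕ) : ℤ_[p]) * (P0.eval (p : ℤ_[p]) * Ψ.eval (k : ℤ_[p])) ∧
      D.Rep (i + 1) c (Ψ₁ + C (k : ℤ_[p]) * (C r + C (p : ℤ_[p]) * R)) := by
  have hk0 : 0 < k := by rw [hk]; exact pow_pos (Fact.out : p.Prime).pos a
  obtain ⟨k', hk'⟩ : ∃ k' : ℕ, k = p * k' := by
    refine ⟨p ^ (a - 1), ?_⟩
    rw [hk, ← pow_succ']
    congr 1
    omega
  have hkc : (k : ℤ_[p]) = (k' : ℤ_[p]) * (p : ℤ_[p]) := by rw [hk']; push_cast; ring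
  obtain ⟨r, R, hr, hR⟩ := D.transfer hk ha (P0 * Ψ.comp (C (k' : ℤ_[p]) * X))
  refine ⟨r, R, ?_, ?_⟩
  · rw [hr]
    simp only [eval_mul, eval_comp, eval_C, eval_X]
    rw [← hkc]
  · intro b N hb
    have e1 := h1 b N hb
    have e2 := hi 0 (b + k * N) hk0
    have e3 : D.bk (fun y => c * ((y : ℤ_[p]) * Ψ.eval (y : ℤ_[p]))) 0 (b + k * N) =
        D.br (fun y => P0.eval ((p : ℤ_[p]) * (y : ℤ_[p])) *
          (c * (((0 + k * y : ℕ) : ℤ_[p]) * Ψ.eval ((0 + k * y : ℕ) : ℤ_[p])))) (b + k * N) :=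
      D.bk_eq_br 0 P0 (fun y => by rw [add_zero]; exact hP0 y) _ _
    have e4 : D.br (fun y => P0.eval ((p : ℤ_[p]) * (y : ℤ_[p])) *
          (c * (((0 + k * y : ℕ) : ℤ_[p]) * Ψ.eval ((0 + k * y : ℕ) : ℤ_[p])))) (b + k * N) =
        (c * (k : ℤ_[p])) * D.br (fun y => (y : ℤ_[p]) *
          (P0 * Ψ.comp (C (k' : ℤ_[p]) * X)).eval ((p : ℤ_[p]) * (y : ℤ_[p]))) (b + k * N) := by
      unfold br
      rw [mul_sum]
      refine sum_congr rfl fun y _ => ?_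
      simp only [eval_mul, eval_comp, eval_C, eval_X]
      have e5 : ((0 + k * y : ℕ) : ℤ_[p]) = (k' : ℤ_[p]) * ((p : ℤ_[p]) * (y : ℤ_[p])) := by
        push_cast
        rw [hkc]
        ring
      rw [e5, hkc]
      ring
    have e6 : D.s (k ^ (i + 1) * (b + k * N)) = D.s (k ^ i * (0 + k * (b + k * N))) := by
      congr 1
      ring
    have e7 : D.s (k ^ 1 * (b + k * N)) = D.s (0 + k * (b + k * N)) := by
      congr 1
      ring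
    rw [e3, e4, hR b N hb] at e2
    rw [e7] at e1
    rw [e6]
    have e8 : (D.s (k ^ i * (0 + k * (b + k * N))) : ℤ_[p]) - (D.s (b + k * N) : ℤ_[p]) =
        (c * (k : ℤ_[p])) * D.bk (fun y => (y : ℤ_[p]) *
          (C r + C (p : ℤ_[p]) * R).eval (y : ℤ_[p])) b N +
        D.bk (fun y => c * ((y : ℤ_[p]) * Ψ₁.eval (y : ℤ_[p]))) b N := by
      rw [← e1, ← e2]
      ring
    rw [e8]
    unfold bk
    rw [mul_sum, ← sum_add_distrib]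
    refine sum_congr rfl fun y _ => ?_
    simp only [eval_add, eval_mul, eval_C]
    ring

theorem rep_all (D : Sys k m) (hk : k = p ^ a) (ha : 2 ≤ a)
    (c : ℤ_[p]) (Ψ₁ : ℤ_[p][X]) (h1 : D.Rep 1 c Ψ₁) (i : ℕ) (hi : 1 ≤ i) :
    ∃ R : ℤ_[p][X], D.Rep i c (Ψ₁ + C (k : ℤ_[p]) * R) := by
  have hk0 : 0 < k := by rw [hk]; exact pow_pos (Fact.out : p.Prime).pos a
  obtain ⟨P0, -, -, hP0⟩ := exists_P (p := p) (a := a) (k := k) (m := m) hk (by omega) 0 hk0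
  induction i, hi using Nat.le_induction with
  | base => exact ⟨0, by simpa using h1⟩
  | succ i hi ih =>
    obtain ⟨R, hR⟩ := ih
    obtain ⟨r, R', -, hR'⟩ := D.rep_step hk ha P0
      (fun y => by have := hP0 y; rwa [add_zero] at this) c Ψ₁ _ h1 i hR
    exact ⟨C r + C (p : ℤ_[p]) * R', hR'⟩

/-- main formula for the values at `k^i (b + kN)`, `b ≠ 0` -/
theorem main_formula (D : Sys k m) (hm : 1 ≤ m) (b : ℕ) (hb0 : 0 < b) (hb : b < k)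
    (P : ℤ_[p][X])
    (hP : ∀ y : ℕ, ((k * m + b : ℕ) : ℤ_[p]) * ((k * m + b + k * y).choose (k * m) : ℤ_[p]) =
      ((m + y).choose m : ℤ_[p]) * ((k * m + b + k * y : ℕ) : ℤ_[p]) *
        P.eval ((p : ℤ_[p]) * (y : ℤ_[p])))
    (i : ℕ) (Ψ : ℤ_[p][X]) (hi : D.Rep i (m : ℤ_[p]) Ψ) (N : ℕ) :
    ((k * m + b : ℕ) : ℤ_[p]) * (D.s (k ^ i * (b + k * N)) : ℤ_[p]) =
      D.br (fun y => P.eval ((p : ℤ_[p]) * (y : ℤ_[p])) * ((m : ℤ_[p]) * ((k : ℤ_[p]) +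
        ((k * m + b + k * y : ℕ) : ℤ_[p]) * ((b + k * y : ℕ) : ℤ_[p]) *
          Ψ.eval ((b + k * y : ℕ) : ℤ_[p])))) N := by
  have e1 := hi b N hb
  have e2 := D.s_formula hm b hb0 hb P hP N
  have e3 := D.bk_formula b P hP (fun y => (m : ℤ_[p]) * ((y : ℤ_[p]) * Ψ.eval (y : ℤ_[p]))) N
  have e4 : ((k * m + b : ℕ) : ℤ_[p]) * (D.s (k ^ i * (b + k * N)) : ℤ_[p]) =
      ((k * m + b : ℕ) : ℤ_[p]) * (D.s (b + k * N) : ℤ_[p]) +
      ((k * m + b : ℕ) : ℤ_[p]) *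
        D.bk (fun y => (m : ℤ_[p]) * ((y : ℤ_[p]) * Ψ.eval (y : ℤ_[p]))) b N := by
    rw [← e1]
    ring
  rw [e4, e2, e3]
  unfold br
  rw [← sum_add_distrib]
  refine sum_congr rfl fun y _ => ?_
  push_cast
  ring

end Sys

end Pool.MP9acee6
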