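import Mathlib

/-!
# Newton interpolation form of a polynomial
-/

set_option autoImplicit false

open Polynomial Finset

namespace Pool.MP9acee6

theorem newton {R : Type*} [CommRing R] [Nontrivial R] (n : ℕ) : ∀ (c : ℕ → R) (Q : R[X]),
    Q.natDegree < n → ∃ q : ℕ → R,
      Q = ∑ j ∈ range n, C (q j) * ∏ i ∈ range j, (X - C (c i)) ∧ q 0 = Q.eval (c 0) := by
  induction n with
  | zero => intro c Q h; exact absurd h (Nat.not_lt_zero _)
  | succ n ih =>
    intro c Q hQ
    rcases Nat.eq_zero_or_pos n with hn | hn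
    · subst hn
      have hd : Q.natDegree = 0 := by omega
      have hc : Q = C (Q.coeff 0) := eq_C_of_natDegree_eq_zero hd
      refine ⟨fun _ => Q.coeff 0, ?_, ?_⟩
      · simpa using hc
      · rw [hc]; simp
    · have hdiv : (Q /ₘ (X - C (c 0))).natDegree < n := by
        rw [natDegree_divByMonic _ (monic_X_sub_C _), natDegree_X_sub_C]
        omega
      obtain ⟨q', hq', -⟩ := ih (fun i => c (i + 1)) _ hdiv
      have hQd : Q = C (Q.eval (c 0)) + (X - C (c 0)) * (Q /ₘ (X - C (c 0))) := by
        conv_lhs => rw [← modByMonic_add_div Q (X - C (c 0)), modByMonic_X_sub_C_eq_C_eval]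
      refine ⟨fun j => Nat.casesOn j (Q.eval (c 0)) q', ?_, rfl⟩
      rw [sum_range_succ']
      simp only [range_zero, prod_empty, mul_one]
      conv_lhs => rw [hQd, hq']
      rw [add_comm]
      congr 1
      rw [mul_sum]
      refine sum_congr rfl fun j _ => ?_
      rw [prod_range_succ']
      ring

end Pool.MP9acee6
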