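import Pool.Agent.H.MP_9acee6_nt.OddPsi
import Pool.Agent.H.MP_9acee6_nt.Eval
import Pool.Agent.H.MP_9acee6_nt.OddCrit

/-!
# Odd primes: valuations
-/

set_option autoImplicit false

open Polynomial Finset

namespace Pool.MP9acee6

variable {p : ℕ} [Fact p.Prime] {a k m : ℕ}

theorem oddeval_unit_iff (z : ℤ_[p]) : IsUnit z ↔ ¬ (p : ℤ_[p]) ∣ z := by
  rw [PadicInt.isUnit_iff, ← PadicInt.norm_lt_one_iff_dvd, not_lt]
  exact ⟨fun h => h.ge, fun h => le_antisymm (PadicInt.norm_le_one z) h⟩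

theorem oddeval_unit_add {z : ℤ_[p]} (hz : IsUnit z) (w : ℤ_[p]) :
    IsUnit (z + (p : ℤ_[p]) * w) := by
  rw [oddeval_unit_iff] at hz ⊢
  intro h
  exact hz ((dvd_add_left (dvd_mul_right _ _)).1 h)

theorem oddeval_scale (D : Sys k m) (i : ℕ) (c d : ℤ_[p]) (Ψ : ℤ_[p][X])
    (h : D.Rep i (c * d) Ψ) : D.Rep i c (C d * Ψ) := by
  intro b N hb
  rw [h b N hb]
  congr 1
  funext y
  rw [eval_mul, eval_C]
  ring

theorem oddeval_case1 (D : Sys k m) (hk : k = p ^ a) (ha : 2 ≤ a) (hm : 1 ≤ m) (i : ℕ)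
    (hi : 1 ≤ i) (R : ℤ_[p][X]) (hR : D.Rep 1 ((m : ℤ_[p]) * (p : ℤ_[p]) ^ (a + 1)) R)
    (b : ℕ) (hb0 : 0 < b) (hb : b < k) (hr : padicValNat p b ≤ a) (N : ℕ) :
    D.s (k ^ i * (b + k * N)) ≠ 0 ∧ padicValInt p (D.s (k ^ i * (b + k * N))) =
      padicValNat p m + a - padicValNat p b := by
  obtain ⟨k', hk'⟩ : ∃ k' : ℕ, k = p * k' := by
    refine ⟨p ^ (a - 1), ?_⟩
    rw [hk, ← pow_succ']
    congr 1
    omega
  obtain ⟨R', hR'⟩ := D.rep_all hk ha _ R hR i hi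
  have h1 := oddeval_scale D i _ _ _ hR'
  set Ψ := R + C (k : ℤ_[p]) * R' with hΨ
  refine D.eval_main hk ha hm b hb0 hb i _ h1 a hr
    (1 + C (p : ℤ_[p]) * ((C ((k * m + b : ℕ) : ℤ_[p]) + C (k' : ℤ_[p]) * X) *
      (C (b : ℤ_[p]) + C (k' : ℤ_[p]) * X) * Ψ.comp (C (b : ℤ_[p]) + C (k' : ℤ_[p]) * X)))
    ?_ ?_ N
  · rw [eval_add, eval_one, eval_mul, eval_C]
    exact oddeval_unit_add isUnit_one _
  · intro y
    have e1 : ((b + k * y : ℕ) : ℤ_[p]) = (b : ℤ_[p]) + (k' : ℤ_[p]) * ((p : ℤ_[p]) * (y : ℤ_[p])) := by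
      rw [hk']
      push_cast
      ring
    have e2 : ((k * m + b + k * y : ℕ) : ℤ_[p]) =
        ((k * m + b : ℕ) : ℤ_[p]) + (k' : ℤ_[p]) * ((p : ℤ_[p]) * (y : ℤ_[p])) := by
      have : ((k * m + b + k * y : ℕ) : ℤ_[p]) = ((k * m + b : ℕ) : ℤ_[p]) + (k : ℤ_[p]) * (y : ℤ_[p]) := by
        push_cast; ring
      rw [this, hk']
      push_cast
      ring
    have e3 : (k : ℤ_[p]) = (p : ℤ_[p]) ^ a := by rw [hk]; push_cast; ring
    simp only [eval_add, eval_mul, eval_C, eval_X, eval_one, eval_comp]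
    rw [e1, e2, e3]
    ring

theorem oddeval_case2 (D : Sys k m) (hk : k = p ^ a) (ha : 2 ≤ a) (hm : 1 ≤ m) (i : ℕ)
    (hi : 1 ≤ i) (W : ℕ) (A : ℤ_[p]) (R : ℤ_[p][X])
    (hR : D.Rep 1 ((m : ℤ_[p]) * (p : ℤ_[p]) ^ W) (C A + C (p : ℤ_[p]) * R)) (hA : IsUnit A)
    (hW : 1 ≤ W) (r u : ℕ) (hu : ¬ p ∣ u)
    (hcrit : W + 2 * r = a → IsUnit (1 + (u : ℤ_[p]) * (u : ℤ_[p]) * A))
    (b : ℕ) (hb0 : 0 < b) (hb : b < k) (hbr : b = p ^ r * u) (hrv : padicValNat p b = r)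
    (hr : r < a) (N : ℕ) :
    D.s (k ^ i * (b + k * N)) ≠ 0 ∧ padicValInt p (D.s (k ^ i * (b + k * N))) =
      padicValNat p m + min (a - r) (W + r) := by
  obtain ⟨k', hk'⟩ : ∃ k' : ℕ, k = p * k' := by
    refine ⟨p ^ (a - 1), ?_⟩
    rw [hk, ← pow_succ']
    congr 1
    omega
  obtain ⟨R', hR'⟩ := D.rep_all hk ha _ _ hR i hi
  have h1 := oddeval_scale D i _ _ _ hR'
  have hΨ : C A + C (p : ℤ_[p]) * R + C (k : ℤ_[p]) * R' =
      C A + C (p : ℤ_[p]) * (R + C (k' : ℤ_[p]) * R') := by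
    rw [hk']
    push_cast
    rw [C_mul]
    ring
  rw [hΨ] at h1
  set R2 := R + C (k' : ℤ_[p]) * R' with hR2
  set g : ℤ_[p][X] := (C ((u : ℤ_[p]) + (p : ℤ_[p]) ^ (a - r) * (m : ℤ_[p])) +
      C ((p : ℤ_[p]) ^ (a - r - 1)) * X) * (C (u : ℤ_[p]) + C ((p : ℤ_[p]) ^ (a - r - 1)) * X) *
      (C A + C (p : ℤ_[p]) * R2.comp (C (b : ℤ_[p]) + C (k' : ℤ_[p]) * X)) with hg
  have hu1 : IsUnit (u : ℤ_[p]) := asc_isUnit_nat hu
  have hpr : (p : ℤ_[p]) ^ (a - r) = (p : ℤ_[p]) * (p : ℤ_[p]) ^ (a - r - 1) := by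
    rw [← pow_succ']
    congr 1
    omega
  have hg0 : g.eval 0 = (u : ℤ_[p]) * (u : ℤ_[p]) * A + (p : ℤ_[p]) *
      ((p : ℤ_[p]) ^ (a - r - 1) * (m : ℤ_[p]) * (u : ℤ_[p]) * A +
        ((u : ℤ_[p]) + (p : ℤ_[p]) ^ (a - r) * (m : ℤ_[p])) * (u : ℤ_[p]) *
          R2.eval (b : ℤ_[p])) := by
    rw [hg]
    simp only [eval_add, eval_mul, eval_C, eval_X, eval_comp, mul_zero, add_zero]
    linear_combination (m : ℤ_[p]) * (u : ℤ_[p]) * A * hpr
  have hgu : IsUnit (g.eval 0) := by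
    rw [hg0]
    exact oddeval_unit_add ((hu1.mul hu1).mul hA) _
  have hbr' : ∀ y : ℕ, (k : ℤ_[p]) + ((k * m + b + k * y : ℕ) : ℤ_[p]) *
      ((b + k * y : ℕ) : ℤ_[p]) * (C ((p : ℤ_[p]) ^ W) * (C A + C (p : ℤ_[p]) * R2)).eval
        ((b + k * y : ℕ) : ℤ_[p]) =
      (p : ℤ_[p]) ^ a + (p : ℤ_[p]) ^ (W + 2 * r) * g.eval ((p : ℤ_[p]) * (y : ℤ_[p])) := by
    intro y
    have e3 : (k : ℤ_[p]) = (p : ℤ_[p]) ^ r * (p : ℤ_[p]) ^ (a - r) := by
      rw [← pow_add, hk]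
      push_cast
      congr 1
      omega
    have e3' : (k : ℤ_[p]) = (p : ℤ_[p]) ^ a := by rw [hk]; push_cast; ring
    have e4 : (b : ℤ_[p]) = (p : ℤ_[p]) ^ r * (u : ℤ_[p]) := by rw [hbr]; push_cast; ring
    have e1 : ((b + k * y : ℕ) : ℤ_[p]) =
        (p : ℤ_[p]) ^ r * ((u : ℤ_[p]) + (p : ℤ_[p]) ^ (a - r - 1) * ((p : ℤ_[p]) * (y : ℤ_[p]))) := by
      push_cast
      rw [e4, e3, hpr]
      ring
    have e2 : ((k * m + b + k * y : ℕ) : ℤ_[p]) = (p : ℤ_[p]) ^ r * (((u : ℤ_[p]) +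
        (p : ℤ_[p]) ^ (a - r) * (m : ℤ_[p])) +
          (p : ℤ_[p]) ^ (a - r - 1) * ((p : ℤ_[p]) * (y : ℤ_[p]))) := by
      push_cast
      rw [e4, e3, hpr]
      ring
    have e5 : ((b + k * y : ℕ) : ℤ_[p]) = (b : ℤ_[p]) + (k' : ℤ_[p]) * ((p : ℤ_[p]) * (y : ℤ_[p])) := by
      rw [hk']
      push_cast
      ring
    rw [hg]
    simp only [eval_add, eval_mul, eval_C, eval_X, eval_comp]
    rw [← e5, e2, e3']
    generalize R2.eval ((b + k * y : ℕ) : ℤ_[p]) = z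
    rw [e1, pow_add, mul_comm 2 r, pow_mul]
    ring
  rw [← hrv]
  clear_value g
  rcases lt_trichotomy (W + 2 * r) a with hlt | heq | hgt
  · have h2 := D.eval_main hk ha hm b hb0 hb i _ h1 (W + 2 * r) (by omega)
      (C ((p : ℤ_[p]) ^ (a - (W + 2 * r))) + g) ?_ ?_ N
    · refine ⟨h2.1, ?_⟩
      rw [h2.2, hrv, min_eq_right (by omega)]
      omega
    · rw [eval_add, eval_C, add_comm]
      have : (p : ℤ_[p]) ^ (a - (W + 2 * r)) = (p : ℤ_[p]) * (p : ℤ_[p]) ^ (a - (W + 2 * r) - 1) := by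
        rw [← pow_succ']
        congr 1
        omega
      rw [this]
      exact oddeval_unit_add hgu _
    · intro y
      rw [hbr' y, eval_add, eval_C, mul_add, ← pow_add]
      congr 2
      congr 1
      omega
  · have h2 := D.eval_main hk ha hm b hb0 hb i _ h1 a (by omega) (1 + g) ?_ ?_ N
    · refine ⟨h2.1, ?_⟩
      rw [h2.2, hrv, min_eq_right (by omega)]
      omega
    · rw [eval_add, eval_one, hg0, ← add_assoc]
      exact oddeval_unit_add (hcrit heq) _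
    · intro y
      rw [hbr' y, eval_add, eval_one, heq]
      ring
  · have h2 := D.eval_main hk ha hm b hb0 hb i _ h1 a (by omega)
      (1 + C ((p : ℤ_[p]) ^ (W + 2 * r - a)) * g) ?_ ?_ N
    · refine ⟨h2.1, ?_⟩
      rw [h2.2, hrv, min_eq_left (by omega)]
      omega
    · rw [eval_add, eval_one, eval_mul, eval_C]
      have : (p : ℤ_[p]) ^ (W + 2 * r - a) = (p : ℤ_[p]) * (p : ℤ_[p]) ^ (W + 2 * r - a - 1) := by
        rw [← pow_succ']
        congr 1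
        omega
      rw [this, mul_assoc]
      exact oddeval_unit_add isUnit_one _
    · intro y
      rw [hbr' y, eval_add, eval_one, eval_mul, eval_C, mul_add, ← mul_assoc, ← pow_add, mul_one]
      congr 2
      congr 1
      omega

theorem oddeval_Aint_pos : 0 < Aint p := by
  have hp : p.Prime := Fact.out
  unfold Aint
  refine Finset.sum_pos (fun j hj => ?_) ⟨1, ?_⟩
  · rw [Finset.mem_Ioo] at hj
    refine Nat.div_pos ?_ hj.1
    exact (Nat.le_pred_of_lt hj.2).trans (Nat.self_le_factorial _)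
  · rw [Finset.mem_Ioo]
    exact ⟨one_pos, hp.one_lt⟩

theorem odd_eval (hp : p ≠ 2) (hk : k = p ^ a) (ha : 2 ≤ a) (hm : 1 ≤ m)
    (hA : a ≤ 3 ∨ ¬ p ^ 3 ∣ Aint p) (hc : ¬ CritOdd p a m) (D : Sys k m) (i : ℕ) (hi : 1 ≤ i)
    (b : ℕ) (hb0 : 0 < b) (hb : b < k) (N : ℕ) :
    D.s (k ^ i * (b + k * N)) ≠ 0 ∧ padicValInt p (D.s (k ^ i * (b + k * N))) =
      padicValNat p m + min (a - padicValNat p b)
        (padicValNat p (m * (m + 1) * Aint p) + 1 + padicValNat p b) := by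
  have hpp : p.Prime := Fact.out
  obtain ⟨r, u, hu, hbr⟩ := Nat.exists_eq_pow_mul_and_not_dvd hb0.ne' p hpp.ne_one
  have hu0 : u ≠ 0 := by
    rintro rfl
    exact hu (dvd_zero p)
  have hrv : padicValNat p b = r := by
    rw [hbr, padicValNat.mul (pow_ne_zero _ hpp.ne_zero) hu0, padicValNat.prime_pow,
      padicValNat.eq_zero_of_not_dvd hu, add_zero]
  have hr : r < a := by
    by_contra h
    push Not at h
    have h1 : k ≤ b := by
      rw [hk, hbr]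
      calc p ^ a ≤ p ^ r := Nat.pow_le_pow_right hpp.pos h
        _ = p ^ r * 1 := (mul_one _).symm
        _ ≤ p ^ r * u := Nat.mul_le_mul_left _ (Nat.pos_of_ne_zero hu0)
    omega
  have hX0 : m * (m + 1) * Aint p ≠ 0 := by
    have := oddeval_Aint_pos (p := p)
    positivity
  obtain ⟨W, hW⟩ : ∃ W, W = padicValNat p (m * (m + 1) * Aint p) + 1 := ⟨_, rfl⟩
  obtain ⟨hc1, hc2⟩ := odd_psi hp hk ha hm hA D W hW
  rw [← hW, hrv]
  rcases lt_or_ge a W with hlt | hle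
  · obtain ⟨R, hR⟩ := hc1 hlt
    have h1 := oddeval_case1 D hk ha hm i hi R hR b hb0 hb (by omega) N
    refine ⟨h1.1, ?_⟩
    rw [h1.2, hrv, min_eq_left (by omega)]
    omega
  · obtain ⟨A, x, R, hR, hAx⟩ := hc2 hle
    obtain ⟨e, q, hq, hXq⟩ := Nat.exists_eq_pow_mul_and_not_dvd hX0 p hpp.ne_one
    have hq0 : q ≠ 0 := by
      rintro rfl
      exact hq (dvd_zero p)
    have he : e + 1 = W := by
      rw [hW, hXq, padicValNat.mul (pow_ne_zero _ hpp.ne_zero) hq0, padicValNat.prime_pow,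
        padicValNat.eq_zero_of_not_dvd hq, add_zero]
    have hAq : A = -(q : ℤ_[p]) + (p : ℤ_[p]) * x := by
      have h1 : (p : ℤ_[p]) ^ W ≠ 0 := pow_ne_zero _ (by
        exact_mod_cast hpp.ne_zero)
      apply mul_left_cancel₀ h1
      rw [hAx, hXq, ← he]
      push_cast
      ring
    have hqu : IsUnit (q : ℤ_[p]) := asc_isUnit_nat hq
    have hAu : IsUnit A := by
      rw [hAq]
      exact oddeval_unit_add hqu.neg _
    refine oddeval_case2 D hk ha hm i hi W A R hR hAu (by omega) r u hu ?_ b hb0 hb hbr hrv hr N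
    intro hcr
    by_contra hnu
    rw [oddeval_unit_iff, not_not] at hnu
    apply hc
    refine ⟨e, q, hXq, hq, by omega, ⟨r, by omega⟩, ?_⟩
    have h2 : (p : ℤ_[p]) ∣ ((1 - (u : ℤ) * u * q : ℤ) : ℤ_[p]) := by
      have h3 : ((1 - (u : ℤ) * u * q : ℤ) : ℤ_[p]) = (1 + (u : ℤ_[p]) * (u : ℤ_[p]) * A) -
          (p : ℤ_[p]) * ((u : ℤ_[p]) * (u : ℤ_[p]) * x) := by
        rw [hAq]
        push_cast
        ring
      rw [h3]
      exact dvd_sub hnu (dvd_mul_right _ _)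
    rw [← PadicInt.norm_lt_one_iff_dvd, PadicInt.norm_int_lt_one_iff_dvd,
      ← ZMod.intCast_zmod_eq_zero_iff_dvd] at h2
    push_cast at h2
    have h4 : (u : ZMod p) * ((u : ZMod p) * (q : ZMod p)) = 1 := by
      rw [← mul_assoc]
      exact (sub_eq_zero.mp h2).symm
    have h5 : (u : ZMod p) ≠ 0 := by
      intro h
      rw [h, zero_mul] at h4
      exact zero_ne_one h4
    refine ⟨(u : ZMod p)⁻¹, ?_⟩
    field_simp
    rw [← mul_assoc] at h4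
    linear_combination h4

end Pool.MP9acee6
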