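import Pool.Agent.H.MP_9acee6_nt.Harm
import Pool.Agent.H.MP_9acee6_nt.BaseExp
import Pool.Agent.H.MP_9acee6_nt.Lift

/-!
# The representation of `s(kn) - s(n)` for odd `p`
-/

set_option autoImplicit false

open Polynomial Finset

namespace Pool.MP9acee6

variable {p : ℕ} [Fact p.Prime] {a k m : ℕ}

/-- the exponent in the estimate -/
def kap (p : ℕ) : ℕ := if p = 3 then 2 else 3

private theorem oddpsi_unit {n : ℕ} (hn : ¬ p ∣ n) : IsUnit ((n : ℕ) : ℤ_[p]) := by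
  rw [PadicInt.isUnit_iff, PadicInt.norm_natCast_eq_one_iff]
  exact (Nat.Prime.coprime_iff_not_dvd (Fact.out : p.Prime)).2 hn

private theorem oddpsi_val (n : ℕ) (hn : n ≠ 0) : ∃ u : ℤ_[p], IsUnit u ∧
    (n : ℤ_[p]) = (p : ℤ_[p]) ^ (padicValNat p n) * u := by
  obtain ⟨n', hn'⟩ := pow_padicValNat_dvd (p := p) (n := n)
  have h : ¬ p ∣ n' := by
    rintro ⟨c, hc⟩
    refine pow_succ_padicValNat_not_dvd (p := p) hn ⟨c, ?_⟩
    rw [pow_succ]
    nth_rewrite 1 [hn']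
    rw [hc]
    ring
  refine ⟨(n' : ℤ_[p]), oddpsi_unit h, ?_⟩
  exact_mod_cast congrArg (Nat.cast : ℕ → ℤ_[p]) hn'

/-- divisibility of products of powers of `p` and naturals from valuations -/
private theorem oddpsi_dvd (x y : ℕ) (s t : ℕ) (hx : x ≠ 0) (hy : y ≠ 0)
    (h : padicValNat p x + s ≤ padicValNat p y + t) : ∃ z : ℤ_[p],
    (y : ℤ_[p]) * (p : ℤ_[p]) ^ t = (x : ℤ_[p]) * (p : ℤ_[p]) ^ s * z := by
  obtain ⟨u, hu, ex⟩ := oddpsi_val (p := p) x hx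
  obtain ⟨w, hw, ey⟩ := oddpsi_val (p := p) y hy
  obtain ⟨u', hu'⟩ := hu
  refine ⟨(p : ℤ_[p]) ^ (padicValNat p y + t - (padicValNat p x + s)) * w * (↑(u'⁻¹) : ℤ_[p]), ?_⟩
  have h1 : (p : ℤ_[p]) ^ (padicValNat p y + t) = (p : ℤ_[p]) ^ (padicValNat p x + s) *
      (p : ℤ_[p]) ^ (padicValNat p y + t - (padicValNat p x + s)) := by
    rw [← pow_add]; congr 1; omega
  have h2 : u * (↑(u'⁻¹) : ℤ_[p]) = 1 := by rw [← hu']; exact u'.mul_inv
  rw [pow_add, pow_add] at h1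
  rw [ex, ey]
  linear_combination w * h1 - (p : ℤ_[p]) ^ padicValNat p x * (p : ℤ_[p]) ^ s *
    (p : ℤ_[p]) ^ (padicValNat p y + t - (padicValNat p x + s)) * w * h2

private theorem oddpsi_pow_ge (q : ℕ) (hq : 2 ≤ q) (v : ℕ) : q * v ≤ q ^ v := by
  induction v with
  | zero => simp
  | succ v ih =>
    rcases Nat.eq_zero_or_pos v with h | h
    · subst h; simp
    · have h1 : 1 ≤ q ^ v := Nat.one_le_pow _ _ (by omega)
      have h2 : q ≤ q ^ v := by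
        calc q = q * 1 := by ring
          _ ≤ q * v := Nat.mul_le_mul_left _ h
          _ ≤ q ^ v := ih
      calc q * (v + 1) = q * v + q := by ring
        _ ≤ q ^ v + q ^ v := by omega
        _ = 2 * q ^ v := by ring
        _ ≤ q * q ^ v := Nat.mul_le_mul_right _ hq
        _ = q ^ (v + 1) := by ring

private theorem oddpsi_val_le (n : ℕ) (hn : n ≠ 0) : p * padicValNat p n ≤ n := by
  have hp2 : 2 ≤ p := (Fact.out : p.Prime).two_le
  calc p * padicValNat p n ≤ p ^ padicValNat p n := oddpsi_pow_ge p hp2 _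
    _ ≤ n := Nat.le_of_dvd (Nat.pos_of_ne_zero hn) pow_padicValNat_dvd

private theorem oddpsi_ineq (hp : p ≠ 2) (i J : ℕ) (hi : 1 ≤ i) (h1 : 1 ≤ J)
    (hJ : J ≤ 2 * i + 1) :
    padicValNat p J + padicValNat p (i + 1) + 1 + kap p ≤ 2 * i + 2 := by
  have hpp : p.Prime := Fact.out
  have e1 := oddpsi_val_le (p := p) J (by omega)
  have e2 := oddpsi_val_le (p := p) (i + 1) (by omega)
  unfold kap
  by_cases h3 : p = 3
  · rw [if_pos h3]
    have e1' : 3 * padicValNat p J ≤ J := by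
      calc 3 * padicValNat p J = p * padicValNat p J := by rw [h3]
        _ ≤ J := e1
    have e2' : 3 * padicValNat p (i + 1) ≤ i + 1 := by
      calc 3 * padicValNat p (i + 1) = p * padicValNat p (i + 1) := by rw [h3]
        _ ≤ i + 1 := e2
    omega
  · rw [if_neg h3]
    have hp5 : 5 ≤ p := by
      have := hpp.two_le
      by_contra hcon
      have h4 : p = 4 := by omega
      rw [h4] at hpp
      exact absurd hpp (by decide)
    have e1' : 5 * padicValNat p J ≤ J :=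
      (Nat.mul_le_mul_right _ hp5).trans e1
    have e2' : 5 * padicValNat p (i + 1) ≤ i + 1 :=
      (Nat.mul_le_mul_right _ hp5).trans e2
    omega

theorem odd_estimate (hp : p ≠ 2) (hk : k = p ^ a) (ha : 2 ≤ a) (hm : 1 ≤ m) (e : ℕ → ℤ_[p])
    (he : ∀ i : ℕ, 1 ≤ i → (m : ℤ_[p]) ∣ 2 * ((i : ℤ_[p]) * e i)) (i : ℕ) (hi : 1 ≤ i)
    (J : ℕ) (h1 : 1 ≤ J) (hJ : J ≤ 2 * i + 1) : ∃ x : ℤ_[p],
      e (i + 1) * (p : ℤ_[p]) ^ (2 * (i + 1)) * ((m + 1).ascFactorial J : ℤ_[p]) =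
        (p : ℤ_[p]) ^ (1 + min a (padicValNat p (m * (m + 1)) + kap p)) * x *
          ((k * m + 1).ascFactorial J : ℤ_[p]) := by
  have hpp : p.Prime := Fact.out
  have hp3 : 3 ≤ p := by
    have := hpp.two_le
    omega
  set v := padicValNat p (m * (m + 1)) with hv
  have hmm : m * (m + 1) ≠ 0 := Nat.mul_ne_zero (by omega) (by omega)
  have h2u : IsUnit (2 : ℤ_[p]) := by
    have := oddpsi_unit (p := p) (n := 2) (fun h => by
      have := Nat.le_of_dvd (by norm_num) h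
      omega)
    simpa using this
  by_cases hJk : J < k
  · obtain ⟨c, hc⟩ := asc_small (p := p) (m := m) hk J h1 hJk
    -- `m ∣ (i+1) e (i+1)`
    obtain ⟨e', he'⟩ : (m : ℤ_[p]) ∣ ((i + 1 : ℕ) : ℤ_[p]) * e (i + 1) := by
      have := he (i + 1) (by omega)
      exact (h2u.dvd_mul_left).1 this
    have hineq := oddpsi_ineq (p := p) hp i J hi h1 hJ
    obtain ⟨z, hz⟩ := oddpsi_dvd (p := p) (J * (i + 1)) (m * (m + 1)) (1 + min a (v + kap p))
      (2 * (i + 1)) (Nat.mul_ne_zero (by omega) (by omega)) hmm (by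
        rw [padicValNat.mul (by omega) (by omega), ← hv]
        have := min_le_right a (v + kap p)
        omega)
    refine ⟨z * e' * c, ?_⟩
    have hne : ((J * (i + 1) : ℕ) : ℤ_[p]) ≠ 0 := by
      exact_mod_cast Nat.mul_ne_zero (by omega) (by omega)
    apply mul_left_cancel₀ hne
    push_cast at hz he' hc ⊢
    linear_combination (p : ℤ_[p]) ^ (2 * (i + 1)) * (J : ℤ_[p]) *
        ((m + 1).ascFactorial J : ℤ_[p]) * he' +
      (m : ℤ_[p]) * e' * (p : ℤ_[p]) ^ (2 * (i + 1)) * hc +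
      e' * c * ((k * m + 1).ascFactorial J : ℤ_[p]) * hz
  · push Not at hJk
    obtain ⟨c, hc⟩ := asc_log (p := p) (m := m) hk J h1
    have hL1 : a ≤ Nat.log p J := by
      apply Nat.le_log_of_pow_le hpp.one_lt
      rw [← hk]; exact hJk
    have hL2 : p ^ Nat.log p J ≤ J := Nat.pow_log_le_self _ (by omega)
    have hL3 : 3 * Nat.log p J ≤ p ^ Nat.log p J :=
      (Nat.mul_le_mul_right _ hp3).trans (oddpsi_pow_ge p (by omega) _)
    have hmin := min_le_left a (v + kap p)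
    refine ⟨e (i + 1) * (p : ℤ_[p]) ^ (2 * (i + 1) - Nat.log p J - (1 + min a (v + kap p))) * c, ?_⟩
    have hpow : (p : ℤ_[p]) ^ (2 * (i + 1)) = (p : ℤ_[p]) ^ (1 + min a (v + kap p)) *
        (p : ℤ_[p]) ^ (2 * (i + 1) - Nat.log p J - (1 + min a (v + kap p))) *
        (p : ℤ_[p]) ^ Nat.log p J := by
      rw [← pow_add, ← pow_add]
      congr 1
      omega
    rw [hpow]
    linear_combination e (i + 1) * (p : ℤ_[p]) ^ (1 + min a (v + kap p)) *
        (p : ℤ_[p]) ^ (2 * (i + 1) - Nat.log p J - (1 + min a (v + kap p))) * hc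

private theorem oddpsi_Aint_three : Aint 3 = 3 := by decide

private theorem oddpsi_Aint_ne (hp : p ≠ 2) : Aint p ≠ 0 := by
  have hpp : p.Prime := Fact.out
  have h1 : (p - 1).factorial / 1 ≤ Aint p := by
    unfold Aint
    exact Finset.single_le_sum (f := fun j => (p - 1).factorial / j) (fun _ _ => Nat.zero_le _)
      (Finset.mem_Ioo.2 ⟨one_pos, hpp.one_lt⟩)
  have h2 := Nat.factorial_pos (p - 1)
  rw [Nat.div_one] at h1
  omega

private theorem oddpsi_vA (hp : p ≠ 2) (h : ¬ p ^ 3 ∣ Aint p) : padicValNat p (Aint p) ≤ 2 := by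
  by_contra hcon
  push Not at hcon
  exact h ((padicValNat_dvd_iff_le (oddpsi_Aint_ne hp)).2 hcon)

private theorem oddpsi_unit_k (hk : k = p ^ a) (ha : 1 ≤ a) :
    IsUnit (((k * m + 1 : ℕ)) : ℤ_[p]) := by
  apply oddpsi_unit
  intro h
  have hpp : p.Prime := Fact.out
  have h1 : p ∣ k * m := by
    rw [hk]
    exact Dvd.dvd.mul_right (dvd_pow_self p (by omega)) m
  have h2 : p ∣ 1 := (Nat.dvd_add_right h1).1 h
  exact hpp.one_lt.ne' (Nat.dvd_one.1 h2)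

/-- common part of `odd_psi`: the base representation, and the value of `c 0` -/
private theorem oddpsi_base (hp : p ≠ 2) (hk : k = p ^ a) (ha : 2 ≤ a) (hm : 1 ≤ m)
    (D : Sys k m) (M : ℕ) (hM : M = 1 + min a (padicValNat p (m * (m + 1)) + kap p)) :
    ∃ (r q x y y' : ℤ_[p]) (R : ℤ_[p][X]),
      ((k * m + 1 : ℕ) : ℤ_[p]) * r = q ∧
      q = -((p : ℤ_[p]) * ((m * (m + 1) * Aint p : ℕ) : ℤ_[p])) +
        (p : ℤ_[p]) ^ 2 * ((m * (m + 1) * Aint p : ℕ) : ℤ_[p]) * x +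
        (p : ℤ_[p]) ^ 4 * ((m * (m + 1) : ℕ) : ℤ_[p]) * y - (p : ℤ_[p]) ^ M * y' ∧
      ∀ b N, b < k → (D.s (k ^ 1 * (b + k * N)) : ℤ_[p]) - (D.s (b + k * N) : ℤ_[p]) =
        (m : ℤ_[p]) * D.bk (fun y => (y : ℤ_[p]) *
          (C r + C ((p : ℤ_[p]) ^ M) * R).eval (y : ℤ_[p])) b N := by
  have hpp : p.Prime := Fact.out
  have hk0 : 0 < k := by rw [hk]; exact pow_pos hpp.pos a
  obtain ⟨e, d, hd, he, hbin⟩ := exists_e (p := p) (a := a) (k := k) (m := m) hk (by omega) hm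
    (Or.inl hp)
  have hest : ∀ i, 1 ≤ i → i < d → ∀ J, 1 ≤ J → J ≤ 2 * i + 1 → ∃ x : ℤ_[p],
      (fun i => e (i + 1) * (p : ℤ_[p]) ^ (2 * (i + 1))) i * ((m + 1).ascFactorial J : ℤ_[p]) =
        (p : ℤ_[p]) ^ M * x * ((k * m + 1).ascFactorial J : ℤ_[p]) := by
    intro i hi _ J h1 hJ
    rw [hM]
    exact odd_estimate hp hk ha hm e he i hi J h1 hJ
  obtain ⟨uk, huk⟩ := oddpsi_unit_k (m := m) hk (by omega : 1 ≤ a)
  obtain ⟨R, hR⟩ := base_rep D (fun i => e (i + 1) * (p : ℤ_[p]) ^ (2 * (i + 1))) d M (by omega)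
    hest ((↑(uk⁻¹) : ℤ_[p]) * (((m + 1 : ℕ) : ℤ_[p]) *
      (e (0 + 1) * (p : ℤ_[p]) ^ (2 * (0 + 1))))) (by
        rw [← huk, ← mul_assoc, uk.mul_inv, one_mul])
  obtain ⟨x, y, hxy⟩ := omega_one_odd (p := p) (a := a) (k := k) (m := m) hp hk (by omega)
  -- the sum over `i ≥ 1`
  have hsum : ∃ y' : ℤ_[p], ∑ i ∈ range (d - 1), e (i + 1 + 1) * (p : ℤ_[p]) ^ (2 * (i + 1 + 1)) *
      (((m : ℤ_[p]) + 1)) ^ (i + 1 + 1) = (p : ℤ_[p]) ^ M * y' := by
    have : ∀ i ∈ range (d - 1), ∃ z : ℤ_[p], e (i + 1 + 1) * (p : ℤ_[p]) ^ (2 * (i + 1 + 1)) *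
      (((m : ℤ_[p]) + 1)) ^ (i + 1 + 1) = (p : ℤ_[p]) ^ M * z := by
      intro i hi
      obtain ⟨z, hz⟩ := hest (i + 1) (by omega) (by have := Finset.mem_range.1 hi; omega) 1
        (le_refl 1) (by omega)
      have e1 : (m + 1).ascFactorial 1 = m + 1 := by simp [Nat.ascFactorial]
      rw [e1] at hz
      refine ⟨z * ((k * m + 1).ascFactorial 1 : ℤ_[p]) * ((m : ℤ_[p]) + 1) ^ (i + 1), ?_⟩
      push_cast at hz ⊢
      linear_combination ((m : ℤ_[p]) + 1) ^ (i + 1) * hz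
    choose! z hz using this
    refine ⟨∑ i ∈ range (d - 1), z i, ?_⟩
    rw [Finset.mul_sum]
    exact Finset.sum_congr rfl hz
  obtain ⟨y', hy'⟩ := hsum
  refine ⟨(↑(uk⁻¹) : ℤ_[p]) * (((m + 1 : ℕ) : ℤ_[p]) *
      (e (0 + 1) * (p : ℤ_[p]) ^ (2 * (0 + 1)))), _, x, y, y', R, rfl, ?_, ?_⟩
  · rw [← huk, ← mul_assoc, uk.mul_inv, one_mul]
    have h1 := hbin 1
    have h2 := omega_one (p := p) (a := a) (k := k) (m := m) hk (by omega)
    have e0 : k * m + k * 1 = k * m + k := by ring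
    have e1 : (m + 1).choose m = m + 1 := by simp
    rw [e0, e1, h2] at h1
    have hne : ((m + 1 : ℕ) : ℤ_[p]) ≠ 0 := by exact_mod_cast Nat.succ_ne_zero m
    have h3 := mul_left_cancel₀ hne h1
    rw [hxy] at h3
    obtain ⟨d', rfl⟩ : ∃ d', d = d' + 1 := ⟨d - 1, by omega⟩
    rw [Finset.sum_range_succ'] at h3
    rw [Nat.add_sub_cancel] at hy'
    have h4 : ∑ i ∈ range d', e (i + 1 + 1) * (p : ℤ_[p]) ^ (2 * (i + 1 + 1)) *
        (((1 : ℕ) : ℤ_[p]) * ((m : ℤ_[p]) + ((1 : ℕ) : ℤ_[p]))) ^ (i + 1 + 1) =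
        (p : ℤ_[p]) ^ M * y' := by
      rw [← hy']
      refine Finset.sum_congr rfl fun i _ => ?_
      push_cast
      ring
    rw [h4] at h3
    push_cast at h3 ⊢
    linear_combination -h3
  · intro b N hb
    have h1 := diff_br hm hk0 e d hbin D (b + k * N)
    rw [pow_one, h1]
    have h2 := hR b N hb
    have h3 : D.br (fun y => (m : ℤ_[p]) * ((y : ℤ_[p]) * ∑ i ∈ range d,
        e (i + 1) * (p : ℤ_[p]) ^ (2 * (i + 1)) *
          ((y : ℤ_[p]) * ((m : ℤ_[p]) + (y : ℤ_[p]))) ^ i)) (b + k * N) =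
        (m : ℤ_[p]) * D.br (fun y => (y : ℤ_[p]) * ∑ i ∈ range d,
        e (i + 1) * (p : ℤ_[p]) ^ (2 * (i + 1)) *
          ((y : ℤ_[p]) * ((m : ℤ_[p]) + (y : ℤ_[p]))) ^ i) (b + k * N) := by
      unfold Sys.br
      rw [Finset.mul_sum]
      refine Finset.sum_congr rfl fun y _ => ?_
      ring
    rw [h3]
    exact congrArg (fun t => (m : ℤ_[p]) * t) h2

theorem odd_psi (hp : p ≠ 2) (hk : k = p ^ a) (ha : 2 ≤ a) (hm : 1 ≤ m)
    (hA : a ≤ 3 ∨ ¬ p ^ 3 ∣ Aint p) (D : Sys k m) (W : ℕ)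
    (hW : W = padicValNat p (m * (m + 1) * Aint p) + 1) :
    (a < W → ∃ R : ℤ_[p][X], D.Rep 1 ((m : ℤ_[p]) * (p : ℤ_[p]) ^ (a + 1)) R) ∧
    (W ≤ a → ∃ (A x : ℤ_[p]) (R : ℤ_[p][X]),
      D.Rep 1 ((m : ℤ_[p]) * (p : ℤ_[p]) ^ W) (C A + C (p : ℤ_[p]) * R) ∧
      (p : ℤ_[p]) ^ W * A = - ((p : ℤ_[p]) * ((m * (m + 1) * Aint p : ℕ) : ℤ_[p])) +
        (p : ℤ_[p]) ^ (W + 1) * x) := by
  have hpp : p.Prime := Fact.out
  have hA0 : Aint p ≠ 0 := oddpsi_Aint_ne hp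
  have hmm : m * (m + 1) ≠ 0 := Nat.mul_ne_zero (by omega) (by omega)
  set v := padicValNat p (m * (m + 1)) with hv
  set α := padicValNat p (Aint p) with hα
  have hWv : W = v + α + 1 := by
    rw [hW, padicValNat.mul hmm hA0]
  -- valuation of `Aint` against `kap`
  have hkap : kap p = 2 ∨ kap p = 3 := by
    unfold kap
    split_ifs <;> simp
  have hkap3 : kap p = 2 → α ≤ 1 := by
    intro h
    unfold kap at h
    split_ifs at h with h3
    · have h9 : ¬ p ^ 2 ∣ Aint p := by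
        have hA3 : Aint p = 3 := by rw [h3]; exact oddpsi_Aint_three
        rw [hA3, h3]
        decide
      by_contra hcon
      push Not at hcon
      exact h9 ((padicValNat_dvd_iff_le hA0).2 hcon)
    · omega
  have hα2 : a ≤ 3 ∨ α ≤ 2 := by
    rcases hA with h | h
    · exact Or.inl h
    · exact Or.inr (oddpsi_vA hp h)
  obtain ⟨r, q, x, y, y', R, hrq, hq, hrep⟩ := oddpsi_base hp hk ha hm D
    (1 + min a (v + kap p)) rfl
  obtain ⟨u0, hu0, hX0⟩ := oddpsi_val (p := p) (m * (m + 1) * Aint p)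
    (Nat.mul_ne_zero hmm hA0)
  obtain ⟨w0, hw0, hm0⟩ := oddpsi_val (p := p) (m * (m + 1)) hmm
  rw [padicValNat.mul hmm hA0, ← hv, ← hα] at hX0
  rw [← hv] at hm0
  obtain ⟨uk, huk⟩ := oddpsi_unit_k (m := m) hk (by omega : 1 ≤ a)
  have hr : r = (↑(uk⁻¹) : ℤ_[p]) * q := by
    rw [← hrq, ← huk, ← mul_assoc, uk.inv_mul, one_mul]
  refine ⟨fun haW => ?_, fun hWa => ?_⟩
  · have hM : 1 + min a (v + kap p) = a + 1 := by
      rw [min_eq_left (by omega)]; omega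
    rw [hM] at hq hrep
    -- `q = p^(a+1) q'`
    obtain ⟨q', hq'⟩ : ∃ q' : ℤ_[p], q = (p : ℤ_[p]) ^ (a + 1) * q' := by
      have f1 : (p : ℤ_[p]) * ((m * (m + 1) * Aint p : ℕ) : ℤ_[p]) =
          (p : ℤ_[p]) ^ (a + 1) * ((p : ℤ_[p]) ^ (v + α - a) * u0) := by
        rw [hX0, ← mul_assoc, ← mul_assoc, ← pow_succ', ← pow_add]
        congr 2
        omega
      have f2 : (p : ℤ_[p]) ^ 4 * ((m * (m + 1) : ℕ) : ℤ_[p]) =
          (p : ℤ_[p]) ^ (a + 1) * ((p : ℤ_[p]) ^ (v + 3 - a) * w0) := by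
        rw [hm0, ← mul_assoc, ← mul_assoc, ← pow_add, ← pow_add]
        congr 2
        omega
      refine ⟨-((p : ℤ_[p]) ^ (v + α - a) * u0) + p * ((p : ℤ_[p]) ^ (v + α - a) * u0) * x +
        ((p : ℤ_[p]) ^ (v + 3 - a) * w0) * y - y', ?_⟩
      rw [hq]
      linear_combination (-1 + (p : ℤ_[p]) * x) * f1 + y * f2
    refine ⟨C ((↑(uk⁻¹) : ℤ_[p]) * q') + R, ?_⟩
    intro b N hb
    rw [hrep b N hb]
    unfold Sys.bk
    rw [Finset.mul_sum]
    refine Finset.sum_congr rfl fun z _ => ?_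
    simp only [eval_add, eval_mul, eval_C]
    rw [hr, hq']
    ring
  · have hM : W + 1 ≤ 1 + min a (v + kap p) := by
      have : W ≤ min a (v + kap p) := le_min hWa (by omega)
      omega
    set M := 1 + min a (v + kap p) with hMdef
    have f1 : (p : ℤ_[p]) * ((m * (m + 1) * Aint p : ℕ) : ℤ_[p]) =
        (p : ℤ_[p]) ^ W * u0 := by
      rw [hX0, ← mul_assoc, ← pow_succ', hWv]
    have f2 : (p : ℤ_[p]) ^ 4 * ((m * (m + 1) : ℕ) : ℤ_[p]) =
        (p : ℤ_[p]) ^ (W + 1) * ((p : ℤ_[p]) ^ (2 - α) * w0) := by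
      rw [hm0, ← mul_assoc, ← mul_assoc, ← pow_add, ← pow_add]
      congr 2
      omega
    have f3 : (p : ℤ_[p]) ^ M = (p : ℤ_[p]) ^ (W + 1) * (p : ℤ_[p]) ^ (M - (W + 1)) := by
      rw [← pow_add]; congr 1; omega
    set x1 : ℤ_[p] := u0 * x + (p : ℤ_[p]) ^ (2 - α) * w0 * y -
      (p : ℤ_[p]) ^ (M - (W + 1)) * y' with hx1
    have hq1 : q = (p : ℤ_[p]) ^ W * (-u0 + p * x1) := by
      rw [hq, hx1]
      have f4 : (p : ℤ_[p]) ^ (W + 1) = (p : ℤ_[p]) ^ W * p := pow_succ _ _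
      rw [f3]
      rw [f4] at f2 ⊢
      linear_combination (-1 + (p : ℤ_[p]) * x) * f1 + y * f2
    -- the unit `1/(km+1)`
    have hinv : (↑(uk⁻¹) : ℤ_[p]) = 1 - (p : ℤ_[p]) ^ a * ((m : ℤ_[p]) * (↑(uk⁻¹) : ℤ_[p])) := by
      have h1 : (↑uk : ℤ_[p]) * (↑(uk⁻¹) : ℤ_[p]) = 1 := uk.mul_inv
      rw [huk, hk] at h1
      push_cast at h1
      linear_combination h1
    have hpa : (p : ℤ_[p]) ^ a = p * (p : ℤ_[p]) ^ (a - 1) := by
      rw [← pow_succ']; congr 1; omega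
    refine ⟨(↑(uk⁻¹) : ℤ_[p]) * (-u0 + p * x1),
      x1 - (p : ℤ_[p]) ^ (a - 1) * ((m : ℤ_[p]) * (↑(uk⁻¹) : ℤ_[p])) * (-u0 + p * x1),
      C ((p : ℤ_[p]) ^ (M - (W + 1))) * R, ?_, ?_⟩
    · intro b N hb
      rw [hrep b N hb]
      unfold Sys.bk
      rw [Finset.mul_sum]
      refine Finset.sum_congr rfl fun z _ => ?_
      simp only [eval_add, eval_mul, eval_C]
      rw [hr, hq1, f3, pow_succ]
      ring
    · have f4 : (p : ℤ_[p]) ^ (W + 1) = (p : ℤ_[p]) ^ W * p := pow_succ _ _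
      rw [f4, f1]
      rw [hpa] at hinv
      linear_combination (p : ℤ_[p]) ^ W * (-u0 + (p : ℤ_[p]) * x1) * hinv

end Pool.MP9acee6
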