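import Pool.Agent.H.MP_9acee6_nt.Psum
import Pool.Agent.H.MP_9acee6_nt.ESymm
import Pool.Agent.H.MP_9acee6_nt.Core

/-!
# The symmetric case (`p` odd or `m` even): `C(km+ky,km)/C(m+y,m)` as a polynomial in `y(m+y)`
-/

set_option autoImplicit false

open Polynomial Finset

namespace Pool.MP9acee6

variable {p : ℕ} [Fact p.Prime] {a k m : ℕ}

theorem omega_index (hk0 : 0 < k) :
    (Ioc 0 (0 + k * m)).filter (fun t => ¬ k ∣ t) = full k m := by
  ext t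
  simp only [full, mem_filter, mem_Ioc, mem_Ioo, zero_add]
  constructor
  · rintro ⟨⟨h1, h2⟩, h3⟩
    refine ⟨⟨h1, lt_of_le_of_ne h2 ?_⟩, h3⟩
    rintro rfl
    exact h3 (dvd_mul_right k m)
  · rintro ⟨⟨h1, h2⟩, h3⟩
    exact ⟨⟨h1, h2.le⟩, h3⟩

theorem omega_sym (hk : k = p ^ a) (ha : 1 ≤ a) (hm : 1 ≤ m) (hsym : p ≠ 2 ∨ Even m) (y : ℕ) :
    ((k * m + k * y).choose (k * m) : ℤ_[p]) = ((m + y).choose m : ℤ_[p]) *
      ∏ t ∈ half k m, (1 + gg p k t * gg p k (k * m - t) *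
        ((p : ℤ_[p]) ^ 2 * ((y : ℤ_[p]) * ((m : ℤ_[p]) + (y : ℤ_[p]))))) := by
  have hk0 : 0 < k := by
    rw [hk]
    exact pow_pos (Fact.out : p.Prime).pos _
  have h := choose_eq (p := p) (m := m) hk ha 0 hk0 y
  rw [omega_index hk0] at h
  simp only [add_zero, Nat.choose_self, Nat.cast_one, one_mul] at h
  rw [h]
  congr 1
  rw [prod_full_eq_half hk hsym]
  refine prod_congr rfl fun t ht => ?_
  have ht2 : t ≤ k * m := by
    simp only [half, mem_filter, mem_Ioo] at ht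
    exact ht.1.2.le
  have hr := gg_refl (p := p) (m := m) hk t ht2
  linear_combination ((p : ℤ_[p]) * (y : ℤ_[p])) * hr

/-- the coefficients `e i` of `prod_{half} (1 + d_t X)` -/
theorem exists_e (hk : k = p ^ a) (ha : 1 ≤ a) (hm : 1 ≤ m) (hsym : p ≠ 2 ∨ Even m) :
    ∃ (e : ℕ → ℤ_[p]) (d : ℕ), 2 ≤ d ∧
      (∀ i : ℕ, 1 ≤ i → (m : ℤ_[p]) ∣ 2 * ((i : ℤ_[p]) * e i)) ∧
      (∀ y : ℕ, ((k * m + k * y).choose (k * m) : ℤ_[p]) = ((m + y).choose m : ℤ_[p]) *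
        (1 + ∑ i ∈ range d, e (i + 1) * (p : ℤ_[p]) ^ (2 * (i + 1)) *
          ((y : ℤ_[p]) * ((m : ℤ_[p]) + (y : ℤ_[p]))) ^ (i + 1))) := by
  set P : ℤ_[p][X] := ∏ t ∈ half k m, (1 + C (gg p k t * gg p k (k * m - t)) * X) with hP
  refine ⟨fun i => P.coeff i, P.natDegree + 2, by omega, ?_, ?_⟩
  · intro i hi
    exact esymm_dvd (half k m) (fun t => gg p k t * gg p k (k * m - t)) (m : ℤ_[p]) 2
      (fun j hj => psum_half hk hm hsym j hj) i hi
  · intro y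
    rw [omega_sym hk ha hm hsym y]
    congr 1
    set x : ℤ_[p] := (p : ℤ_[p]) ^ 2 * ((y : ℤ_[p]) * ((m : ℤ_[p]) + (y : ℤ_[p]))) with hx
    have h1 : ∏ t ∈ half k m, (1 + gg p k t * gg p k (k * m - t) * x) = P.eval x := by
      rw [hP, eval_prod]
      refine prod_congr rfl fun t _ => ?_
      simp
    have h0 : P.coeff 0 = 1 := by
      rw [coeff_zero_eq_eval_zero, hP, eval_prod]
      refine prod_eq_one fun t _ => ?_
      simp
    rw [h1, eval_eq_sum_range' (n := P.natDegree + 2 + 1) (by omega), sum_range_succ', h0,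
      pow_zero, mul_one, add_comm]
    congr 1
    refine sum_congr rfl fun i _ => ?_
    rw [hx, mul_pow, ← pow_mul, mul_assoc]

/-- the difference `s(kn) - s(n)` as a `br` -/
theorem diff_br (hm : 1 ≤ m) (hk0 : 0 < k) (e : ℕ → ℤ_[p]) (d : ℕ)
    (he : ∀ y : ℕ, ((k * m + k * y).choose (k * m) : ℤ_[p]) = ((m + y).choose m : ℤ_[p]) *
        (1 + ∑ i ∈ range d, e (i + 1) * (p : ℤ_[p]) ^ (2 * (i + 1)) *
          ((y : ℤ_[p]) * ((m : ℤ_[p]) + (y : ℤ_[p]))) ^ (i + 1)))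
    (D : Sys k m) (n : ℕ) :
    (D.s (k * n) : ℤ_[p]) - (D.s n : ℤ_[p]) = D.br (fun y => (m : ℤ_[p]) *
      ((y : ℤ_[p]) * ∑ i ∈ range d, e (i + 1) * (p : ℤ_[p]) ^ (2 * (i + 1)) *
          ((y : ℤ_[p]) * ((m : ℤ_[p]) + (y : ℤ_[p]))) ^ i)) n := by
  have g1 := D.G1 0 n hk0
  have g2 := D.G2 n
  rw [zero_add] at g1
  rw [g1, g2, Sys.br]
  push_cast
  rw [← sum_sub_distrib]
  refine sum_congr rfl fun y _ => ?_
  rw [← mul_sub, mul_assoc]
  congr 1
  rw [add_zero]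
  set SS : ℤ_[p] := ∑ i ∈ range d, e (i + 1) * (p : ℤ_[p]) ^ (2 * (i + 1)) *
    ((y : ℤ_[p]) * ((m : ℤ_[p]) + (y : ℤ_[p]))) ^ i with hS
  have hz : ∑ i ∈ range d, e (i + 1) * (p : ℤ_[p]) ^ (2 * (i + 1)) *
      ((y : ℤ_[p]) * ((m : ℤ_[p]) + (y : ℤ_[p]))) ^ (i + 1) =
      ((y : ℤ_[p]) * ((m : ℤ_[p]) + (y : ℤ_[p]))) * SS := by
    rw [hS, mul_sum]
    refine sum_congr rfl fun i _ => ?_
    ring
  have hy := he y
  rw [hz] at hy
  have hne : ((m : ℤ_[p]) + (y : ℤ_[p])) ≠ 0 := by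
    have : ((m + y : ℕ) : ℤ_[p]) ≠ 0 := Nat.cast_ne_zero.mpr (by omega)
    push_cast at this
    exact this
  have hkm : 1 ≤ k * m := Nat.one_le_iff_ne_zero.mpr (by positivity)
  have c1 : ((m : ℤ_[p]) + (y : ℤ_[p])) * ((k * m - 1 + k * y).choose (k * m - 1) : ℤ_[p]) =
      (m : ℤ_[p]) * ((k * m + k * y).choose (k * m) : ℤ_[p]) := by
    have h := Nat.add_one_mul_choose_eq (k * m - 1 + k * y) (k * m - 1)
    have e1 : k * m - 1 + k * y + 1 = k * m + k * y := by omega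
    have e2 : k * m - 1 + 1 = k * m := by omega
    rw [e1, e2] at h
    have h' : k * ((m + y) * (k * m - 1 + k * y).choose (k * m - 1)) =
        k * (m * (k * m + k * y).choose (k * m)) := by
      calc _ = (k * m + k * y) * (k * m - 1 + k * y).choose (k * m - 1) := by ring
        _ = _ := by rw [h]; ring
    have h'' := Nat.eq_of_mul_eq_mul_left hk0 h'
    exact_mod_cast congrArg (Nat.cast : ℕ → ℤ_[p]) h''
  have c2 : ((m : ℤ_[p]) + (y : ℤ_[p])) * ((m - 1 + y).choose (m - 1) : ℤ_[p]) =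
      (m : ℤ_[p]) * ((m + y).choose m : ℤ_[p]) := by
    have h := Nat.add_one_mul_choose_eq (m - 1 + y) (m - 1)
    have e1 : m - 1 + y + 1 = m + y := by omega
    have e2 : m - 1 + 1 = m := by omega
    rw [e1, e2] at h
    have h' : (m + y) * (m - 1 + y).choose (m - 1) = m * (m + y).choose m := by
      rw [h]; ring
    exact_mod_cast congrArg (Nat.cast : ℕ → ℤ_[p]) h'
  refine mul_left_cancel₀ hne ?_
  linear_combination c1 - c2 + (m : ℤ_[p]) * hy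

end Pool.MP9acee6
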