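import Pool.Agent.H.MP_9acee6_nt.Asc

/-!
# The polynomials `P_b`: `C(km+b+ky, km) = C(m+y, m) P_b(p y)`
-/

set_option autoImplicit false

open Polynomial Finset

namespace Pool.MP9acee6

variable {p : ℕ} [Fact p.Prime] {a k m : ℕ}

theorem pb_exists (hk : k = p ^ a) (t : ℕ) (ht : ¬ k ∣ t) :
    ∃ c : ℤ_[p], (p : ℤ_[p]) * c * (t : ℤ_[p]) = (k : ℤ_[p]) := by
  have hp : p.Prime := Fact.out
  have ht0 : t ≠ 0 := by
    rintro rfl
    exact ht (dvd_zero _)
  obtain ⟨v, t', ht', rfl⟩ := Nat.exists_eq_pow_mul_and_not_dvd ht0 p hp.ne_one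
  have hva : v < a := by
    by_contra h
    exact ht (hk ▸ Dvd.dvd.mul_right (pow_dvd_pow p (not_lt.1 h)) t')
  have hu : IsUnit ((t' : ℕ) : ℤ_[p]) := by
    rw [PadicInt.isUnit_iff, PadicInt.norm_natCast_eq_one_iff]
    exact (Nat.Prime.coprime_iff_not_dvd hp).2 ht'
  obtain ⟨u, hu⟩ := hu
  refine ⟨(p : ℤ_[p]) ^ (a - 1 - v) * ↑u⁻¹, ?_⟩
  obtain ⟨e, rfl⟩ : ∃ e, a = e + 1 + v := ⟨a - 1 - v, by omega⟩
  have h1 : e + 1 + v - 1 - v = e := by omega
  rw [h1, hk]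
  push_cast
  rw [← hu]
  calc (p : ℤ_[p]) * ((p : ℤ_[p]) ^ e * ↑u⁻¹) * ((p : ℤ_[p]) ^ v * ↑u)
      = (p : ℤ_[p]) ^ (e + 1 + v) * (↑u⁻¹ * ↑u) := by ring
    _ = (p : ℤ_[p]) ^ (e + 1 + v) := by rw [Units.inv_mul, mul_one]

open Classical in
/-- for `k ∤ t` there is `c` with `p c t = k` (a choice; `0` if `k ∣ t`) -/
noncomputable def gg (p : ℕ) [Fact p.Prime] (k t : ℕ) : ℤ_[p] :=
  if h : ∃ c : ℤ_[p], (p : ℤ_[p]) * c * (t : ℤ_[p]) = (k : ℤ_[p]) ∧ ¬ k ∣ t then h.choose else 0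

theorem gg_spec (hk : k = p ^ a) (t : ℕ) (ht : ¬ k ∣ t) :
    (p : ℤ_[p]) * gg p k t * (t : ℤ_[p]) = (k : ℤ_[p]) := by
  have h : ∃ c : ℤ_[p], (p : ℤ_[p]) * c * (t : ℤ_[p]) = (k : ℤ_[p]) ∧ ¬ k ∣ t := by
    obtain ⟨c, hc⟩ := pb_exists hk t ht
    exact ⟨c, hc, ht⟩
  rw [gg, dif_pos h]
  exact h.choose_spec.1

theorem gg_zero (t : ℕ) (ht : k ∣ t) : gg p k t = 0 := by
  rw [gg, dif_neg]
  rintro ⟨c, _, h⟩
  exact h ht

theorem pb_prod_Ioc (N b : ℕ) (f : ℕ → ℕ) :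
    ∏ t ∈ Ioc b (b + N), f t = ∏ i ∈ range N, f (b + 1 + i) := by
  rw [← Finset.prod_image (g := fun i => b + 1 + i) (f := f)]
  · refine Finset.prod_congr ?_ fun _ _ => rfl
    ext x
    simp only [mem_Ioc, mem_image, mem_range]
    constructor
    · intro hx
      exact ⟨x - (b + 1), by omega, by omega⟩
    · rintro ⟨i, hi, rfl⟩
      omega
  · intro x _ y _ h
    have h' : b + 1 + x = b + 1 + y := h
    omega

theorem pb_asc (n N : ℕ) : (n + 1).ascFactorial N = ∏ i ∈ range N, (n + 1 + i) := by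
  induction N with
  | zero => simp
  | succ N ih => rw [Nat.ascFactorial_succ, ih, Finset.prod_range_succ, mul_comm]

theorem pb_filter (hk0 : 0 < k) (m b : ℕ) (hb : b < k) :
    (Ioc b (b + k * m)).filter (fun t => k ∣ t) = (range m).image (fun s => k * (s + 1)) := by
  ext x
  simp only [mem_filter, mem_Ioc, mem_image, mem_range]
  constructor
  · rintro ⟨⟨h1, h2⟩, s, rfl⟩
    have hs0 : 1 ≤ s := by
      rcases Nat.eq_zero_or_pos s with rfl | h
      · omega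
      · exact h
    refine ⟨s - 1, ?_, by rw [Nat.sub_add_cancel hs0]⟩
    have h3 : k * s < k * (m + 1) := by
      rw [mul_add, mul_one]
      omega
    have h4 := Nat.lt_of_mul_lt_mul_left h3
    omega
  · rintro ⟨s, hs, rfl⟩
    refine ⟨⟨?_, ?_⟩, dvd_mul_right _ _⟩
    · have : k * 1 ≤ k * (s + 1) := Nat.mul_le_mul_left k (by omega)
      omega
    · have : k * (s + 1) ≤ k * m := Nat.mul_le_mul_left k (by omega)
      omega

/-- product formula: `C(km+b+ky,km) (km)! = k^m m! C(m+y,m) * prod_{b < t <= b+km, k ∤ t} (t + k y)` -/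
theorem choose_prod (hk0 : 0 < k) (m b y : ℕ) (hb : b < k) :
    (k * m + b + k * y).choose (k * m) * (k * m).factorial =
      k ^ m * m.factorial * (m + y).choose m *
        ∏ t ∈ (Ioc b (b + k * m)).filter (fun t => ¬ k ∣ t), (t + k * y) := by
  have h1 : (k * m + b + k * y).choose (k * m) * (k * m).factorial =
      ∏ t ∈ Ioc b (b + k * m), (t + k * y) := by
    rw [pb_prod_Ioc]
    have h2 := Nat.ascFactorial_eq_factorial_mul_choose (b + k * y) (k * m)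
    rw [pb_asc] at h2
    have h3 : k * m + b + k * y = b + k * y + k * m := by ring
    rw [h3, mul_comm, ← h2]
    refine Finset.prod_congr rfl fun i _ => ?_
    ring
  rw [h1, ← Finset.prod_filter_mul_prod_filter_not (Ioc b (b + k * m)) (fun t => k ∣ t),
    pb_filter hk0 m b hb]
  congr 1
  rw [Finset.prod_image]
  · have h4 : ∀ s ∈ range m, k * (s + 1) + k * y = k * (y + 1 + s) := fun s _ => by ring
    rw [Finset.prod_congr rfl h4, Finset.prod_mul_distrib, Finset.prod_const, card_range,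
      ← pb_asc, Nat.ascFactorial_eq_factorial_mul_choose, add_comm y m, mul_assoc]
  · intro x _ z _ h
    have h' : k * (x + 1) = k * (z + 1) := h
    have := Nat.eq_of_mul_eq_mul_left hk0 h'
    omega

/-- explicit form of `P_b` -/
theorem choose_eq (hk : k = p ^ a) (ha : 1 ≤ a) (b : ℕ) (hb : b < k) (y : ℕ) :
    ((k * m + b + k * y).choose (k * m) : ℤ_[p]) = ((m + y).choose m : ℤ_[p]) *
      (((k * m + b).choose (k * m) : ℤ_[p]) *
        ∏ t ∈ (Ioc b (b + k * m)).filter (fun t => ¬ k ∣ t), (1 + gg p k t * ((p : ℤ_[p]) * (y : ℤ_[p])))) := by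
  have hp : p.Prime := Fact.out
  have hk0 : 0 < k := by rw [hk]; exact pow_pos hp.pos a
  set T := (Ioc b (b + k * m)).filter (fun t => ¬ k ∣ t) with hT
  have h1 : ((k * m + b + k * y).choose (k * m) : ℤ_[p]) * ((k * m).factorial : ℤ_[p]) =
      (k : ℤ_[p]) ^ m * (m.factorial : ℤ_[p]) * ((m + y).choose m : ℤ_[p]) *
        ∏ t ∈ T, ((t : ℤ_[p]) + k * y) := by
    have := congrArg (fun n : ℕ => (n : ℤ_[p])) (choose_prod hk0 m b y hb)
    push_cast at this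
    exact this
  have h0 : ((k * m + b).choose (k * m) : ℤ_[p]) * ((k * m).factorial : ℤ_[p]) =
      (k : ℤ_[p]) ^ m * (m.factorial : ℤ_[p]) * ∏ t ∈ T, (t : ℤ_[p]) := by
    have := congrArg (fun n : ℕ => (n : ℤ_[p])) (choose_prod hk0 m b 0 hb)
    simp only [mul_zero, add_zero, Nat.choose_self, mul_one] at this
    push_cast at this
    exact this
  have h2 : ∏ t ∈ T, ((t : ℤ_[p]) + k * y) =
      (∏ t ∈ T, (t : ℤ_[p])) * ∏ t ∈ T, (1 + gg p k t * ((p : ℤ_[p]) * (y : ℤ_[p]))) := by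
    rw [← Finset.prod_mul_distrib]
    refine Finset.prod_congr rfl fun t ht => ?_
    have h3 := gg_spec (p := p) hk t (mem_filter.1 ht).2
    rw [← h3]
    ring
  have hf : ((k * m).factorial : ℤ_[p]) ≠ 0 := by
    exact_mod_cast (Nat.factorial_pos _).ne'
  apply mul_right_cancel₀ hf
  rw [h1, h2]
  calc _ = ((m + y).choose m : ℤ_[p]) * ((k : ℤ_[p]) ^ m * (m.factorial : ℤ_[p]) *
        ∏ t ∈ T, (t : ℤ_[p])) * ∏ t ∈ T, (1 + gg p k t * ((p : ℤ_[p]) * (y : ℤ_[p]))) := by ring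
    _ = _ := by rw [← h0]; ring

theorem choose_unit (hk : k = p ^ a) (b : ℕ) (hb : b < k) :
    IsUnit ((k * m + b).choose (k * m) : ℤ_[p]) := by
  obtain ⟨u, hu, h⟩ := asc_lt (m := m) hk b hb
  rw [Nat.ascFactorial_eq_factorial_mul_choose] at h
  have h1 : (k * m + b).choose (k * m) = (k * m + b).choose b := by
    rw [Nat.choose_symm_of_eq_add]
    rfl
  have hf : (b.factorial : ℤ_[p]) ≠ 0 := by
    exact_mod_cast (Nat.factorial_pos _).ne'
  have h2 : ((k * m + b).choose b : ℤ_[p]) = u := by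
    apply mul_left_cancel₀ hf
    push_cast at h
    rw [h, mul_comm]
  rw [h1, h2]
  exact hu

theorem exists_P (hk : k = p ^ a) (ha : 1 ≤ a) (b : ℕ) (hb : b < k) : ∃ P : ℤ_[p][X],
    P.eval 0 = ((k * m + b).choose (k * m) : ℤ_[p]) ∧ IsUnit (P.eval 0) ∧
    ∀ y : ℕ, ((k * m + b + k * y).choose (k * m) : ℤ_[p]) =
      ((m + y).choose m : ℤ_[p]) * P.eval ((p : ℤ_[p]) * (y : ℤ_[p])) := by
  set T := (Ioc b (b + k * m)).filter (fun t => ¬ k ∣ t) with hT
  have hev : ∀ z : ℤ_[p], (C ((k * m + b).choose (k * m) : ℤ_[p]) *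
      ∏ t ∈ T, (1 + C (gg p k t) * X)).eval z =
      ((k * m + b).choose (k * m) : ℤ_[p]) * ∏ t ∈ T, (1 + gg p k t * z) := by
    intro z
    rw [eval_mul, eval_C, eval_prod]
    simp
  have h0 : (C ((k * m + b).choose (k * m) : ℤ_[p]) *
      ∏ t ∈ T, (1 + C (gg p k t) * X)).eval 0 = ((k * m + b).choose (k * m) : ℤ_[p]) := by
    rw [hev]
    simp
  refine ⟨C ((k * m + b).choose (k * m) : ℤ_[p]) * ∏ t ∈ T, (1 + C (gg p k t) * X), h0, ?_, ?_⟩
  · rw [h0]
    exact choose_unit hk b hb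
  · intro y
    rw [hev, choose_eq hk ha b hb y]

theorem exists_P' (hk : k = p ^ a) (ha : 1 ≤ a) (hm : 1 ≤ m) (b : ℕ) (hb0 : 0 < b) (hb : b < k) :
    ∃ P : ℤ_[p][X], IsUnit (P.eval 0) ∧
    ∀ y : ℕ, ((k * m + b : ℕ) : ℤ_[p]) * ((k * m + b + k * y).choose (k * m) : ℤ_[p]) =
      ((m + y).choose m : ℤ_[p]) * ((k * m + b + k * y : ℕ) : ℤ_[p]) *
        P.eval ((p : ℤ_[p]) * (y : ℤ_[p])) := by
  set T := (Ioc b (b + k * m)).filter (fun t => ¬ k ∣ t) with hT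
  have hnd : ¬ k ∣ k * m + b := by
    intro h
    have := (Nat.dvd_add_right (dvd_mul_right k m)).1 h
    exact absurd (Nat.le_of_dvd hb0 this) (by omega)
  have hmem : k * m + b ∈ T := by
    rw [hT, mem_filter, mem_Ioc]
    have : 1 ≤ k * m := Nat.mul_pos (by omega) hm
    exact ⟨⟨by omega, by omega⟩, hnd⟩
  have hev : ∀ z : ℤ_[p], (C ((k * m + b).choose (k * m) : ℤ_[p]) *
      ∏ t ∈ T.erase (k * m + b), (1 + C (gg p k t) * X)).eval z =
      ((k * m + b).choose (k * m) : ℤ_[p]) * ∏ t ∈ T.erase (k * m + b), (1 + gg p k t * z) := by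
    intro z
    rw [eval_mul, eval_C, eval_prod]
    simp
  have h0 : (C ((k * m + b).choose (k * m) : ℤ_[p]) *
      ∏ t ∈ T.erase (k * m + b), (1 + C (gg p k t) * X)).eval 0 =
      ((k * m + b).choose (k * m) : ℤ_[p]) := by
    rw [hev]
    simp
  refine ⟨C ((k * m + b).choose (k * m) : ℤ_[p]) *
    ∏ t ∈ T.erase (k * m + b), (1 + C (gg p k t) * X), ?_, ?_⟩
  · rw [h0]
    exact choose_unit hk b hb
  · intro y
    rw [hev, choose_eq hk ha b hb y, ← Finset.mul_prod_erase T _ hmem]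
    have h3 := gg_spec (p := p) hk (k * m + b) hnd
    have h4 : ((k * m + b + k * y : ℕ) : ℤ_[p]) = ((k * m + b : ℕ) : ℤ_[p]) *
        (1 + gg p k (k * m + b) * ((p : ℤ_[p]) * (y : ℤ_[p]))) := by
      have h5 : ((k * m + b + k * y : ℕ) : ℤ_[p]) =
          ((k * m + b : ℕ) : ℤ_[p]) + (k : ℤ_[p]) * y := by push_cast; ring
      rw [h5, ← h3]
      ring
    rw [h4]
    ring

end Pool.MP9acee6
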