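import Pool.Agent.H.MP_9acee6_nt.Defs

/-!
# Wolstenholme: `p^2 ∣ A_p` for `p ≥ 5`
-/

set_option autoImplicit false

open Finset

namespace Pool.MP9acee6

theorem sum_range_zmod {p : ℕ} [NeZero p] {M : Type*} [AddCommMonoid M] (f : ZMod p → M) :
    ∑ j ∈ range p, f (j : ZMod p) = ∑ x : ZMod p, f x := by
  refine Finset.sum_bij' (fun (j : ℕ) _ => (j : ZMod p)) (fun (x : ZMod p) _ => x.val) ?_ ?_ ?_ ?_ ?_
  · intro j _
    exact Finset.mem_univ _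
  · intro x _
    exact Finset.mem_range.2 (ZMod.val_lt x)
  · intro j hj
    exact ZMod.val_cast_of_lt (Finset.mem_range.1 hj)
  · intro x _
    exact ZMod.natCast_zmod_val x
  · intro j _
    rfl

theorem sum_inv_sq {p : ℕ} [Fact p.Prime] (hp : 5 ≤ p) :
    ∑ j ∈ Ioo 0 p, ((j : ZMod p)⁻¹ * (j : ZMod p)⁻¹) = 0 := by
  have h1 : ∑ j ∈ Ioo 0 p, ((j : ZMod p)⁻¹ * (j : ZMod p)⁻¹) =
      ∑ j ∈ range p, ((j : ZMod p)⁻¹ * (j : ZMod p)⁻¹) := by
    apply Finset.sum_subset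
    · intro j hj
      rw [Finset.mem_Ioo] at hj
      exact Finset.mem_range.2 hj.2
    · intro j hj hj'
      rw [Finset.mem_range] at hj
      rw [Finset.mem_Ioo] at hj'
      have : j = 0 := by omega
      subst this
      rw [Nat.cast_zero, inv_zero, mul_zero]
  rw [h1, sum_range_zmod (fun x : ZMod p => x⁻¹ * x⁻¹)]
  have h2 : ∑ x : ZMod p, x⁻¹ * x⁻¹ = ∑ x : ZMod p, x ^ 2 := by
    refine Finset.sum_bij' (fun (x : ZMod p) _ => x⁻¹) (fun (x : ZMod p) _ => x⁻¹) ?_ ?_ ?_ ?_ ?_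
    · intro x _; exact Finset.mem_univ _
    · intro x _; exact Finset.mem_univ _
    · intro x _; exact inv_inv x
    · intro x _; exact inv_inv x
    · intro x _; rw [sq]
  rw [h2]
  apply FiniteField.sum_pow_lt_card_sub_one
  rw [ZMod.card]
  omega

theorem wolstenholme {p : ℕ} (hp : p.Prime) (h5 : 5 ≤ p) : p ^ 2 ∣ Aint p := by
  have : Fact p.Prime := ⟨hp⟩
  have hp0 : 0 < p := hp.pos
  have : NeZero (p ^ 2) := ⟨by positivity⟩
  rw [← ZMod.natCast_eq_zero_iff]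
  have hcop : ∀ j ∈ Ioo 0 p, Nat.Coprime j (p ^ 2) := by
    intro j hj
    rw [Finset.mem_Ioo] at hj
    apply Nat.Coprime.pow_right
    exact (Nat.coprime_comm.1 ((Nat.Prime.coprime_iff_not_dvd hp).2
      (Nat.not_dvd_of_pos_of_lt hj.1 hj.2)))
  have hinv : ∀ j ∈ Ioo 0 p, (j : ZMod (p ^ 2)) * (j : ZMod (p ^ 2))⁻¹ = 1 := fun j hj =>
    ZMod.coe_mul_inv_eq_one j (hcop j hj)
  have h1 : ((Aint p : ℕ) : ZMod (p ^ 2)) =
      ((p - 1).factorial : ZMod (p ^ 2)) * ∑ j ∈ Ioo 0 p, (j : ZMod (p ^ 2))⁻¹ := by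
    unfold Aint
    rw [Nat.cast_sum, Finset.mul_sum]
    apply Finset.sum_congr rfl
    intro j hj
    have hj' := Finset.mem_Ioo.1 hj
    have hd : j ∣ (p - 1).factorial := Nat.dvd_factorial hj'.1 (by omega)
    have h2 : (j : ZMod (p ^ 2)) * (((p - 1).factorial / j : ℕ) : ZMod (p ^ 2)) =
        ((p - 1).factorial : ZMod (p ^ 2)) := by
      rw [← Nat.cast_mul, Nat.mul_div_cancel' hd]
    calc (((p - 1).factorial / j : ℕ) : ZMod (p ^ 2))
        = ((j : ZMod (p ^ 2)) * (j : ZMod (p ^ 2))⁻¹) *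
          (((p - 1).factorial / j : ℕ) : ZMod (p ^ 2)) := by rw [hinv j hj, one_mul]
      _ = ((j : ZMod (p ^ 2)) * (((p - 1).factorial / j : ℕ) : ZMod (p ^ 2))) *
          (j : ZMod (p ^ 2))⁻¹ := by ring
      _ = _ := by rw [h2]
  have hrefl : ∑ j ∈ Ioo 0 p, (j : ZMod (p ^ 2))⁻¹ =
      ∑ j ∈ Ioo 0 p, ((p - j : ℕ) : ZMod (p ^ 2))⁻¹ := by
    refine Finset.sum_bij' (fun (j : ℕ) _ => p - j) (fun (j : ℕ) _ => p - j) ?_ ?_ ?_ ?_ ?_
    · intro j hj; rw [Finset.mem_Ioo] at hj ⊢; omega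
    · intro j hj; rw [Finset.mem_Ioo] at hj ⊢; omega
    · intro j hj; rw [Finset.mem_Ioo] at hj; show p - (p - j) = j; omega
    · intro j hj; rw [Finset.mem_Ioo] at hj; show p - (p - j) = j; omega
    · intro j hj
      rw [Finset.mem_Ioo] at hj
      have : p - (p - j) = j := by omega
      rw [this]
  have h2S : (2 : ZMod (p ^ 2)) * ∑ j ∈ Ioo 0 p, (j : ZMod (p ^ 2))⁻¹ =
      (p : ZMod (p ^ 2)) * ∑ j ∈ Ioo 0 p,
        (j : ZMod (p ^ 2))⁻¹ * ((p - j : ℕ) : ZMod (p ^ 2))⁻¹ := by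
    rw [two_mul]
    nth_rewrite 2 [hrefl]
    rw [← Finset.sum_add_distrib, Finset.mul_sum]
    apply Finset.sum_congr rfl
    intro j hj
    have hj' := Finset.mem_Ioo.1 hj
    have hj2 : p - j ∈ Ioo 0 p := by rw [Finset.mem_Ioo]; omega
    have e1 := hinv j hj
    have e2 := hinv (p - j) hj2
    have e3 : (p : ZMod (p ^ 2)) = (j : ZMod (p ^ 2)) + ((p - j : ℕ) : ZMod (p ^ 2)) := by
      rw [← Nat.cast_add]; congr 1; omega
    rw [e3]
    linear_combination (-((p - j : ℕ) : ZMod (p ^ 2))⁻¹) * e1 - (j : ZMod (p ^ 2))⁻¹ * e2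
  have hT : ZMod.castHom (dvd_pow_self p two_ne_zero) (ZMod p)
      (∑ j ∈ Ioo 0 p, (j : ZMod (p ^ 2))⁻¹ * ((p - j : ℕ) : ZMod (p ^ 2))⁻¹) = 0 := by
    rw [map_sum]
    have hinv' : ∀ j ∈ Ioo 0 p, ZMod.castHom (dvd_pow_self p two_ne_zero) (ZMod p)
        ((j : ZMod (p ^ 2))⁻¹) = (j : ZMod p)⁻¹ := by
      intro j hj
      have e1 := congrArg (ZMod.castHom (dvd_pow_self p two_ne_zero) (ZMod p)) (hinv j hj)
      rw [map_mul, map_one, map_natCast] at e1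
      exact (eq_inv_of_mul_eq_one_right e1)
    calc ∑ j ∈ Ioo 0 p, ZMod.castHom (dvd_pow_self p two_ne_zero) (ZMod p)
          ((j : ZMod (p ^ 2))⁻¹ * ((p - j : ℕ) : ZMod (p ^ 2))⁻¹)
        = ∑ j ∈ Ioo 0 p, -((j : ZMod p)⁻¹ * (j : ZMod p)⁻¹) := by
          apply Finset.sum_congr rfl
          intro j hj
          have hj' := Finset.mem_Ioo.1 hj
          have hj2 : p - j ∈ Ioo 0 p := by rw [Finset.mem_Ioo]; omega
          rw [map_mul, hinv' j hj, hinv' (p - j) hj2]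
          have : ((p - j : ℕ) : ZMod p) = - (j : ZMod p) := by
            rw [Nat.cast_sub hj'.2.le, CharP.cast_eq_zero, zero_sub]
          rw [this, inv_neg, mul_neg]
      _ = 0 := by rw [Finset.sum_neg_distrib, sum_inv_sq h5, neg_zero]
  have hpT : (p : ZMod (p ^ 2)) * ∑ j ∈ Ioo 0 p,
        (j : ZMod (p ^ 2))⁻¹ * ((p - j : ℕ) : ZMod (p ^ 2))⁻¹ = 0 := by
    generalize (∑ j ∈ Ioo 0 p, (j : ZMod (p ^ 2))⁻¹ * ((p - j : ℕ) : ZMod (p ^ 2))⁻¹) = T at hT ⊢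
    have h3 : ((T.val : ℕ) : ZMod p) = 0 := by
      rw [← hT]
      conv_rhs => rw [← ZMod.natCast_zmod_val T, map_natCast]
    rw [ZMod.natCast_eq_zero_iff] at h3
    obtain ⟨t, ht⟩ := h3
    rw [← ZMod.natCast_zmod_val T, ht, ← Nat.cast_mul, ← mul_assoc, ← sq, Nat.cast_mul,
      ZMod.natCast_self, zero_mul]
  rw [hpT] at h2S
  have h2u : IsUnit (2 : ZMod (p ^ 2)) := by
    have : Nat.Coprime 2 (p ^ 2) := by
      apply Nat.Coprime.pow_right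
      rw [Nat.coprime_primes Nat.prime_two hp]
      omega
    have h4 := (ZMod.isUnit_iff_coprime 2 (p ^ 2)).2 this
    exact_mod_cast h4
  have hS : ∑ j ∈ Ioo 0 p, (j : ZMod (p ^ 2))⁻¹ = 0 := by
    exact (h2u.mul_right_eq_zero).1 h2S
  rw [h1, hS, mul_zero]

end Pool.MP9acee6
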