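import Pool.Agent.H.MP_9acee6_nt.Fin2
import Pool.Agent.H.MP_9acee6_nt.Wol

/-!
# The case `a = 2`
-/

set_option autoImplicit false

open Finset

namespace Pool.MP9acee6

theorem Aint_pos {p : ℕ} (hp : p.Prime) : 0 < Aint p := by
  unfold Aint
  apply Finset.sum_pos
  · intro j hj
    rw [Finset.mem_Ioo] at hj
    apply Nat.div_pos _ hj.1
    exact (Nat.self_le_factorial j).trans (Nat.factorial_le (by omega))
  · refine ⟨1, ?_⟩
    rw [Finset.mem_Ioo]
    have := hp.two_le
    omega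

theorem Aint_three : Aint 3 = 3 := by
  unfold Aint
  decide

/-- no critical `m` for `a = 2` and odd `p` -/
theorem not_critOdd_two {p m : ℕ} (hp : p.Prime) (hp2 : p ≠ 2) (hm : 1 ≤ m) : ¬ CritOdd p 2 m := by
  rintro ⟨e, q, hx, hq, h1, h2, hsq⟩
  have he : e = 1 := by omega
  subst he
  by_cases h5 : 5 ≤ p
  · have h3 : p ^ 2 ∣ p ^ 1 * q := by
      rw [← hx]
      exact Dvd.dvd.mul_left (wolstenholme hp h5) _
    rw [pow_one, sq] at h3
    exact hq (Nat.dvd_of_mul_dvd_mul_left hp.pos h3)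
  · have hp3 : p = 3 := by
      have := hp.two_le
      have h4 : p ≠ 4 := by rintro rfl; exact absurd hp (by decide)
      omega
    subst hp3
    rw [Aint_three, pow_one] at hx
    have h6 : m * (m + 1) = q := by
      have : 3 * (m * (m + 1)) = 3 * q := by rw [← hx]; ring
      omega
    have h7 : m % 3 = 1 := by
      have h8 : ¬ 3 ∣ m * (m + 1) := by rw [h6]; exact hq
      have h9 : ¬ 3 ∣ m := fun h => h8 (Dvd.dvd.mul_right h _)
      have h10 : ¬ 3 ∣ m + 1 := fun h => h8 (Dvd.dvd.mul_left h _)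
      omega
    have h8 : q % 3 = 2 := by
      rw [← h6, Nat.mul_mod, Nat.add_mod, h7]
    have h9 : (q : ZMod 3) = 2 := by
      have : ((q % 3 : ℕ) : ZMod 3) = (q : ZMod 3) := ZMod.natCast_mod q 3
      rw [← this, h8]
      rfl
    rw [h9] at hsq
    revert hsq
    decide

theorem odd_two_values {p m : ℕ} (hp : p.Prime) (hp2 : p ≠ 2) (hm : 1 ≤ m) (n : ℕ) (hn : 1 ≤ n) :
    V p 2 m n = (padicValNat p m : ℤ) + 2 - (padicValNat p n % 2 : ℕ) := by
  have : Fact p.Prime := ⟨hp⟩
  rw [odd_values hp2 le_rfl hm (Or.inl (by norm_num)) (not_critOdd_two hp hp2 hm) n hn]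
  unfold gOdd
  generalize hr : padicValNat p n % 2 = r
  have hr2 : r < 2 := by rw [← hr]; exact Nat.mod_lt _ (by norm_num)
  have hx : 1 ≤ padicValNat p (m * (m + 1) * Aint p) := by
    apply (padicValNat_dvd_iff_le (Nat.mul_ne_zero (Nat.mul_ne_zero (by omega) (by omega))
      (Aint_pos hp).ne')).1
    rw [pow_one]
    apply Dvd.dvd.mul_left
    by_cases h5 : 5 ≤ p
    · exact (dvd_pow_self p two_ne_zero).trans (wolstenholme hp h5)
    · have hp3 : p = 3 := by
        have := hp.two_le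
        have h4 : p ≠ 4 := by rintro rfl; exact absurd hp (by decide)
        omega
      subst hp3
      rw [Aint_three]
  rw [eq_sub_iff_add_eq]
  norm_cast
  split_ifs <;> omega

theorem critTwo_two {m : ℕ} : CritTwo 2 m ↔ m % 8 = 6 := by
  constructor
  · rintro ⟨v, m', rfl, h1, h2, h3, h4, h5⟩
    have hv : v = 1 := by omega
    subst hv
    rcases h5 with h5 | h5 | h5
    · omega
    · exact absurd rfl h5.1
    · exact absurd rfl h5.1
  · intro h
    refine ⟨1, m / 2, by omega, by omega, le_rfl, le_rfl, ⟨0, by omega⟩, Or.inl ⟨rfl, by omega⟩⟩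

/-- the 4-kernel of `⌊e/2⌋` is finite if the 2-kernel of `e` is -/
theorem auto_four {e : ℕ → ℤ} (h : IsAutomatic 2 e) : IsAutomatic 4 (fun n => e n / 2) := by
  unfold IsAutomatic at h ⊢
  apply (h.image (fun g : ℕ → ℤ => fun n => g n / 2)).subset
  rintro f ⟨i, j, hj, hf⟩
  refine ⟨fun n => e (4 ^ i * n + j), ⟨2 * i, j, ?_, fun n => ?_⟩, ?_⟩
  · rw [pow_mul]; exact hj
  · rw [pow_mul]
    norm_num
  · funext n
    exact (hf n).symm

theorem two_two_criterion (m : ℕ) (hm : 1 ≤ m) :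
    (m % 8 ≠ 6 → IsAutomatic 2 (V 2 2 m)) ∧ (m % 8 = 6 → ¬ IsBdd (V 2 2 m)) := by
  constructor
  · intro h
    by_cases hodd : 2 ∣ m + 1
    · exact minus_auto le_rfl hm (by simpa using hodd)
    · obtain ⟨v, m', h1, h2, h3⟩ := even_decomp m hm hodd
      exact even_auto le_rfl hm h3 h1 h2 (fun hc => h (critTwo_two.1 hc))
  · intro h
    exact even_not_bdd le_rfl hm (critTwo_two.2 h)

theorem bdd_half {e : ℕ → ℤ} : IsBdd (fun n => e n / 2) ↔ IsBdd e := by
  constructor
  · rintro ⟨B, hB⟩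
    refine ⟨2 * B + 2, fun n => ?_⟩
    have h1 := hB n
    simp only at h1
    rw [abs_le] at h1 ⊢
    omega
  · rintro ⟨B, hB⟩
    refine ⟨B + 2, fun n => ?_⟩
    have h1 := hB n
    simp only
    rw [abs_le] at h1 ⊢
    omega

end Pool.MP9acee6
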