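import Pool.Agent.H.MP_9acee6_nt.Core
import Pool.Agent.H.MP_9acee6_nt.Asc
import Pool.Agent.H.MP_9acee6_nt.Pb
import Pool.Agent.H.MP_9acee6_nt.Newton

/-!
# Transfer between the functionals `br` and `bk`
-/

set_option autoImplicit false

open Polynomial Finset

namespace Pool.MP9acee6

private theorem tl_choose (M Y j : ℕ) :
    (M + Y).choose M * Y.descFactorial j = (M + 1).ascFactorial j * (M + Y).choose (M + j) := by
  rcases lt_or_ge Y j with h | h
  · have h0 : (M + Y).choose (M + j) = 0 := Nat.choose_eq_zero_of_lt (by omega)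
    rw [Nat.descFactorial_of_lt h, h0, mul_zero, mul_zero]
  · have h1 : (M + Y).choose (M + j) * (M + j).choose M =
        (M + Y).choose M * (M + Y - M).choose (M + j - M) :=
      Nat.choose_mul (by omega)
    rw [Nat.add_sub_cancel_left, Nat.add_sub_cancel_left] at h1
    have h2 : (M + j).choose M = (M + j).choose j := Nat.choose_symm_add
    rw [Nat.descFactorial_eq_factorial_mul_choose, Nat.ascFactorial_eq_factorial_mul_choose]
    rw [h2] at h1
    calc (M + Y).choose M * (j.factorial * Y.choose j)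
        = j.factorial * ((M + Y).choose M * Y.choose j) := by ring
      _ = j.factorial * ((M + Y).choose (M + j) * (M + j).choose j) := by rw [h1]
      _ = _ := by ring

private theorem tl_desc {R : Type*} [CommRing R] (y : ℕ) : ∀ j : ℕ,
    ((y.descFactorial (j + 1) : ℕ) : R) = (y : R) * ∏ i ∈ range j, ((y : R) - ((i + 1 : ℕ) : R)) := by
  intro j
  induction j with
  | zero => simp
  | succ j ih =>
    rw [prod_range_succ, ← mul_assoc, ← ih, Nat.descFactorial_succ]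
    rcases lt_or_ge y (j + 1) with h | h
    · rw [Nat.descFactorial_of_lt h]
      simp
    · rw [Nat.cast_mul, Nat.cast_sub h]
      ring

namespace Sys

variable {p : ℕ} [Fact p.Prime] {a k m : ℕ}

private theorem tl_br_sum (D : Sys k m) {ι : Type*} (s : Finset ι) (c : ι → ℤ_[p])
    (φ : ι → ℕ → ℤ_[p]) (N : ℕ) :
    D.br (fun y => ∑ j ∈ s, c j * φ j y) N = ∑ j ∈ s, c j * D.br (φ j) N := by
  unfold br
  simp_rw [mul_sum]
  rw [sum_comm]
  refine sum_congr rfl fun j _ => sum_congr rfl fun y _ => by ring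

private theorem tl_bk_sum (D : Sys k m) {ι : Type*} (s : Finset ι) (c : ι → ℤ_[p])
    (φ : ι → ℕ → ℤ_[p]) (b N : ℕ) :
    D.bk (fun y => ∑ j ∈ s, c j * φ j y) b N = ∑ j ∈ s, c j * D.bk (φ j) b N := by
  unfold bk
  simp_rw [mul_sum]
  rw [sum_comm]
  refine sum_congr rfl fun j _ => sum_congr rfl fun y _ => by ring

theorem br_desc (D : Sys k m) (j N : ℕ) :
    D.br (p := p) (fun y => (y.descFactorial j : ℤ_[p])) N =
      ((m + 1).ascFactorial j : ℤ_[p]) * (D.E j N : ℤ_[p]) := by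
  unfold br E
  rw [D.G4, Int.cast_sum, mul_sum]
  refine sum_congr rfl fun y _ => ?_
  have h := tl_choose m y j
  have h' : (((m + y).choose m : ℕ) : ℤ_[p]) * ((y.descFactorial j : ℕ) : ℤ_[p]) =
      (((m + 1).ascFactorial j : ℕ) : ℤ_[p]) * (((m + y).choose (m + j) : ℕ) : ℤ_[p]) := by
    exact_mod_cast h
  push_cast
  linear_combination (D.h (N - y) : ℤ_[p]) * h'

theorem bk_desc (D : Sys k m) (j b N : ℕ) (hb : b < k) :
    D.bk (p := p) (fun y => (y.descFactorial j : ℤ_[p])) b N =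
      ((k * m + 1).ascFactorial j : ℤ_[p]) * (D.E j (b + k * N) : ℤ_[p]) := by
  unfold bk E
  rw [D.G3 j b N hb, Int.cast_sum, mul_sum]
  refine sum_congr rfl fun y _ => ?_
  have h := tl_choose (k * m) (b + k * y) j
  rw [← add_assoc] at h
  have h' : (((k * m + b + k * y).choose (k * m) : ℕ) : ℤ_[p]) *
      (((b + k * y).descFactorial j : ℕ) : ℤ_[p]) =
      (((k * m + 1).ascFactorial j : ℕ) : ℤ_[p]) *
        (((k * m + b + k * y).choose (k * m + j) : ℕ) : ℤ_[p]) := by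
    exact_mod_cast h
  rw [Int.cast_mul, Int.cast_natCast]
  linear_combination (D.h (N - y) : ℤ_[p]) * h'

/-- transfer lemma -/
theorem transfer (D : Sys k m) (hk : k = p ^ a) (ha : 2 ≤ a) (Q : ℤ_[p][X]) :
    ∃ (r : ℤ_[p]) (R : ℤ_[p][X]), ((k * m + 1 : ℕ) : ℤ_[p]) * r =
        ((m + 1 : ℕ) : ℤ_[p]) * Q.eval (p : ℤ_[p]) ∧
      ∀ b N, b < k → D.br (fun y => (y : ℤ_[p]) * Q.eval ((p : ℤ_[p]) * (y : ℤ_[p]))) (b + k * N) =
        D.bk (fun y => (y : ℤ_[p]) * (C r + C (p : ℤ_[p]) * R).eval (y : ℤ_[p])) b N := by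
  obtain ⟨q, hQ, hq0⟩ := newton (Q.natDegree + 1)
    (fun i => (p : ℤ_[p]) * ((i + 1 : ℕ) : ℤ_[p])) Q (Nat.lt_succ_self _)
  have hq0' : q 0 = Q.eval (p : ℤ_[p]) := by rw [hq0]; simp
  set n := Q.natDegree with hn
  -- the unit
  have hunit : IsUnit (((k * m + 1 : ℕ)) : ℤ_[p]) := by
    by_contra hne
    rw [← mem_nonunits_iff, PadicInt.mem_nonunits, PadicInt.norm_lt_one_iff_dvd] at hne
    have hk' : (p : ℤ_[p]) ∣ ((k * m : ℕ) : ℤ_[p]) := by
      have : p ∣ k * m := by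
        rw [hk]
        exact Dvd.dvd.mul_right (dvd_pow_self p (by omega)) m
      obtain ⟨t, ht⟩ := this
      exact ⟨(t : ℤ_[p]), by rw [ht, Nat.cast_mul]⟩
    have h1 : (p : ℤ_[p]) ∣ 1 := by
      have h2 : (1 : ℤ_[p]) = ((k * m + 1 : ℕ) : ℤ_[p]) - ((k * m : ℕ) : ℤ_[p]) := by
        push_cast
        ring
      rw [h2]
      exact dvd_sub hne hk'
    rw [← PadicInt.norm_lt_one_iff_dvd, norm_one] at h1
    exact lt_irrefl _ h1
  obtain ⟨u, hu⟩ := hunit
  choose c hc using fun j : ℕ => asc_mu (p := p) (m := m) hk ha (j + 2) (by omega)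
  refine ⟨((m + 1 : ℕ) : ℤ_[p]) * q 0 * (↑u⁻¹ : ℤ_[p]),
    ∑ j ∈ range n, C (q (j + 1) * c j) * ∏ i ∈ range (j + 1), (X - C (((i + 1 : ℕ)) : ℤ_[p])), ?_, ?_⟩
  · rw [← hu, ← hq0']
    calc (u : ℤ_[p]) * (((m + 1 : ℕ) : ℤ_[p]) * q 0 * (↑u⁻¹ : ℤ_[p]))
        = ((m + 1 : ℕ) : ℤ_[p]) * q 0 * ((u : ℤ_[p]) * (↑u⁻¹ : ℤ_[p])) := by ring
      _ = _ := by rw [Units.mul_inv, mul_one]
  · intro b N hb
    have e1 : ∀ y : ℕ, (y : ℤ_[p]) * Q.eval ((p : ℤ_[p]) * (y : ℤ_[p])) =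
        ∑ j ∈ range (n + 1), (q j * (p : ℤ_[p]) ^ j) * (y.descFactorial (j + 1) : ℤ_[p]) := by
      intro y
      conv_lhs => rw [hQ]
      rw [eval_finsetSum, mul_sum]
      refine sum_congr rfl fun j _ => ?_
      rw [eval_mul, eval_C, eval_prod, tl_desc]
      have : ∏ i ∈ range j, eval ((p : ℤ_[p]) * (y : ℤ_[p])) (X - C ((p : ℤ_[p]) * ((i + 1 : ℕ) : ℤ_[p]))) =
          (p : ℤ_[p]) ^ j * ∏ i ∈ range j, ((y : ℤ_[p]) - ((i + 1 : ℕ) : ℤ_[p])) := by
        rw [← card_range j, ← prod_const, card_range, ← prod_mul_distrib]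
        refine prod_congr rfl fun i _ => ?_
        rw [eval_sub, eval_X, eval_C]
        ring
      rw [this]
      ring
    set r : ℤ_[p] := ((m + 1 : ℕ) : ℤ_[p]) * q 0 * (↑u⁻¹ : ℤ_[p]) with hr
    have hr' : r * ((k * m + 1 : ℕ) : ℤ_[p]) = ((m + 1 : ℕ) : ℤ_[p]) * q 0 := by
      rw [hr, ← hu]
      calc ((m + 1 : ℕ) : ℤ_[p]) * q 0 * (↑u⁻¹ : ℤ_[p]) * (u : ℤ_[p])
          = ((m + 1 : ℕ) : ℤ_[p]) * q 0 * ((u : ℤ_[p]) * (↑u⁻¹ : ℤ_[p])) := by ring
        _ = _ := by rw [Units.mul_inv, mul_one]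
    have e2 : ∀ y : ℕ, (y : ℤ_[p]) * (C r + C (p : ℤ_[p]) *
        ∑ j ∈ range n, C (q (j + 1) * c j) * ∏ i ∈ range (j + 1), (X - C (((i + 1 : ℕ)) : ℤ_[p]))).eval
          (y : ℤ_[p]) =
        ∑ j ∈ range (n + 1), (if j = 0 then r else (p : ℤ_[p]) * (q j * c (j - 1))) *
          (y.descFactorial (j + 1) : ℤ_[p]) := by
      intro y
      rw [sum_range_succ']
      simp only [Nat.add_eq_zero_iff, one_ne_zero, and_false, if_false, if_true,
        Nat.add_sub_cancel]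
      rw [eval_add, eval_C, eval_mul, eval_C, eval_finsetSum, mul_add, mul_sum, mul_sum, add_comm]
      congr 1
      · refine sum_congr rfl fun j _ => ?_
        rw [eval_mul, eval_C, eval_prod, tl_desc]
        have : ∏ i ∈ range (j + 1), eval (y : ℤ_[p]) (X - C (((i + 1 : ℕ)) : ℤ_[p])) =
            ∏ i ∈ range (j + 1), ((y : ℤ_[p]) - ((i + 1 : ℕ) : ℤ_[p])) := by
          refine prod_congr rfl fun i _ => ?_
          rw [eval_sub, eval_X, eval_C]
        rw [this]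
        ring
      · simp [mul_comm]
    simp_rw [e1, e2]
    rw [tl_br_sum, tl_bk_sum]
    refine sum_congr rfl fun j _ => ?_
    rw [br_desc, bk_desc D _ _ _ hb]
    rcases j with _ | j
    · simp only [if_true, pow_zero, zero_add, Nat.ascFactorial_succ, Nat.ascFactorial_zero, mul_one,
        add_zero]
      linear_combination (-(D.E 1 (b + k * N) : ℤ_[p])) * hr'
    · have h := hc j
      simp only [Nat.add_eq_zero_iff, one_ne_zero, and_false, if_false, Nat.add_sub_cancel]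
      have h3 : j + 2 - 1 = j + 1 := by omega
      rw [h3] at h
      linear_combination (q (j + 1) * (D.E (j + 1 + 1) (b + k * N) : ℤ_[p])) * h

end Sys

end Pool.MP9acee6
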