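import Pool.Agent.H.MP_9acee6_nt.TwoHarm
import Pool.Agent.H.MP_9acee6_nt.Harm

/-!
# `p = 2`, `m` even: the first two coefficients
-/

set_option autoImplicit false

open Polynomial Finset

namespace Pool.MP9acee6

variable {a k m : ℕ}

/-- the coefficients with index at least three are divisible by `16 m` -/
theorem twocoef_high (e : ℕ → ℤ_[2])
    (he : ∀ i : ℕ, 1 ≤ i → (m : ℤ_[2]) ∣ 2 * ((i : ℤ_[2]) * e i)) (j : ℕ) (hj : 3 ≤ j) :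
    ∃ w : ℤ_[2], e j * (2 : ℤ_[2]) ^ (2 * j) = 16 * (m : ℤ_[2]) * w := by
  obtain ⟨t, ht⟩ := he j (by omega)
  obtain ⟨v, u, hu, hjv⟩ : ∃ v u : ℕ, ¬ 2 ∣ u ∧ j = 2 ^ v * u := by
    obtain ⟨v, u, hu, h⟩ := Nat.exists_eq_pow_mul_and_not_dvd (n := j) (by omega) 2 (by norm_num)
    exact ⟨v, u, hu, h⟩
  have huu : IsUnit ((u : ℕ) : ℤ_[2]) := by
    rw [PadicInt.isUnit_iff]
    by_contra hne
    have hlt : ‖((u : ℕ) : ℤ_[2])‖ < 1 := lt_of_le_of_ne (PadicInt.norm_le_one _) hne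
    have := (PadicInt.norm_int_lt_one_iff_dvd (p := 2) (u : ℤ)).1 (by simpa using hlt)
    exact hu (by exact_mod_cast this)
  obtain ⟨u', hu'⟩ := huu.exists_right_inv
  have hv : v + 1 + 4 ≤ 2 * j := by
    have h1 : 2 ^ v ≤ j := by
      rw [hjv]
      exact Nat.le_mul_of_pos_right _ (Nat.pos_of_ne_zero (by rintro rfl; simp at hu))
    have h2 : v < 2 ^ v := Nat.lt_two_pow_self
    by_cases h3 : j = 3
    · have hv1 : v ≤ 1 := by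
        by_contra hcon
        have : 2 ^ 2 ≤ 2 ^ v := Nat.pow_le_pow_right (by norm_num) (by omega)
        omega
      omega
    · omega
  obtain ⟨r, hr⟩ := Nat.exists_eq_add_of_le hv
  have hpow : (2 : ℤ_[2]) ^ (2 * j) = 2 ^ (v + 1) * 16 * 2 ^ r := by
    rw [hr, pow_add, pow_add (2 : ℤ_[2]) (v + 1) 4]; norm_num
  have hj' : ((j : ℕ) : ℤ_[2]) = 2 ^ v * (u : ℤ_[2]) := by rw [hjv]; push_cast; ring
  rw [hj'] at ht
  have h5 : (2 : ℤ_[2]) ^ (v + 1) * e j = (m : ℤ_[2]) * (t * u') := by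
    calc (2 : ℤ_[2]) ^ (v + 1) * e j = (2 * (2 ^ v * (u : ℤ_[2]) * e j)) * u' +
          2 ^ (v + 1) * e j * (1 - (u : ℤ_[2]) * u') := by ring
      _ = (m : ℤ_[2]) * (t * u') := by rw [ht, hu']; ring
  refine ⟨2 ^ r * (t * u'), ?_⟩
  calc e j * (2 : ℤ_[2]) ^ (2 * j) = (2 ^ (v + 1) * e j) * (16 * 2 ^ r) := by rw [hpow]; ring
    _ = 16 * (m : ℤ_[2]) * (2 ^ r * (t * u')) := by rw [h5]; ring

/-- values of the first two coefficients modulo `16 m` -/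
theorem two_coeffs (hk : k = 2 ^ a) (ha : 2 ≤ a) (hm : 1 ≤ m) (hme : Even m) (e : ℕ → ℤ_[2])
    (d : ℕ) (hd : 2 ≤ d)
    (he : ∀ i : ℕ, 1 ≤ i → (m : ℤ_[2]) ∣ 2 * ((i : ℤ_[2]) * e i))
    (he' : ∀ y : ℕ, ((k * m + k * y).choose (k * m) : ℤ_[2]) = ((m + y).choose m : ℤ_[2]) *
        (1 + ∑ i ∈ range d, e (i + 1) * (2 : ℤ_[2]) ^ (2 * (i + 1)) *
          ((y : ℤ_[2]) * ((m : ℤ_[2]) + (y : ℤ_[2]))) ^ (i + 1))) :
    (∃ x : ℤ_[2], ((m : ℤ_[2]) + 1) * (e 1 * 2 ^ 2 + ((m : ℤ_[2]) + 1) * (e 2 * 2 ^ 4)) =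
      2 * (m : ℤ_[2]) + 16 * (m : ℤ_[2]) * x) ∧
    (∃ x : ℤ_[2], 3 * (((m : ℤ_[2]) + 1) * ((m : ℤ_[2]) + 3)) * (e 2 * 2 ^ 4) =
      2 * (m : ℤ_[2]) * ((m : ℤ_[2]) - 2) + 16 * (m : ℤ_[2]) * x) := by
  obtain ⟨d', rfl⟩ := Nat.exists_eq_add_of_le' hd
  choose! w hw using twocoef_high (m := m) e he
  have key : ∀ z : ℤ_[2], ∑ i ∈ range (d' + 2), e (i + 1) * (2 : ℤ_[2]) ^ (2 * (i + 1)) *
      z ^ (i + 1) = z * (e 1 * 2 ^ 2 + z * (e 2 * 2 ^ 4) +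
        16 * (m : ℤ_[2]) * ∑ i ∈ range d', w (i + 3) * z ^ (i + 2)) := by
    intro z
    rw [Finset.sum_range_succ', Finset.sum_range_succ']
    have : ∑ i ∈ range d', e (i + 1 + 1 + 1) * (2 : ℤ_[2]) ^ (2 * (i + 1 + 1 + 1)) *
        z ^ (i + 1 + 1 + 1) = z * (16 * (m : ℤ_[2]) * ∑ i ∈ range d', w (i + 3) * z ^ (i + 2)) := by
      rw [Finset.mul_sum, Finset.mul_sum]
      refine Finset.sum_congr rfl fun i _ => ?_
      have := hw (i + 3) (by omega)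
      show e (i + 3) * (2 : ℤ_[2]) ^ (2 * (i + 3)) * z ^ (i + 3) = _
      rw [this]; ring
    rw [this]
    norm_num
    ring
  have hm1 : ((m : ℤ_[2]) + 1) ≠ 0 := by exact_mod_cast (Nat.succ_ne_zero m)
  have hm2 : ((m : ℤ_[2]) + 2) ≠ 0 := by exact_mod_cast (by omega : m + 2 ≠ 0)
  -- first value
  have hA : ∃ x : ℤ_[2], ((m : ℤ_[2]) + 1) * (e 1 * 2 ^ 2 + ((m : ℤ_[2]) + 1) * (e 2 * 2 ^ 4)) =
      2 * (m : ℤ_[2]) + 16 * (m : ℤ_[2]) * x := by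
    obtain ⟨x, hx⟩ := two_one (m := m) hk ha
    have h1 := he' 1
    have h2 := omega_one (p := 2) (m := m) hk (by omega)
    rw [Nat.mul_one] at h1
    rw [h1] at h2
    have h3 : ((m + 1).choose m : ℤ_[2]) = (m : ℤ_[2]) + 1 := by
      have : (m + 1).choose m = m + 1 := by simp
      rw [this]; push_cast; ring
    rw [h3] at h2
    have h4 : ((m + 1 : ℕ) : ℤ_[2]) = (m : ℤ_[2]) + 1 := by push_cast; ring
    rw [h4] at h2
    have h5 := mul_left_cancel₀ hm1 h2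
    have h6 : (2 : ℤ_[2]) = ((2 : ℕ) : ℤ_[2]) := by norm_num
    rw [h6] at hx
    rw [hx, key] at h5
    set S := ∑ i ∈ range d', w (i + 3) * (((1 : ℕ) : ℤ_[2]) * ((m : ℤ_[2]) + ((1 : ℕ) : ℤ_[2]))) ^ (i + 2) with hS
    refine ⟨((m : ℤ_[2]) + 1) * x - ((m : ℤ_[2]) + 1) * S, ?_⟩
    push_cast at h5
    linear_combination h5
  have hB : ∃ x : ℤ_[2], 3 * (e 1 * 2 ^ 2) + 6 * ((m : ℤ_[2]) + 2) * (e 2 * 2 ^ 4) =
      2 * (m : ℤ_[2]) + 16 * (m : ℤ_[2]) * x := by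
    obtain ⟨x, hx⟩ := two_two (m := m) hk ha
    have h1 := he' 2
    have h2 := omega_two (m := m) hk ha
    have h0 : k * m + k * 2 = k * m + 2 * k := by ring
    rw [h0] at h1
    rw [h1, ← mul_assoc] at h2
    have h3 : 2 * ((m + 2).choose m : ℤ_[2]) = ((m : ℤ_[2]) + 1) * ((m : ℤ_[2]) + 2) := by
      have h31 : (m + 2).choose m = (m + 2).choose 2 := by
        rw [← Nat.choose_symm_add]
      have h32 : 2 * (m + 2).choose 2 = (m + 1) * (m + 2) := by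
        rw [Nat.choose_two_right]
        have : 2 ∣ (m + 2) * (m + 2 - 1) := by
          rw [Nat.add_sub_assoc (by norm_num) m]
          exact (Nat.even_mul_pred_self (m + 2)).two_dvd
        rw [Nat.mul_div_cancel' this]
        simp; ring
      have := congrArg (fun n : ℕ => (n : ℤ_[2])) h32
      rw [h31]; push_cast at this; exact this
    rw [h3] at h2
    have h4 : (((m + 1) * (m + 2) : ℕ) : ℤ_[2]) = ((m : ℤ_[2]) + 1) * ((m : ℤ_[2]) + 2) := by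
      push_cast; ring
    rw [h4] at h2
    have h5 := mul_left_cancel₀ (mul_ne_zero hm1 hm2) h2
    rw [key] at h5
    rw [← h5] at hx
    set S := ∑ i ∈ range d', w (i + 3) * (((2 : ℕ) : ℤ_[2]) * ((m : ℤ_[2]) + ((2 : ℕ) : ℤ_[2]))) ^ (i + 2) with hS
    refine ⟨(1 + 2 * (m : ℤ_[2])) * (3 + 2 * (m : ℤ_[2])) * x - 3 * S, ?_⟩
    have h22 : (2 : ℤ_[2]) * ((m : ℤ_[2]) + 2) ≠ 0 := mul_ne_zero (by norm_num) hm2
    apply mul_left_cancel₀ h22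
    push_cast at hx
    linear_combination hx
  refine ⟨hA, ?_⟩
  obtain ⟨x1, h1⟩ := hA
  obtain ⟨x2, h2⟩ := hB
  refine ⟨((m : ℤ_[2]) + 1) * x2 - 3 * x1, ?_⟩
  linear_combination ((m : ℤ_[2]) + 1) * h2 - 3 * h1

end Pool.MP9acee6
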