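import Pool.Agent.H.MP_9acee6_nt.Asc

/-!
# `p = 2`, `m` even: the estimate for the higher coefficients
-/

set_option autoImplicit false

open Polynomial Finset

namespace Pool.MP9acee6

variable {a k m : ℕ}

theorem twoest_inv {s : ℕ} (hs : ¬ 2 ∣ s) : ∃ s' : ℤ_[2], (s : ℤ_[2]) * s' = 1 := by
  have hu : IsUnit ((s : ℕ) : ℤ_[2]) := by
    rw [PadicInt.isUnit_iff]
    by_contra h
    have h1 : ‖((s : ℤ) : ℤ_[2])‖ < 1 := by
      have := PadicInt.norm_le_one ((s : ℕ) : ℤ_[2])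
      push_cast
      exact lt_of_le_of_ne this h
    rw [PadicInt.norm_int_lt_one_iff_dvd] at h1
    exact hs (by exact_mod_cast h1)
  exact hu.exists_right_inv

theorem twoest_asc (J : ℕ) : (m + 1).ascFactorial (J + 1) = (m + 1) * (m + 2).ascFactorial J := by
  rw [Nat.ascFactorial_succ, ← Nat.succ_ascFactorial]

/-- `J!` divides `2 (m+2)_{J-1}` in `ℤ_2` for `4 ≤ J ≤ 7` and even `m` -/
theorem twoest_small (hme : Even m) (J : ℕ) (h4 : 4 ≤ J) (h7 : J ≤ 7) : ∃ c : ℤ_[2],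
    2 * ((m + 2).ascFactorial (J - 1) : ℤ_[2]) = c * (J.factorial : ℤ_[2]) := by
  obtain ⟨n, hn⟩ := hme
  obtain ⟨t, ht⟩ : ∃ t, (n + 1) * (n + 2) = 2 * t := by
    have : Even ((n + 1) * (n + 1 + 1)) := Nat.even_mul_succ_self (n + 1)
    obtain ⟨t, ht⟩ := this
    exact ⟨t, by rw [two_mul, ← ht]⟩
  suffices h : ∃ r o z : ℕ, ¬ 2 ∣ o ∧ J.factorial = 2 ^ r * o ∧
      2 * (m + 2).ascFactorial (J - 1) = 2 ^ r * z by
    obtain ⟨r, o, z, ho, hJ, hz⟩ := h
    obtain ⟨o', ho'⟩ := twoest_inv ho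
    refine ⟨o' * z, ?_⟩
    have hz' : 2 * ((m + 2).ascFactorial (J - 1) : ℤ_[2]) = 2 ^ r * (z : ℤ_[2]) := by
      exact_mod_cast hz
    have hJ' : (J.factorial : ℤ_[2]) = 2 ^ r * (o : ℤ_[2]) := by exact_mod_cast hJ
    rw [hz', hJ']
    linear_combination (-(2 : ℤ_[2]) ^ r * z) * ho'
  interval_cases J
  · refine ⟨3, 3, 2 * t * (m + 3), by decide, by decide, ?_⟩
    simp only [Nat.ascFactorial, hn]
    linear_combination (8 * (n + n + 3)) * ht
  · refine ⟨3, 15, 2 * t * (m + 3) * (m + 5), by decide, by decide, ?_⟩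
    simp only [Nat.ascFactorial, hn]
    linear_combination (8 * (n + n + 3) * (n + n + 5)) * ht
  · refine ⟨4, 45, 2 * t * (n + 3) * (m + 3) * (m + 5), by decide, by decide, ?_⟩
    simp only [Nat.ascFactorial, hn]
    linear_combination (16 * (n + 3) * (n + n + 3) * (n + n + 5)) * ht
  · refine ⟨4, 315, 2 * t * (n + 3) * (m + 3) * (m + 5) * (m + 7), by decide, by decide, ?_⟩
    simp only [Nat.ascFactorial, hn]
    linear_combination (16 * (n + 3) * (n + n + 3) * (n + n + 5) * (n + n + 7)) * ht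

/-- the claim for `J ≤ 7` -/
theorem twoest_seven (hk : k = 2 ^ a) (ha : 2 ≤ a) (hme : Even m) (J : ℕ) (h7 : J ≤ 7) :
    ∃ c : ℤ_[2], 2 * ((m + 1).ascFactorial J : ℤ_[2]) =
      c * ((k * m + 1).ascFactorial J : ℤ_[2]) := by
  rcases lt_or_ge J k with hJ | hJ
  · obtain ⟨u, hu, h⟩ := asc_lt (m := m) hk J hJ
    obtain ⟨u', hu'⟩ := hu.exists_right_inv
    obtain ⟨d, hd⟩ := Nat.factorial_dvd_ascFactorial (m + 1) J
    refine ⟨2 * d * u', ?_⟩
    have hd' : ((m + 1).ascFactorial J : ℤ_[2]) = (J.factorial : ℤ_[2]) * d := by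
      exact_mod_cast hd
    rw [h, hd']
    linear_combination (-(2 : ℤ_[2]) * d * (J.factorial : ℤ_[2])) * hu'
  · have ha2 : a = 2 := by
      by_contra hne
      have : 2 ^ 3 ≤ 2 ^ a := Nat.pow_le_pow_right (by norm_num) (by omega)
      omega
    have hk4 : k = 4 := by rw [hk, ha2]; norm_num
    have h4 : 4 ≤ J := by omega
    obtain ⟨u, hu, h⟩ := asc_key (p := 2) (m := m) hk J
    obtain ⟨u', hu'⟩ := hu.exists_right_inv
    obtain ⟨c, hc⟩ := twoest_small hme J h4 h7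
    have hq : J / k = 1 := by rw [hk4]; omega
    rw [hq] at h
    have hB : (m + 1).ascFactorial J = (m + 1) * (m + 2).ascFactorial (J - 1) := by
      obtain ⟨J', rfl⟩ : ∃ J', J = J' + 1 := ⟨J - 1, by omega⟩
      exact twoest_asc J'
    have hB' : ((m + 1).ascFactorial J : ℤ_[2]) =
        ((m : ℤ_[2]) + 1) * ((m + 2).ascFactorial (J - 1) : ℤ_[2]) := by
      exact_mod_cast hB
    have h1 : (((k * m + 1).ascFactorial J : ℕ) : ℤ_[2]) =
        u * (J.factorial : ℤ_[2]) * ((m : ℤ_[2]) + 1) := by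
      simpa [Nat.ascFactorial] using h
    refine ⟨c * u', ?_⟩
    rw [hB', h1]
    linear_combination ((m : ℤ_[2]) + 1) * hc -
      (c * (J.factorial : ℤ_[2]) * ((m : ℤ_[2]) + 1)) * hu'

theorem two_estimate (hk : k = 2 ^ a) (ha : 2 ≤ a) (hm : 1 ≤ m) (hme : Even m) (e : ℕ → ℤ_[2])
    (he : ∀ i : ℕ, 1 ≤ i → (m : ℤ_[2]) ∣ 2 * ((i : ℤ_[2]) * e i)) (i : ℕ) (hi : 2 ≤ i)
    (J : ℕ) (h1 : 1 ≤ J) (hJ : J ≤ 2 * i + 1) : ∃ x : ℤ_[2],
      e (i + 1) * (2 : ℤ_[2]) ^ (2 * (i + 1)) * ((m + 1).ascFactorial J : ℤ_[2]) =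
        (2 : ℤ_[2]) ^ (padicValNat 2 m + 4) * x * ((k * m + 1).ascFactorial J : ℤ_[2]) := by
  obtain ⟨w, s, hs, his⟩ := Nat.exists_eq_pow_mul_and_not_dvd (Nat.succ_ne_zero i) 2 (by norm_num)
  have hs0 : 0 < s := Nat.pos_of_ne_zero fun h => hs (h ▸ dvd_zero 2)
  have hwle : 2 ^ w ≤ i + 1 := by
    rw [Nat.succ_eq_add_one] at his
    rw [his]
    exact Nat.le_mul_of_pos_right _ hs0
  -- the key claim
  have key : ∃ (r : ℕ) (c : ℤ_[2]), r + 3 + w = 2 * i ∧
      (2 : ℤ_[2]) ^ r * ((m + 1).ascFactorial J : ℤ_[2]) =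
        c * ((k * m + 1).ascFactorial J : ℤ_[2]) := by
    rcases lt_or_ge i 4 with hi4 | hi4
    · have hr : 1 + 3 + w = 2 * i := by
        rw [Nat.succ_eq_add_one] at his
        have hi' : i = 2 ∨ i = 3 := by omega
        rcases hi' with rfl | rfl
        · have : w = 0 := by
            by_contra hw
            obtain ⟨w', rfl⟩ : ∃ w', w = w' + 1 := ⟨w - 1, by omega⟩
            rw [pow_succ] at his
            have : 2 ∣ 3 := ⟨2 ^ w' * s, by rw [show (3 : ℕ) = 2 + 1 from rfl, his]; ring⟩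
            omega
          omega
        · have hw2 : w ≤ 2 := by
            by_contra hw
            have : 2 ^ 3 ≤ 2 ^ w := Nat.pow_le_pow_right (by norm_num) (by omega)
            omega
          interval_cases w
          · exfalso; apply hs; omega
          · exfalso; apply hs; omega
          · rfl
      obtain ⟨c, hc⟩ := twoest_seven (m := m) hk ha hme J (by omega)
      exact ⟨1, c, hr, by rw [pow_one]; exact hc⟩
    · obtain ⟨c, hc⟩ := asc_log (p := 2) (m := m) hk J h1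
      have g1 : ∀ j, 4 ≤ j → 2 * j + 1 < 2 ^ j := by
        intro j hj
        induction j, hj using Nat.le_induction with
        | base => norm_num
        | succ j hj ih => rw [pow_succ]; omega
      have g2 : ∀ j, 4 ≤ j → j + 1 < 2 ^ (j - 1) := by
        intro j hj
        induction j, hj using Nat.le_induction with
        | base => norm_num
        | succ j hj ih =>
          have : 2 ^ (j + 1 - 1) = 2 * 2 ^ (j - 1) := by rw [← pow_succ']; congr 1; omega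
          omega
      have hl : Nat.log 2 J < i := Nat.log_lt_of_lt_pow (by omega) (by have := g1 i hi4; omega)
      have hw : w < i - 1 := by
        refine (Nat.pow_lt_pow_iff_right (by norm_num : 1 < 2)).1 ?_
        have := g2 i hi4
        omega
      refine ⟨2 * i - 3 - w, (2 : ℤ_[2]) ^ (2 * i - 3 - w - Nat.log 2 J) * c, by omega, ?_⟩
      have h2 : (2 : ℤ_[2]) ^ (2 * i - 3 - w) =
          (2 : ℤ_[2]) ^ (2 * i - 3 - w - Nat.log 2 J) * (2 : ℤ_[2]) ^ (Nat.log 2 J) := by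
        rw [← pow_add]; congr 1; omega
      have hc' : (2 : ℤ_[2]) ^ (Nat.log 2 J) * ((m + 1).ascFactorial J : ℤ_[2]) =
          c * ((k * m + 1).ascFactorial J : ℤ_[2]) := by exact_mod_cast hc
      rw [h2]
      linear_combination ((2 : ℤ_[2]) ^ (2 * i - 3 - w - Nat.log 2 J)) * hc'
  obtain ⟨r, c, hr, hc⟩ := key
  obtain ⟨y, hy⟩ := he (i + 1) (by omega)
  obtain ⟨s', hs'⟩ := twoest_inv hs
  obtain ⟨m', hm'⟩ : 2 ^ padicValNat 2 m ∣ m := pow_padicValNat_dvd
  have hmc : (m : ℤ_[2]) = 2 ^ padicValNat 2 m * (m' : ℤ_[2]) := by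
    conv_lhs => rw [hm']
    push_cast
    ring
  have hic : (((i + 1 : ℕ) : ℤ_[2])) = 2 ^ w * (s : ℤ_[2]) := by
    rw [Nat.succ_eq_add_one] at his
    rw [his]
    push_cast
    ring
  generalize padicValNat 2 m = v at hmc ⊢
  generalize ((m + 1).ascFactorial J : ℤ_[2]) = B at hc ⊢
  generalize (((k * m + 1).ascFactorial J : ℕ) : ℤ_[2]) = A at hc ⊢
  refine ⟨s' * m' * y * c, ?_⟩
  rw [hic, hmc] at hy
  have h5 : (2 : ℤ_[2]) ^ (2 * (i + 1)) = 2 * 2 ^ w * (2 ^ 4 * 2 ^ r) := by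
    rw [← pow_succ', ← pow_add, ← pow_add]; congr 1; omega
  rw [h5, pow_add]
  linear_combination (-(e (i + 1) * 2 * 2 ^ w * 2 ^ 4 * 2 ^ r * B)) * hs' +
    (s' * 2 ^ 4 * 2 ^ r * B) * hy + (2 ^ v * m' * y * s' * 2 ^ 4) * hc

end Pool.MP9acee6
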