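import Pool.Agent.H.MP_9acee6_nt.Psum

/-!
# `p = 2`: the values `C(km+k,km)` and `C(km+2k,km)` modulo high powers of two
-/

set_option autoImplicit false

open Polynomial Finset

namespace Pool.MP9acee6

variable {a k m : ℕ}

lemma twoharm_two_ne : (2 : ℤ_[2]) ≠ 0 := by norm_num

lemma twoharm_spec (hk : k = 2 ^ a) (t : ℕ) (ht : ¬ k ∣ t) :
    (2 : ℤ_[2]) * gg 2 k t * (t : ℤ_[2]) = (k : ℤ_[2]) := by
  have := gg_spec (p := 2) hk t ht
  exact_mod_cast this

lemma twoharm_refl (hk : k = 2 ^ a) (t : ℕ) (ht : t ≤ k * m) :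
    gg 2 k t + gg 2 k (k * m - t) = (2 : ℤ_[2]) * m * gg 2 k t * gg 2 k (k * m - t) := by
  have := gg_refl (p := 2) (m := m) hk t ht
  exact_mod_cast this

lemma twoharm_not_dvd (v s : ℕ) (hs : ¬ 2 ∣ s) (hv : v + 1 ≤ a) : ¬ (2 ^ a) ∣ 2 ^ v * s := by
  intro h
  have h1 : 2 ^ (v + 1) ∣ 2 ^ v * s := (pow_dvd_pow 2 hv).trans h
  rw [pow_succ] at h1
  exact hs ((Nat.mul_dvd_mul_iff_left (by positivity)).1 h1)

lemma twoharm_val (hk : k = 2 ^ a) (v s c : ℕ) (hs : ¬ 2 ∣ s) (hv : v + c + 1 = a) :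
    gg 2 k (2 ^ v * s) * (s : ℤ_[2]) = 2 ^ c := by
  have h := twoharm_spec hk (2 ^ v * s) (by rw [hk]; exact twoharm_not_dvd v s hs (by omega))
  have h1 : (2 : ℤ_[2]) ^ (v + 1) * (gg 2 k (2 ^ v * s) * (s : ℤ_[2])) = 2 ^ (v + 1) * 2 ^ c := by
    rw [← pow_add, show v + 1 + c = a by omega]
    rw [hk] at h ⊢
    push_cast at h
    rw [← h]; ring
  exact mul_left_cancel₀ (pow_ne_zero _ twoharm_two_ne) h1

lemma twoharm_isUnit (s : ℕ) (hs : ¬ 2 ∣ s) : IsUnit (s : ℤ_[2]) := by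
  rw [PadicInt.isUnit_iff]
  by_contra hne
  have hlt : ‖(s : ℤ_[2])‖ < 1 := lt_of_le_of_ne (PadicInt.norm_le_one _) hne
  have h2 : ‖((s : ℤ) : ℤ_[2])‖ < 1 := by simpa using hlt
  rw [PadicInt.norm_int_lt_one_iff_dvd] at h2
  exact hs (by exact_mod_cast h2)

lemma twoharm_dvd (hk : k = 2 ^ a) (v s c : ℕ) (hs : ¬ 2 ∣ s) (hv : v + c + 1 = a) :
    (2 : ℤ_[2]) ^ c ∣ gg 2 k (2 ^ v * s) := by
  obtain ⟨u, hu⟩ := twoharm_isUnit s hs
  have h := twoharm_val hk v s c hs hv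
  rw [← hu] at h
  refine ⟨↑(u⁻¹), ?_⟩
  rw [← h, mul_assoc, Units.mul_inv, mul_one]

/-- if `2 ^ b` does not divide `t` then `2 ^ (a - b)` divides `g(t)` -/
lemma twoharm_even (hk : k = 2 ^ a) (b c t : ℕ) (hb : b + c = a) (ht : ¬ 2 ^ b ∣ t) :
    (2 : ℤ_[2]) ^ c ∣ gg 2 k t := by
  have ht0 : t ≠ 0 := by rintro rfl; exact ht (dvd_zero _)
  obtain ⟨v, s, hs, rfl⟩ := Nat.exists_eq_pow_mul_and_not_dvd ht0 2 (by norm_num)
  have hvb : v < b := by
    by_contra hcon
    exact ht ((pow_dvd_pow 2 (not_lt.1 hcon)).mul_right s)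
  have h := twoharm_dvd (a := a) hk v s (a - 1 - v) hs (by omega)
  exact (pow_dvd_pow 2 (by omega)).trans h

lemma twoharm_prod {ι : Type*} (S : Finset ι) (f : ι → ℤ_[2]) (c : ℤ_[2])
    (h : ∀ i ∈ S, ∃ x, f i = 1 + c * x) : ∃ x, ∏ i ∈ S, f i = 1 + c * x := by
  classical
  induction S using Finset.induction_on with
  | empty => exact ⟨0, by simp⟩
  | insert i S hi ih =>
    obtain ⟨x, hx⟩ := ih fun j hj => h j (mem_insert_of_mem hj)
    obtain ⟨y, hy⟩ := h i (mem_insert_self _ _)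
    refine ⟨x + y + c * x * y, ?_⟩
    rw [prod_insert hi, hx, hy]; ring

lemma twoharm_half (hk : k = 2 ^ a) (ha : 2 ≤ a) : ∃ q : ℕ, 0 < q ∧ k = 4 * q ∧ q = 2 ^ (a - 2) := by
  obtain ⟨b, rfl⟩ := Nat.exists_eq_add_of_le ha
  refine ⟨2 ^ b, by positivity, ?_, by simp⟩
  rw [hk, pow_add]; norm_num

theorem two_one (hk : k = 2 ^ a) (ha : 2 ≤ a) : ∃ x : ℤ_[2],
    ∏ s ∈ Ioo 0 k, (1 + (2 : ℤ_[2]) * m * gg 2 k s) =
      1 + 2 * (m : ℤ_[2]) + 16 * ((m : ℤ_[2]) * ((m : ℤ_[2]) + 1)) * x := by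
  classical
  obtain ⟨q, hq, hkq, hqa⟩ := twoharm_half hk ha
  set f : ℕ → ℤ_[2] := fun s => 1 + (2 : ℤ_[2]) * m * gg 2 k s with hf
  have hsplit : ∏ s ∈ Ioo 0 k, f s = f (2 * q) * ∏ s ∈ Ioo 0 (2 * q), (f s * f (k - s)) := by
    have h1 : Ioo 0 k = insert (2 * q) (Ioo 0 (2 * q) ∪ Ioo (2 * q) k) := by
      ext s; simp only [mem_Ioo, mem_insert, mem_union]; omega
    have h2 : ∏ s ∈ Ioo (2 * q) k, f s = ∏ s ∈ Ioo 0 (2 * q), f (k - s) := by
      refine Finset.prod_bij' (fun s _ => k - s) (fun s _ => k - s) ?_ ?_ ?_ ?_ ?_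
      · intro s hs; simp only [mem_Ioo] at hs ⊢; omega
      · intro s hs; simp only [mem_Ioo] at hs ⊢; omega
      · intro s hs; simp only [mem_Ioo] at hs; omega
      · intro s hs; simp only [mem_Ioo] at hs; omega
      · intro s hs; simp only [mem_Ioo] at hs; congr 1; omega
    rw [h1, prod_insert, prod_union, h2, prod_mul_distrib]
    · rw [Finset.disjoint_left]; intro s hs hs'; simp only [mem_Ioo] at hs hs'; omega
    · simp only [mem_union, mem_Ioo]; omega
  have hmid : f (2 * q) = 1 + 2 * (m : ℤ_[2]) := by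
    have h := twoharm_val (a := a) hk (a - 1) 1 0 (by norm_num) (by omega)
    have h2 : 2 ^ (a - 1) * 1 = 2 * q := by
      rw [hqa, mul_one, ← pow_succ', show a - 2 + 1 = a - 1 by omega]
    rw [h2] at h
    simp only [Nat.cast_one, mul_one, pow_zero] at h
    simp only [hf, h, mul_one]
  obtain ⟨x, hx⟩ := twoharm_prod (Ioo 0 (2 * q)) (fun s => f s * f (k - s))
    (16 * ((m : ℤ_[2]) * ((m : ℤ_[2]) + 1))) (by
      intro s hs
      rw [mem_Ioo] at hs
      have hr := twoharm_refl (m := 1) hk s (by omega)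
      rw [mul_one] at hr
      have hd : ¬ 2 ^ (a - 1) ∣ s := by
        intro h
        have := Nat.le_of_dvd hs.1 h
        have h2 : 2 ^ (a - 1) = 2 * q := by
          rw [hqa, ← pow_succ', show a - 2 + 1 = a - 1 by omega]
        omega
      have hd' : ¬ 2 ^ (a - 1) ∣ k - s := by
        intro h
        apply hd
        have h2 : 2 ^ (a - 1) ∣ k := by rw [hk]; exact pow_dvd_pow 2 (by omega)
        have h3 := (Nat.dvd_sub h2 h)
        rwa [show k - (k - s) = s by omega] at h3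
      obtain ⟨y, hy⟩ := twoharm_even hk (a - 1) 1 s (by omega) hd
      obtain ⟨z, hz⟩ := twoharm_even hk (a - 1) 1 (k - s) (by omega) hd'
      refine ⟨y * z, ?_⟩
      simp only [hf]
      push_cast at hr
      linear_combination (2 * (m : ℤ_[2])) * hr +
        (4 * (m : ℤ_[2]) + 4 * (m : ℤ_[2]) ^ 2) * (gg 2 k (k - s)) * hy +
        (4 * (m : ℤ_[2]) + 4 * (m : ℤ_[2]) ^ 2) * (2 ^ 1 * y) * hz)
  refine ⟨x * (1 + 2 * m), ?_⟩
  rw [hsplit, hmid, hx]; ring

theorem omega_two (hk : k = 2 ^ a) (ha : 2 ≤ a) :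
    2 * ((k * m + 2 * k).choose (k * m) : ℤ_[2]) =
    (((m + 1) * (m + 2) : ℕ) : ℤ_[2]) *
      ∏ s ∈ (Ioo 0 (2 * k)).filter (fun s => ¬ k ∣ s), (1 + (2 : ℤ_[2]) * m * gg 2 k s) := by
  classical
  obtain ⟨q, hq, hkq, hqa⟩ := twoharm_half hk ha
  set S := (Ioo 0 (2 * k)).filter (fun s => ¬ k ∣ s) with hS
  have hk0 : 0 < k := by omega
  have key : ∀ f : ℕ → ℤ_[2], ∏ i ∈ range (2 * k), f (i + 1) = f k * (f (2 * k) * ∏ s ∈ S, f s) := by
    intro f
    have h1 : ∏ i ∈ range (2 * k), f (i + 1) = ∏ s ∈ Ico 1 (2 * k + 1), f s := by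
      rw [range_eq_Ico, Finset.prod_Ico_add' f 0 (2 * k) 1]
    have h2 : Ico 1 (2 * k + 1) = insert k (insert (2 * k) S) := by
      ext s
      simp only [mem_Ico, mem_insert, hS, mem_filter, mem_Ioo]
      constructor
      · intro hs
        by_cases hd : k ∣ s
        · obtain ⟨c, rfl⟩ := hd
          have hc0 : 0 < c := by
            rcases Nat.eq_zero_or_pos c with rfl | h
            · omega
            · exact h
          have hc2 : c ≤ 2 := by
            by_contra hcon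
            have : k * 3 ≤ k * c := Nat.mul_le_mul_left k (by omega)
            omega
          interval_cases c
          · left; ring
          · right; left; ring
        · by_cases h2k : s = 2 * k
          · right; left; exact h2k
          · right; right; exact ⟨⟨by omega, by omega⟩, hd⟩
      · rintro (h | h | h)
        · omega
        · omega
        · omega
    rw [h1, h2, prod_insert, prod_insert]
    · simp [hS]
    · simp only [mem_insert, hS, mem_filter, dvd_refl, not_true_eq_false, and_false, or_false]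
      omega
  have hfac : (((2 * k).factorial : ℕ) : ℤ_[2]) = (k : ℤ_[2]) * ((2 * k : ℕ) * ∏ s ∈ S, (s : ℤ_[2])) := by
    rw [← Finset.prod_range_add_one_eq_factorial, Nat.cast_prod]
    exact key (fun s => (s : ℤ_[2]))
  have hasc : (((k * m + 1).ascFactorial (2 * k) : ℕ) : ℤ_[2]) =
      ((k * m + k : ℕ) : ℤ_[2]) * (((k * m + 2 * k : ℕ) : ℤ_[2]) *
        ∏ s ∈ S, ((k * m + s : ℕ) : ℤ_[2])) := by
    rw [Nat.ascFactorial_eq_prod_range, Nat.cast_prod, ← key (fun s => ((k * m + s : ℕ) : ℤ_[2]))]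
    refine prod_congr rfl fun i _ => ?_
    congr 1; omega
  have hch : (k * m + 1).ascFactorial (2 * k) =
      (2 * k).factorial * (k * m + 2 * k).choose (k * m) := by
    rw [Nat.ascFactorial_eq_factorial_mul_choose, Nat.choose_symm_add]
  have hterm : ∏ s ∈ S, ((k * m + s : ℕ) : ℤ_[2]) =
      (∏ s ∈ S, (s : ℤ_[2])) * ∏ s ∈ S, (1 + (2 : ℤ_[2]) * m * gg 2 k s) := by
    rw [← prod_mul_distrib]
    refine prod_congr rfl fun s hs => ?_
    have hns : ¬ k ∣ s := (mem_filter.1 hs).2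
    have h := twoharm_spec hk s hns
    push_cast
    linear_combination (-(m : ℤ_[2])) * h
  have hP0 : (∏ s ∈ S, (s : ℤ_[2])) ≠ 0 := by
    rw [Finset.prod_ne_zero_iff]
    intro s hs
    have h0 : 0 < s := (mem_Ioo.1 (mem_filter.1 hs).1).1
    exact_mod_cast h0.ne'
  have hkne : (k : ℤ_[2]) ≠ 0 := by exact_mod_cast hk0.ne'
  have hmain : (k : ℤ_[2]) * ((2 * k : ℕ) * ∏ s ∈ S, (s : ℤ_[2])) *
      ((k * m + 2 * k).choose (k * m) : ℤ_[2]) =
      ((k * m + k : ℕ) : ℤ_[2]) * (((k * m + 2 * k : ℕ) : ℤ_[2]) *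
        ((∏ s ∈ S, (s : ℤ_[2])) * ∏ s ∈ S, (1 + (2 : ℤ_[2]) * m * gg 2 k s))) := by
    rw [← hfac, ← hterm, ← hasc, hch]; push_cast; ring
  have hne : (k : ℤ_[2]) * (k : ℤ_[2]) * (∏ s ∈ S, (s : ℤ_[2])) ≠ 0 :=
    mul_ne_zero (mul_ne_zero hkne hkne) hP0
  apply mul_left_cancel₀ hne
  push_cast at hmain ⊢
  linear_combination hmain

theorem two_two (hk : k = 2 ^ a) (ha : 2 ≤ a) : ∃ x : ℤ_[2],
    3 * ∏ s ∈ (Ioo 0 (2 * k)).filter (fun s => ¬ k ∣ s), (1 + (2 : ℤ_[2]) * m * gg 2 k s) =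
      (1 + 2 * (m : ℤ_[2])) * (3 + 2 * (m : ℤ_[2])) *
        (1 + 32 * ((m : ℤ_[2]) * ((m : ℤ_[2]) + 2)) * x) := by
  classical
  obtain ⟨q, hq, hkq, hqa⟩ := twoharm_half hk ha
  set f : ℕ → ℤ_[2] := fun s => 1 + (2 : ℤ_[2]) * m * gg 2 k s with hf
  set R := ((Ioo 0 k).erase (2 * q)).erase q |>.erase (3 * q) with hR
  have hsplit : ∏ s ∈ (Ioo 0 (2 * k)).filter (fun s => ¬ k ∣ s), f s =
      (f (2 * q) * f (2 * k - 2 * q)) * ((f q * f (2 * k - q)) * ((f (3 * q) * f (2 * k - 3 * q)) *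
        ∏ s ∈ R, (f s * f (2 * k - s)))) := by
    have h1 : (Ioo 0 (2 * k)).filter (fun s => ¬ k ∣ s) = Ioo 0 k ∪ Ioo k (2 * k) := by
      ext s
      simp only [mem_filter, mem_Ioo, mem_union]
      constructor
      · rintro ⟨⟨h0, h1⟩, h2⟩
        have : s ≠ k := by rintro rfl; exact h2 dvd_rfl
        omega
      · rintro (⟨h0, h1⟩ | ⟨h0, h1⟩)
        · exact ⟨⟨h0, by omega⟩, fun hd => by have := Nat.le_of_dvd h0 hd; omega⟩
        · refine ⟨⟨by omega, h1⟩, fun hd => ?_⟩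
          have h3 := Nat.dvd_sub hd (dvd_refl k)
          have := Nat.le_of_dvd (by omega) h3
          omega
    have h2 : ∏ s ∈ Ioo k (2 * k), f s = ∏ s ∈ Ioo 0 k, f (2 * k - s) := by
      refine Finset.prod_bij' (fun s _ => 2 * k - s) (fun s _ => 2 * k - s) ?_ ?_ ?_ ?_ ?_
      · intro s hs; simp only [mem_Ioo] at hs ⊢; omega
      · intro s hs; simp only [mem_Ioo] at hs ⊢; omega
      · intro s hs; simp only [mem_Ioo] at hs; omega
      · intro s hs; simp only [mem_Ioo] at hs; omega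
      · intro s hs; simp only [mem_Ioo] at hs; congr 1; omega
    rw [h1, prod_union, h2, ← prod_mul_distrib]
    · rw [← Finset.mul_prod_erase (Ioo 0 k) (fun s => f s * f (2 * k - s)) (a := 2 * q)
        (by rw [mem_Ioo]; omega),
        ← Finset.mul_prod_erase ((Ioo 0 k).erase (2 * q)) (fun s => f s * f (2 * k - s)) (a := q)
        (by rw [mem_erase, mem_Ioo]; omega),
        ← Finset.mul_prod_erase (((Ioo 0 k).erase (2 * q)).erase q)
          (fun s => f s * f (2 * k - s)) (a := 3 * q)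
        (by rw [mem_erase, mem_erase, mem_Ioo]; omega)]
    · rw [Finset.disjoint_left]; intro s hs hs'; simp only [mem_Ioo] at hs hs'; omega
  have hq2 : 2 ^ (a - 1) = 2 * q := by
    rw [hqa, ← pow_succ', show a - 2 + 1 = a - 1 by omega]
  -- values
  have v2 : gg 2 k (2 * q) = 1 := by
    have h := twoharm_val (a := a) hk (a - 1) 1 0 (by norm_num) (by omega)
    rw [hq2, mul_one] at h
    simpa using h
  have v6 : gg 2 k (2 * k - 2 * q) * 3 = 1 := by
    have h := twoharm_val (a := a) hk (a - 1) 3 0 (by norm_num) (by omega)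
    rw [hq2, show 2 * q * 3 = 2 * k - 2 * q by omega] at h
    simpa using h
  have v1 : gg 2 k q = 2 := by
    have h := twoharm_val (a := a) hk (a - 2) 1 1 (by norm_num) (by omega)
    rw [← hqa, mul_one] at h
    simpa using h
  have v7 : gg 2 k (2 * k - q) * 7 = 2 := by
    have h := twoharm_val (a := a) hk (a - 2) 7 1 (by norm_num) (by omega)
    rw [← hqa, show q * 7 = 2 * k - q by omega] at h
    simpa using h
  have v3 : gg 2 k (3 * q) * 3 = 2 := by
    have h := twoharm_val (a := a) hk (a - 2) 3 1 (by norm_num) (by omega)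
    rw [← hqa, show q * 3 = 3 * q by omega] at h
    simpa using h
  have v5 : gg 2 k (2 * k - 3 * q) * 5 = 2 := by
    have h := twoharm_val (a := a) hk (a - 2) 5 1 (by norm_num) (by omega)
    rw [← hqa, show q * 5 = 2 * k - 3 * q by omega] at h
    simpa using h
  have hrefl : ∀ s, s ≤ 2 * k → f s * f (2 * k - s) =
      1 + 4 * ((m : ℤ_[2]) * ((m : ℤ_[2]) + 2)) * (gg 2 k s * gg 2 k (2 * k - s)) := by
    intro s hs
    have hr := twoharm_refl (m := 2) hk s (by omega)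
    rw [show k * 2 = 2 * k by ring] at hr
    push_cast at hr
    simp only [hf]
    linear_combination (2 * (m : ℤ_[2])) * hr
  -- the remaining factors
  obtain ⟨x, hx⟩ := twoharm_prod R (fun s => f s * f (2 * k - s))
    (32 * ((m : ℤ_[2]) * ((m : ℤ_[2]) + 2))) (by
      intro s hs
      simp only [hR, mem_erase, mem_Ioo] at hs
      have hd : ¬ 2 ^ (a - 2) ∣ s := by
        rw [← hqa]
        rintro ⟨c, rfl⟩
        have hc4 : c < 4 := by
          by_contra hcon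
          have : q * 4 ≤ q * c := Nat.mul_le_mul_left q (by omega)
          omega
        interval_cases c <;> omega
      have hd' : ¬ 2 ^ (a - 2) ∣ 2 * k - s := by
        intro h
        apply hd
        have h2 : 2 ^ (a - 2) ∣ 2 * k := by
          rw [← hqa, hkq]; exact ⟨8, by ring⟩
        have h3 := (Nat.dvd_sub h2 h)
        rwa [show 2 * k - (2 * k - s) = s by omega] at h3
      obtain ⟨y, hy⟩ := twoharm_even hk (a - 2) 2 s (by omega) hd
      obtain ⟨z, hz⟩ := twoharm_even hk (a - 2) 2 (2 * k - s) (by omega) hd'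
      refine ⟨2 * (y * z), ?_⟩
      rw [hrefl s (by omega), hy, hz]; ring)
  -- the factors at q and 3 q
  obtain ⟨u, hu⟩ : ∃ u : ℤ_[2], u * 105 = 1 := by
    obtain ⟨u, hu⟩ := twoharm_isUnit 105 (by norm_num)
    refine ⟨↑(u⁻¹), ?_⟩
    have : (105 : ℤ_[2]) = ((105 : ℕ) : ℤ_[2]) := by norm_num
    rw [this, ← hu, Units.inv_mul]
  have hcan : ∀ x y : ℤ_[2], x * 105 = y * 105 → x = y := by
    intro x y hxy
    have : x * (105 * u) = y * (105 * u) := by
      rw [← mul_assoc, hxy, mul_assoc]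
    rw [mul_comm 105 u, hu, mul_one, mul_one] at this
    exact this
  have hc : ∃ c : ℤ_[2], (f q * f (2 * k - q)) * (f (3 * q) * f (2 * k - 3 * q)) =
      1 + 32 * ((m : ℤ_[2]) * ((m : ℤ_[2]) + 2)) * c := by
    refine ⟨u * (11 + 8 * ((m : ℤ_[2]) * ((m : ℤ_[2]) + 2))), ?_⟩
    rw [hrefl q (by omega), hrefl (3 * q) (by omega)]
    apply hcan
    rw [v1]
    set M := (m : ℤ_[2]) * ((m : ℤ_[2]) + 2)
    set A := gg 2 k (2 * k - q)
    set B := gg 2 k (3 * q)
    set C := gg 2 k (2 * k - 3 * q)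
    have hBC : B * C * 15 = 4 := by linear_combination (C * 5) * v3 + 2 * v5
    linear_combination (15 * (8 * M) * (1 + 4 * M * (B * C))) * v7 + (7 + 16 * M) * (4 * M) * hBC -
      32 * M * (11 + 8 * M) * hu
  obtain ⟨c, hc⟩ := hc
  have h26 : 3 * (f (2 * q) * f (2 * k - 2 * q)) =
      (1 + 2 * (m : ℤ_[2])) * (3 + 2 * (m : ℤ_[2])) := by
    simp only [hf, v2]
    linear_combination ((1 + 2 * (m : ℤ_[2])) * 2 * m) * v6
  refine ⟨c + x + 32 * ((m : ℤ_[2]) * ((m : ℤ_[2]) + 2)) * c * x, ?_⟩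
  calc 3 * ∏ s ∈ (Ioo 0 (2 * k)).filter (fun s => ¬ k ∣ s), f s
      = (3 * (f (2 * q) * f (2 * k - 2 * q))) *
        (((f q * f (2 * k - q)) * (f (3 * q) * f (2 * k - 3 * q))) *
          ∏ s ∈ R, (f s * f (2 * k - s))) := by rw [hsplit]; ring
    _ = _ := by rw [h26, hc, hx]; ring

end Pool.MP9acee6
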