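import Pool.Agent.H.MP_9acee6_nt.TwoEst
import Pool.Agent.H.MP_9acee6_nt.TwoCoef
import Pool.Agent.H.MP_9acee6_nt.Omega
import Pool.Agent.H.MP_9acee6_nt.BaseExp
import Pool.Agent.H.MP_9acee6_nt.Lift

/-!
# `p = 2`, `m` even: the representation of `s(kn) - s(n)`
-/

set_option autoImplicit false

open Polynomial Finset

namespace Pool.MP9acee6

variable {a k m : ℕ}

theorem twopsi_unit (n : ℕ) (h : n % 2 = 1) : IsUnit ((n : ℕ) : ℤ_[2]) := by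
  rw [PadicInt.isUnit_iff]
  have h2 : ¬ (2 : ℕ) ∣ n := by omega
  have := (PadicInt.norm_natCast_lt_one_iff (p := 2) (n := n)).not.mpr h2
  have h3 := PadicInt.norm_le_one ((n : ℕ) : ℤ_[2])
  exact le_antisymm h3 (not_lt.mp this)

theorem twopsi_br_smul {k m : ℕ} (D : Sys k m) (c : ℤ_[2]) (φ : ℕ → ℤ_[2]) (N : ℕ) :
    D.br (fun y => c * φ y) N = c * D.br φ N := by
  unfold Sys.br
  rw [Finset.mul_sum]
  refine Finset.sum_congr rfl fun y _ => ?_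
  ring

theorem twopsi_bk_smul {k m : ℕ} (D : Sys k m) (c : ℤ_[2]) (φ : ℕ → ℤ_[2]) (b N : ℕ) :
    D.bk (fun y => c * φ y) b N = c * D.bk φ b N := by
  unfold Sys.bk
  rw [Finset.mul_sum]
  refine Finset.sum_congr rfl fun y _ => ?_
  ring

theorem twopsi_odd_sq (n : ℕ) (h : n % 2 = 1) : ∃ z : ℤ_[2], (n : ℤ_[2]) ^ 2 - 1 = 8 * z := by
  obtain ⟨q, hq⟩ : ∃ q, n = 2 * q + 1 := ⟨n / 2, by omega⟩
  obtain ⟨w, hw⟩ := Nat.even_mul_succ_self q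
  refine ⟨(w : ℤ_[2]), ?_⟩
  have h1 : ((q * (q + 1) : ℕ) : ℤ_[2]) = ((w + w : ℕ) : ℤ_[2]) := by
    rw [← hw]
  push_cast at h1
  rw [hq]
  push_cast
  linear_combination 4 * h1

theorem two_psi (hk : k = 2 ^ a) (ha : 2 ≤ a) (hm : 1 ≤ m) (v m' : ℕ) (hv : 1 ≤ v)
    (hmv : m = 2 ^ v * m') (hm' : m' % 2 = 1) (D : Sys k m) :
    ∃ (A B : ℤ_[2]) (R : ℤ_[2][X]),
      D.Rep 1 ((m : ℤ_[2]) * 2 ^ (v + 1))
        (C A + C B * (X - 1) * (X + C ((k * m + 1 : ℕ) : ℤ_[2])) + C 8 * R) ∧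
      (8 : ℤ_[2]) ∣ A - (m' : ℤ_[2]) ∧ (2 : ℤ_[2]) ∣ B ∧ (v = 1 → (8 : ℤ_[2]) ∣ B) ∧
      (2 ≤ v → (8 : ℤ_[2]) ∣ B + 2 * (m' : ℤ_[2])) := by
  -- arithmetic facts on `k`, `m`
  obtain ⟨k₀, hk₀⟩ : ∃ k₀, k = 4 * k₀ := by
    obtain ⟨c, hc⟩ := Nat.exists_eq_add_of_le ha
    exact ⟨2 ^ c, by rw [hk, hc, pow_add]; norm_num⟩
  obtain ⟨v₀, hv₀⟩ : ∃ v₀, v = v₀ + 1 := ⟨v - 1, by omega⟩
  -- `h = m / 2`
  obtain ⟨h, hh⟩ : ∃ h, h = 2 ^ v₀ * m' := ⟨_, rfl⟩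
  have hmh : m = 2 * h := by rw [hmv, hv₀, hh, pow_succ]; ring
  have hme : Even m := ⟨h, by omega⟩
  have hval : padicValNat 2 m = v := by
    rw [hmv, padicValNat.mul (by positivity) (by omega), padicValNat.prime_pow,
      padicValNat.eq_zero_of_not_dvd (by omega), add_zero]
  obtain ⟨e, d, hd, he, he'⟩ := exists_e (p := 2) hk (by omega : 1 ≤ a) hm (Or.inr hme)
  have hk0 : 0 < k := by rw [hk]; positivity
  obtain ⟨⟨x₁, hx₁⟩, ⟨x₂, hx₂⟩⟩ := two_coeffs hk ha hm hme e d hd he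
    (by exact_mod_cast he')
  -- casts
  have hkm : ((k * m : ℕ) : ℤ_[2]) = 8 * ((k₀ * h : ℕ) : ℤ_[2]) := by
    rw [hk₀, hmh]; push_cast; ring
  have hmh' : (m : ℤ_[2]) = 2 * (h : ℤ_[2]) := by rw [hmh]; push_cast; ring
  have hmv' : (m : ℤ_[2]) = 2 ^ v * (m' : ℤ_[2]) := by
    conv_lhs => rw [hmv]
    push_cast; ring
  -- units
  have hu1 : IsUnit ((k * m + 1 : ℕ) : ℤ_[2]) := by
    apply twopsi_unit; rw [hk₀]
    have : (4 * k₀ * m) = 2 * (2 * k₀ * m) := by ring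
    omega
  have hu3 : IsUnit ((k * m + 3 : ℕ) : ℤ_[2]) := by
    apply twopsi_unit; rw [hk₀]
    have : (4 * k₀ * m) = 2 * (2 * k₀ * m) := by ring
    omega
  have hu2 : IsUnit ((2 * k₀ * m + 1 : ℕ) : ℤ_[2]) := by
    apply twopsi_unit
    have : (2 * k₀ * m) = 2 * (k₀ * m) := by ring
    omega
  have hu4 : IsUnit ((3 : ℕ) : ℤ_[2]) := twopsi_unit 3 (by norm_num)
  obtain ⟨w1, hw1⟩ := hu1.exists_right_inv
  obtain ⟨w2, hw2⟩ := hu2.exists_right_inv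
  obtain ⟨w3, hw3⟩ := hu3.exists_right_inv
  obtain ⟨w4, hw4⟩ := hu4.exists_right_inv
  set c : ℕ → ℤ_[2] := fun i => e (i + 1) * (2 : ℤ_[2]) ^ (2 * (i + 1)) with hc
  set K1 : ℤ_[2] := ((k * m + 1 : ℕ) : ℤ_[2]) with hK1
  set K2 : ℤ_[2] := ((2 * k₀ * m + 1 : ℕ) : ℤ_[2]) with hK2
  set K3 : ℤ_[2] := ((k * m + 3 : ℕ) : ℤ_[2]) with hK3
  have hc0 : c 0 = e 1 * 2 ^ 2 := by simp [hc]
  have hc1 : c 1 = e 2 * 2 ^ 4 := by simp [hc]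
  -- the numbers
  set A : ℤ_[2] := (m' : ℤ_[2]) * (1 + 8 * x₁) * w1 with hA
  set B : ℤ_[2] := (m' : ℤ_[2]) * (2 * ((h : ℤ_[2]) ^ 2 - 1) + 8 * x₂ * ((h : ℤ_[2]) + 1)) *
    (w1 * w2 * w3 * w4) with hB
  have h5 : K1 * K2 * K3 * 3 * B = (m' : ℤ_[2]) * (2 * ((h : ℤ_[2]) ^ 2 - 1) +
      8 * x₂ * ((h : ℤ_[2]) + 1)) := by
    rw [hB]
    have hw4' : (3 : ℤ_[2]) * w4 = 1 := by exact_mod_cast hw4
    calc K1 * K2 * K3 * 3 * ((m' : ℤ_[2]) * (2 * ((h : ℤ_[2]) ^ 2 - 1) +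
      8 * x₂ * ((h : ℤ_[2]) + 1)) * (w1 * w2 * w3 * w4)) =
        ((m' : ℤ_[2]) * (2 * ((h : ℤ_[2]) ^ 2 - 1) +
      8 * x₂ * ((h : ℤ_[2]) + 1))) * (K1 * w1) * (K2 * w2) * (K3 * w3) * (3 * w4) := by ring
      _ = _ := by rw [hw1, hw2, hw3, hw4']; ring
  have hr : ((k * m + 1 : ℕ) : ℤ_[2]) * (2 ^ (v + 1) * A) =
      ((m + 1 : ℕ) : ℤ_[2]) * (c 0 + c 1 * ((m + 1 : ℕ) : ℤ_[2])) := by
    rw [hc0, hc1]
    have h1 : ((m + 1 : ℕ) : ℤ_[2]) * (e 1 * 2 ^ 2 + e 2 * 2 ^ 4 * ((m + 1 : ℕ) : ℤ_[2])) =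
        2 * (m : ℤ_[2]) + 16 * (m : ℤ_[2]) * x₁ := by
      rw [← hx₁]; push_cast; ring
    rw [h1, hA]
    rw [← hK1]
    linear_combination (2 ^ (v + 1) * ((m' : ℤ_[2]) * (1 + 8 * x₁))) * hw1 -
      (2 * (1 + 8 * x₁)) * hmv'
  have hu : ((k * m + 1).ascFactorial 3 : ℤ_[2]) * (2 ^ (v + 1) * B) =
      c 1 * ((m + 1).ascFactorial 3 : ℤ_[2]) := by
    have h1 : ((k * m + 1).ascFactorial 3 : ℕ) = (k * m + 1) * (2 * (2 * k₀ * m + 1)) *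
        (k * m + 3) := by
      simp only [Nat.ascFactorial_succ, Nat.ascFactorial_zero]
      rw [hk₀]; ring
    have h2 : ((m + 1).ascFactorial 3 : ℕ) = (m + 1) * (2 * (h + 1)) * (m + 3) := by
      simp only [Nat.ascFactorial_succ, Nat.ascFactorial_zero]
      rw [hmh]; ring
    have h1' : ((k * m + 1).ascFactorial 3 : ℤ_[2]) = K1 * (2 * K2) * K3 := by
      rw [hK1, hK2, hK3]
      exact_mod_cast congrArg (fun n : ℕ => (n : ℤ_[2])) h1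
    have h2' : ((m + 1).ascFactorial 3 : ℤ_[2]) =
        ((m : ℤ_[2]) + 1) * (2 * ((h : ℤ_[2]) + 1)) * ((m : ℤ_[2]) + 3) := by
      exact_mod_cast congrArg (fun n : ℕ => (n : ℤ_[2])) h2
    rw [h1', h2', hc1]
    -- multiply by 3
    have h3 : (3 : ℤ_[2]) * (K1 * (2 * K2) * K3 * (2 ^ (v + 1) * B)) =
        3 * (e 2 * 2 ^ 4 * (((m : ℤ_[2]) + 1) * (2 * ((h : ℤ_[2]) + 1)) * ((m : ℤ_[2]) + 3))) := by
      have h4 : (3 : ℤ_[2]) * (e 2 * 2 ^ 4 * (((m : ℤ_[2]) + 1) * (2 * ((h : ℤ_[2]) + 1)) *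
          ((m : ℤ_[2]) + 3))) = 2 * ((h : ℤ_[2]) + 1) *
            (2 * (m : ℤ_[2]) * ((m : ℤ_[2]) - 2) + 16 * (m : ℤ_[2]) * x₂) := by
        rw [← hx₂]; ring
      rw [h4]
      calc (3 : ℤ_[2]) * (K1 * (2 * K2) * K3 * (2 ^ (v + 1) * B)) =
          2 * 2 ^ (v + 1) * (K1 * K2 * K3 * 3 * B) := by ring
        _ = 4 * (2 ^ v * (m' : ℤ_[2])) * (2 * ((h : ℤ_[2]) ^ 2 - 1) +
          8 * x₂ * ((h : ℤ_[2]) + 1)) := by rw [h5]; ring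
        _ = _ := by rw [← hmv', hmh']; ring
    have h30 : (3 : ℤ_[2]) ≠ 0 := by norm_num
    exact mul_left_cancel₀ h30 h3
  obtain ⟨R, hR⟩ := base_rep2 (p := 2) D c d (v + 4) hd (fun i hi hid J h1 hJ => by
      have := two_estimate hk ha hm hme e he i hi J h1 hJ
      rw [hval] at this
      exact this) (2 ^ (v + 1) * A) (2 ^ (v + 1) * B) hr hu
  have hunit : IsUnit (K1 * K2 * K3 * 3) := by
    refine ((hu1.mul hu2).mul hu3).mul ?_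
    exact_mod_cast hu4
  have hB1 : v = 1 → (8 : ℤ_[2]) ∣ B := by
    intro hv1
    have hv00 : v₀ = 0 := by omega
    have hhm : h = m' := by rw [hh, hv00]; simp
    obtain ⟨z, hz⟩ := twopsi_odd_sq h (by omega)
    refine (hunit.dvd_mul_left).mp ⟨(m' : ℤ_[2]) * (2 * z + x₂ * ((h : ℤ_[2]) + 1)), ?_⟩
    rw [h5, hz]; ring
  have hB2 : 2 ≤ v → (8 : ℤ_[2]) ∣ B + 2 * (m' : ℤ_[2]) := by
    intro hv2
    obtain ⟨v₁, hv₁⟩ : ∃ v₁, v₀ = v₁ + 1 := ⟨v₀ - 1, by omega⟩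
    obtain ⟨t, ht⟩ : ∃ t, t = 2 ^ v₁ * m' := ⟨_, rfl⟩
    have hht : h = 2 * t := by rw [hh, hv₁, ht, pow_succ]; ring
    have hht' : (h : ℤ_[2]) = 2 * (t : ℤ_[2]) := by rw [hht]; push_cast; ring
    have e1 : K1 = 1 + 16 * ((k₀ : ℤ_[2]) * t) := by
      rw [hK1, hk₀, hmh, hht]; push_cast; ring
    have e2 : K2 = 1 + 8 * ((k₀ : ℤ_[2]) * t) := by
      rw [hK2, hmh, hht]; push_cast; ring
    have e3 : K3 = 3 + 16 * ((k₀ : ℤ_[2]) * t) := by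
      rw [hK3, hk₀, hmh, hht]; push_cast; ring
    have h6 : K1 * K2 * K3 * 3 * (B + 2 * (m' : ℤ_[2])) =
        (m' : ℤ_[2]) * (2 * ((h : ℤ_[2]) ^ 2 - 1) + 8 * x₂ * ((h : ℤ_[2]) + 1)) +
        2 * (m' : ℤ_[2]) * (K1 * K2 * K3 * 3) := by rw [← h5]; ring
    refine (hunit.dvd_mul_left).mp ?_
    rw [h6, e1, e2, e3, hht']
    exact ⟨(m' : ℤ_[2]) * ((t : ℤ_[2]) ^ 2 + x₂ * (2 * (t : ℤ_[2]) + 1) + 2 +
      66 * ((k₀ : ℤ_[2]) * t) + 576 * ((k₀ : ℤ_[2]) * t) ^ 2 +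
      1536 * ((k₀ : ℤ_[2]) * t) ^ 3), by ring⟩
  have hB3 : (2 : ℤ_[2]) ∣ B := by
    rcases Nat.lt_or_ge 1 v with h1 | h1
    · obtain ⟨q, hq⟩ := hB2 h1
      exact ⟨4 * q - m', by linear_combination hq⟩
    · obtain ⟨q, hq⟩ := hB1 (by omega)
      exact ⟨4 * q, by linear_combination hq⟩
  refine ⟨A, B, R, ?_, ?_, hB3, hB1, hB2⟩
  · intro b N hb
    rw [pow_one, diff_br hm hk0 e d (by exact_mod_cast he') D (b + k * N), twopsi_br_smul]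
    have h1 := hR b N hb
    simp only [hc] at h1
    have h2 : D.br (fun y => (y : ℤ_[2]) * ∑ i ∈ range d, e (i + 1) * ((2 : ℕ) : ℤ_[2]) ^ (2 * (i + 1)) *
          ((y : ℤ_[2]) * ((m : ℤ_[2]) + (y : ℤ_[2]))) ^ i) (b + k * N) =
        D.bk (fun y => 2 ^ (v + 1) * ((y : ℤ_[2]) * (C A + C B * (X - 1) *
          (X + C ((k * m + 1 : ℕ) : ℤ_[2])) + C 8 * R).eval (y : ℤ_[2]))) b N := by
      refine Eq.trans (by push_cast; exact h1) ?_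
      congr 1
      funext y
      simp only [eval_add, eval_mul, eval_sub, eval_X, eval_C, eval_one]
      push_cast
      ring
    rw [h2, twopsi_bk_smul, twopsi_bk_smul]
    ring
  · -- 8 ∣ A - m'
    have h1 : K1 * (A - (m' : ℤ_[2])) = 8 * (x₁ * m' - m' * ((k₀ * h : ℕ) : ℤ_[2])) := by
      have hK1' : K1 = 8 * ((k₀ * h : ℕ) : ℤ_[2]) + 1 := by
        rw [hK1, ← hkm]; push_cast; ring
      have h2 : K1 * A = (m' : ℤ_[2]) * (1 + 8 * x₁) := by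
        rw [hA]
        linear_combination ((m' : ℤ_[2]) * (1 + 8 * x₁)) * hw1
      linear_combination h2 - (m' : ℤ_[2]) * hK1'
    exact (hu1.dvd_mul_left).mp ⟨_, h1⟩

end Pool.MP9acee6
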