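import Pool.Agent.H.MP_9acee6_nt.TwoPsi

/-!
# `p = 2`, `m` even: the representation of `s(k^i n) - s(n)`
-/

set_option autoImplicit false

open Polynomial Finset

namespace Pool.MP9acee6

variable {a k m : ℕ}

/-- one step for `k = 4` -/
theorem tworep_step (hk : k = 2 ^ a) (ha : a = 2) (hm : 1 ≤ m) (v m' : ℕ) (hv : 1 ≤ v)
    (hmv : m = 2 ^ v * m') (hm' : m' % 2 = 1) (D : Sys k m) (i : ℕ)
    (A₁ B₁ : ℤ_[2]) (R₁ : ℤ_[2][X])
    (h1 : D.Rep 1 ((m : ℤ_[2]) * 2 ^ (v + 1))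
        (C A₁ + C B₁ * (X - 1) * (X + C ((k * m + 1 : ℕ) : ℤ_[2])) + C 8 * R₁))
    (A B : ℤ_[2]) (R : ℤ_[2][X])
    (hi : D.Rep i ((m : ℤ_[2]) * 2 ^ (v + 1))
        (C A + C B * (X - 1) * (X + C ((k * m + 1 : ℕ) : ℤ_[2])) + C 8 * R))
    (hA : (2 : ℤ_[2]) ∣ A - 1) (hB : (2 : ℤ_[2]) ∣ B) :
    ∃ (r : ℤ_[2]) (R' : ℤ_[2][X]), (2 : ℤ_[2]) ∣ r - 1 ∧
      D.Rep (i + 1) ((m : ℤ_[2]) * 2 ^ (v + 1))
        (C (A₁ + 4 * r) + C B₁ * (X - 1) * (X + C ((k * m + 1 : ℕ) : ℤ_[2])) + C 8 * R') := by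
  have hk0 : 0 < k := by rw [hk]; exact pow_pos (by norm_num) a
  obtain ⟨P0, hP0, -, hP⟩ := exists_P (p := 2) (a := a) (k := k) (m := m) hk (by omega) 0 hk0
  have hP0' : P0.eval 0 = 1 := by
    rw [hP0, add_zero, Nat.choose_self, Nat.cast_one]
  obtain ⟨r, R', hr, hR'⟩ := D.rep_step hk (by omega) P0
      (fun y => by have := hP y; rwa [add_zero] at this) _ _ _ h1 i hi
  refine ⟨r, R₁ + R', ?_, ?_⟩
  · obtain ⟨s1, hs1⟩ := P0.sub_dvd_eval_sub (2 : ℤ_[2]) 0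
    rw [hP0', sub_zero] at hs1
    obtain ⟨tA, htA⟩ := hA
    obtain ⟨tB, htB⟩ := hB
    have hk4 : (k : ℤ_[2]) = 4 := by
      rw [hk, ha]; norm_num
    obtain ⟨m2, hm2⟩ : ∃ m2 : ℕ, m = 2 * m2 := by
      refine ⟨2 ^ (v - 1) * m', ?_⟩
      rw [hmv, ← mul_assoc, ← pow_succ']
      congr 2
      omega
    have hmc : (m : ℤ_[2]) = 2 * (m2 : ℤ_[2]) := by rw [hm2]; push_cast; ring
    have e1 : P0.eval (2 : ℤ_[2]) = 1 + 2 * s1 := by linear_combination hs1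
    simp only [eval_add, eval_mul, eval_C, eval_sub, eval_X, eval_one] at hr
    push_cast at hr
    rw [e1, hk4, hmc] at hr
    have eA : A = 1 + 2 * tA := by linear_combination htA
    rw [eA, htB] at hr
    generalize eval (4 : ℤ_[2]) R = z at hr
    refine ⟨(s1 + m2 + 2 * s1 * m2) * (1 + 2 * tA + 2 * tB * (4 - 1) * (4 + (4 * (2 * m2) + 1)) + 8 * z)
      + (tA + tB * (4 - 1) * (4 + (4 * (2 * m2) + 1)) + 4 * z) - 4 * m2 * r, ?_⟩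
    linear_combination hr
  · have e2 : C (A₁ + 4 * r) + C B₁ * (X - 1) * (X + C ((k * m + 1 : ℕ) : ℤ_[2])) +
        C 8 * (R₁ + R') =
        C A₁ + C B₁ * (X - 1) * (X + C ((k * m + 1 : ℕ) : ℤ_[2])) + C 8 * R₁ +
          C (k : ℤ_[2]) * (C r + C ((2 : ℕ) : ℤ_[2]) * R') := by
      have hk4 : (k : ℤ_[2]) = 4 := by
        rw [hk, ha]; norm_num
      have h8 : (C (8 : ℤ_[2]) : ℤ_[2][X]) = C 4 * C 2 := by
        rw [← C_mul]; norm_num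
      have h2 : (((2 : ℕ) : ℤ_[2])) = 2 := by norm_num
      rw [hk4, h2, h8, C_add, C_mul]
      ring
    rw [e2]
    exact hR'

/-- for all `i ≥ 1`: the representation of `s(k^i n) - s(n)` -/
theorem two_rep (hk : k = 2 ^ a) (ha : 2 ≤ a) (hm : 1 ≤ m) (v m' : ℕ) (hv : 1 ≤ v)
    (hmv : m = 2 ^ v * m') (hm' : m' % 2 = 1) (D : Sys k m) (i : ℕ) (hi : 1 ≤ i) :
    ∃ (A B : ℤ_[2]) (R : ℤ_[2][X]),
      D.Rep i ((m : ℤ_[2]) * 2 ^ (v + 1))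
        (C A + C B * (X - 1) * (X + C ((k * m + 1 : ℕ) : ℤ_[2])) + C 8 * R) ∧
      (8 : ℤ_[2]) ∣ A - (m' : ℤ_[2]) - (if a = 2 ∧ 2 ≤ i then 4 else 0) ∧
      (2 : ℤ_[2]) ∣ B ∧ (v = 1 → (8 : ℤ_[2]) ∣ B) ∧
      (2 ≤ v → (8 : ℤ_[2]) ∣ B + 2 * (m' : ℤ_[2])) := by
  obtain ⟨A₁, B₁, R₁, h1, hA₁, hB₁, hB1, hB2⟩ := two_psi hk ha hm v m' hv hmv hm' D
  by_cases ha3 : 3 ≤ a
  · obtain ⟨R', hR'⟩ := D.rep_all hk ha _ _ h1 i hi
    refine ⟨A₁, B₁, R₁ + C ((2 ^ (a - 3) : ℕ) : ℤ_[2]) * R', ?_, ?_, hB₁, hB1, hB2⟩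
    · have hk8 : (k : ℤ_[2]) = 8 * ((2 ^ (a - 3) : ℕ) : ℤ_[2]) := by
        have : k = 8 * 2 ^ (a - 3) := by
          rw [hk, show (8 : ℕ) = 2 ^ 3 by norm_num, ← pow_add]
          congr 1
          omega
        rw [this]
        push_cast
        ring
      have e2 : C A₁ + C B₁ * (X - 1) * (X + C ((k * m + 1 : ℕ) : ℤ_[2])) +
          C 8 * (R₁ + C ((2 ^ (a - 3) : ℕ) : ℤ_[2]) * R') =
          C A₁ + C B₁ * (X - 1) * (X + C ((k * m + 1 : ℕ) : ℤ_[2])) + C 8 * R₁ +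
            C (k : ℤ_[2]) * R' := by
        rw [hk8, C_mul]
        ring
      rw [e2]
      exact hR'
    · rw [if_neg (by omega), sub_zero]
      exact hA₁
  · have ha2 : a = 2 := by omega
    have hm'c : ∃ t : ℤ_[2], (m' : ℤ_[2]) = 1 + 2 * t := by
      refine ⟨((m' / 2 : ℕ) : ℤ_[2]), ?_⟩
      have : m' = 1 + 2 * (m' / 2) := by omega
      conv_lhs => rw [this]
      push_cast
      ring
    obtain ⟨t, ht⟩ := hm'c
    induction i, hi using Nat.le_induction with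
    | base =>
      refine ⟨A₁, B₁, R₁, h1, ?_, hB₁, hB1, hB2⟩
      rw [if_neg (by omega), sub_zero]
      exact hA₁
    | succ i hi ih =>
      obtain ⟨A, B, R, hR, hA, hB, -, -⟩ := ih
      have hA1 : (2 : ℤ_[2]) ∣ A - 1 := by
        obtain ⟨w, hw⟩ := hA
        split_ifs at hw
        · exact ⟨t + 2 + 4 * w, by linear_combination hw + ht⟩
        · exact ⟨t + 4 * w, by linear_combination hw + ht⟩
      obtain ⟨r, R', hr, hR'⟩ := tworep_step hk ha2 hm v m' hv hmv hm' D i A₁ B₁ R₁ h1 A B R hR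
        hA1 hB
      refine ⟨A₁ + 4 * r, B₁, R', hR', ?_, hB₁, hB1, hB2⟩
      rw [if_pos ⟨ha2, by omega⟩]
      obtain ⟨w, hw⟩ := hA₁
      obtain ⟨q, hq⟩ := hr
      exact ⟨w + q, by linear_combination hw + 4 * hq⟩

end Pool.MP9acee6
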